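import Pool.Agent.H.MP_b3c6db_nt.SB.CirA

/-! Circle method for the sharp bound: separation and conclusion. -/

namespace Pool.Agent.H.MP_b3c6db_nt

open Finset Complex ArithmeticFunction

/-- Separation. PROOF: `r₁/d₁²` and `r₂/d₂²` are both integer multiples of
`1/(den r₁ den r₂ Lm²)`; they differ by at most `2 B/X² < 1/(B² Lm²)`. -/
lemma separation (X B : ℝ) (hX : 0 < X) (hB : 1 ≤ B) (d₁ d₂ Lm : ℕ) (h1 : 1 ≤ d₁) (h2 : 1 ≤ d₂)
    (h1Lm : d₁ ∣ Lm) (h2Lm : d₂ ∣ Lm) (hLm : Lm ≠ 0) (hsep : 2 * B ^ 3 * (Lm : ℝ) ^ 2 < X ^ 2) (x : ℝ)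
    (r₁ r₂ : ℚ) (hr1 : (r₁.den : ℝ) ≤ B) (hr2 : (r₂.den : ℝ) ≤ B)
    (hx1 : |(d₁ : ℝ) ^ 2 * x - r₁| * (X / d₁) ^ 2 ≤ B)
    (hx2 : |(d₂ : ℝ) ^ 2 * x - r₂| * (X / d₂) ^ 2 ≤ B) :
    r₁ / (d₁ : ℚ) ^ 2 = r₂ / (d₂ : ℚ) ^ 2 := by
  obtain ⟨e₁, he₁⟩ := h1Lm
  obtain ⟨e₂, he₂⟩ := h2Lm
  have hd1 : (0 : ℝ) < d₁ := by exact_mod_cast h1
  have hd2 : (0 : ℝ) < d₂ := by exact_mod_cast h2
  have hL : (0 : ℝ) < Lm := by exact_mod_cast Nat.pos_of_ne_zero hLm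
  have hB0 : (0 : ℝ) < B := by linarith
  have key : ∀ (d : ℕ) (r : ℚ), (0 : ℝ) < d → |(d : ℝ) ^ 2 * x - r| * (X / d) ^ 2 ≤ B →
      |x - (r : ℝ) / (d : ℝ) ^ 2| * X ^ 2 ≤ B := by
    intro d r hd h
    have e : (d : ℝ) ^ 2 * x - r = (d : ℝ) ^ 2 * (x - (r : ℝ) / (d : ℝ) ^ 2) := by
      field_simp
    rw [e, abs_mul, abs_of_pos (by positivity : (0 : ℝ) < (d : ℝ) ^ 2)] at h
    have e2 : (d : ℝ) ^ 2 * |x - (r : ℝ) / (d : ℝ) ^ 2| * (X / d) ^ 2 =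
        |x - (r : ℝ) / (d : ℝ) ^ 2| * X ^ 2 := by
      field_simp
    rwa [e2] at h
  have k1 := key d₁ r₁ hd1 hx1
  have k2 := key d₂ r₂ hd2 hx2
  set q₁ : ℝ := (r₁ : ℝ) / (d₁ : ℝ) ^ 2 with hq₁
  set q₂ : ℝ := (r₂ : ℝ) / (d₂ : ℝ) ^ 2 with hq₂
  have h3 : |q₁ - q₂| * X ^ 2 ≤ 2 * B := by
    have h4 : |q₁ - q₂| ≤ |x - q₁| + |x - q₂| := by
      have e : q₁ - q₂ = (x - q₂) - (x - q₁) := by ring
      rw [e]
      have := abs_sub (x - q₂) (x - q₁)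
      linarith
    have h5 : |q₁ - q₂| * X ^ 2 ≤ (|x - q₁| + |x - q₂|) * X ^ 2 :=
      mul_le_mul_of_nonneg_right h4 (by positivity)
    linarith
  have hn1 : (0 : ℝ) < r₁.den := by exact_mod_cast r₁.den_pos
  have hn2 : (0 : ℝ) < r₂.den := by exact_mod_cast r₂.den_pos
  have f1 : (r₁ : ℝ) * (r₁.den : ℝ) = (r₁.num : ℝ) := rat_mul_den r₁
  have f2 : (r₂ : ℝ) * (r₂.den : ℝ) = (r₂.num : ℝ) := rat_mul_den r₂
  have g1 : (Lm : ℝ) = d₁ * e₁ := by exact_mod_cast he₁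
  have g2 : (Lm : ℝ) = d₂ * e₂ := by exact_mod_cast he₂
  set k : ℤ := r₁.num * r₂.den * (e₁ : ℤ) ^ 2 - r₂.num * r₁.den * (e₂ : ℤ) ^ 2 with hk
  have hkr : (q₁ - q₂) * (r₁.den * r₂.den * (Lm : ℝ) ^ 2) = (k : ℝ) := by
    have a1 : q₁ * (r₁.den * r₂.den * (Lm : ℝ) ^ 2) = r₁.num * r₂.den * (e₁ : ℝ) ^ 2 := by
      rw [hq₁, g1, ← f1]
      field_simp
    have a2 : q₂ * (r₁.den * r₂.den * (Lm : ℝ) ^ 2) = r₂.num * r₁.den * (e₂ : ℝ) ^ 2 := by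
      rw [hq₂, g2, ← f2]
      field_simp
    rw [sub_mul, a1, a2, hk]
    push_cast
    ring
  have hk0 : k = 0 := by
    by_contra hne
    have h6 : (1 : ℝ) ≤ |(k : ℝ)| := by
      rw [← Int.cast_abs]
      exact_mod_cast Int.one_le_abs hne
    rw [← hkr, abs_mul, abs_of_pos (by positivity :
      (0 : ℝ) < r₁.den * r₂.den * (Lm : ℝ) ^ 2)] at h6
    have h7 : (r₁.den : ℝ) * r₂.den * (Lm : ℝ) ^ 2 ≤ B * B * (Lm : ℝ) ^ 2 :=
      mul_le_mul_of_nonneg_right (mul_le_mul hr1 hr2 hn2.le hB0.le) (by positivity)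
    have h8 : 1 ≤ |q₁ - q₂| * (B * B * (Lm : ℝ) ^ 2) :=
      h6.trans (mul_le_mul_of_nonneg_left h7 (abs_nonneg _))
    have h9 : X ^ 2 ≤ |q₁ - q₂| * (B * B * (Lm : ℝ) ^ 2) * X ^ 2 := by
      have := mul_le_mul_of_nonneg_right h8 (by positivity : (0 : ℝ) ≤ X ^ 2)
      linarith
    have h10 : |q₁ - q₂| * (B * B * (Lm : ℝ) ^ 2) * X ^ 2 ≤ 2 * B * (B * B * (Lm : ℝ) ^ 2) := by
      have := mul_le_mul_of_nonneg_right h3 (by positivity : (0 : ℝ) ≤ B * B * (Lm : ℝ) ^ 2)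
      linarith
    have h11 : 2 * B * (B * B * (Lm : ℝ) ^ 2) = 2 * B ^ 3 * (Lm : ℝ) ^ 2 := by ring
    linarith
  have h12 : q₁ = q₂ := by
    rw [hk0, Int.cast_zero] at hkr
    rcases mul_eq_zero.1 hkr with h | h
    · linarith
    · have : (0 : ℝ) < r₁.den * r₂.den * (Lm : ℝ) ^ 2 := by positivity
      linarith
  rw [hq₁, hq₂] at h12
  exact_mod_cast h12

/-- the total error at one `d`. -/
noncomputable def errC (σ : ℝ) (J : ℕ) (X B D : ℝ) : ℝ :=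
  J * (7 * Real.sqrt (D * Real.exp J / X) + 2 * Real.sqrt (2 / B) +
    (Real.exp ((J : ℝ) / 2) / Real.sqrt B + Real.exp (-(σ * J / 2))))

private lemma cirb_errC_ge {σ : ℝ} {J : ℕ} {X B D : ℝ} (hX : 0 < X) {d : ℝ} (hdD : d ≤ D) :
    J * (7 * Real.sqrt (d * Real.exp J / X)) + 2 * (J * Real.sqrt (2 / B)) +
      J * (Real.exp ((J : ℝ) / 2) / Real.sqrt B + Real.exp (-(σ * J / 2))) ≤ errC σ J X B D := by
  unfold errC
  have h1 : Real.sqrt (d * Real.exp J / X) ≤ Real.sqrt (D * Real.exp J / X) := by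
    refine Real.sqrt_le_sqrt ?_
    exact div_le_div_of_nonneg_right (mul_le_mul_of_nonneg_right hdD (Real.exp_pos _).le) hX.le
  have h2 : (J : ℝ) * (7 * Real.sqrt (d * Real.exp J / X)) ≤
      J * (7 * Real.sqrt (D * Real.exp J / X)) :=
    mul_le_mul_of_nonneg_left (by linarith) (Nat.cast_nonneg J)
  linarith

private lemma cirb_errC_nonneg {σ : ℝ} {J : ℕ} {X B D : ℝ} : 0 ≤ errC σ J X B D := by
  unfold errC
  positivity

private lemma cirb_sum_le (σ : ℝ) (hσ : 0 ≤ σ) (J : ℕ) :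
    ∑ m ∈ range J, Real.exp (-(σ * m)) ≤ J := by
  calc ∑ m ∈ range J, Real.exp (-(σ * m)) ≤ ∑ m ∈ range J, (1 : ℝ) := by
        refine sum_le_sum fun m _ => ?_
        rw [Real.exp_le_one_iff, neg_nonpos]
        positivity
    _ = J := by simp

private lemma cirb_FV_gG (VS : Finset ℕ) (h : ℕ → ℝ) (c : ℂ) (r : ℚ) :
    FV VS h (fun d => c * gG ((d : ℚ) ^ 2 * r)) = c * ∑ v ∈ VS, ((h v : ℝ) : ℂ) * Dlt v r := by
  unfold FV Dlt
  rw [mul_sum]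
  refine sum_congr rfl fun v _ => ?_
  rw [← mul_assoc, mul_comm c, mul_assoc, mul_sum (v.divisors) _ c]
  congr 1
  refine sum_congr rfl fun d _ => ?_
  ring

private lemma cirb_norm_re {a b : ℂ} {c : ℝ} (h : ‖a - b‖ ≤ c) : b.re - c ≤ a.re := by
  have h1 := abs_le.1 ((Complex.abs_re_le_norm (a - b)).trans h)
  rw [Complex.sub_re] at h1
  linarith [h1.1]

/-- PROOF. Call `d ∈ VS` good if some `r'` has `den r' ≤ B`, `|d² x - r'| (X/d)² ≤ B`. No good `d`: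
`ED_bad` and `FV_compare` with `G = 0` (and `Lb ≥ 0`). Otherwise let `d₀` be good, `r = r₀'/d₀²`
(`den r ≤ B D²`), `β = x - r`, `u = β X²`, `|u| ≤ B`. Compare with `G d = KK σ J u · gG (d² r)`:
for good `d`, `separation` gives `r'/d² = r`, so `r' = d² r`, `β' = d² β`, `β' (X/d)² = u`, `ED_good`.
For bad `d`: `ED_bad`, and `den (d² r) > B` (otherwise `d` would be good because
`|d² x - d² r| (X/d)² = |β| X² ≤ B`), so `‖G d‖ ≤ J √(2/B)` (`KK_norm_le`, weights `≤ 1`,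
`norm_gG_le`). Finally `FV VS h G = KK σ J u · ∑ h(v) Dlt v r`, `hloc`. -/
theorem circle_sharp (VS : Finset ℕ) (hcl : ∀ v ∈ VS, ∀ d, d ∣ v → d ∈ VS) (hne : ∀ v ∈ VS, v ≠ 0)
    (h : ℕ → ℝ) (h0 : ∀ v, 0 ≤ h v) (h2 : ∀ v, h v ≤ 2) (σ : ℝ) (hσ : 0 ≤ σ) (J : ℕ)
    (X B D Lb : ℝ) (hX : 0 < X) (hB : 1 ≤ B) (hD : ∀ d ∈ VS, (d : ℝ) ≤ D) (hD1 : 1 ≤ D)
    (hdX : B ^ 2 * D * Real.exp J ≤ X)
    (hsep : ∀ d₁ ∈ VS, ∀ d₂ ∈ VS, ∃ Lm : ℕ, Lm ≠ 0 ∧ d₁ ∣ Lm ∧ d₂ ∣ Lm ∧ 2 * B ^ 3 * (Lm : ℝ) ^ 2 < X ^ 2)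
    (hLb : 0 ≤ Lb)
    (hloc : ∀ r : ℚ, (r.den : ℝ) ≤ B * D ^ 2 → ∀ u : ℝ, |u| ≤ B →
      -Lb ≤ (KK σ J u * ∑ v ∈ VS, ((h v : ℝ) : ℂ) * Dlt v r).re) (x : ℝ) :
    -(Lb + 2 * (VS.card : ℝ) ^ 2 * errC σ J X B D) ≤ (FV VS h (fun d => ED σ J X d x)).re := by
  have hB0 : (0 : ℝ) < B := by linarith
  have hpos : ∀ d ∈ VS, 1 ≤ d := fun d hd => Nat.one_le_iff_ne_zero.2 (hne d hd)
  have hdX' : ∀ d ∈ VS, B ^ 2 * d * Real.exp J ≤ X := by
    intro d hd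
    refine le_trans ?_ hdX
    refine mul_le_mul_of_nonneg_right ?_ (Real.exp_pos _).le
    exact mul_le_mul_of_nonneg_left (hD d hd) (by positivity)
  have hs2 : 0 ≤ (J : ℝ) * Real.sqrt (2 / B) := by positivity
  have hs3 : 0 ≤ (J : ℝ) * (Real.exp ((J : ℝ) / 2) / Real.sqrt B + Real.exp (-(σ * J / 2))) := by
    positivity
  by_cases hgood : ∃ d₀ ∈ VS, ∃ r' : ℚ, (r'.den : ℝ) ≤ B ∧
      |(d₀ : ℝ) ^ 2 * x - r'| * (X / d₀) ^ 2 ≤ B
  · obtain ⟨d₀, hd₀, r₀, hr₀, hx₀⟩ := hgood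
    set r : ℚ := r₀ / (d₀ : ℚ) ^ 2 with hr
    have hd₀' : (0 : ℝ) < d₀ := by exact_mod_cast hpos d₀ hd₀
    set u : ℝ := (x - r) * X ^ 2 with hu
    have hrR : (r : ℝ) = (r₀ : ℝ) / (d₀ : ℝ) ^ 2 := by
      rw [hr]
      push_cast
      ring
    have hu' : |u| ≤ B := by
      rw [hu, abs_mul, abs_of_nonneg (by positivity : (0 : ℝ) ≤ X ^ 2), hrR]
      have e : (d₀ : ℝ) ^ 2 * x - r₀ = (d₀ : ℝ) ^ 2 * (x - (r₀ : ℝ) / (d₀ : ℝ) ^ 2) := by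
        field_simp
      rw [e, abs_mul, abs_of_pos (by positivity : (0 : ℝ) < (d₀ : ℝ) ^ 2)] at hx₀
      have e2 : (d₀ : ℝ) ^ 2 * |x - (r₀ : ℝ) / (d₀ : ℝ) ^ 2| * (X / d₀) ^ 2 =
          |x - (r₀ : ℝ) / (d₀ : ℝ) ^ 2| * X ^ 2 := by
        field_simp
      rwa [e2] at hx₀
    have hrden : (r.den : ℝ) ≤ B * D ^ 2 := by
      have h3 : r.den ∣ r₀.den * d₀ ^ 2 := by
        have h4 : r = r₀ * (1 / (d₀ : ℚ) ^ 2) := by rw [hr]; ring
        have h5 := Rat.mul_den_dvd r₀ (1 / (d₀ : ℚ) ^ 2)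
        rw [← h4] at h5
        have h6 : (1 / (d₀ : ℚ) ^ 2).den = d₀ ^ 2 := by
          have h7 : (1 / (d₀ : ℚ) ^ 2) = ((d₀ ^ 2 : ℕ) : ℚ)⁻¹ := by push_cast; rw [one_div]
          rw [h7, Rat.inv_natCast_den_of_pos (pow_pos (hpos d₀ hd₀) 2)]
        rwa [h6] at h5
      have h8 : r.den ≤ r₀.den * d₀ ^ 2 :=
        Nat.le_of_dvd (Nat.mul_pos r₀.den_pos (pow_pos (hpos d₀ hd₀) 2)) h3
      have h9 : (r.den : ℝ) ≤ r₀.den * (d₀ : ℝ) ^ 2 := by exact_mod_cast h8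
      refine h9.trans (mul_le_mul hr₀ ?_ (by positivity) hB0.le)
      exact pow_le_pow_left₀ hd₀'.le (hD d₀ hd₀) 2
    have hcmp : ∀ d ∈ VS, ‖ED σ J X d x - KK σ J u * gG ((d : ℚ) ^ 2 * r)‖ ≤ errC σ J X B D := by
      intro d hd
      have hd' : (0 : ℝ) < d := by exact_mod_cast hpos d hd
      have herr := cirb_errC_ge (σ := σ) (J := J) (B := B) hX (hD d hd)
      have hbu : ∀ s : ℝ, s = (d : ℝ) ^ 2 * (x - r) → s * (X / d) ^ 2 = u := by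
        intro s hs
        rw [hs, hu]
        field_simp
      by_cases hdg : ∃ r' : ℚ, (r'.den : ℝ) ≤ B ∧ |(d : ℝ) ^ 2 * x - r'| * (X / d) ^ 2 ≤ B
      · obtain ⟨r', hr'1, hr'2⟩ := hdg
        obtain ⟨Lm, hLm0, hLm1, hLm2, hLm3⟩ := hsep d hd d₀ hd₀
        have hsp := separation X B hX hB d d₀ Lm (hpos d hd) (hpos d₀ hd₀) hLm1 hLm2 hLm0 hLm3 x
          r' r₀ hr'1 hr₀ hr'2 hx₀
        have hdq : (d : ℚ) ≠ 0 := by
          have := hpos d hd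
          exact_mod_cast (by omega : d ≠ 0)
        have hr'eq : r' = (d : ℚ) ^ 2 * r := by
          rw [hr, ← hsp]
          field_simp
        have hβ : (d : ℝ) ^ 2 * x = r' + ((d : ℝ) ^ 2 * x - r') := by ring
        have hb2 : |(d : ℝ) ^ 2 * x - r'| * (X / d) ^ 2 ≤ B := hr'2
        have hg := ED_good σ hσ J X B hX hB d (hpos d hd) (hdX' d hd) x r'
          ((d : ℝ) ^ 2 * x - r') hβ hr'1 hb2
        have e : ((d : ℝ) ^ 2 * x - r') * (X / d) ^ 2 = u := by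
          refine hbu _ ?_
          rw [hr'eq]
          push_cast
          ring
        rw [e, hr'eq] at hg
        linarith
      · push Not at hdg
        have hb := ED_bad σ hσ J X B hX hB d (hpos d hd) (hdX' d hd) x hdg
        have hden : B < (((d : ℚ) ^ 2 * r).den : ℝ) := by
          by_contra hcon
          rw [not_lt] at hcon
          have h10 := hdg ((d : ℚ) ^ 2 * r) hcon
          have e : (d : ℝ) ^ 2 * x - (((d : ℚ) ^ 2 * r : ℚ) : ℝ) = (d : ℝ) ^ 2 * (x - r) := by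
            push_cast
            ring
          rw [e] at h10
          have h11 := hbu _ rfl
          have h12 : |(d : ℝ) ^ 2 * (x - r)| * (X / d) ^ 2 = |u| := by
            rw [← h11, abs_mul ((d : ℝ) ^ 2 * (x - r)) ((X / d) ^ 2),
              abs_of_nonneg (by positivity : (0 : ℝ) ≤ (X / d) ^ 2)]
          rw [h12] at h10
          linarith
        have hG : ‖KK σ J u * gG ((d : ℚ) ^ 2 * r)‖ ≤ J * Real.sqrt (2 / B) := by
          rw [norm_mul]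
          refine mul_le_mul ((KK_norm_le σ J u).trans (cirb_sum_le σ hσ J)) ?_ (norm_nonneg _)
            (Nat.cast_nonneg J)
          refine (norm_gG_le _).trans (Real.sqrt_le_sqrt ?_)
          exact div_le_div_of_nonneg_left (by norm_num) hB0 hden.le
        calc ‖ED σ J X d x - KK σ J u * gG ((d : ℚ) ^ 2 * r)‖
            ≤ ‖ED σ J X d x‖ + ‖KK σ J u * gG ((d : ℚ) ^ 2 * r)‖ := norm_sub_le _ _
          _ ≤ errC σ J X B D := by linarith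
    have hF := FV_compare VS hcl h h0 h2 (fun d => ED σ J X d x)
      (fun d => KK σ J u * gG ((d : ℚ) ^ 2 * r)) (errC σ J X B D) cirb_errC_nonneg hcmp
    rw [cirb_FV_gG] at hF
    have h13 := cirb_norm_re hF
    have h14 := hloc r hrden u hu'
    linarith
  · push Not at hgood
    have hcmp : ∀ d ∈ VS, ‖ED σ J X d x - 0‖ ≤ errC σ J X B D := by
      intro d hd
      have herr := cirb_errC_ge (σ := σ) (J := J) (B := B) hX (hD d hd)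
      have hb := ED_bad σ hσ J X B hX hB d (hpos d hd) (hdX' d hd) x (hgood d hd)
      rw [sub_zero]
      linarith
    have hF := FV_compare VS hcl h h0 h2 (fun d => ED σ J X d x) (fun _ => 0) (errC σ J X B D)
      cirb_errC_nonneg hcmp
    have h15 : FV VS h (fun _ => 0) = 0 := by
      unfold FV
      simp
    rw [h15] at hF
    have h13 := cirb_norm_re hF
    rw [Complex.zero_re] at h13
    linarith

/-- At `x = 0`: PROOF: `ED_good` with `r' = 0`, `β' = 0` for every `d`, `FV_compare` with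
`G d = KK σ J 0 · gG 0`, and `∑_v h(v) Dlt v 0 = h 1` (`Dlt_zero` of Trunc.lean is not imported here:
`∑_{d ∣ v} μ(v/d) = 0` for `v > 1`), `KK σ J 0 = ∑ e^{-σ m} ≥ 1` for `J ≥ 1`. -/
theorem circle_zero (VS : Finset ℕ) (hcl : ∀ v ∈ VS, ∀ d, d ∣ v → d ∈ VS) (hne : ∀ v ∈ VS, v ≠ 0)
    (h1 : 1 ∈ VS) (h : ℕ → ℝ) (h0 : ∀ v, 0 ≤ h v) (h2 : ∀ v, h v ≤ 2) (hh1 : 1 ≤ h 1) (σ : ℝ)
    (hσ : 0 ≤ σ) (J : ℕ) (hJ : 1 ≤ J) (X B D : ℝ) (hX : 0 < X) (hB : 1 ≤ B)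
    (hD : ∀ d ∈ VS, (d : ℝ) ≤ D) (hD1 : 1 ≤ D) (hdX : B ^ 2 * D * Real.exp J ≤ X) :
    1 - 2 * (VS.card : ℝ) ^ 2 * errC σ J X B D ≤ (FV VS h (fun d => ED σ J X d 0)).re := by
  have hpos : ∀ d ∈ VS, 1 ≤ d := fun d hd => Nat.one_le_iff_ne_zero.2 (hne d hd)
  have hdX' : ∀ d ∈ VS, B ^ 2 * d * Real.exp J ≤ X := by
    intro d hd
    refine le_trans ?_ hdX
    refine mul_le_mul_of_nonneg_right ?_ (Real.exp_pos _).le
    exact mul_le_mul_of_nonneg_left (hD d hd) (by positivity)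
  have hs2 : 0 ≤ (J : ℝ) * Real.sqrt (2 / B) := by positivity
  have hs3 : 0 ≤ (J : ℝ) * (Real.exp ((J : ℝ) / 2) / Real.sqrt B + Real.exp (-(σ * J / 2))) := by
    positivity
  have hcmp : ∀ d ∈ VS, ‖ED σ J X d 0 - KK σ J 0 * gG ((d : ℚ) ^ 2 * 0)‖ ≤ errC σ J X B D := by
    intro d hd
    have herr := cirb_errC_ge (σ := σ) (J := J) (B := B) hX (hD d hd)
    have hg := ED_good σ hσ J X B hX hB d (hpos d hd) (hdX' d hd) 0 0 0 (by simp) (by simpa using hB)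
      (by simp; linarith)
    rw [zero_mul] at hg
    rw [mul_zero]
    linarith
  have hF := FV_compare VS hcl h h0 h2 (fun d => ED σ J X d 0)
    (fun d => KK σ J 0 * gG ((d : ℚ) ^ 2 * 0)) (errC σ J X B D) cirb_errC_nonneg hcmp
  rw [cirb_FV_gG] at hF
  have h3 : ∑ v ∈ VS, ((h v : ℝ) : ℂ) * Dlt v 0 = ((h 1 : ℝ) : ℂ) := by
    rw [Finset.sum_eq_single 1]
    · rw [Dlt_one]
      have : gG 0 = 1 := by
        have := gG_int 0
        simpa using this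
      rw [this, mul_one]
    · intro v hv hv1
      rw [Dlt_eq_zero v (hne v hv) 0 (by simpa using hv1), mul_zero]
    · intro h4
      exact absurd h1 h4
  have h5 : KK σ J 0 = ((∑ m ∈ range J, Real.exp (-(σ * m)) : ℝ) : ℂ) := by
    unfold KK
    have h6 : om 0 = 0 := by simp [om]
    simp only [zero_mul, h6, Complex.exp_zero, mul_one]
    rw [Complex.ofReal_sum]
  have h7 : (1 : ℝ) ≤ ∑ m ∈ range J, Real.exp (-(σ * m)) := by
    have h8 : Real.exp (-(σ * ((0 : ℕ) : ℝ))) ≤ ∑ m ∈ range J, Real.exp (-(σ * m)) :=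
      single_le_sum (f := fun m : ℕ => Real.exp (-(σ * (m : ℝ)))) (fun m _ => (Real.exp_pos _).le)
        (mem_range.2 hJ)
    simpa using h8
  rw [h3, h5, ← Complex.ofReal_mul] at hF
  have h9 := cirb_norm_re hF
  rw [Complex.ofReal_re] at h9
  have h10 : 1 ≤ (∑ m ∈ range J, Real.exp (-(σ * m))) * h 1 := by
    calc (1 : ℝ) = 1 * 1 := by ring
      _ ≤ _ := mul_le_mul h7 hh1 zero_le_one (by linarith)
  linarith

end Pool.Agent.H.MP_b3c6db_nt
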