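import Pool.Agent.H.MP_b3c6db_nt.SB.Trunc2
import Pool.Agent.H.MP_b3c6db_nt.SB.CirB

/-! From the smoothed sums to cosine polynomials. -/

namespace Pool.Agent.H.MP_b3c6db_nt

open Finset Complex ArithmeticFunction

/-- truncated version of `ED`. -/
noncomputable def EDN (σ : ℝ) (J : ℕ) (X : ℝ) (H d : ℕ) (x : ℝ) : ℝ :=
  ∑ m ∈ range J, Real.exp (-(σ * m)) *
    (((d : ℝ) / Xm X m) * ThN (Xm X m / d) (H / d) ((d : ℝ) ^ 2 * x))

/-- truncated version of `FV`. -/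
noncomputable def FVN (VS : Finset ℕ) (h : ℕ → ℝ) (σ : ℝ) (J : ℕ) (X : ℝ) (H : ℕ) (x : ℝ) : ℝ :=
  ∑ v ∈ VS, h v * ∑ d ∈ v.divisors, ((moebius (v / d) : ℤ) : ℝ) * EDN σ J X H d x

/-- constant term. -/
noncomputable def FVc (VS : Finset ℕ) (h : ℕ → ℝ) (σ : ℝ) (J : ℕ) (X : ℝ) : ℝ :=
  ∑ v ∈ VS, h v * ∑ d ∈ v.divisors, ((moebius (v / d) : ℤ) : ℝ) *
    ∑ m ∈ range J, Real.exp (-(σ * m)) * (((d : ℝ) / Xm X m) * 1)

/-- as `PP_isCP`. -/
lemma FVN_isCP (VS : Finset ℕ) (hne : ∀ v ∈ VS, v ≠ 0) (h : ℕ → ℝ) (σ : ℝ) (J : ℕ) (X : ℝ) (H : ℕ) :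
    IsCP H (FVc VS h σ J X) (FVN VS h σ J X H) := by
  unfold FVc
  have h1 : IsCP H (∑ v ∈ VS, h v * ∑ d ∈ v.divisors, ((moebius (v / d) : ℤ) : ℝ) *
      ∑ m ∈ range J, Real.exp (-(σ * m)) * (((d : ℝ) / Xm X m) * 1))
      (fun x => ∑ v ∈ VS, h v * ∑ d ∈ v.divisors, ((moebius (v / d) : ℤ) : ℝ) *
        ∑ m ∈ range J, Real.exp (-(σ * m)) *
          (((d : ℝ) / Xm X m) * ThN (Xm X m / d) (H / d) ((d : ℝ) ^ 2 * x))) := by
    apply IsCP.sum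
    intro v hv
    apply IsCP.smul
    apply IsCP.sum
    intro d hd
    rw [Nat.mem_divisors] at hd
    apply IsCP.smul
    apply IsCP.sum
    intro m _
    apply IsCP.smul
    apply IsCP.smul
    exact IsCP.ThN_scaled H d (Nat.pos_of_dvd_of_pos hd.1 (Nat.pos_of_ne_zero (hne v hv))) _
  exact h1

/-- `d/Xm ≤ D e^J/X`, weights `≤ 1`; `FV_compare` with `G = 0`. -/
lemma FVc_le (VS : Finset ℕ) (hcl : ∀ v ∈ VS, ∀ d, d ∣ v → d ∈ VS) (h : ℕ → ℝ)
    (h0 : ∀ v, 0 ≤ h v) (h2 : ∀ v, h v ≤ 2) (σ : ℝ) (hσ : 0 ≤ σ) (J : ℕ) (X D : ℝ) (hX : 0 < X)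
    (hD : ∀ d ∈ VS, (d : ℝ) ≤ D) :
    |FVc VS h σ J X| ≤ 2 * (VS.card : ℝ) ^ 2 * (J * (D * Real.exp J / X)) := by
  by_cases hVS : VS = ∅
  · subst hVS
    unfold FVc
    simp
  obtain ⟨v0, hv0⟩ := Finset.nonempty_iff_ne_empty.mpr hVS
  have hD0 : 0 ≤ D := le_trans (Nat.cast_nonneg v0) (hD v0 hv0)
  have h1 := FV_compare VS hcl h h0 h2
    (fun d => ((∑ m ∈ range J, Real.exp (-(σ * m)) * (((d : ℝ) / Xm X m) * 1) : ℝ) : ℂ))
    (fun _ => 0) (J * (D * Real.exp J / X)) (by positivity) (by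
      intro d hd
      rw [sub_zero, Complex.norm_real, Real.norm_eq_abs, abs_of_nonneg (by
        apply sum_nonneg
        intro m _
        have := CirA_Xm_pos X hX m
        positivity)]
      have h3 : ∀ m ∈ range J, Real.exp (-(σ * m)) * (((d : ℝ) / Xm X m) * 1) ≤
          D * Real.exp J / X := by
        intro m hm
        have hp := CirA_Xm_pos X hX m
        have hge := CirA_le_Xm X hX m J (mem_range.mp hm)
        have hw := CirA_w_le_one σ hσ m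
        have h4 : (d : ℝ) / Xm X m ≤ D * Real.exp J / X := by
          rw [div_le_div_iff₀ hp hX]
          calc (d : ℝ) * X ≤ D * (Real.exp J * Xm X m) :=
                mul_le_mul (hD d hd) hge hX.le hD0
            _ = D * Real.exp J * Xm X m := by ring
        calc Real.exp (-(σ * m)) * (((d : ℝ) / Xm X m) * 1) ≤ 1 * (((d : ℝ) / Xm X m) * 1) :=
              mul_le_mul_of_nonneg_right hw (by positivity)
          _ = (d : ℝ) / Xm X m := by ring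
          _ ≤ _ := h4
      refine (sum_le_sum h3).trans ?_
      rw [sum_const, nsmul_eq_mul, card_range])
  have h3 : FV VS h (fun _ => 0) = 0 := by
    unfold FV
    simp
  have h4 : FV VS h
      (fun d => ((∑ m ∈ range J, Real.exp (-(σ * m)) * (((d : ℝ) / Xm X m) * 1) : ℝ) : ℂ)) =
      ((FVc VS h σ J X : ℝ) : ℂ) := by
    unfold FV FVc
    push_cast
    rfl
  rw [h3, sub_zero, h4, Complex.norm_real, Real.norm_eq_abs] at h1
  exact h1

lemma Cons_ED_re (σ : ℝ) (J : ℕ) (X : ℝ) (d : ℕ) (x : ℝ) : (ED σ J X d x).re =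
    ∑ m ∈ range J, Real.exp (-(σ * m)) *
      (((d : ℝ) / Xm X m) * (Th (Xm X m / d) ((d : ℝ) ^ 2 * x)).re) := by
  unfold ED
  rw [Complex.re_sum]
  apply sum_congr rfl
  intro m _
  rw [Complex.re_ofReal_mul, Complex.re_ofReal_mul]

lemma Cons_FV_re (VS : Finset ℕ) (h : ℕ → ℝ) (E : ℕ → ℂ) : (FV VS h E).re =
    ∑ v ∈ VS, h v * ∑ d ∈ v.divisors, ((moebius (v / d) : ℤ) : ℝ) * (E d).re := by
  unfold FV
  rw [Complex.re_sum]
  apply sum_congr rfl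
  intro v _
  rw [Complex.re_ofReal_mul, Complex.re_sum]
  congr 1
  apply sum_congr rfl
  intro d _
  have h1 : ((moebius (v / d) : ℤ) : ℂ) = (((moebius (v / d) : ℤ) : ℝ) : ℂ) := by push_cast; rfl
  rw [h1, Complex.re_ofReal_mul]

/-- one term of the truncation. -/
lemma Cons_term (X : ℝ) (hX : 0 < X) (m d : ℕ) (hd : 1 ≤ d) (hdM : (d : ℝ) ≤ Xm X m) (H : ℕ)
    (x : ℝ) : (d : ℝ) / Xm X m * |(Th (Xm X m / d) ((d : ℝ) ^ 2 * x)).re -
      ThN (Xm X m / d) (H / d) ((d : ℝ) ^ 2 * x)| ≤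
      2 * (1 + X) * Real.exp (-(Real.pi * ((H : ℝ) / X) ^ 2)) := by
  have hp := CirA_Xm_pos X hX m
  have hle := CirA_Xm_le X hX m
  have hd0 : (0 : ℝ) < d := by exact_mod_cast hd
  have hd1 : (1 : ℝ) ≤ d := by exact_mod_cast hd
  have hM0 : 0 < Xm X m / d := by positivity
  have hM1 : 1 ≤ Xm X m / d := by
    rw [le_div_iff₀ hd0]
    linarith
  have hM2 : Xm X m / d ≤ X := by
    rw [div_le_iff₀ hd0]
    nlinarith
  have h1 := Th_trunc2 (Xm X m / d) ((d : ℝ) ^ 2 * x) hM0 (H / d)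
  have hN1 : (H : ℝ) ≤ ((((H / d : ℕ)) : ℝ) + 1) * d := by
    have h2 : H < (H / d + 1) * d := by
      rw [mul_comm]
      exact Nat.lt_mul_div_succ H hd
    have h3 : (H : ℝ) < ((((H / d : ℕ)) : ℝ) + 1) * d := by exact_mod_cast h2
    exact h3.le
  set N : ℝ := (((H / d : ℕ)) : ℝ) + 1 with hN
  have hNpos : 0 < N := by positivity
  have h5 : (H : ℝ) / X ≤ N / (Xm X m / d) := by
    rw [div_le_div_iff₀ hX hM0]
    calc (H : ℝ) * (Xm X m / d) ≤ (N * d) * (Xm X m / d) :=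
          mul_le_mul_of_nonneg_right hN1 hM0.le
      _ = N * Xm X m := by
          field_simp
      _ ≤ N * X := mul_le_mul_of_nonneg_left hle hNpos.le
  have h6 : Real.exp (-(Real.pi * N ^ 2 / (Xm X m / d) ^ 2)) ≤
      Real.exp (-(Real.pi * ((H : ℝ) / X) ^ 2)) := by
    apply Real.exp_le_exp.mpr
    apply neg_le_neg
    have h7 : ((H : ℝ) / X) ^ 2 ≤ (N / (Xm X m / d)) ^ 2 :=
      pow_le_pow_left₀ (by positivity) h5 2
    calc Real.pi * ((H : ℝ) / X) ^ 2 ≤ Real.pi * (N / (Xm X m / d)) ^ 2 :=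
          mul_le_mul_of_nonneg_left h7 Real.pi_pos.le
      _ = Real.pi * N ^ 2 / (Xm X m / d) ^ 2 := by
          rw [div_pow]
          ring
  set M : ℝ := Xm X m / d with hM
  have h8 : (d : ℝ) / Xm X m = 1 / M := by
    rw [hM]
    field_simp
  have h9 : 1 / M * (2 * (1 + M ^ 2)) ≤ 2 * (1 + X) := by
    have h10 : 1 / M ≤ 1 := by
      rw [div_le_one hM0]
      exact hM1
    have h11 : 1 / M * (2 * (1 + M ^ 2)) = 2 * (1 / M + M) := by
      field_simp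
    rw [h11]
    linarith
  rw [h8]
  calc 1 / M * |(Th M ((d : ℝ) ^ 2 * x)).re - ThN M (H / d) ((d : ℝ) ^ 2 * x)|
      ≤ 1 / M * (2 * (1 + M ^ 2) * Real.exp (-(Real.pi * N ^ 2 / M ^ 2))) :=
        mul_le_mul_of_nonneg_left h1 (by positivity)
    _ = (1 / M * (2 * (1 + M ^ 2))) * Real.exp (-(Real.pi * N ^ 2 / M ^ 2)) := by ring
    _ ≤ (2 * (1 + X)) * Real.exp (-(Real.pi * ((H : ℝ) / X) ^ 2)) :=
        mul_le_mul h9 h6 (Real.exp_pos _).le (by positivity)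

/-- PROOF: `Th_trunc2` with `M = Xm/d ≥ 1`, `N = H/d` (natural division, `N + 1 ≥ H/d` real), so
`(N+1)/M ≥ H/Xm ≥ H/X`; `(1/M) 2 (1 + M²) ≤ 2 (1 + X)`... Sum over `m`, `FV_compare`. -/
lemma FV_FVN (VS : Finset ℕ) (hcl : ∀ v ∈ VS, ∀ d, d ∣ v → d ∈ VS) (hne : ∀ v ∈ VS, v ≠ 0)
    (h : ℕ → ℝ) (h0 : ∀ v, 0 ≤ h v) (h2 : ∀ v, h v ≤ 2) (σ : ℝ) (hσ : 0 ≤ σ) (J : ℕ) (X D : ℝ)
    (hX : 0 < X) (hD : ∀ d ∈ VS, (d : ℝ) ≤ D) (hdX : D * Real.exp J ≤ X) (H : ℕ) (x : ℝ) :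
    |(FV VS h (fun d => ED σ J X d x)).re - FVN VS h σ J X H x| ≤
      2 * (VS.card : ℝ) ^ 2 * (J * (2 * (1 + X) * Real.exp (-(Real.pi * ((H : ℝ) / X) ^ 2)))) := by
  have h1 := FV_compare VS hcl h h0 h2
    (fun d => (((ED σ J X d x).re : ℝ) : ℂ))
    (fun d => ((EDN σ J X H d x : ℝ) : ℂ))
    (J * (2 * (1 + X) * Real.exp (-(Real.pi * ((H : ℝ) / X) ^ 2)))) (by positivity) (by
      intro d hd
      have hd1 : 1 ≤ d := Nat.one_le_iff_ne_zero.mpr (hne d hd)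
      rw [← Complex.ofReal_sub, Complex.norm_real, Real.norm_eq_abs, Cons_ED_re]
      unfold EDN
      rw [← sum_sub_distrib]
      refine (abs_sum_le_sum_abs _ _).trans ?_
      have h3 : ∀ m ∈ range J, |Real.exp (-(σ * m)) *
          (((d : ℝ) / Xm X m) * (Th (Xm X m / d) ((d : ℝ) ^ 2 * x)).re) -
          Real.exp (-(σ * m)) *
          (((d : ℝ) / Xm X m) * ThN (Xm X m / d) (H / d) ((d : ℝ) ^ 2 * x))| ≤
          2 * (1 + X) * Real.exp (-(Real.pi * ((H : ℝ) / X) ^ 2)) := by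
        intro m hm
        have hp := CirA_Xm_pos X hX m
        have hge := CirA_le_Xm X hX m J (mem_range.mp hm)
        have hw := CirA_w_le_one σ hσ m
        have hdM : (d : ℝ) ≤ Xm X m := by
          have h4 : Real.exp J * (d : ℝ) ≤ Real.exp J * Xm X m := by
            calc Real.exp J * (d : ℝ) ≤ Real.exp J * D :=
                  mul_le_mul_of_nonneg_left (hD d hd) (Real.exp_pos _).le
              _ = D * Real.exp J := by ring
              _ ≤ X := hdX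
              _ ≤ _ := hge
          exact le_of_mul_le_mul_left h4 (Real.exp_pos _)
        have h5 := Cons_term X hX m d hd1 hdM H x
        rw [← mul_sub, ← mul_sub, abs_mul, abs_mul, abs_of_pos (Real.exp_pos _),
          abs_of_nonneg (by positivity : (0 : ℝ) ≤ (d : ℝ) / Xm X m)]
        calc Real.exp (-(σ * m)) * ((d : ℝ) / Xm X m *
              |(Th (Xm X m / d) ((d : ℝ) ^ 2 * x)).re -
                ThN (Xm X m / d) (H / d) ((d : ℝ) ^ 2 * x)|)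
            ≤ 1 * ((d : ℝ) / Xm X m *
              |(Th (Xm X m / d) ((d : ℝ) ^ 2 * x)).re -
                ThN (Xm X m / d) (H / d) ((d : ℝ) ^ 2 * x)|) :=
              mul_le_mul_of_nonneg_right hw (by positivity)
          _ ≤ _ := by
              rw [one_mul]
              exact h5
      refine (sum_le_sum h3).trans ?_
      rw [sum_const, nsmul_eq_mul, card_range])
  have h3 : FV VS h (fun d => (((ED σ J X d x).re : ℝ) : ℂ)) =
      (((FV VS h (fun d => ED σ J X d x)).re : ℝ) : ℂ) := by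
    rw [Cons_FV_re]
    unfold FV
    push_cast
    rfl
  have h4 : FV VS h (fun d => ((EDN σ J X H d x : ℝ) : ℂ)) =
      ((FVN VS h σ J X H x : ℝ) : ℂ) := by
    unfold FV FVN
    push_cast
    rfl
  rw [h3, h4, ← Complex.ofReal_sub, Complex.norm_real, Real.norm_eq_abs] at h1
  exact h1

/-- the truncation error -/
noncomputable def errT (J : ℕ) (X : ℝ) (H : ℕ) : ℝ :=
  J * (2 * (1 + X) * Real.exp (-(Real.pi * ((H : ℝ) / X) ^ 2)))

/-- THE MAIN INEQUALITY. PROOF: `delta_le_of_IsCP` (Trunc.lean) with `f = FVN`, `a = FVc`,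
`ε = Lb + 2 |VS|² (errC + errT)`; `circle_sharp`, `circle_zero`, `FV_FVN`, `FVc_le`. -/
theorem delta_sharp (VS : Finset ℕ) (hcl : ∀ v ∈ VS, ∀ d, d ∣ v → d ∈ VS) (hne : ∀ v ∈ VS, v ≠ 0)
    (h1 : 1 ∈ VS) (h : ℕ → ℝ) (h0 : ∀ v, 0 ≤ h v) (h2 : ∀ v, h v ≤ 2) (hh1 : 1 ≤ h 1) (σ : ℝ)
    (hσ : 0 ≤ σ) (J : ℕ) (hJ : 1 ≤ J) (X B D Lb : ℝ) (hX : 0 < X) (hB : 1 ≤ B)
    (hD : ∀ d ∈ VS, (d : ℝ) ≤ D) (hD1 : 1 ≤ D) (hdX : B ^ 2 * D * Real.exp J ≤ X)
    (hsep : ∀ d₁ ∈ VS, ∀ d₂ ∈ VS, ∃ Lm : ℕ, Lm ≠ 0 ∧ d₁ ∣ Lm ∧ d₂ ∣ Lm ∧ 2 * B ^ 3 * (Lm : ℝ) ^ 2 < X ^ 2)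
    (hLb : 0 ≤ Lb)
    (hloc : ∀ r : ℚ, (r.den : ℝ) ≤ B * D ^ 2 → ∀ u : ℝ, |u| ≤ B →
      -Lb ≤ (KK σ J u * ∑ v ∈ VS, ((h v : ℝ) : ℂ) * Dlt v r).re) (H : ℕ)
    (hsm : 2 * (VS.card : ℝ) ^ 2 * (errC σ J X B D + errT J X H) ≤ 1 / 2) :
    delta H ≤ 2 * (2 * (VS.card : ℝ) ^ 2 * (J * (D * Real.exp J / X)) +
      (Lb + 2 * (VS.card : ℝ) ^ 2 * (errC σ J X B D + errT J X H))) := by
  have hdX' : D * Real.exp J ≤ X := by
    refine le_trans ?_ hdX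
    have h3 : 0 ≤ D * Real.exp J := by positivity
    nlinarith [mul_nonneg (by nlinarith : 0 ≤ B ^ 2 - 1) h3]
  have hC : 0 ≤ errC σ J X B D := by
    unfold errC
    positivity
  have hT : 0 ≤ errT J X H := by
    unfold errT
    positivity
  have h3 := delta_le_of_IsCP H (FVc VS h σ J X)
    (Lb + 2 * (VS.card : ℝ) ^ 2 * (errC σ J X B D + errT J X H)) (FVN VS h σ J X H)
    (FVN_isCP VS hne h σ J X H) (by positivity)
    (by
      intro x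
      have h4 := circle_sharp VS hcl hne h h0 h2 σ hσ J X B D Lb hX hB hD hD1 hdX hsep hLb hloc x
      have h5 := (abs_le.mp (FV_FVN VS hcl hne h h0 h2 σ hσ J X D hX hD hdX' H x)).2
      have h6 : (J : ℝ) * (2 * (1 + X) * Real.exp (-(Real.pi * ((H : ℝ) / X) ^ 2))) =
        errT J X H := rfl
      rw [h6] at h5
      linarith)
    (by
      have h4 := circle_zero VS hcl hne h1 h h0 h2 hh1 σ hσ J hJ X B D hX hB hD hD1 hdX
      have h5 := (abs_le.mp (FV_FVN VS hcl hne h h0 h2 σ hσ J X D hX hD hdX' H 0)).2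
      have h6 : (J : ℝ) * (2 * (1 + X) * Real.exp (-(Real.pi * ((H : ℝ) / X) ^ 2))) =
        errT J X H := rfl
      rw [h6] at h5
      linarith)
  have h4 := FVc_le VS hcl h h0 h2 σ hσ J X D hX hD
  linarith

end Pool.Agent.H.MP_b3c6db_nt
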