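import Pool.Agent.H.MP_b3c6db_nt.Theta

/-! The archimedean mixture. -/

namespace Pool.Agent.H.MP_b3c6db_nt

open Finset

/-- `K(u) = ∑_{m<J} e^{-σ m} exp (om (u e^{-2m}))`, `exp (om u) = (1 - 2 i u)^{-1/2}`. -/
noncomputable def KK (σ : ℝ) (J : ℕ) (u : ℝ) : ℂ :=
  ∑ m ∈ range J, ((Real.exp (-(σ * m)) : ℝ) : ℂ) * Complex.exp (om (u * Real.exp (-(2 * m))))

/-- `|exp (om u)| ≤ |u|^{-1/2}`: from `norm_exp_om_sq`. -/
lemma norm_exp_om_le (u : ℝ) (hu : u ≠ 0) : ‖Complex.exp (om u)‖ ≤ 1 / Real.sqrt |u| := by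
  have h0 : 0 < |u| := abs_pos.2 hu
  have h1 : 0 < Real.sqrt |u| := Real.sqrt_pos.2 h0
  refine (pow_le_pow_iff_left₀ (norm_nonneg _) (by positivity) two_ne_zero).1 ?_
  rw [norm_exp_om_sq, div_pow, one_pow, Real.sq_sqrt h0.le]
  apply one_div_le_one_div_of_le h0
  apply Real.le_sqrt_of_sq_le
  rw [sq_abs]
  nlinarith [sq_nonneg u]

lemma norm_exp_om_le_one (u : ℝ) : ‖Complex.exp (om u)‖ ≤ 1 := by
  rw [Complex.norm_exp]
  exact Real.exp_le_one_iff.2 (om_re u)

/-- real part is nonnegative (`om_im`). -/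
lemma re_exp_om_nonneg (u : ℝ) : 0 ≤ (Complex.exp (om u)).re := by
  rw [Complex.exp_re]
  have h := abs_le.1 (om_im u)
  have h2 := Real.pi_pos
  exact mul_nonneg (Real.exp_pos _).le
    (Real.cos_nonneg_of_mem_Icc ⟨by linarith [h.1], by linarith [h.2]⟩)

/-- for `|u| ≤ 1`: `Re exp (om u) ≥ 2/5` : the modulus is `(1+4u²)^{-1/4} ≥ 5^{-1/4} > 0.66` and
the argument is at most `π/4`, `cos (π/4) > 0.7`. -/
lemma re_exp_om_ge (u : ℝ) (hu : |u| ≤ 1) : 2 / 5 ≤ (Complex.exp (om u)).re := by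
  have hn : ‖Complex.exp (om u)‖ = Real.exp (om u).re := Complex.norm_exp _
  have hpi := Real.pi_pos
  have h1 : (33 / 50 : ℝ) ≤ Real.exp (om u).re := by
    rw [← hn]
    refine (pow_le_pow_iff_left₀ (by norm_num) (norm_nonneg _) two_ne_zero).1 ?_
    rw [norm_exp_om_sq]
    have hu2 : u ^ 2 ≤ 1 := by
      rw [← sq_abs]
      exact pow_le_one₀ (abs_nonneg u) hu
    have h5 : Real.sqrt (1 + 4 * u ^ 2) ≤ 9 / 4 := by
      apply Real.sqrt_le_iff.2
      constructor
      · norm_num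
      · nlinarith
    have h6 : 0 < Real.sqrt (1 + 4 * u ^ 2) := Real.sqrt_pos.2 (by positivity)
    have h7 : 1 / (9 / 4 : ℝ) ≤ 1 / Real.sqrt (1 + 4 * u ^ 2) := one_div_le_one_div_of_le h6 h5
    refine le_trans ?_ h7
    norm_num
  have h2 : (7 / 10 : ℝ) ≤ Real.cos (om u).im := by
    have h := om_im u
    rw [← Real.cos_abs]
    have h3 : Real.cos (Real.pi / 4) ≤ Real.cos |(om u).im| :=
      Real.cos_le_cos_of_nonneg_of_le_pi (abs_nonneg _) (by linarith) h
    rw [Real.cos_pi_div_four] at h3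
    have h4 : (7 / 5 : ℝ) ≤ Real.sqrt 2 := Real.le_sqrt_of_sq_le (by norm_num)
    linarith
  rw [Complex.exp_re]
  nlinarith [mul_le_mul h1 h2 (by norm_num) (Real.exp_pos (om u).re).le]

/-- `|Im exp (om u)| ≤ |u|`: the imaginary part of `om u` is `-(1/2) arg (1 - 2 i u)` and
`|arg (1 - 2 i u)| = arctan (2|u|) ≤ 2|u|`; `|sin| ≤ |.|`. -/
lemma im_exp_om_le (u : ℝ) : |(Complex.exp (om u)).im| ≤ |u| := by
  set z : ℂ := 1 - 2 * Complex.I * u with hz
  have hre : z.re = 1 := om_arg_re u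
  have him : z.im = -(2 * u) := by simp [hz]
  have h1 : |Complex.arg z| < Real.pi / 2 := by
    rw [Complex.abs_arg_lt_pi_div_two_iff]
    left
    rw [hre]
    exact one_pos
  have h2 : Real.tan (Complex.arg z) = -(2 * u) := by
    rw [Complex.tan_arg, hre, him, div_one]
  have h3 : |Complex.arg z| ≤ 2 * |u| := by
    have h4 : |Complex.arg z| ≤ Real.tan |Complex.arg z| := Real.le_tan (abs_nonneg _) h1
    have h5 : Real.tan |Complex.arg z| ≤ |Real.tan (Complex.arg z)| := by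
      rcases abs_choice (Complex.arg z) with h | h
      · rw [h]
        exact le_abs_self _
      · rw [h, Real.tan_neg]
        exact neg_le_abs _
    rw [h2, abs_neg, abs_mul, abs_two] at h5
    exact h4.trans h5
  have h6 : |(om u).im| ≤ |u| := by
    unfold om
    have : (-(1 / 2) * Complex.log (1 - 2 * Complex.I * u)) =
      ((-(1 / 2) : ℝ) : ℂ) * Complex.log (1 - 2 * Complex.I * u) := by push_cast; ring
    rw [this, Complex.im_ofReal_mul, Complex.log_im, abs_mul, ← hz]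
    have h7 : |(-(1 / 2) : ℝ)| = 1 / 2 := by rw [abs_neg, abs_of_pos]; norm_num
    rw [h7]
    linarith
  rw [Complex.exp_im, abs_mul, abs_of_pos (Real.exp_pos _)]
  have h8 : Real.exp (om u).re ≤ 1 := Real.exp_le_one_iff.2 (om_re u)
  have h9 : |Real.sin (om u).im| ≤ |(om u).im| := Real.abs_sin_le_abs
  calc Real.exp (om u).re * |Real.sin (om u).im| ≤ 1 * |(om u).im| :=
        mul_le_mul h8 h9 (abs_nonneg _) zero_le_one
    _ ≤ |u| := by rw [one_mul]; exact h6

private lemma arch_exp_neg_one_le : Real.exp (-1) ≤ 0.3679 := by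
  have h := Real.exp_neg_one_lt_d9
  linarith

private lemma arch_exp_neg_quarter (σ : ℝ) (hσ : σ ≤ 1 / 4) : 3 / 4 ≤ Real.exp (-σ) := by
  have h := Real.add_one_le_exp (-σ)
  linarith

/-- the terms before the threshold -/
private lemma arch_sum_low (σ : ℝ) (hσ : σ ≤ 1 / 4) (M : ℕ) :
    ∑ m ∈ range M, Real.exp (-(σ * m)) * Real.exp (-((M : ℝ) - 1 - m)) ≤
      3 * Real.exp (-(σ * M)) := by
  induction M with
  | zero =>
    simp
  | succ M ih =>
    rw [sum_range_succ]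
    have h1 : ∑ m ∈ range M, Real.exp (-(σ * m)) * Real.exp (-(((M + 1 : ℕ) : ℝ) - 1 - m)) =
        Real.exp (-1) * ∑ m ∈ range M, Real.exp (-(σ * m)) * Real.exp (-((M : ℝ) - 1 - m)) := by
      rw [mul_sum]
      apply sum_congr rfl
      intro m _
      rw [← Real.exp_add, ← Real.exp_add, ← Real.exp_add]
      congr 1
      push_cast
      ring
    have h2 : Real.exp (-(σ * M)) * Real.exp (-(((M + 1 : ℕ) : ℝ) - 1 - M)) =
        Real.exp (-(σ * M)) := by
      rw [← Real.exp_add]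
      congr 1
      push_cast
      ring
    have h3 : Real.exp (-(σ * ((M + 1 : ℕ) : ℝ))) = Real.exp (-(σ * M)) * Real.exp (-σ) := by
      rw [← Real.exp_add]
      congr 1
      push_cast
      ring
    rw [h1, h2, h3]
    have h4 := arch_exp_neg_one_le
    have h5 := arch_exp_neg_quarter σ hσ
    have h6 : 0 < Real.exp (-(σ * M)) := Real.exp_pos _
    have h7 : 0 < Real.exp (-1) := Real.exp_pos _
    have h8 := mul_le_mul_of_nonneg_left ih h7.le
    have h9 : Real.exp (-1) * (3 * Real.exp (-(σ * M))) ≤ 0.3679 * (3 * Real.exp (-(σ * M))) :=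
      mul_le_mul_of_nonneg_right h4 (by positivity)
    have h10 : Real.exp (-(σ * M)) * (3 / 4) ≤ Real.exp (-(σ * M)) * Real.exp (-σ) :=
      mul_le_mul_of_nonneg_left h5 h6.le
    nlinarith

/-- a finite geometric series -/
private lemma arch_geom (c : ℝ) (N : ℕ) :
    (∑ k ∈ range N, Real.exp (-(c * k))) * (1 - Real.exp (-c)) = 1 - Real.exp (-(c * N)) := by
  have h1 : ∀ k : ℕ, Real.exp (-(c * k)) = Real.exp (-c) ^ k := by
    intro k
    rw [← Real.exp_nat_mul]
    congr 1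
    ring
  simp only [h1]
  exact geom_sum_mul_neg _ _

private lemma arch_sum_high (N : ℕ) : ∑ k ∈ range N, Real.exp (-(2 * k)) ≤ 6 / 5 := by
  have h := arch_geom 2 N
  have h1 : Real.exp (-2) ≤ 0.1354 := by
    have h2 : Real.exp (-2) = Real.exp (-1) * Real.exp (-1) := by
      rw [← Real.exp_add]
      norm_num
    have h3 := arch_exp_neg_one_le
    have h4 := Real.exp_pos (-1)
    rw [h2]
    nlinarith
  have h5 : 0 < Real.exp (-(2 * (N : ℝ))) := Real.exp_pos _
  have h6 : 0 ≤ ∑ k ∈ range N, Real.exp (-(2 * (k : ℝ))) :=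
    sum_nonneg fun _ _ => (Real.exp_pos _).le
  nlinarith

private lemma arch_sum_sig (σ : ℝ) (hσ0 : 0 < σ) (N : ℕ) (hN : 1 / σ ≤ N) :
    (3 / 5) / σ ≤ ∑ k ∈ range N, Real.exp (-(σ * k)) := by
  have h := arch_geom σ N
  have h1 : 1 - Real.exp (-σ) ≤ σ := by
    have := Real.add_one_le_exp (-σ)
    linarith
  have h2 : Real.exp (-(σ * N)) ≤ 0.3679 := by
    refine le_trans ?_ arch_exp_neg_one_le
    apply Real.exp_le_exp.2
    have h3 : 1 ≤ σ * N := by
      have := mul_le_mul_of_nonneg_left hN hσ0.le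
      rwa [mul_one_div_cancel hσ0.ne'] at this
    linarith
  have h6 : 0 ≤ ∑ k ∈ range N, Real.exp (-(σ * (k : ℝ))) :=
    sum_nonneg fun _ _ => (Real.exp_pos _).le
  rw [div_le_iff₀ hσ0]
  nlinarith [mul_le_mul_of_nonneg_left h1 h6]

/-- THE K-LEMMA. PROOF. Let `m*` be the least `m` with `|u| e^{-2m} ≤ 1` (`m* ≤ log|u|/2 + 1`, so
`m* + 1/σ ≤ J`). Terms `m ≥ m*`: imaginary part at most `e^{-σ m} |u| e^{-2m} ≤ e^{-σ m*} e^{-2 (m - m*)}`,
sum `≤ 1.2 e^{-σ m*}`. Terms `m < m*`: at most `e^{-σ m} (|u| e^{-2m})^{-1/2}` and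
`|u| e^{-2(m*-1)} > 1`, so `≤ e^{-σ m} e^{-(m*-1-m)} = e^{-σ m*} e^{σ (m*-m)} e^{1-(m*-m)}`, sum over
`k = m*-m ≥ 1`: `≤ e^{-σ m*} · e^{σ}/(1 - e^{σ-1}) ≤ 6 e^{-σ m*}` (`σ ≤ 1/4`). So
`|Im K| ≤ 8 e^{-σ m*}`. Real part: `≥ (2/5) ∑_{m* ≤ m < J} e^{-σ m} ≥ (2/5) e^{-σ m*} (1 - e^{-σ (J-m*)}) / (1 - e^{-σ})
≥ (2/5) (1 - e^{-1}) e^{-σ m*} / σ ≥ e^{-σ m*} / (4 σ)`. Hence `|Im K| ≤ 32 σ Re K`. -/
theorem KK_arg (σ : ℝ) (hσ0 : 0 < σ) (hσ : σ ≤ 1 / 4) (J : ℕ) (hJ : 1 / σ + 2 ≤ J) (u : ℝ)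
    (hu : |u| ≤ Real.exp (2 * (J - 1 / σ - 2))) :
    0 < (KK σ J u).re ∧ |(KK σ J u).im| ≤ 40 * σ * (KK σ J u).re := by
  classical
  have hex : ∃ m : ℕ, |u| ≤ Real.exp (2 * m) := by
    refine ⟨J, hu.trans (Real.exp_le_exp.2 ?_)⟩
    have : 0 < 1 / σ := by positivity
    linarith
  set M := Nat.find hex with hM
  have hM1 : |u| ≤ Real.exp (2 * M) := Nat.find_spec hex
  have hM2 : ∀ m : ℕ, m < M → Real.exp (2 * m) < |u| := fun m hm =>
    not_le.1 (Nat.find_min hex hm)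
  have hMJ : (M : ℝ) + 1 / σ ≤ J := by
    rcases Nat.eq_zero_or_pos M with h0 | h0
    · rw [h0, Nat.cast_zero]
      linarith
    · have h1 := (hM2 (M - 1) (by omega)).trans_le hu
      rw [Real.exp_lt_exp, Nat.cast_sub h0, Nat.cast_one] at h1
      linarith
  have hMJ' : M ≤ J := by
    have h1 : 0 < 1 / σ := by positivity
    have h2 : (M : ℝ) ≤ J := by linarith
    exact_mod_cast h2
  obtain ⟨N, hN⟩ := Nat.exists_eq_add_of_le hMJ'
  have hN1 : 1 / σ ≤ (N : ℝ) := by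
    have h1 : (J : ℝ) = M + N := by exact_mod_cast hN
    linarith
  have hEM : 0 < Real.exp (-(σ * M)) := Real.exp_pos _
  have hKre : (KK σ J u).re = ∑ m ∈ range J, Real.exp (-(σ * m)) *
      (Complex.exp (om (u * Real.exp (-(2 * m))))).re := by
    unfold KK
    rw [Complex.re_sum]
    apply sum_congr rfl
    intro m _
    rw [Complex.re_ofReal_mul]
  have hKim : (KK σ J u).im = ∑ m ∈ range J, Real.exp (-(σ * m)) *
      (Complex.exp (om (u * Real.exp (-(2 * m))))).im := by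
    unfold KK
    rw [Complex.im_sum]
    apply sum_congr rfl
    intro m _
    rw [Complex.im_ofReal_mul]
  -- size of the argument
  have hbig : ∀ k : ℕ, |u * Real.exp (-(2 * ((M + k : ℕ) : ℝ)))| ≤ Real.exp (-(2 * k)) := by
    intro k
    rw [abs_mul, abs_of_pos (Real.exp_pos _)]
    calc |u| * Real.exp (-(2 * ((M + k : ℕ) : ℝ)))
        ≤ Real.exp (2 * M) * Real.exp (-(2 * ((M + k : ℕ) : ℝ))) :=
          mul_le_mul_of_nonneg_right hM1 (Real.exp_pos _).le
      _ = Real.exp (-(2 * k)) := by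
          rw [← Real.exp_add]
          congr 1
          push_cast
          ring
  have hlow : ∀ m : ℕ, m < M → ‖Complex.exp (om (u * Real.exp (-(2 * m))))‖ ≤
      Real.exp (-((M : ℝ) - 1 - m)) := by
    intro m hm
    have h1 := hM2 (M - 1) (by omega)
    rw [Nat.cast_sub (by omega), Nat.cast_one] at h1
    have h2 : Real.exp (2 * ((M : ℝ) - 1 - m)) ≤ |u * Real.exp (-(2 * m))| := by
      rw [abs_mul, abs_of_pos (Real.exp_pos _)]
      calc Real.exp (2 * ((M : ℝ) - 1 - m))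
          = Real.exp (2 * ((M : ℝ) - 1)) * Real.exp (-(2 * m)) := by
            rw [← Real.exp_add]
            congr 1
            ring
        _ ≤ |u| * Real.exp (-(2 * m)) :=
            mul_le_mul_of_nonneg_right h1.le (Real.exp_pos _).le
    have h3 : u * Real.exp (-(2 * m)) ≠ 0 := by
      intro h
      rw [h, abs_zero] at h2
      exact absurd h2 (not_le.2 (Real.exp_pos _))
    refine (norm_exp_om_le _ h3).trans ?_
    have h4 : Real.exp ((M : ℝ) - 1 - m) ≤ Real.sqrt |u * Real.exp (-(2 * m))| := by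
      apply Real.le_sqrt_of_sq_le
      rw [← Real.exp_nat_mul]
      exact_mod_cast h2
    have h5 : Real.exp (-((M : ℝ) - 1 - m)) = 1 / Real.exp ((M : ℝ) - 1 - m) := by
      rw [Real.exp_neg, one_div]
    rw [h5]
    exact one_div_le_one_div_of_le (Real.exp_pos _) h4
  -- the imaginary part
  have hIm : |(KK σ J u).im| ≤ (21 / 5) * Real.exp (-(σ * M)) := by
    rw [hKim, hN, sum_range_add]
    refine (abs_add_le _ _).trans ?_
    have e1 : |∑ m ∈ range M, Real.exp (-(σ * m)) *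
        (Complex.exp (om (u * Real.exp (-(2 * m))))).im| ≤ 3 * Real.exp (-(σ * M)) := by
      refine (abs_sum_le_sum_abs _ _).trans ((sum_le_sum ?_).trans (arch_sum_low σ hσ M))
      intro m hm
      rw [abs_mul, abs_of_pos (Real.exp_pos _)]
      exact mul_le_mul_of_nonneg_left
        ((Complex.abs_im_le_norm _).trans (hlow m (mem_range.1 hm))) (Real.exp_pos _).le
    have e2 : |∑ k ∈ range N, Real.exp (-(σ * ((M + k : ℕ) : ℝ))) *
        (Complex.exp (om (u * Real.exp (-(2 * ((M + k : ℕ) : ℝ)))))).im| ≤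
        (6 / 5) * Real.exp (-(σ * M)) := by
      have e3 : ∑ k ∈ range N, Real.exp (-(σ * M)) * Real.exp (-(2 * (k : ℝ))) ≤
          (6 / 5) * Real.exp (-(σ * M)) := by
        rw [← mul_sum, mul_comm]
        exact mul_le_mul_of_nonneg_right (arch_sum_high N) hEM.le
      refine (abs_sum_le_sum_abs _ _).trans ((sum_le_sum ?_).trans e3)
      intro k _
      rw [abs_mul, abs_of_pos (Real.exp_pos _)]
      refine mul_le_mul ?_ ((im_exp_om_le _).trans (hbig k)) (abs_nonneg _) hEM.le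
      apply Real.exp_le_exp.2
      push_cast
      have : 0 ≤ σ * (k : ℝ) := by positivity
      linarith
    linarith
  -- the real part
  have hRe : (6 / 25) / σ * Real.exp (-(σ * M)) ≤ (KK σ J u).re := by
    rw [hKre, hN, sum_range_add]
    have e1 : 0 ≤ ∑ m ∈ range M, Real.exp (-(σ * m)) *
        (Complex.exp (om (u * Real.exp (-(2 * m))))).re :=
      sum_nonneg fun m _ => mul_nonneg (Real.exp_pos _).le (re_exp_om_nonneg _)
    have e2 : ∑ k ∈ range N, (2 / 5 * Real.exp (-(σ * M))) * Real.exp (-(σ * (k : ℝ))) ≤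
        ∑ k ∈ range N, Real.exp (-(σ * ((M + k : ℕ) : ℝ))) *
        (Complex.exp (om (u * Real.exp (-(2 * ((M + k : ℕ) : ℝ)))))).re := by
      apply sum_le_sum
      intro k _
      have h1 : |u * Real.exp (-(2 * ((M + k : ℕ) : ℝ)))| ≤ 1 := by
        refine (hbig k).trans (Real.exp_le_one_iff.2 ?_)
        have : 0 ≤ (k : ℝ) := by positivity
        linarith
      have h2 := re_exp_om_ge _ h1
      have h3 : Real.exp (-(σ * ((M + k : ℕ) : ℝ))) =
          Real.exp (-(σ * M)) * Real.exp (-(σ * (k : ℝ))) := by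
        rw [← Real.exp_add]
        congr 1
        push_cast
        ring
      rw [h3]
      have h4 : 0 < Real.exp (-(σ * M)) * Real.exp (-(σ * (k : ℝ))) := by positivity
      nlinarith
    rw [← mul_sum] at e2
    have e3 := arch_sum_sig σ hσ0 N hN1
    have e4 : (2 / 5 * Real.exp (-(σ * M))) * ((3 / 5) / σ) ≤ (2 / 5 * Real.exp (-(σ * M))) *
        ∑ k ∈ range N, Real.exp (-(σ * (k : ℝ))) :=
      mul_le_mul_of_nonneg_left e3 (by positivity)
    have e5 : (2 / 5 * Real.exp (-(σ * M))) * ((3 / 5) / σ) =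
        (6 / 25) / σ * Real.exp (-(σ * M)) := by ring
    linarith
  have hpos : 0 < (6 / 25) / σ * Real.exp (-(σ * M)) := by positivity
  refine ⟨hpos.trans_le hRe, hIm.trans ?_⟩
  have h1 : 40 * σ * ((6 / 25) / σ * Real.exp (-(σ * M))) ≤ 40 * σ * (KK σ J u).re :=
    mul_le_mul_of_nonneg_left hRe (by positivity)
  have h2 : 40 * σ * ((6 / 25) / σ * Real.exp (-(σ * M))) = (240 / 25) * Real.exp (-(σ * M)) := by
    field_simp
    norm_num
  linarith

/-- total mass -/
lemma KK_norm_le (σ : ℝ) (J : ℕ) (u : ℝ) :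
    ‖KK σ J u‖ ≤ ∑ m ∈ range J, Real.exp (-(σ * m)) := by
  unfold KK
  refine (norm_sum_le _ _).trans (sum_le_sum ?_)
  intro m _
  rw [norm_mul, Complex.norm_real, Real.norm_of_nonneg (Real.exp_pos _).le]
  exact mul_le_of_le_one_right (Real.exp_pos _).le (norm_exp_om_le_one _)

/-- Smallness off the major arcs. PROOF: for `2 m ≤ J`: `|exp (om ..)| ≤ (B e^{-2m})^{-1/2} ≤
B^{-1/2} e^{J/2}`; for `2 m > J` use `e^{-σ m} ≤ e^{-σ J/2}` and `norm_exp_om_le_one`. -/
theorem KK_small (σ : ℝ) (hσ0 : 0 ≤ σ) (J : ℕ) (B u : ℝ) (hB : 0 < B) (hu : B ≤ |u|) :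
    ∑ m ∈ range J, Real.exp (-(σ * m)) * ‖Complex.exp (om (u * Real.exp (-(2 * m))))‖ ≤
      J * (Real.exp ((J : ℝ) / 2) / Real.sqrt B + Real.exp (-(σ * J / 2))) := by
  have hsB : 0 < Real.sqrt B := Real.sqrt_pos.2 hB
  have key : ∀ m ∈ range J,
      Real.exp (-(σ * m)) * ‖Complex.exp (om (u * Real.exp (-(2 * m))))‖ ≤
      Real.exp ((J : ℝ) / 2) / Real.sqrt B + Real.exp (-(σ * J / 2)) := by
    intro m _
    have p1 : 0 < Real.exp ((J : ℝ) / 2) / Real.sqrt B := by positivity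
    have p2 : 0 < Real.exp (-(σ * J / 2)) := Real.exp_pos _
    rcases le_or_gt (2 * (m : ℝ)) J with h | h
    · have h1 : Real.exp (-(σ * m)) ≤ 1 := Real.exp_le_one_iff.2 (by
        have : 0 ≤ σ * (m : ℝ) := by positivity
        linarith)
      have hu0 : 0 < |u| := hB.trans_le hu
      have hu1 : u ≠ 0 := abs_pos.1 hu0
      have h2 : ‖Complex.exp (om (u * Real.exp (-(2 * m))))‖ ≤
          Real.exp ((J : ℝ) / 2) / Real.sqrt B := by
        refine (norm_exp_om_le _ (mul_ne_zero hu1 (Real.exp_pos _).ne')).trans ?_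
        have h3 : |u * Real.exp (-(2 * m))| = |u| * Real.exp (-(2 * m)) := by
          rw [abs_mul, abs_of_pos (Real.exp_pos _)]
        have h4 : Real.sqrt (Real.exp (-(2 * m))) = Real.exp (-(m : ℝ)) := by
          rw [Real.sqrt_eq_iff_mul_self_eq (Real.exp_pos _).le (Real.exp_pos _).le,
            ← Real.exp_add]
          congr 1
          ring
        rw [h3, Real.sqrt_mul (abs_nonneg _), h4]
        have h5 : 1 / (Real.sqrt |u| * Real.exp (-(m : ℝ))) =
            Real.exp (m : ℝ) / Real.sqrt |u| := by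
          rw [Real.exp_neg]
          have := Real.exp_pos (m : ℝ)
          have := Real.sqrt_pos.2 hu0
          field_simp
        rw [h5]
        apply div_le_div₀ (Real.exp_pos _).le (Real.exp_le_exp.2 (by linarith)) hsB
        exact Real.sqrt_le_sqrt hu
      have h6 : 0 ≤ ‖Complex.exp (om (u * Real.exp (-(2 * m))))‖ := norm_nonneg _
      calc Real.exp (-(σ * m)) * ‖Complex.exp (om (u * Real.exp (-(2 * m))))‖
          ≤ 1 * (Real.exp ((J : ℝ) / 2) / Real.sqrt B) := mul_le_mul h1 h2 h6 zero_le_one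
        _ ≤ _ := by linarith
    · have h1 : Real.exp (-(σ * m)) ≤ Real.exp (-(σ * J / 2)) := by
        apply Real.exp_le_exp.2
        nlinarith
      calc Real.exp (-(σ * m)) * ‖Complex.exp (om (u * Real.exp (-(2 * m))))‖
          ≤ Real.exp (-(σ * J / 2)) * 1 :=
            mul_le_mul h1 (norm_exp_om_le_one _) (norm_nonneg _) p2.le
        _ ≤ _ := by linarith
  refine (sum_le_sum key).trans ?_
  rw [sum_const, card_range, nsmul_eq_mul]

end Pool.Agent.H.MP_b3c6db_nt
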