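import Pool.Agent.H.MP_b3c6db_nt.Circle
import Pool.Agent.H.MP_b3c6db_nt.SB.Arch

/-! Circle method for the sharp bound: the approximations at one `d`. -/

namespace Pool.Agent.H.MP_b3c6db_nt

open Finset Complex ArithmeticFunction

/-- the scales -/
noncomputable def Xm (X : ℝ) (m : ℕ) : ℝ := X * Real.exp (-(m : ℝ))

/-- the smoothed sum at `d` -/
noncomputable def ED (σ : ℝ) (J : ℕ) (X : ℝ) (d : ℕ) (x : ℝ) : ℂ :=
  ∑ m ∈ range J, ((Real.exp (-(σ * m)) : ℝ) : ℂ) *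
    ((((d : ℝ) / Xm X m : ℝ) : ℂ) * Th (Xm X m / d) ((d : ℝ) ^ 2 * x))

/-- the weighted Moebius combination -/
noncomputable def FV (VS : Finset ℕ) (h : ℕ → ℝ) (E : ℕ → ℂ) : ℂ :=
  ∑ v ∈ VS, ((h v : ℝ) : ℂ) * ∑ d ∈ v.divisors, ((moebius (v / d) : ℤ) : ℂ) * E d

/-- As `compare_sum`: each `v` has at most `|VS|` divisors (`VS` is divisor closed). -/
lemma FV_compare (VS : Finset ℕ) (hcl : ∀ v ∈ VS, ∀ d, d ∣ v → d ∈ VS) (h : ℕ → ℝ)
    (h0 : ∀ v, 0 ≤ h v) (h2 : ∀ v, h v ≤ 2) (E G : ℕ → ℂ) (η : ℝ) (hη : 0 ≤ η)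
    (hEG : ∀ d ∈ VS, ‖E d - G d‖ ≤ η) :
    ‖FV VS h E - FV VS h G‖ ≤ 2 * (VS.card : ℝ) ^ 2 * η := by
  unfold FV
  rw [← sum_sub_distrib]
  have h1 : ∀ v ∈ VS, ‖((h v : ℝ) : ℂ) * ∑ d ∈ v.divisors, ((moebius (v / d) : ℤ) : ℂ) * E d -
      ((h v : ℝ) : ℂ) * ∑ d ∈ v.divisors, ((moebius (v / d) : ℤ) : ℂ) * G d‖ ≤
        2 * (VS.card * η) := by
    intro v hv
    rw [← mul_sub, ← sum_sub_distrib, norm_mul, Complex.norm_real, Real.norm_eq_abs,
      abs_of_nonneg (h0 v)]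
    have h3 : ‖∑ d ∈ v.divisors, (((moebius (v / d) : ℤ) : ℂ) * E d -
        ((moebius (v / d) : ℤ) : ℂ) * G d)‖ ≤ VS.card * η := by
      refine (norm_sum_le _ _).trans ?_
      have h4 : ∀ d ∈ v.divisors, ‖((moebius (v / d) : ℤ) : ℂ) * E d -
        ((moebius (v / d) : ℤ) : ℂ) * G d‖ ≤ η := by
        intro d hd
        rw [← mul_sub, norm_mul]
        calc _ ≤ 1 * η := mul_le_mul (norm_moebius_le _)
              (hEG d (hcl v hv d (Nat.dvd_of_mem_divisors hd))) (norm_nonneg _) (by norm_num)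
          _ = η := one_mul _
      refine (sum_le_sum h4).trans ?_
      rw [sum_const, nsmul_eq_mul]
      apply mul_le_mul_of_nonneg_right _ hη
      have h5 : v.divisors.card ≤ VS.card :=
        card_le_card (fun d hd => hcl v hv d (Nat.dvd_of_mem_divisors hd))
      exact_mod_cast h5
    exact mul_le_mul (h2 v) h3 (norm_nonneg _) (by norm_num)
  refine (norm_sum_le _ _).trans ?_
  refine (sum_le_sum h1).trans ?_
  rw [sum_const, nsmul_eq_mul]
  apply le_of_eq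
  ring

lemma CirA_Xm_pos (X : ℝ) (hX : 0 < X) (m : ℕ) : 0 < Xm X m := by
  unfold Xm
  positivity

lemma CirA_Xm_le (X : ℝ) (hX : 0 < X) (m : ℕ) : Xm X m ≤ X := by
  unfold Xm
  have h : Real.exp (-(m : ℝ)) ≤ 1 := by
    rw [Real.exp_le_one_iff]
    have : (0 : ℝ) ≤ m := Nat.cast_nonneg m
    linarith
  calc X * Real.exp (-(m : ℝ)) ≤ X * 1 := mul_le_mul_of_nonneg_left h hX.le
    _ = X := mul_one X

lemma CirA_le_Xm (X : ℝ) (hX : 0 < X) (m J : ℕ) (hm : m < J) :
    X ≤ Real.exp J * Xm X m := by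
  unfold Xm
  have h : 1 ≤ Real.exp J * Real.exp (-(m : ℝ)) := by
    rw [← Real.exp_add, Real.one_le_exp_iff]
    have : (m : ℝ) ≤ J := by exact_mod_cast hm.le
    linarith
  calc X = X * 1 := (mul_one X).symm
    _ ≤ X * (Real.exp J * Real.exp (-(m : ℝ))) := mul_le_mul_of_nonneg_left h hX.le
    _ = _ := by ring

lemma CirA_sq (X : ℝ) (m : ℕ) (d : ℕ) (b : ℝ) :
    b * (Xm X m / d) ^ 2 = b * (X / d) ^ 2 * Real.exp (-(2 * m)) := by
  unfold Xm
  have h : Real.exp (-(2 * (m : ℝ))) = Real.exp (-(m : ℝ)) ^ 2 := by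
    rw [sq, ← Real.exp_add]
    congr 1
    ring
  rw [h]
  ring

/-- one term: PROOF: `Th_scaled` (Circle.lean) with `X := Xm X m`, `D := d`, and
`Xm X m ≥ X e^{-J}` for `m < J`; `β' (Xm/d)² = β' (X/d)² e^{-2m}`. -/
lemma term_approx (J m : ℕ) (hm : m < J) (X : ℝ) (hX : 0 < X) (d : ℕ) (hd : 1 ≤ d) (x : ℝ)
    (r' : ℚ) (β' : ℝ) (hx : (d : ℝ) ^ 2 * x = r' + β') (hq : (r'.den : ℝ) ≤ Xm X m / d)
    (hβ : |β'| * (r'.den * (Xm X m / d)) ≤ 1) :
    ‖(((d : ℝ) / Xm X m : ℝ) : ℂ) * Th (Xm X m / d) ((d : ℝ) ^ 2 * x) -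
      Complex.exp (om (β' * (X / d) ^ 2 * Real.exp (-(2 * m)))) * gG r'‖ ≤
      7 * Real.sqrt (d * Real.exp J / X) := by
  have hp := CirA_Xm_pos X hX m
  have h := Th_scaled r' β' (Xm X m) d d hd le_rfl hp hq hβ
  rw [CirA_sq, ← hx] at h
  refine h.trans ?_
  apply mul_le_mul_of_nonneg_left _ (by norm_num)
  apply Real.sqrt_le_sqrt
  rw [div_le_div_iff₀ hp hX]
  have h1 := CirA_le_Xm X hX m J hm
  calc (d : ℝ) * X ≤ d * (Real.exp J * Xm X m) := by gcongr
    _ = d * Real.exp J * Xm X m := by ring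

lemma CirA_w_le_one (σ : ℝ) (hσ : 0 ≤ σ) (m : ℕ) : Real.exp (-(σ * m)) ≤ 1 := by
  rw [Real.exp_le_one_iff]
  have : (0 : ℝ) ≤ σ * m := by positivity
  linarith

/-- The good case: `den r' ≤ B`, `|β'| (X/d)² ≤ B`. PROOF: `term_approx` for every `m`:
`den r' ≤ B ≤ X e^{-J}/d` and `|β'| den r' Xm/d ≤ (B d²/X²) B (X/d) = B² d/X ≤ 1`. Sum with
weights `≤ 1`. -/
lemma ED_good (σ : ℝ) (hσ : 0 ≤ σ) (J : ℕ) (X B : ℝ) (hX : 0 < X) (hB : 1 ≤ B) (d : ℕ)
    (hd : 1 ≤ d) (hdX : B ^ 2 * d * Real.exp J ≤ X) (x : ℝ) (r' : ℚ) (β' : ℝ)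
    (hx : (d : ℝ) ^ 2 * x = r' + β') (hr : (r'.den : ℝ) ≤ B) (hβ : |β'| * (X / d) ^ 2 ≤ B) :
    ‖ED σ J X d x - KK σ J (β' * (X / d) ^ 2) * gG r'‖ ≤ J * (7 * Real.sqrt (d * Real.exp J / X)) := by
  have hd0 : (0 : ℝ) < d := by exact_mod_cast hd
  unfold ED KK
  rw [sum_mul, ← sum_sub_distrib]
  refine (norm_sum_le _ _).trans ?_
  have h1 : ∀ m ∈ range J, ‖((Real.exp (-(σ * m)) : ℝ) : ℂ) *
      ((((d : ℝ) / Xm X m : ℝ) : ℂ) * Th (Xm X m / d) ((d : ℝ) ^ 2 * x)) -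
      ((Real.exp (-(σ * m)) : ℝ) : ℂ) *
        Complex.exp (om (β' * (X / d) ^ 2 * Real.exp (-(2 * m)))) * gG r'‖ ≤
      7 * Real.sqrt (d * Real.exp J / X) := by
    intro m hm
    have hmJ : m < J := mem_range.mp hm
    have hp := CirA_Xm_pos X hX m
    have hle := CirA_Xm_le X hX m
    have hge := CirA_le_Xm X hX m J hmJ
    have hBX : B ^ 2 * d ≤ Xm X m := by
      have : Real.exp J * (B ^ 2 * d) ≤ Real.exp J * Xm X m := by
        calc Real.exp J * (B ^ 2 * d) = B ^ 2 * d * Real.exp J := by ring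
          _ ≤ X := hdX
          _ ≤ _ := hge
      exact le_of_mul_le_mul_left this (Real.exp_pos _)
    have hq : (r'.den : ℝ) ≤ Xm X m / d := by
      rw [le_div_iff₀ hd0]
      calc (r'.den : ℝ) * d ≤ B * d := by gcongr
        _ ≤ B ^ 2 * d := by
          apply mul_le_mul_of_nonneg_right _ hd0.le
          nlinarith
        _ ≤ _ := hBX
    have hb : |β'| * (r'.den * (Xm X m / d)) ≤ 1 := by
      have h4 : |β'| ≤ B / (X / d) ^ 2 := by
        rw [le_div_iff₀ (by positivity)]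
        exact hβ
      calc |β'| * (r'.den * (Xm X m / d)) ≤ B / (X / d) ^ 2 * (B * (X / d)) := by
            gcongr
        _ = B ^ 2 * d / X := by
            field_simp
        _ ≤ 1 := by
            rw [div_le_one hX]
            exact hBX.trans hle
    have h2 := term_approx J m hmJ X hX d hd x r' β' hx hq hb
    rw [mul_assoc, ← mul_sub, norm_mul, Complex.norm_real, Real.norm_eq_abs,
      abs_of_pos (Real.exp_pos _)]
    calc _ ≤ 1 * (7 * Real.sqrt (d * Real.exp J / X)) :=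
          mul_le_mul (CirA_w_le_one σ hσ m) h2 (norm_nonneg _) (by norm_num)
      _ = _ := one_mul _
  refine (sum_le_sum h1).trans ?_
  rw [sum_const, nsmul_eq_mul, card_range]

/-- The bad case. PROOF: for each `m` take the Dirichlet approximation `r'` of `d² x` at level
`⌊Xm/d⌋` (`Real.exists_rat_abs_sub_le_and_den_le`, as in `circle`), `term_approx`. If
`den r' > B` then `‖gG r'‖ ≤ √(2/B)` (`norm_gG_le`). If `den r' ≤ B` then `|β'| (X/d)² > B`, and
with `u = β' (X/d)²`: for `2m ≤ J`, `‖exp (om (u e^{-2m}))‖ ≤ 1/√(B e^{-2m}) ≤ e^{J/2}/√B`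
(`norm_exp_om_le`); for `2m > J` the weight is `e^{-σ m} ≤ e^{-σ J/2}`. -/
lemma ED_bad (σ : ℝ) (hσ : 0 ≤ σ) (J : ℕ) (X B : ℝ) (hX : 0 < X) (hB : 1 ≤ B) (d : ℕ)
    (hd : 1 ≤ d) (hdX : B ^ 2 * d * Real.exp J ≤ X) (x : ℝ)
    (hbad : ∀ r' : ℚ, (r'.den : ℝ) ≤ B → B < |(d : ℝ) ^ 2 * x - r'| * (X / d) ^ 2) :
    ‖ED σ J X d x‖ ≤ J * (7 * Real.sqrt (d * Real.exp J / X) + Real.sqrt (2 / B) +
      (Real.exp ((J : ℝ) / 2) / Real.sqrt B + Real.exp (-(σ * J / 2)))) := by
  have hd0 : (0 : ℝ) < d := by exact_mod_cast hd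
  have hB0 : 0 < B := by linarith
  have hsB : 0 < Real.sqrt B := Real.sqrt_pos.mpr hB0
  unfold ED
  refine (norm_sum_le _ _).trans ?_
  have h1 : ∀ m ∈ range J, ‖((Real.exp (-(σ * m)) : ℝ) : ℂ) *
      ((((d : ℝ) / Xm X m : ℝ) : ℂ) * Th (Xm X m / d) ((d : ℝ) ^ 2 * x))‖ ≤
      7 * Real.sqrt (d * Real.exp J / X) + Real.sqrt (2 / B) +
      (Real.exp ((J : ℝ) / 2) / Real.sqrt B + Real.exp (-(σ * J / 2))) := by
    intro m hm
    have hmJ : m < J := mem_range.mp hm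
    have hp := CirA_Xm_pos X hX m
    have hge := CirA_le_Xm X hX m J hmJ
    have hBX : B ^ 2 * d ≤ Xm X m := by
      have : Real.exp J * (B ^ 2 * d) ≤ Real.exp J * Xm X m := by
        calc Real.exp J * (B ^ 2 * d) = B ^ 2 * d * Real.exp J := by ring
          _ ≤ X := hdX
          _ ≤ _ := hge
      exact le_of_mul_le_mul_left this (Real.exp_pos _)
    have hM1 : 1 ≤ Xm X m / d := by
      rw [le_div_iff₀ hd0]
      calc 1 * (d : ℝ) ≤ B ^ 2 * d := by
            apply mul_le_mul_of_nonneg_right _ hd0.le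
            nlinarith
        _ ≤ _ := hBX
    have hfl : 0 < ⌊Xm X m / d⌋₊ := Nat.floor_pos.mpr hM1
    obtain ⟨r, hr1, hr2⟩ := Real.exists_rat_abs_sub_le_and_den_le ((d : ℝ) ^ 2 * x) hfl
    have hden0 : (0 : ℝ) < r.den := by exact_mod_cast r.den_pos
    have hr2' : (r.den : ℝ) ≤ Xm X m / d := by
      calc (r.den : ℝ) ≤ (⌊Xm X m / d⌋₊ : ℝ) := by exact_mod_cast hr2
        _ ≤ Xm X m / d := Nat.floor_le (by positivity)
    set β : ℝ := (d : ℝ) ^ 2 * x - r with hβ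
    have hβ1 : |β| * (r.den * (Xm X m / d)) ≤ 1 := by
      have h1 : Xm X m / d ≤ (⌊Xm X m / d⌋₊ : ℝ) + 1 := (Nat.lt_floor_add_one _).le
      calc |β| * (r.den * (Xm X m / d)) ≤ 1 / (((⌊Xm X m / d⌋₊ : ℝ) + 1) * r.den) *
            (r.den * ((⌊Xm X m / d⌋₊ : ℝ) + 1)) := by
            gcongr
        _ = 1 := by
            field_simp
    have e1 : (d : ℝ) ^ 2 * x = (r : ℝ) + β := by rw [hβ]; ring
    have h3 := term_approx J m hmJ X hX d hd x r β e1 hr2' hβ1
    have hw := CirA_w_le_one σ hσ m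
    have hw0 : 0 < Real.exp (-(σ * m)) := Real.exp_pos _
    set T : ℂ := (((d : ℝ) / Xm X m : ℝ) : ℂ) * Th (Xm X m / d) ((d : ℝ) ^ 2 * x) with hT
    set Y : ℂ := Complex.exp (om (β * (X / d) ^ 2 * Real.exp (-(2 * m)))) with hY
    have hY1 : ‖Y‖ ≤ 1 := norm_exp_om_le_one _
    have hg1 : ‖gG r‖ ≤ 1 := norm_gG_le_one r
    have hA0 : 0 ≤ Real.exp ((J : ℝ) / 2) / Real.sqrt B := by positivity
    have hA1 : 0 ≤ Real.exp (-(σ * J / 2)) := (Real.exp_pos _).le
    have hA2 : 0 ≤ Real.sqrt (2 / B) := Real.sqrt_nonneg _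
    have hmain : Real.exp (-(σ * m)) * ‖Y * gG r‖ ≤ Real.sqrt (2 / B) +
        (Real.exp ((J : ℝ) / 2) / Real.sqrt B + Real.exp (-(σ * J / 2))) := by
      rw [norm_mul]
      by_cases hcase : (r.den : ℝ) ≤ B
      · have h5 := hbad r hcase
        by_cases h2m : 2 * m ≤ J
        · -- the exponential is small
          have hu : B * Real.exp (-(2 * (m : ℝ))) ≤
              |β * (X / d) ^ 2 * Real.exp (-(2 * (m : ℝ)))| := by
            rw [abs_mul, abs_mul, abs_of_pos (Real.exp_pos _),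
              abs_of_nonneg (by positivity : (0 : ℝ) ≤ (X / d) ^ 2)]
            exact mul_le_mul_of_nonneg_right h5.le (Real.exp_pos _).le
          have hne : β * (X / d) ^ 2 * Real.exp (-(2 * (m : ℝ))) ≠ 0 := by
            intro h0
            rw [h0, abs_zero] at hu
            have : 0 < B * Real.exp (-(2 * (m : ℝ))) := by positivity
            linarith
          have h6 := norm_exp_om_le _ hne
          have h7 : Real.sqrt B * Real.exp (-(m : ℝ)) ≤
              Real.sqrt |β * (X / d) ^ 2 * Real.exp (-(2 * (m : ℝ)))| := by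
            apply Real.le_sqrt_of_sq_le
            rw [mul_pow, Real.sq_sqrt hB0.le]
            have h8 : Real.exp (-(m : ℝ)) ^ 2 = Real.exp (-(2 * (m : ℝ))) := by
              rw [sq, ← Real.exp_add]
              congr 1
              ring
            rw [h8]
            exact hu
          have h9 : ‖Y‖ ≤ Real.exp ((J : ℝ) / 2) / Real.sqrt B := by
            calc ‖Y‖ ≤ 1 / Real.sqrt |β * (X / d) ^ 2 * Real.exp (-(2 * (m : ℝ)))| := h6
              _ ≤ 1 / (Real.sqrt B * Real.exp (-(m : ℝ))) :=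
                  one_div_le_one_div_of_le (by positivity) h7
              _ = Real.exp m / Real.sqrt B := by
                  rw [Real.exp_neg]
                  field_simp
              _ ≤ Real.exp ((J : ℝ) / 2) / Real.sqrt B := by
                  apply div_le_div_of_nonneg_right _ hsB.le
                  apply Real.exp_le_exp.mpr
                  have : (2 : ℝ) * m ≤ J := by exact_mod_cast h2m
                  linarith
          have h10 : ‖Y‖ * ‖gG r‖ ≤ Real.exp ((J : ℝ) / 2) / Real.sqrt B := by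
            calc ‖Y‖ * ‖gG r‖ ≤ Real.exp ((J : ℝ) / 2) / Real.sqrt B * 1 :=
                  mul_le_mul h9 hg1 (norm_nonneg _) hA0
              _ = _ := mul_one _
          calc Real.exp (-(σ * m)) * (‖Y‖ * ‖gG r‖)
              ≤ 1 * (Real.exp ((J : ℝ) / 2) / Real.sqrt B) :=
                mul_le_mul hw h10 (by positivity) (by norm_num)
            _ ≤ _ := by linarith
        · have h6 : Real.exp (-(σ * m)) ≤ Real.exp (-(σ * J / 2)) := by
            apply Real.exp_le_exp.mpr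
            have h7 : (J : ℝ) ≤ 2 * m := by
              have : J ≤ 2 * m := by omega
              exact_mod_cast this
            nlinarith
          have h10 : ‖Y‖ * ‖gG r‖ ≤ 1 := by
            calc ‖Y‖ * ‖gG r‖ ≤ 1 * 1 := mul_le_mul hY1 hg1 (norm_nonneg _) (by norm_num)
              _ = 1 := one_mul 1
          calc Real.exp (-(σ * m)) * (‖Y‖ * ‖gG r‖) ≤ Real.exp (-(σ * J / 2)) * 1 :=
                mul_le_mul h6 h10 (by positivity) hA1
            _ ≤ _ := by linarith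
      · have h6 : ‖gG r‖ ≤ Real.sqrt (2 / B) := by
          refine (norm_gG_le r).trans ?_
          apply Real.sqrt_le_sqrt
          apply div_le_div_of_nonneg_left (by norm_num) (by linarith)
          exact (not_le.mp hcase).le
        have h10 : ‖Y‖ * ‖gG r‖ ≤ Real.sqrt (2 / B) := by
          calc ‖Y‖ * ‖gG r‖ ≤ 1 * Real.sqrt (2 / B) :=
                mul_le_mul hY1 h6 (norm_nonneg _) (by norm_num)
            _ = _ := one_mul _
        calc Real.exp (-(σ * m)) * (‖Y‖ * ‖gG r‖) ≤ 1 * Real.sqrt (2 / B) :=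
              mul_le_mul hw h10 (by positivity) (by norm_num)
          _ ≤ _ := by linarith
    have h11 : ‖T‖ ≤ 7 * Real.sqrt (d * Real.exp J / X) + ‖Y * gG r‖ := by
      have h12 := norm_add_le (T - Y * gG r) (Y * gG r)
      rw [sub_add_cancel] at h12
      linarith
    rw [norm_mul, Complex.norm_real, Real.norm_eq_abs, abs_of_pos hw0]
    have h13 : 0 ≤ 7 * Real.sqrt (d * Real.exp J / X) := by positivity
    calc Real.exp (-(σ * m)) * ‖T‖
        ≤ Real.exp (-(σ * m)) * (7 * Real.sqrt (d * Real.exp J / X) + ‖Y * gG r‖) :=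
          mul_le_mul_of_nonneg_left h11 hw0.le
      _ = Real.exp (-(σ * m)) * (7 * Real.sqrt (d * Real.exp J / X)) +
          Real.exp (-(σ * m)) * ‖Y * gG r‖ := by ring
      _ ≤ 1 * (7 * Real.sqrt (d * Real.exp J / X)) + (Real.sqrt (2 / B) +
        (Real.exp ((J : ℝ) / 2) / Real.sqrt B + Real.exp (-(σ * J / 2)))) :=
          add_le_add (mul_le_mul_of_nonneg_right hw h13) hmain
      _ = _ := by ring
  refine (sum_le_sum h1).trans ?_
  rw [sum_const, nsmul_eq_mul, card_range]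

end Pool.Agent.H.MP_b3c6db_nt
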