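import Mathlib

/-! Poisson distribution function (sharp upper bound). -/

namespace Pool.Agent.H.MP_b3c6db_nt

open Finset

/-- `P(N ≤ j - 1)` for a Poisson variable of mean `s`. -/
noncomputable def pois (j : ℕ) (s : ℝ) : ℝ :=
  Real.exp (-s) * ∑ i ∈ range j, s ^ i / (i.factorial : ℝ)

/-- `Om j s = ∑_{1 ≤ i ≤ j} pois i s`. -/
noncomputable def Om (j : ℕ) (s : ℝ) : ℝ := ∑ i ∈ range j, pois (i + 1) s

lemma pois_zero (s : ℝ) : pois 0 s = 0 := by simp [pois]

lemma Om_zero (s : ℝ) : Om 0 s = 0 := by simp [Om]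

lemma pois_nonneg (j : ℕ) {s : ℝ} (hs : 0 ≤ s) : 0 ≤ pois j s := by
  unfold pois
  positivity

lemma pois_succ (j : ℕ) (s : ℝ) : pois (j + 1) s = pois j s + Real.exp (-s) * (s ^ j / (j.factorial : ℝ)) := by
  unfold pois
  rw [sum_range_succ, mul_add]

lemma pois_mono {i j : ℕ} (hij : i ≤ j) {s : ℝ} (hs : 0 ≤ s) : pois i s ≤ pois j s := by
  unfold pois
  refine mul_le_mul_of_nonneg_left ?_ (Real.exp_pos _).le
  refine sum_le_sum_of_subset_of_nonneg (range_subset_range.2 hij) fun i _ _ => by positivity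

lemma pois_le_one (j : ℕ) {s : ℝ} (hs : 0 ≤ s) : pois j s ≤ 1 := by
  unfold pois
  have h := Real.sum_le_exp_of_nonneg hs j
  calc Real.exp (-s) * ∑ i ∈ range j, s ^ i / (i.factorial : ℝ) ≤ Real.exp (-s) * Real.exp s :=
        mul_le_mul_of_nonneg_left h (Real.exp_pos _).le
    _ = 1 := by rw [← Real.exp_add, neg_add_cancel, Real.exp_zero]

lemma hasDerivAt_pois (j : ℕ) (s : ℝ) :
    HasDerivAt (pois (j + 1)) (-(Real.exp (-s) * (s ^ j / (j.factorial : ℝ)))) s := by
  induction j with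
  | zero =>
    have h1 : pois (0 + 1) = fun s => Real.exp (-s) := by
      funext s
      simp [pois]
    rw [h1]
    have h2 : HasDerivAt (fun s : ℝ => Real.exp (-s)) (Real.exp (-s) * (-1)) s :=
      ((hasDerivAt_id s).neg).exp
    refine h2.congr_deriv ?_
    simp
  | succ j ih =>
    have h1 : pois (j + 1 + 1) = fun s => pois (j + 1) s + Real.exp (-s) * (s ^ (j + 1) / ((j + 1).factorial : ℝ)) := by
      funext s
      rw [pois_succ]
    rw [h1]
    have h2 : HasDerivAt (fun s : ℝ => Real.exp (-s)) (Real.exp (-s) * (-1)) s :=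
      ((hasDerivAt_id s).neg).exp
    have h3 : HasDerivAt (fun s : ℝ => s ^ (j + 1) / ((j + 1).factorial : ℝ))
        (((j + 1 : ℕ) : ℝ) * s ^ j / ((j + 1).factorial : ℝ)) s := by
      have := (hasDerivAt_pow (j + 1) s).div_const ((j + 1).factorial : ℝ)
      simpa using this
    refine (ih.add (h2.mul h3)).congr_deriv ?_
    have h4 : ((j + 1).factorial : ℝ) = ((j + 1 : ℕ) : ℝ) * (j.factorial : ℝ) := by
      rw [Nat.factorial_succ]; push_cast; ring
    have h5 : (j.factorial : ℝ) ≠ 0 := by positivity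
    have h6 : ((j + 1 : ℕ) : ℝ) ≠ 0 := by positivity
    rw [h4]
    field_simp
    ring

lemma hasDerivAt_Om (j : ℕ) (s : ℝ) : HasDerivAt (Om j) (-(pois j s)) s := by
  induction j with
  | zero =>
    have h1 : Om 0 = fun _ => 0 := by funext s; exact Om_zero s
    rw [h1, pois_zero, neg_zero]
    exact hasDerivAt_const s 0
  | succ j ih =>
    have h1 : Om (j + 1) = fun s => Om j s + pois (j + 1) s := by
      funext s
      simp [Om, sum_range_succ]
    rw [h1]
    refine (ih.add (hasDerivAt_pois j s)).congr_deriv ?_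
    rw [pois_succ]
    ring

lemma Om_nonneg (j : ℕ) {s : ℝ} (hs : 0 ≤ s) : 0 ≤ Om j s :=
  sum_nonneg fun i _ => pois_nonneg (i + 1) hs

lemma poisTerm_le (j : ℕ) {s : ℝ} (hs : 0 ≤ s) :
    Real.exp (-s) * (s ^ j / (j.factorial : ℝ)) ≤ pois (j + 1) s := by
  rw [pois_succ]
  have := pois_nonneg j hs
  linarith

lemma pois_anti (j : ℕ) {s s' : ℝ} (hs : 0 ≤ s) (hss : s ≤ s') : pois j s' ≤ pois j s := by
  rcases j with _ | j
  · rw [pois_zero, pois_zero]
  · have h : AntitoneOn (pois (j + 1)) (Set.Ici 0) := by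
      refine antitoneOn_of_deriv_nonpos (convex_Ici 0)
        (fun x _ => (hasDerivAt_pois j x).continuousAt.continuousWithinAt)
        (fun x _ => (hasDerivAt_pois j x).differentiableAt.differentiableWithinAt) ?_
      intro x hx
      rw [interior_Ici] at hx
      have hx' : 0 < x := hx
      rw [(hasDerivAt_pois j x).deriv]
      have : 0 ≤ Real.exp (-x) * (x ^ j / (j.factorial : ℝ)) := by positivity
      linarith
    exact h (Set.mem_Ici.2 hs) (Set.mem_Ici.2 (hs.trans hss)) hss

lemma Om_anti (j : ℕ) {s s' : ℝ} (hs : 0 ≤ s) (hss : s ≤ s') : Om j s' ≤ Om j s :=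
  sum_le_sum fun i _ => pois_anti (i + 1) hs hss

/-- increments beyond `m` are at least `pois (m + 1) s` -/
lemma Om_ge (j m : ℕ) {s : ℝ} (hs : 0 ≤ s) : ((j - m : ℕ) : ℝ) * pois (m + 1) s ≤ Om j s := by
  rcases le_total j m with h | h
  · rw [Nat.sub_eq_zero_of_le h]
    simp only [Nat.cast_zero, zero_mul]
    exact Om_nonneg j hs
  · obtain ⟨d, rfl⟩ := Nat.exists_eq_add_of_le h
    rw [Nat.add_sub_cancel_left]
    unfold Om
    rw [sum_range_add]
    have h1 : 0 ≤ ∑ i ∈ range m, pois (i + 1) s := sum_nonneg fun i _ => pois_nonneg _ hs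
    have h2 : ∑ i ∈ range d, pois (m + 1) s ≤ ∑ i ∈ range d, pois (m + i + 1) s :=
      sum_le_sum fun i _ => pois_mono (by omega) hs
    rw [sum_const, card_range, nsmul_eq_mul] at h2
    linarith

/-- difference of consecutive values of `Om` -/
lemma Om_succ (j : ℕ) (s : ℝ) : Om (j + 1) s = Om j s + pois (j + 1) s := by
  simp [Om, sum_range_succ]

lemma continuous_pois (j : ℕ) : Continuous (pois j) := by
  unfold pois
  fun_prop

lemma continuous_Om (j : ℕ) : Continuous (Om j) := by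
  unfold Om
  exact continuous_finset_sum _ fun i _ => continuous_pois (i + 1)

end Pool.Agent.H.MP_b3c6db_nt
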