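import Pool.Agent.H.MP_b3c6db_nt.Euler
import Pool.Agent.H.MP_b3c6db_nt.LocalPrime
import Pool.Agent.H.MP_b3c6db_nt.SB.Pois

/-! Euler products with general multiplicative weights. -/

namespace Pool.Agent.H.MP_b3c6db_nt

open Finset Complex ArithmeticFunction

/-- the multiplicative weight with values `a p e` at the prime powers. -/
noncomputable def Amul {R : Type*} [CommSemiring R] (a : ℕ → ℕ → R) (v : ℕ) : R :=
  v.factorization.prod (fun p e => a p e)

/-- PROOF: `Finsupp.prod_add_index_of_disjoint` (coprime numbers). -/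
lemma Amul_mul {R : Type*} [CommSemiring R] (a : ℕ → ℕ → R) {m n : ℕ} (h : Nat.Coprime m n) :
    Amul a (m * n) = Amul a m * Amul a n := by
  unfold Amul
  rw [Nat.factorization_mul_of_coprime h, Finsupp.prod_add_index_of_disjoint]
  rw [Nat.support_factorization, Nat.support_factorization]
  exact h.disjoint_primeFactors

lemma Amul_prime_pow {R : Type*} [CommSemiring R] (a : ℕ → ℕ → R) (h0 : ∀ p, a p 0 = 1) {p : ℕ}
    (hp : p.Prime) (e : ℕ) : Amul a (p ^ e) = a p e := by
  unfold Amul
  rw [hp.factorization_pow, Finsupp.prod_single_index (h0 p)]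

lemma Amul_one {R : Type*} [CommSemiring R] (a : ℕ → ℕ → R) : Amul a 1 = 1 := by
  simp [Amul]

/-- product of weights. -/
lemma Amul_mul_fun {R : Type*} [CommSemiring R] (a b : ℕ → ℕ → R) (v : ℕ) :
    Amul (fun p e => a p e * b p e) v = Amul a v * Amul b v := by
  unfold Amul
  rw [Finsupp.prod_mul]

lemma Amul_ofReal (a : ℕ → ℕ → ℝ) (v : ℕ) :
    Amul (fun p e => ((a p e : ℝ) : ℂ)) v = ((Amul a v : ℝ) : ℂ) := by
  unfold Amul Finsupp.prod
  push_cast
  rfl

lemma Amul_nonneg (a : ℕ → ℕ → ℝ) (ha : ∀ p e, 0 ≤ a p e) (v : ℕ) : 0 ≤ Amul a v := by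
  unfold Amul Finsupp.prod
  exact prod_nonneg fun p _ => ha p _

lemma Amul_le_one (a : ℕ → ℕ → ℝ) (ha : ∀ p e, 0 ≤ a p e) (ha1 : ∀ p e, p.Prime → a p e ≤ 1) (v : ℕ) :
    Amul a v ≤ 1 := by
  unfold Amul Finsupp.prod
  refine prod_le_one (fun p _ => ha p _) fun p hp => ha1 p _ ?_
  rw [Nat.support_factorization] at hp
  exact Nat.prime_of_mem_primeFactors hp

/-- The analogue of `euler_struct` (Euler.lean): same proof (induction on `q`,
`Nat.recOnPosPrimePosCoprime`, `Dlt_mul`, `split_rat`, `sum_divisors_coprime`), with `Arho` replaced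
by `Amul`. -/
theorem euler_gen {R : Type*} [CommSemiring R] (N : ℂ →* R) (q : ℕ) (hq : q ≠ 0) :
    ∀ r : ℚ, r.den = q → ∃ rp : ℕ → ℚ,
      (∀ p ∈ q.primeFactors, (rp p).den = p ^ (q.factorization p)) ∧
      ∀ a : ℕ → ℕ → R, (∀ p, a p 0 = 1) → ∑ v ∈ q.divisors, Amul a v * N (Dlt v r) =
        ∏ p ∈ q.primeFactors, ∑ e ∈ range (q.factorization p + 1),
          a p e * N (Dlt (p ^ e) (rp p)) := by
  induction q using Nat.recOnPosPrimePosCoprime with
  | prime_pow p n hp hn =>
    intro r hr
    refine ⟨fun _ => r, ?_, ?_⟩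
    · intro p' hp'
      rw [Nat.primeFactors_prime_pow hn.ne' hp, mem_singleton] at hp'
      subst hp'
      rw [hr, hp.factorization_pow]
      simp
    · intro a_ h0
      rw [Nat.primeFactors_prime_pow hn.ne' hp, Finset.prod_singleton,
        Nat.sum_divisors_prime_pow hp, hp.factorization_pow]
      simp only [Finsupp.single_eq_same]
      apply sum_congr rfl
      intro e _
      rw [Amul_prime_pow a_ h0 hp]
  | zero => exact absurd rfl hq
  | one =>
    intro r hr
    refine ⟨fun _ => r, by simp, ?_⟩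
    intro a_ h0
    simp [Amul_one, h0, Dlt_one, gG_of_den_one r hr]
  | coprime a b ha hb hab iha ihb =>
    intro r hr
    obtain ⟨r₁, r₂, hsum, h1, h2⟩ := split_rat a b (by omega) (by omega) hab r hr
    obtain ⟨rpa, ha1, ha2⟩ := iha (by omega) r₁ h1
    obtain ⟨rpb, hb1, hb2⟩ := ihb (by omega) r₂ h2
    refine ⟨fun p => if p ∣ a then rpa p else rpb p, ?_, ?_⟩
    · intro p hp
      rw [Nat.Coprime.primeFactors_mul hab, mem_union] at hp
      rcases hp with hp | hp
      · have hpa : p ∣ a := Nat.dvd_of_mem_primeFactors hp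
        have hpp : p.Prime := Nat.prime_of_mem_primeFactors hp
        simp only [if_pos hpa]
        rw [ha1 p hp, Nat.factorization_mul (by omega) (by omega)]
        have : b.factorization p = 0 := by
          apply Nat.factorization_eq_zero_of_not_dvd
          exact (Nat.Prime.coprime_iff_not_dvd hpp).mp (Nat.Coprime.coprime_dvd_left hpa hab)
        simp [this]
      · have hpb : p ∣ b := Nat.dvd_of_mem_primeFactors hp
        have hpp : p.Prime := Nat.prime_of_mem_primeFactors hp
        have hpa : ¬ p ∣ a :=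
          (Nat.Prime.coprime_iff_not_dvd hpp).mp (Nat.Coprime.coprime_dvd_left hpb hab.symm)
        simp only [if_neg hpa]
        rw [hb1 p hp, Nat.factorization_mul (by omega) (by omega)]
        have : a.factorization p = 0 := Nat.factorization_eq_zero_of_not_dvd hpa
        simp [this]
    · intro a_ h0
      rw [sum_divisors_coprime _ a b hab, Nat.Coprime.primeFactors_mul hab,
        Finset.prod_union hab.disjoint_primeFactors]
      have e1 : ∏ p ∈ a.primeFactors, ∑ e ∈ range ((a * b).factorization p + 1),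
          a_ p e * N (Dlt (p ^ e) (if p ∣ a then rpa p else rpb p)) =
          ∏ p ∈ a.primeFactors, ∑ e ∈ range (a.factorization p + 1),
          a_ p e * N (Dlt (p ^ e) (rpa p)) := by
        apply prod_congr rfl
        intro p hp
        have hpa : p ∣ a := Nat.dvd_of_mem_primeFactors hp
        have hpp : p.Prime := Nat.prime_of_mem_primeFactors hp
        have : b.factorization p = 0 := by
          apply Nat.factorization_eq_zero_of_not_dvd
          exact (Nat.Prime.coprime_iff_not_dvd hpp).mp (Nat.Coprime.coprime_dvd_left hpa hab)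
        rw [Nat.factorization_mul (by omega) (by omega)]
        simp [this, hpa]
      have e2 : ∏ p ∈ b.primeFactors, ∑ e ∈ range ((a * b).factorization p + 1),
          a_ p e * N (Dlt (p ^ e) (if p ∣ a then rpa p else rpb p)) =
          ∏ p ∈ b.primeFactors, ∑ e ∈ range (b.factorization p + 1),
          a_ p e * N (Dlt (p ^ e) (rpb p)) := by
        apply prod_congr rfl
        intro p hp
        have hpb : p ∣ b := Nat.dvd_of_mem_primeFactors hp
        have hpp : p.Prime := Nat.prime_of_mem_primeFactors hp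
        have hpa : ¬ p ∣ a :=
          (Nat.Prime.coprime_iff_not_dvd hpp).mp (Nat.Coprime.coprime_dvd_left hpb hab.symm)
        have : a.factorization p = 0 := Nat.factorization_eq_zero_of_not_dvd hpa
        rw [Nat.factorization_mul (by omega) (by omega)]
        simp [this, hpa]
      rw [e1, e2, ← ha2 a_ h0, ← hb2 a_ h0, sum_mul_sum]
      apply sum_congr rfl
      intro v₁ hv₁
      apply sum_congr rfl
      intro v₂ hv₂
      rw [Nat.mem_divisors] at hv₁ hv₂
      have hv₁0 : v₁ ≠ 0 := by
        rintro rfl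
        exact hv₁.2 (Nat.eq_zero_of_zero_dvd hv₁.1)
      have hv₂0 : v₂ ≠ 0 := by
        rintro rfl
        exact hv₂.2 (Nat.eq_zero_of_zero_dvd hv₂.1)
      rw [Amul_mul a_ (Nat.Coprime.coprime_dvd_left hv₁.1 (Nat.Coprime.coprime_dvd_right hv₂.1 hab)), hsum, Dlt_mul v₁ v₂ r₁ r₂ (by rw [h1]; exact hv₁.1)
        (by rw [h2]; exact hv₂.1) (by rw [h1, h2]; exact hab), map_mul]
      ring

/-- The sum at one prime for general weights: same proof as `local_sum_eq` (LocalPrime.lean): the initial
sums `∑_{e ≤ n} a e Dlt (p^e) r = a n G_n + ∑_{e < n} (a e - a (e+1)) G_e` (`Dlt_prime_pow`,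
`Dlt_one`, Abel summation), and `G_e = 1` for `e ≥ J` (`Ge_one`), telescoping. -/
theorem local_sum_gen (p k : ℕ) (r : ℚ) (hp : p.Prime) (hr : r.den = p ^ k) (J : ℕ)
    (hJ1 : k ≤ 2 * J) (hJ2 : J ≤ k) (a : ℕ → ℂ) :
    ∑ e ∈ range (k + 1), a e * Dlt (p ^ e) r =
      a J + ∑ e ∈ range J, (a e - a (e + 1)) * Ge p r e := by
  have key : ∀ n, ∑ e ∈ range (n + 1), a e * Dlt (p ^ e) r =
      a n * Ge p r n + ∑ e ∈ range n, (a e - a (e + 1)) * Ge p r e := by
    intro n
    induction n with
    | zero =>
      simp [Dlt_one, Ge]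
    | succ n ih =>
      rw [Finset.sum_range_succ, ih, Dlt_prime_pow p n hp, Finset.sum_range_succ (n := n)]
      have h1 : gG (((p : ℚ) ^ (n + 1)) ^ 2 * r) = Ge p r (n + 1) := rfl
      have h2 : gG (((p : ℚ) ^ n) ^ 2 * r) = Ge p r n := rfl
      rw [h1, h2]
      ring
  rw [key k]
  have h3 : ∀ n, J ≤ n → a n * Ge p r n + ∑ e ∈ range n, (a e - a (e + 1)) * Ge p r e =
      a J + ∑ e ∈ range J, (a e - a (e + 1)) * Ge p r e := by
    intro n hn
    induction n, hn using Nat.le_induction with
    | base => rw [Ge_one p k r hr J hJ1, mul_one]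
    | succ n hn ih =>
      rw [Finset.sum_range_succ, ← ih, Ge_one p k r hr (n + 1) (by omega),
        Ge_one p k r hr n (by omega)]
      ring
  exact h3 k hJ2

end Pool.Agent.H.MP_b3c6db_nt
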