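import Pool.Agent.H.MP_b3c6db_nt.SB.Gauss1
import Pool.Agent.H.MP_b3c6db_nt.SB.Euler2

/-! Local factors at the dynamic primes. -/

namespace Pool.Agent.H.MP_b3c6db_nt

open Finset Complex

lemma LocDyn_den (p : ℕ) (hp : p.Prime) (e : ℕ) : ∀ (k : ℕ) (r : ℚ), r.den = p ^ (k + 2 * e) →
    (((p : ℚ) ^ e) ^ 2 * r).den = p ^ k := by
  induction e with
  | zero =>
    intro k r hr
    simpa using hr
  | succ e ih =>
    intro k r hr
    have h1 : r.den = p ^ (k + 2 * e + 2) := by rw [hr]; ring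
    have h2 := ih k _ (den_reduce p (k + 2 * e) hp r h1)
    have h3 : ((p : ℚ) ^ (e + 1)) ^ 2 * r = ((p : ℚ) ^ e) ^ 2 * ((p : ℚ) ^ 2 * r) := by ring
    rw [h3]
    exact h2

lemma LocDyn_arctan (t : ℝ) : |Real.arctan t| ≤ |t| := by
  have key : ∀ u : ℝ, 0 ≤ u → |Real.arctan u| ≤ |u| := by
    intro u hu
    have h1 : 0 ≤ Real.arctan u := Real.arctan_nonneg.2 hu
    rw [abs_of_nonneg h1, abs_of_nonneg hu]
    have h2 := Real.le_tan h1 (Real.arctan_lt_pi_div_two u)
    rwa [Real.tan_arctan] at h2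
  rcases le_total 0 t with h | h
  · exact key t h
  · have h1 := key (-t) (by linarith)
    rwa [Real.arctan_neg, abs_neg, abs_neg] at h1

lemma LocDyn_ratio (κ P : ℝ) (hκ0 : 0 < κ) (hκ : κ ≤ 1 / 100) (hP : 8 ≤ κ * P) :
    Real.exp κ / P < 1 ∧ Real.exp κ / (1 - Real.exp κ / P) ≤ 1 + 2 * κ := by
  have hP0 : 0 < P := by
    by_contra h
    have : κ * P ≤ 0 := mul_nonpos_of_nonneg_of_nonpos hκ0.le (not_lt.1 h)
    linarith
  have h1 : Real.exp κ ≤ 1 + κ + κ ^ 2 := by
    have h2 := Real.abs_exp_sub_one_sub_id_le (x := κ) (by rw [abs_of_pos hκ0]; linarith)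
    have h3 := (abs_le.1 h2).2
    linarith
  have h2 : Real.exp κ ≤ 1 + 101 / 100 * κ := by nlinarith
  have h3 : Real.exp κ / P ≤ 13 / 100 * κ := by
    rw [div_le_iff₀ hP0]
    have : Real.exp κ ≤ 102 / 100 := by linarith
    nlinarith
  have h4 : 0 < 1 - Real.exp κ / P := by linarith
  refine ⟨by linarith, ?_⟩
  rw [div_le_iff₀ h4]
  have h5 : (1 + 2 * κ) * (1 - 13 / 100 * κ) ≤ (1 + 2 * κ) * (1 - Real.exp κ / P) :=
    mul_le_mul_of_nonneg_left (by linarith) (by linarith)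
  nlinarith

lemma LocDyn_geom (q : ℝ) (hq0 : 0 ≤ q) (hq1 : q < 1) (n : ℕ) :
    ∑ i ∈ range n, q ^ i ≤ 1 / (1 - q) := by
  rw [one_div, ← tsum_geometric_of_lt_one hq0 hq1]
  exact (summable_geometric_of_lt_one hq0 hq1).sum_le_tsum _ (fun i _ => pow_nonneg hq0 i)

lemma LocDyn_Om (J : ℕ) (s : ℝ) (hs : 0 ≤ s) : ∀ d e : ℕ, e + d = J → Om J s - Om e s ≤ d := by
  intro d
  induction d with
  | zero =>
    intro e he
    have : e = J := by omega
    subst this
    simp
  | succ d ih =>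
    intro e he
    have h1 := ih (e + 1) (by omega)
    rw [Om_succ] at h1
    have h2 := pois_le_one (e + 1) hs
    push_cast
    linarith

lemma LocDyn_b (J e : ℕ) (s κ : ℝ) (hs : 0 ≤ s) (hκ0 : 0 < κ) (he : e < J) :
    ∃ b : ℝ, 0 ≤ b ∧ b ≤ κ * pois J s * Real.exp κ * Real.exp κ ^ (J - 1 - e) ∧
      Real.exp (-(κ * Om e s)) - Real.exp (-(κ * Om (e + 1) s)) =
        Real.exp (-(κ * Om J s)) * b := by
  refine ⟨Real.exp (κ * (Om J s - Om (e + 1) s)) * (Real.exp (κ * pois (e + 1) s) - 1), ?_, ?_, ?_⟩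
  · have h1 : 0 ≤ κ * pois (e + 1) s := mul_nonneg hκ0.le (pois_nonneg _ hs)
    have h2 : 1 ≤ Real.exp (κ * pois (e + 1) s) := Real.one_le_exp h1
    exact mul_nonneg (Real.exp_pos _).le (by linarith)
  · have h1 : 0 ≤ κ * pois (e + 1) s := mul_nonneg hκ0.le (pois_nonneg _ hs)
    have h2 : Real.exp (κ * pois (e + 1) s) - 1 ≤
        κ * pois (e + 1) s * Real.exp (κ * pois (e + 1) s) := by
      have h3 := Real.add_one_le_exp (-(κ * pois (e + 1) s))
      have h4 : Real.exp (-(κ * pois (e + 1) s)) * Real.exp (κ * pois (e + 1) s) = 1 := by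
        rw [← Real.exp_add, neg_add_cancel, Real.exp_zero]
      have h5 := mul_le_mul_of_nonneg_right h3 (Real.exp_pos (κ * pois (e + 1) s)).le
      nlinarith
    have h3 : κ * pois (e + 1) s * Real.exp (κ * pois (e + 1) s) ≤ κ * pois J s * Real.exp κ := by
      have h4 : pois (e + 1) s ≤ pois J s := pois_mono (by omega) hs
      have h5 : Real.exp (κ * pois (e + 1) s) ≤ Real.exp κ := by
        apply Real.exp_le_exp.2
        have := pois_le_one (e + 1) hs
        nlinarith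
      exact mul_le_mul (mul_le_mul_of_nonneg_left h4 hκ0.le) h5 (Real.exp_pos _).le
        (mul_nonneg hκ0.le (pois_nonneg _ hs))
    have h4 : Real.exp (κ * (Om J s - Om (e + 1) s)) ≤ Real.exp κ ^ (J - 1 - e) := by
      rw [← Real.exp_nat_mul]
      apply Real.exp_le_exp.2
      have h5 := LocDyn_Om J s hs (J - 1 - e) (e + 1) (by omega)
      nlinarith
    calc Real.exp (κ * (Om J s - Om (e + 1) s)) * (Real.exp (κ * pois (e + 1) s) - 1)
        ≤ Real.exp κ ^ (J - 1 - e) * (κ * pois J s * Real.exp κ) := by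
          apply mul_le_mul h4 (h2.trans h3)
          · have h2 : 1 ≤ Real.exp (κ * pois (e + 1) s) := Real.one_le_exp h1
            linarith
          · positivity
      _ = κ * pois J s * Real.exp κ * Real.exp κ ^ (J - 1 - e) := by ring
  · rw [mul_sub, mul_one, mul_sub, ← Real.exp_add, ← Real.exp_add, ← Real.exp_add]
    congr 1
    · congr 1
      rw [Om_succ]
      ring
    · congr 1
      ring

lemma LocDyn_sum (J : ℕ) (C E P : ℝ) (hP : 0 < P) (b w : ℕ → ℝ)
    (hE : 0 ≤ E) (hEP : E / P < 1)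
    (hC : 0 ≤ C) (hb : ∀ e, e < J → b e ≤ C * E * E ^ (J - 1 - e))
    (hw0 : ∀ e, e < J → 0 ≤ w e) (V : ℝ) (hV : 0 ≤ V)
    (hw : ∀ e, e < J → w e ≤ V / P ^ (J - 1 - e)) :
    ∑ e ∈ range J, b e * w e ≤ C * V * (E / (1 - E / P)) := by
  have h1 : ∀ e ∈ range J, b e * w e ≤ C * E * V * (E / P) ^ (J - 1 - e) := by
    intro e he
    rw [mem_range] at he
    calc b e * w e ≤ (C * E * E ^ (J - 1 - e)) * (V / P ^ (J - 1 - e)) := by
          apply mul_le_mul (hb e he) (hw e he) (hw0 e he) (by positivity)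
      _ = C * E * V * (E / P) ^ (J - 1 - e) := by
          rw [div_pow]
          ring
  calc ∑ e ∈ range J, b e * w e ≤ ∑ e ∈ range J, C * E * V * (E / P) ^ (J - 1 - e) :=
        sum_le_sum h1
    _ = C * E * V * ∑ i ∈ range J, (E / P) ^ i := by
        rw [← mul_sum, Finset.sum_range_reflect (fun i => (E / P) ^ i) J]
    _ ≤ C * E * V * (1 / (1 - E / P)) := by
        apply mul_le_mul_of_nonneg_left (LocDyn_geom _ (by positivity) hEP J) (by positivity)
    _ = C * V * (E / (1 - E / P)) := by ring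

/-- PROOF. `J = (k+1)/2`, `a e = exp (-κ Om e s)`, `a J = a`. `local_sum_gen`: the factor is
`a (1 + ζ')`, `ζ' = ∑_{e<J} b_e Ge`, `b_e = e^{κ (Om J - Om e)} - e^{κ (Om J - Om (e+1))} =
e^{κ (Om J - Om (e+1))} (e^{κ pois (e+1)} - 1)`, `0 ≤ b_e ≤ κ pois J e^{κ (J-e)}` (`e^u - 1 ≤ u e^u`,
`pois_mono`, `pois_le_one`: `Om J - Om (e+1) ≤ J - e - 1`). `Ge e = gG ((p^e)^2 r)` has denominator
`p^(k-2e)`.
`k` odd, `k = 2J - 1`: `k - 2e = 2 (J-e-1) + 1`, `gG3_odd`: `Re Ge = 0`,
`‖Ge‖ = 1/(p^(J-e-1) √p)`, so `ζ' = i y'` with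
`|y'| ≤ κ pois J /√p · e^κ ∑_{i ≥ 0} (e^κ/p)^i ≤ (1+2κ) κ pois J/√p` because
`e^κ/(1 - e^κ/p) ≤ 1 + 2κ` (`8 ≤ κ p`, `κ ≤ 1/100`). `1 + i y' = exp (x + i y)` with
`x = (1/2) log (1+y'^2) ∈ [0, y'^2/2]`, `y = arctan y'` (`Complex.exp_log`, or polar form), and
`y'^2/2 ≤ κ²/p`.
`k` even, `k = 2J`: `gG_even`: `Ge e = 1/p^(J-e)`, `ζ' ≥ 0` real and
`ζ' ≤ κ ∑_{i≥1} (e^κ/p)^i ≤ 2κ/p`, `1 + ζ' = exp x`, `0 ≤ x ≤ ζ'`, `y = 0`. -/
theorem local_dyn (p k : ℕ) (r : ℚ) (hp : p.Prime) (hp3 : p % 4 = 3) (hk : 1 ≤ k)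
    (hr : r.den = p ^ k) (κ s : ℝ) (hκ0 : 0 < κ) (hκ : κ ≤ 1 / 100) (hs : 0 ≤ s)
    (hpk : 8 ≤ κ * p) :
    ∃ x y : ℝ, |x| ≤ 3 * κ / p ∧ |y| ≤ (1 + 2 * κ) * (κ * pois ((k + 1) / 2) s / Real.sqrt p) ∧
      ∑ e ∈ range (k + 1), ((Real.exp (-(κ * Om e s)) : ℝ) : ℂ) * Dlt (p ^ e) r =
        ((Real.exp (-(κ * Om ((k + 1) / 2) s)) : ℝ) : ℂ) * Complex.exp (x + y * Complex.I) := by
  have hp0 : (0 : ℝ) < p := by exact_mod_cast hp.pos
  have hsq : (0 : ℝ) < Real.sqrt p := Real.sqrt_pos.2 hp0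
  have hsqq : Real.sqrt p ^ 2 = p := Real.sq_sqrt hp0.le
  have hp2 : p ≠ 2 := by rintro rfl; omega
  obtain ⟨hr1, hr2⟩ := LocDyn_ratio κ p hκ0 hκ hpk
  set J := (k + 1) / 2 with hJ
  have hJ1 : k ≤ 2 * J := by omega
  have hJ2 : J ≤ k := by omega
  have hP1 : pois J s ≤ 1 := pois_le_one J hs
  have hP0 : 0 ≤ pois J s := pois_nonneg J hs
  rw [local_sum_gen p k r hp hr J hJ1 hJ2 (fun e => ((Real.exp (-(κ * Om e s)) : ℝ) : ℂ))]
  -- the coefficients
  have hb := fun e (he : e < J) => LocDyn_b J e s κ hs hκ0 he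
  choose! b hb0 hb1 hb2 using hb
  have hsum : ∑ e ∈ range J, (((Real.exp (-(κ * Om e s)) : ℝ) : ℂ) -
      ((Real.exp (-(κ * Om (e + 1) s)) : ℝ) : ℂ)) * Ge p r e =
      ((Real.exp (-(κ * Om J s)) : ℝ) : ℂ) * ∑ e ∈ range J, ((b e : ℝ) : ℂ) * Ge p r e := by
    rw [mul_sum]
    apply sum_congr rfl
    intro e he
    rw [mem_range] at he
    rw [← Complex.ofReal_sub, hb2 e he]
    push_cast
    ring
  show ∃ x y : ℝ, |x| ≤ 3 * κ / p ∧ |y| ≤ (1 + 2 * κ) * (κ * pois J s / Real.sqrt p) ∧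
      ((Real.exp (-(κ * Om J s)) : ℝ) : ℂ) +
        ∑ e ∈ range J, (((Real.exp (-(κ * Om e s)) : ℝ) : ℂ) -
      ((Real.exp (-(κ * Om (e + 1) s)) : ℝ) : ℂ)) * Ge p r e =
        ((Real.exp (-(κ * Om J s)) : ℝ) : ℂ) * Complex.exp (x + y * Complex.I)
  rw [hsum]
  set Z : ℂ := ∑ e ∈ range J, ((b e : ℝ) : ℂ) * Ge p r e with hZ
  rcases Nat.even_or_odd' k with ⟨m, hm | hm⟩
  · -- even case
    have hJm : J = m := by omega
    have hG : ∀ e, e < J → Ge p r e = ((1 / (p : ℝ) ^ (J - e) : ℝ) : ℂ) := by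
      intro e he
      unfold Ge
      have h1 : (((p : ℚ) ^ e) ^ 2 * r).den = p ^ (2 * (J - e)) := by
        apply LocDyn_den p hp e
        rw [hr]
        congr 1
        omega
      rw [gG_even p (J - e) hp hp2 _ h1]
      push_cast
      rfl
    have hZ1 : Z = ((∑ e ∈ range J, b e * (1 / (p : ℝ) ^ (J - e)) : ℝ) : ℂ) := by
      rw [hZ]
      push_cast
      apply sum_congr rfl
      intro e he
      rw [mem_range] at he
      rw [hG e he]
      push_cast
      rfl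
    set z : ℝ := ∑ e ∈ range J, b e * (1 / (p : ℝ) ^ (J - e)) with hz
    have hz0 : 0 ≤ z := by
      rw [hz]
      apply sum_nonneg
      intro e he
      rw [mem_range] at he
      exact mul_nonneg (hb0 e he) (by positivity)
    have hz1 : z ≤ 3 * κ / p := by
      have h1 := LocDyn_sum J (κ * pois J s) (Real.exp κ) p hp0 b (fun e => 1 / (p : ℝ) ^ (J - e))
        (Real.exp_pos _).le hr1 (mul_nonneg hκ0.le hP0) hb1 (fun e _ => by positivity)
        (1 / p) (by positivity) (by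
          intro e he
          apply le_of_eq
          have h2 : J - e = (J - 1 - e) + 1 := by omega
          simp only [h2, pow_succ]
          field_simp)
      calc z ≤ κ * pois J s * (1 / p) * (Real.exp κ / (1 - Real.exp κ / p)) := h1
        _ ≤ κ * pois J s * (1 / p) * (1 + 2 * κ) := by
            apply mul_le_mul_of_nonneg_left hr2 (by positivity)
        _ ≤ κ * 1 * (1 / p) * 3 := by
            apply mul_le_mul _ (by linarith) (by positivity) (by positivity)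
            apply mul_le_mul_of_nonneg_right _ (by positivity)
            exact mul_le_mul_of_nonneg_left hP1 hκ0.le
        _ = 3 * κ / p := by ring
    refine ⟨Real.log (1 + z), 0, ?_, ?_, ?_⟩
    · have h1 : 0 ≤ Real.log (1 + z) := Real.log_nonneg (by linarith)
      rw [abs_of_nonneg h1]
      have h2 := Real.log_le_sub_one_of_pos (show 0 < 1 + z by linarith)
      linarith
    · rw [abs_zero]
      positivity
    · have h1 : Complex.exp (((Real.log (1 + z) : ℝ) : ℂ) + ((0 : ℝ) : ℂ) * Complex.I) =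
          ((1 + z : ℝ) : ℂ) := by
        rw [Complex.ofReal_zero, zero_mul, add_zero, ← Complex.ofReal_exp,
          Real.exp_log (by linarith)]
      rw [h1, hZ1]
      push_cast
      ring
  · -- odd case
    have hJm : J = m + 1 := by omega
    have hG : ∀ e, e < J → (Ge p r e).re = 0 ∧
        ‖Ge p r e‖ = 1 / ((p : ℝ) ^ (J - 1 - e) * Real.sqrt p) := by
      intro e he
      unfold Ge
      have h1 : (((p : ℚ) ^ e) ^ 2 * r).den = p ^ (2 * (J - 1 - e) + 1) := by
        apply LocDyn_den p hp e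
        rw [hr]
        congr 1
        omega
      exact gG3_odd p (J - 1 - e) hp hp3 _ h1
    have hZre : Z.re = 0 := by
      rw [hZ, Complex.re_sum]
      apply sum_eq_zero
      intro e he
      rw [mem_range] at he
      rw [Complex.re_ofReal_mul, (hG e he).1, mul_zero]
    have hZn : ‖Z‖ ≤ (1 + 2 * κ) * (κ * pois J s / Real.sqrt p) := by
      have h1 := LocDyn_sum J (κ * pois J s) (Real.exp κ) p hp0 b (fun e => ‖Ge p r e‖)
        (Real.exp_pos _).le hr1 (mul_nonneg hκ0.le hP0) hb1 (fun e _ => norm_nonneg _)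
        (1 / Real.sqrt p) (by positivity) (by
          intro e he
          apply le_of_eq
          show ‖Ge p r e‖ = _
          rw [(hG e he).2, div_div, mul_comm (Real.sqrt p)])
      have h2 : ‖Z‖ ≤ ∑ e ∈ range J, b e * ‖Ge p r e‖ := by
        rw [hZ]
        refine (norm_sum_le _ _).trans (sum_le_sum ?_)
        intro e he
        rw [mem_range] at he
        rw [norm_mul, Complex.norm_real, Real.norm_of_nonneg (hb0 e he)]
      calc ‖Z‖ ≤ κ * pois J s * (1 / Real.sqrt p) * (Real.exp κ / (1 - Real.exp κ / p)) :=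
            h2.trans h1
        _ ≤ κ * pois J s * (1 / Real.sqrt p) * (1 + 2 * κ) := by
            apply mul_le_mul_of_nonneg_left hr2 (by positivity)
        _ = (1 + 2 * κ) * (κ * pois J s / Real.sqrt p) := by ring
    set y' : ℝ := Z.im with hy'
    have hZy : Z = (y' : ℂ) * Complex.I := by
      apply Complex.ext
      · simp [hZre]
      · simp [hy']
    have hyn : |y'| = ‖Z‖ := by
      rw [hZy, norm_mul, Complex.norm_I, mul_one, Complex.norm_real, Real.norm_eq_abs]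
    have hS : 0 < Real.sqrt (1 + y' ^ 2) := Real.sqrt_pos.2 (by positivity)
    refine ⟨Real.log (Real.sqrt (1 + y' ^ 2)), Real.arctan y', ?_, ?_, ?_⟩
    · have h1 : 1 ≤ Real.sqrt (1 + y' ^ 2) := by
        rw [Real.one_le_sqrt]
        nlinarith [sq_nonneg y']
      have h2 : 0 ≤ Real.log (Real.sqrt (1 + y' ^ 2)) := Real.log_nonneg h1
      rw [abs_of_nonneg h2, Real.log_sqrt (by positivity)]
      have h3 := Real.log_le_sub_one_of_pos (show 0 < 1 + y' ^ 2 by positivity)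
      have h4 : y' ^ 2 ≤ 3 * κ / p := by
        have h5 : |y'| ≤ 102 / 100 * (κ / Real.sqrt p) := by
          rw [hyn]
          refine hZn.trans ?_
          apply mul_le_mul (by linarith) _ (by positivity) (by norm_num)
          apply div_le_div_of_nonneg_right _ hsq.le
          nlinarith
        have h6 : y' ^ 2 ≤ (102 / 100 * (κ / Real.sqrt p)) ^ 2 := by
          rw [← sq_abs y']
          exact pow_le_pow_left₀ (abs_nonneg _) h5 2
        have h7 : (102 / 100 * (κ / Real.sqrt p)) ^ 2 = (102 / 100) ^ 2 * κ ^ 2 / p := by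
          rw [mul_pow (102 / 100 : ℝ) (κ / Real.sqrt p) 2, div_pow κ (Real.sqrt p) 2, hsqq]
          ring
        rw [h7] at h6
        refine h6.trans ?_
        apply div_le_div_of_nonneg_right _ hp0.le
        nlinarith
      have h5 : 0 ≤ y' ^ 2 := sq_nonneg _
      linarith
    · refine (LocDyn_arctan y').trans ?_
      rw [hyn]
      exact hZn
    · have h1 : Complex.exp (((Real.log (Real.sqrt (1 + y' ^ 2)) : ℝ) : ℂ) +
          ((Real.arctan y' : ℝ) : ℂ) * Complex.I) = 1 + (y' : ℂ) * Complex.I := by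
        rw [Complex.exp_add, Complex.exp_mul_I, ← Complex.ofReal_exp, Real.exp_log hS,
          ← Complex.ofReal_cos, ← Complex.ofReal_sin, Real.cos_arctan, Real.sin_arctan]
        have h2 : ((Real.sqrt (1 + y' ^ 2) : ℝ) : ℂ) ≠ 0 := by
          exact_mod_cast hS.ne'
        push_cast
        field_simp
      rw [h1, hZy]
      ring

end Pool.Agent.H.MP_b3c6db_nt
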