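import Pool.Agent.H.MP_b3c6db_nt.SB.Euler2

/-! The weights of the sharp upper bound. -/

namespace Pool.Agent.H.MP_b3c6db_nt

open Finset Complex MeasureTheory

/-- dynamic primes. -/
def isdyn (Y : ℝ) (p : ℕ) : Prop := p % 4 = 3 ∧ Y < (p : ℝ) ∧ (p : ℝ) ≤ Y ^ 4

noncomputable instance (Y : ℝ) : DecidablePred (isdyn Y) := fun _ => Classical.dec _

/-- exponents at the static primes. -/
noncomputable def expo (κ Y : ℝ) (p : ℕ) : ℝ :=
  if p = 2 then κ else if p % 4 = 3 ∧ (p : ℝ) ≤ Y then κ / (50 * Real.sqrt Y) else 1 / 8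

/-- static weights. -/
noncomputable def ast (κ Y : ℝ) (p e : ℕ) : ℝ :=
  if isdyn Y p then 1 else ((p : ℝ) ^ (-(expo κ Y p))) ^ e

/-- dynamic weights at time `t`. -/
noncomputable def ady (κ Y t : ℝ) (p e : ℕ) : ℝ :=
  if isdyn Y p then Real.exp (-(κ * Om e (t / Real.sqrt p))) else 1

/-- the rate `c = π/2 - 400 κ`. -/
noncomputable def cc (κ : ℝ) : ℝ := Real.pi / 2 - 400 * κ

/-- the weights `h(v)`. -/
noncomputable def hh (κ Y T : ℝ) (v : ℕ) : ℝ :=
  Amul (ast κ Y) v * ∫ t in (0 : ℝ)..T, 2 * Real.exp (-(cc κ * t)) * Amul (ady κ Y t) v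

lemma ast_zero (κ Y : ℝ) (p : ℕ) : ast κ Y p 0 = 1 := by
  unfold ast; split_ifs <;> simp

lemma ady_zero (κ Y t : ℝ) (p : ℕ) : ady κ Y t p 0 = 1 := by
  unfold ady; split_ifs <;> simp [Om_zero]

lemma ast_nonneg (κ Y : ℝ) (p e : ℕ) : 0 ≤ ast κ Y p e := by
  unfold ast; split_ifs
  · norm_num
  · positivity

lemma ady_pos (κ Y t : ℝ) (p e : ℕ) : 0 < ady κ Y t p e := by
  unfold ady; split_ifs
  · exact Real.exp_pos _
  · norm_num

/-- continuity in `t` (finite product of continuous functions). -/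
lemma continuous_Amul_ady (κ Y : ℝ) (v : ℕ) : Continuous (fun t => Amul (ady κ Y t) v) := by
  unfold Amul Finsupp.prod
  refine continuous_finsetProd _ fun p _ => ?_
  unfold ady
  by_cases h : isdyn Y p
  · simp only [if_pos h]
    have h1 : Continuous fun t : ℝ => Om (v.factorization p) (t / Real.sqrt p) :=
      (continuous_Om _).comp (continuous_id.div_const _)
    exact Real.continuous_exp.comp (continuous_const.mul h1).neg
  · simp only [if_neg h]
    exact continuous_const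

lemma Wt_cc_ge {κ : ℝ} (hκ : κ ≤ 1 / 2000) : 1 ≤ cc κ := by
  unfold cc
  have := Real.pi_gt_three
  linarith

lemma Wt_ast_le {κ Y : ℝ} (hκ0 : 0 ≤ κ) (hY : 0 ≤ Y) (p e : ℕ) (hp : p.Prime) :
    ast κ Y p e ≤ 1 := by
  unfold ast
  split_ifs
  · exact le_rfl
  · have h1 : 0 ≤ expo κ Y p := by
      unfold expo
      split_ifs <;> positivity
    have h2 : (1 : ℝ) ≤ (p : ℝ) := Nat.one_le_cast.2 hp.one_lt.le
    refine pow_le_one₀ (Real.rpow_nonneg (Nat.cast_nonneg p) _) ?_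
    exact Real.rpow_le_one_of_one_le_of_nonpos h2 (neg_nonpos.2 h1)

lemma Wt_ady_le {κ Y t : ℝ} (hκ0 : 0 ≤ κ) (ht : 0 ≤ t) (p e : ℕ) : ady κ Y t p e ≤ 1 := by
  unfold ady
  split_ifs
  · rw [Real.exp_le_one_iff]
    have h1 : 0 ≤ Om e (t / Real.sqrt p) := Om_nonneg e (by positivity)
    have h2 := mul_nonneg hκ0 h1
    linarith
  · exact le_rfl

lemma Wt_int {c : ℝ} (hc : c ≠ 0) (T : ℝ) :
    ∫ t in (0 : ℝ)..T, 2 * Real.exp (-(c * t)) = 2 * (1 - Real.exp (-(c * T))) / c := by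
  have hd : ∀ t ∈ Set.uIcc (0 : ℝ) T, HasDerivAt (fun t : ℝ => -(2 / c) * Real.exp (-(c * t)))
      (2 * Real.exp (-(c * t))) t := by
    intro t _
    have h1 : HasDerivAt (fun t : ℝ => -(c * t)) (-(c * 1)) t :=
      ((hasDerivAt_id t).const_mul c).neg
    refine (h1.exp.const_mul (-(2 / c))).congr_deriv ?_
    field_simp
  have hi : IntervalIntegrable (fun t : ℝ => 2 * Real.exp (-(c * t))) volume 0 T :=
    Continuous.intervalIntegrable (by fun_prop) _ _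
  rw [intervalIntegral.integral_eq_sub_of_hasDerivAt hd hi, mul_zero, neg_zero, Real.exp_zero]
  field_simp
  ring

/-- `0 ≤ h(v) ≤ 2` for `0 ≤ κ ≤ 1/2000`, `0 ≤ T` (`Amul_le_one`, `Amul_nonneg`, `Om_nonneg`;
`∫_0^T 2 e^{-ct} dt ≤ 2/c ≤ 2` because `c ≥ 1`). -/
lemma hh_nonneg (κ Y T : ℝ) (hκ0 : 0 ≤ κ) (hκ : κ ≤ 1 / 2000) (hT : 0 ≤ T) (v : ℕ) :
    0 ≤ hh κ Y T v := by
  unfold hh
  refine mul_nonneg (Amul_nonneg _ (ast_nonneg κ Y) v) ?_
  refine intervalIntegral.integral_nonneg hT fun t _ => ?_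
  exact mul_nonneg (by positivity) (Amul_nonneg _ (fun p e => (ady_pos κ Y t p e).le) v)

lemma hh_le_two (κ Y T : ℝ) (hκ0 : 0 ≤ κ) (hκ : κ ≤ 1 / 2000) (hY : 0 ≤ Y) (hT : 0 ≤ T) (v : ℕ) :
    hh κ Y T v ≤ 2 := by
  have hc := Wt_cc_ge hκ
  have hc0 : cc κ ≠ 0 := by linarith
  unfold hh
  have h1 : ∫ t in (0 : ℝ)..T, 2 * Real.exp (-(cc κ * t)) * Amul (ady κ Y t) v ≤ 2 := by
    have h2 : ∫ t in (0 : ℝ)..T, 2 * Real.exp (-(cc κ * t)) * Amul (ady κ Y t) v ≤
        ∫ t in (0 : ℝ)..T, 2 * Real.exp (-(cc κ * t)) := by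
      refine intervalIntegral.integral_mono_on hT ?_ ?_ fun t ht => ?_
      · refine Continuous.intervalIntegrable ?_ _ _
        exact Continuous.mul (by fun_prop) (continuous_Amul_ady κ Y v)
      · exact Continuous.intervalIntegrable (by fun_prop) _ _
      · refine mul_le_of_le_one_right (by positivity) ?_
        exact Amul_le_one _ (fun p e => (ady_pos κ Y t p e).le)
          (fun p e _ => Wt_ady_le hκ0 ht.1 p e) v
    rw [Wt_int hc0] at h2
    refine h2.trans ?_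
    rw [div_le_iff₀ (by linarith)]
    have := Real.exp_pos (-(cc κ * T))
    linarith
  have h3 : 0 ≤ ∫ t in (0 : ℝ)..T, 2 * Real.exp (-(cc κ * t)) * Amul (ady κ Y t) v := by
    refine intervalIntegral.integral_nonneg hT fun t _ => ?_
    exact mul_nonneg (by positivity) (Amul_nonneg _ (fun p e => (ady_pos κ Y t p e).le) v)
  have h4 : Amul (ast κ Y) v ≤ 1 :=
    Amul_le_one _ (ast_nonneg κ Y) (fun p e hp => Wt_ast_le hκ0 hY p e hp) v
  exact (mul_le_of_le_one_left h3 h4).trans h1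

/-- `h(1) = 2 (1 - e^{-cT})/c ≥ 1` for `T ≥ 3` (`c ≤ π/2`, `2 (1 - e^{-3}) / 1.5708 ≥ 1`;
`c ≥ 1` gives `e^{-cT} ≤ e^{-3}`). -/
lemma hh_one (κ Y T : ℝ) (hκ0 : 0 ≤ κ) (hκ : κ ≤ 1 / 2000) (hT : 3 ≤ T) : 1 ≤ hh κ Y T 1 := by
  have hc := Wt_cc_ge hκ
  have hc0 : cc κ ≠ 0 := by linarith
  unfold hh
  simp only [Amul_one, mul_one, one_mul]
  rw [Wt_int hc0, le_div_iff₀ (by linarith), one_mul]
  have h1 : cc κ ≤ 315 / 200 := by
    unfold cc
    have := Real.pi_lt_d2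
    linarith
  have h2 : Real.exp (-(cc κ * T)) ≤ 1 / 8 := by
    have h3 : -(cc κ * T) ≤ -3 := by nlinarith
    have h4 : (2 : ℝ) ≤ Real.exp 1 := by
      have := Real.add_one_le_exp (1 : ℝ)
      linarith
    have h5 : Real.exp 3 = Real.exp 1 ^ 3 := by
      rw [← Real.exp_nat_mul]
      norm_num
    have h6 : (8 : ℝ) ≤ Real.exp 3 := by
      rw [h5]
      have := pow_le_pow_left₀ (by norm_num : (0 : ℝ) ≤ 2) h4 3
      linarith
    refine (Real.exp_le_exp.2 h3).trans ?_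
    rw [Real.exp_neg, inv_eq_one_div]
    exact one_div_le_one_div_of_le (by norm_num) h6
  linarith

/-- exchange of the sum and the integral:
`K ∑_{v ∣ q} h(v) Δ_v(r) = 2 ∫_0^T e^{-ct} K ∑_v ast(v) ady_t(v) Δ_v(r) dt`
(`intervalIntegral.integral_finset_sum`, `intervalIntegral.integral_const_mul`, real integrals cast
to complex ones: `intervalIntegral.integral_ofReal`). -/
lemma hh_sum (κ Y T : ℝ) (S : Finset ℕ) (K : ℂ) (D : ℕ → ℂ) :
    K * ∑ v ∈ S, ((hh κ Y T v : ℝ) : ℂ) * D v =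
      2 * ∫ t in (0 : ℝ)..T, ((Real.exp (-(cc κ * t)) : ℝ) : ℂ) *
        (K * ∑ v ∈ S, ((Amul (fun p e => ast κ Y p e * ady κ Y t p e) v : ℝ) : ℂ) * D v) := by
  have e1 : ∀ t : ℝ, ((Real.exp (-(cc κ * t)) : ℝ) : ℂ) *
      (K * ∑ v ∈ S, ((Amul (fun p e => ast κ Y p e * ady κ Y t p e) v : ℝ) : ℂ) * D v) =
      ∑ v ∈ S, (K * ((Amul (ast κ Y) v : ℝ) : ℂ) * D v) *
        ((Real.exp (-(cc κ * t)) * Amul (ady κ Y t) v : ℝ) : ℂ) := by
    intro t
    rw [mul_sum, mul_sum]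
    refine sum_congr rfl fun v _ => ?_
    rw [Amul_mul_fun]
    push_cast
    ring
  have hcont : ∀ v, Continuous fun t : ℝ => Real.exp (-(cc κ * t)) * Amul (ady κ Y t) v :=
    fun v => Continuous.mul (by fun_prop) (continuous_Amul_ady κ Y v)
  have e2 : ∫ t in (0 : ℝ)..T, ((Real.exp (-(cc κ * t)) : ℝ) : ℂ) *
      (K * ∑ v ∈ S, ((Amul (fun p e => ast κ Y p e * ady κ Y t p e) v : ℝ) : ℂ) * D v) =
      ∑ v ∈ S, (K * ((Amul (ast κ Y) v : ℝ) : ℂ) * D v) *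
        ((∫ t in (0 : ℝ)..T, Real.exp (-(cc κ * t)) * Amul (ady κ Y t) v : ℝ) : ℂ) := by
    rw [intervalIntegral.integral_congr fun t _ => e1 t, intervalIntegral.integral_finsetSum]
    · refine sum_congr rfl fun v _ => ?_
      rw [intervalIntegral.integral_const_mul, intervalIntegral.integral_ofReal]
    · intro v _
      refine Continuous.intervalIntegrable ?_ _ _
      exact continuous_const.mul (Complex.continuous_ofReal.comp (hcont v))
  rw [e2, mul_sum, mul_sum]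
  refine sum_congr rfl fun v _ => ?_
  have e3 : hh κ Y T v = Amul (ast κ Y) v *
      (2 * ∫ t in (0 : ℝ)..T, Real.exp (-(cc κ * t)) * Amul (ady κ Y t) v) := by
    have e4 : ∫ t in (0 : ℝ)..T, 2 * Real.exp (-(cc κ * t)) * Amul (ady κ Y t) v =
        2 * ∫ t in (0 : ℝ)..T, Real.exp (-(cc κ * t)) * Amul (ady κ Y t) v := by
      have e5 : ∀ t : ℝ, 2 * Real.exp (-(cc κ * t)) * Amul (ady κ Y t) v =
          2 * (Real.exp (-(cc κ * t)) * Amul (ady κ Y t) v) := fun t => mul_assoc _ _ _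
      simp only [e5]
      rw [intervalIntegral.integral_const_mul]
    unfold hh
    rw [e4]
  rw [e3]
  push_cast
  ring

end Pool.Agent.H.MP_b3c6db_nt
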