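import Pool.Agent.H.MP_b3c6db_nt.Mertens4
import Pool.Agent.H.MP_b3c6db_nt.SB.Wt
import Pool.Agent.H.MP_b3c6db_nt.SB.LocDyn

/-! The dynamic product. -/

namespace Pool.Agent.H.MP_b3c6db_nt

open Finset Complex

/-- `∑_{Y < p ≤ Y^4} 1/p ≤ 5` for large `Y`. PROOF: `log Y ∑ 1/p ≤ ∑ Λ(p)/p ≤ M4 ⌊Y^4⌋ ≤ 4 log Y + 6`
(`M4_upper`) and `6 ≤ log Y`. -/
lemma sum_inv_dyn (Y : ℝ) (hY : 10 ^ 6 ≤ Y) (S : Finset ℕ)
    (hS : ∀ p ∈ S, p.Prime ∧ Y < (p : ℝ) ∧ (p : ℝ) ≤ Y ^ 4) : ∑ p ∈ S, 1 / (p : ℝ) ≤ 5 := by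
  have hYpos : (0 : ℝ) < Y := by linarith
  have hY1 : (1 : ℝ) ≤ Y := by linarith
  have hlog : 6 ≤ Real.log Y := by
    rw [Real.le_log_iff_exp_le hYpos]
    have h1 : Real.exp 1 ≤ 3 := by
      have := Real.exp_one_lt_d9
      linarith
    have h2 : Real.exp 6 = Real.exp 1 ^ 6 := by
      rw [← Real.exp_nat_mul]
      norm_num
    have h3 : Real.exp 1 ^ 6 ≤ 3 ^ 6 := pow_le_pow_left₀ (Real.exp_pos _).le h1 6
    rw [h2]
    calc Real.exp 1 ^ 6 ≤ 3 ^ 6 := h3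
      _ ≤ 10 ^ 6 := by norm_num
      _ ≤ Y := hY
  set N : ℕ := ⌊Y ^ 4⌋₊ with hN
  have hY4 : (1 : ℝ) ≤ Y ^ 4 := one_le_pow₀ hY1
  have hN1 : 1 ≤ N := by
    rw [hN, Nat.one_le_floor_iff]
    exact hY4
  have hNle : (N : ℝ) ≤ Y ^ 4 := Nat.floor_le (by positivity)
  have hNpos : (0 : ℝ) < N := by exact_mod_cast hN1
  have h1 : Real.log Y * ∑ p ∈ S, 1 / (p : ℝ) ≤
      ∑ p ∈ S, ArithmeticFunction.vonMangoldt p / (p : ℝ) := by
    rw [mul_sum]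
    refine sum_le_sum fun p hp => ?_
    obtain ⟨hp1, hp2, hp3⟩ := hS p hp
    rw [ArithmeticFunction.vonMangoldt_apply_prime hp1, mul_one_div]
    refine div_le_div_of_nonneg_right ?_ (Nat.cast_nonneg p)
    exact Real.log_le_log hYpos hp2.le
  have h2 : ∑ p ∈ S, ArithmeticFunction.vonMangoldt p / (p : ℝ) ≤ M4 N := by
    unfold M4
    refine sum_le_sum_of_subset_of_nonneg ?_ ?_
    · intro p hp
      obtain ⟨hp1, hp2, hp3⟩ := hS p hp
      exact mem_Ioc.2 ⟨hp1.pos, Nat.le_floor hp3⟩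
    · intro p _ _
      exact div_nonneg ArithmeticFunction.vonMangoldt_nonneg (Nat.cast_nonneg p)
  have h3 := M4_upper N hN1
  have h4 : Real.log N ≤ 4 * Real.log Y := by
    calc Real.log N ≤ Real.log (Y ^ 4) := Real.log_le_log hNpos hNle
      _ = 4 * Real.log Y := by rw [Real.log_pow]; norm_num
  have h5 : Real.log Y * ∑ p ∈ S, 1 / (p : ℝ) ≤ Real.log Y * 5 := by linarith
  exact le_of_mul_le_mul_left h5 (by linarith)

/-- dynamic primes of `q` -/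
noncomputable def DQ (Y : ℝ) (q : ℕ) : Finset ℕ := q.primeFactors.filter (isdyn Y)

private lemma dyn_mem {Y : ℝ} {q p : ℕ} (hp : p ∈ DQ Y q) :
    p ∈ q.primeFactors ∧ isdyn Y p := mem_filter.1 hp

private lemma dyn_pos {Y : ℝ} {q p : ℕ} (hp : p ∈ DQ Y q) : (0 : ℝ) < p := by
  have := Nat.pos_of_mem_primeFactors (dyn_mem hp).1
  exact_mod_cast this

private lemma dyn_fac {Y : ℝ} {q p : ℕ} (hp : p ∈ DQ Y q) : 1 ≤ q.factorization p := by
  obtain ⟨h1, _⟩ := dyn_mem hp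
  have h2 := Nat.prime_of_mem_primeFactors h1
  have h3 := Nat.dvd_of_mem_primeFactors h1
  have h4 : q ≠ 0 := (Nat.mem_primeFactors.1 h1).2.2
  exact (h2.dvd_iff_one_le_factorization h4).1 h3

/-- `A(t)` -/
noncomputable def AA (κ Y : ℝ) (q : ℕ) (t : ℝ) : ℝ :=
  κ * ∑ p ∈ DQ Y q, Om ((q.factorization p + 1) / 2) (t / Real.sqrt p)

/-- `a(t) = -A'(t)` -/
noncomputable def aa (κ Y : ℝ) (q : ℕ) (t : ℝ) : ℝ :=
  κ * ∑ p ∈ DQ Y q, pois ((q.factorization p + 1) / 2) (t / Real.sqrt p) / Real.sqrt p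

/-- `a'(t)` -/
noncomputable def aa' (κ Y : ℝ) (q : ℕ) (t : ℝ) : ℝ :=
  -(κ * ∑ p ∈ DQ Y q, Real.exp (-(t / Real.sqrt p)) * ((t / Real.sqrt p) ^ ((q.factorization p + 1) / 2 - 1) /
    (((q.factorization p + 1) / 2 - 1).factorial : ℝ)) / p)

lemma hasDerivAt_AA (κ Y : ℝ) (q : ℕ) (t : ℝ) : HasDerivAt (AA κ Y q) (-(aa κ Y q t)) t := by
  have h1 : HasDerivAt (fun t : ℝ => ∑ p ∈ DQ Y q, Om ((q.factorization p + 1) / 2) (t / Real.sqrt p))
      (∑ p ∈ DQ Y q, -(pois ((q.factorization p + 1) / 2) (t / Real.sqrt p)) * (1 / Real.sqrt p)) t := by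
    refine HasDerivAt.fun_sum fun p _ => ?_
    have h2 : HasDerivAt (fun t : ℝ => t / Real.sqrt p) (1 / Real.sqrt p) t :=
      (hasDerivAt_id t).div_const _
    exact (hasDerivAt_Om ((q.factorization p + 1) / 2) (t / Real.sqrt p)).comp t h2
  have h3 := h1.const_mul κ
  refine h3.congr_deriv ?_
  unfold aa
  rw [← mul_neg, ← sum_neg_distrib]
  congr 1
  refine sum_congr rfl fun p _ => ?_
  ring

/-- (`(q.factorization p + 1)/2 ≥ 1` for `p ∈ primeFactors`; `√p · √p = p`) -/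
lemma hasDerivAt_aa (κ Y : ℝ) (q : ℕ) (t : ℝ) : HasDerivAt (aa κ Y q) (aa' κ Y q t) t := by
  have h1 : HasDerivAt (fun t : ℝ => ∑ p ∈ DQ Y q,
      pois ((q.factorization p + 1) / 2) (t / Real.sqrt p) / Real.sqrt p)
      (∑ p ∈ DQ Y q, -(Real.exp (-(t / Real.sqrt p)) * ((t / Real.sqrt p) ^
        ((q.factorization p + 1) / 2 - 1) / (((q.factorization p + 1) / 2 - 1).factorial : ℝ))) *
        (1 / Real.sqrt p) / Real.sqrt p) t := by
    refine HasDerivAt.fun_sum fun p hp => ?_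
    have h2 : HasDerivAt (fun t : ℝ => t / Real.sqrt p) (1 / Real.sqrt p) t :=
      (hasDerivAt_id t).div_const _
    have hf := dyn_fac hp
    obtain ⟨j, hj⟩ : ∃ j, (q.factorization p + 1) / 2 = j + 1 :=
      ⟨(q.factorization p + 1) / 2 - 1, by omega⟩
    rw [hj, Nat.add_sub_cancel]
    exact ((hasDerivAt_pois j (t / Real.sqrt p)).comp t h2).div_const _
  have h3 := h1.const_mul κ
  refine h3.congr_deriv ?_
  unfold aa'
  rw [← mul_neg, ← sum_neg_distrib]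
  congr 1
  refine sum_congr rfl fun p hp => ?_
  have hp0 := dyn_pos hp
  have hs : Real.sqrt p * Real.sqrt p = p := Real.mul_self_sqrt hp0.le
  have hs0 : Real.sqrt p ≠ 0 := (Real.sqrt_pos.2 hp0).ne'
  have e : (1 : ℝ) / p = 1 / Real.sqrt p / Real.sqrt p := by
    rw [div_div, hs]
  rw [div_eq_mul_one_div _ (p : ℝ), e]
  ring

lemma continuous_aa' (κ Y : ℝ) (q : ℕ) : Continuous (aa' κ Y q) := by
  unfold aa'
  refine (continuous_const.mul (continuous_finsetSum _ fun p _ => ?_)).neg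
  fun_prop

lemma aa_nonneg (κ Y : ℝ) (hκ : 0 ≤ κ) (q : ℕ) (t : ℝ) (ht : 0 ≤ t) : 0 ≤ aa κ Y q t :=
  mul_nonneg hκ (sum_nonneg fun p _ =>
    div_nonneg (pois_nonneg _ (div_nonneg ht (Real.sqrt_nonneg _))) (Real.sqrt_nonneg _))

lemma AA_nonneg (κ Y : ℝ) (hκ : 0 ≤ κ) (q : ℕ) (t : ℝ) (ht : 0 ≤ t) : 0 ≤ AA κ Y q t :=
  mul_nonneg hκ (sum_nonneg fun p _ => Om_nonneg _ (div_nonneg ht (Real.sqrt_nonneg _)))

private lemma dyn_term_nonneg {t : ℝ} (ht : 0 ≤ t) (p k : ℕ) :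
    0 ≤ Real.exp (-(t / Real.sqrt p)) * ((t / Real.sqrt p) ^ k / (k.factorial : ℝ)) := by
  have : 0 ≤ t / Real.sqrt p := div_nonneg ht (Real.sqrt_nonneg _)
  positivity

lemma aa'_nonpos (κ Y : ℝ) (hκ : 0 ≤ κ) (q : ℕ) (t : ℝ) (ht : 0 ≤ t) : aa' κ Y q t ≤ 0 := by
  unfold aa'
  rw [neg_nonpos]
  exact mul_nonneg hκ (sum_nonneg fun p _ => div_nonneg (dyn_term_nonneg ht p _) (Nat.cast_nonneg p))

/-- `poisTerm_le` and `1/p ≤ 1/(√Y √p)`. -/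
lemma aa'_ge (κ Y : ℝ) (hκ : 0 ≤ κ) (hY : 1 ≤ Y) (q : ℕ) (t : ℝ) (ht : 0 ≤ t) :
    -(1 / Real.sqrt Y * aa κ Y q t) ≤ aa' κ Y q t := by
  unfold aa' aa
  rw [neg_le_neg_iff, ← mul_assoc, mul_comm (1 / Real.sqrt Y) κ, mul_assoc]
  refine mul_le_mul_of_nonneg_left ?_ hκ
  rw [mul_sum]
  refine sum_le_sum fun p hp => ?_
  have hp0 := dyn_pos hp
  have hYp : Y < p := (dyn_mem hp).2.2.1
  have hY0 : (0 : ℝ) < Y := by linarith
  have hsY : 0 < Real.sqrt Y := Real.sqrt_pos.2 hY0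
  have hsp : 0 < Real.sqrt p := Real.sqrt_pos.2 hp0
  have hs : Real.sqrt p * Real.sqrt p = p := Real.mul_self_sqrt hp0.le
  have hle : Real.sqrt Y ≤ Real.sqrt p := Real.sqrt_le_sqrt hYp.le
  have hf := dyn_fac hp
  obtain ⟨j, hj⟩ : ∃ j, (q.factorization p + 1) / 2 = j + 1 :=
    ⟨(q.factorization p + 1) / 2 - 1, by omega⟩
  rw [hj, Nat.add_sub_cancel]
  have h1 := poisTerm_le j (s := t / Real.sqrt p) (div_nonneg ht (Real.sqrt_nonneg _))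
  have h2 : (1 : ℝ) / p ≤ 1 / Real.sqrt Y * (1 / Real.sqrt p) := by
    rw [one_div_mul_one_div]
    refine one_div_le_one_div_of_le (mul_pos hsY hsp) ?_
    calc Real.sqrt Y * Real.sqrt p ≤ Real.sqrt p * Real.sqrt p :=
          mul_le_mul_of_nonneg_right hle hsp.le
      _ = p := hs
  have h3 : 0 ≤ (1 : ℝ) / p := by positivity
  have h4 := pois_nonneg (j + 1) (s := t / Real.sqrt p) (div_nonneg ht (Real.sqrt_nonneg _))
  calc Real.exp (-(t / Real.sqrt p)) * ((t / Real.sqrt p) ^ j / (j.factorial : ℝ)) / p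
      = Real.exp (-(t / Real.sqrt p)) * ((t / Real.sqrt p) ^ j / (j.factorial : ℝ)) * (1 / p) := by
        rw [mul_one_div]
    _ ≤ pois (j + 1) (t / Real.sqrt p) * (1 / Real.sqrt Y * (1 / Real.sqrt p)) :=
        mul_le_mul h1 h2 h3 h4
    _ = 1 / Real.sqrt Y * (pois (j + 1) (t / Real.sqrt p) / Real.sqrt p) := by ring

/-- The dynamic product. PROOF: multiply `local_dyn` over `p ∈ DQ Y q` (`8 ≤ κ p` because
`p > Y`); `∑ 3κ/p ≤ 15 κ` by `sum_inv_dyn`. -/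
theorem dyn_prod (κ Y : ℝ) (hκ0 : 0 < κ) (hκ : κ ≤ 1 / 100) (hY : 10 ^ 6 ≤ Y) (hκY : 8 ≤ κ * Y)
    (q : ℕ) (hq : q ≠ 0) (rp : ℕ → ℚ)
    (hrp : ∀ p ∈ q.primeFactors, (rp p).den = p ^ (q.factorization p)) (t : ℝ) (ht : 0 ≤ t) :
    ∃ x y : ℝ, |x| ≤ 15 * κ ∧ |y| ≤ (1 + 2 * κ) * aa κ Y q t ∧
      ∏ p ∈ DQ Y q, ∑ e ∈ range (q.factorization p + 1),
        ((ady κ Y t p e : ℝ) : ℂ) * Dlt (p ^ e) (rp p) =
        ((Real.exp (-(AA κ Y q t)) : ℝ) : ℂ) * Complex.exp (x + y * Complex.I) := by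
  have hloc : ∀ p : ℕ, ∃ x y : ℝ, p ∈ DQ Y q → |x| ≤ 3 * κ / p ∧
      |y| ≤ (1 + 2 * κ) * (κ * pois ((q.factorization p + 1) / 2) (t / Real.sqrt p) / Real.sqrt p) ∧
      ∑ e ∈ range (q.factorization p + 1), ((ady κ Y t p e : ℝ) : ℂ) * Dlt (p ^ e) (rp p) =
        ((Real.exp (-(κ * Om ((q.factorization p + 1) / 2) (t / Real.sqrt p))) : ℝ) : ℂ) *
          Complex.exp (x + y * Complex.I) := by
    intro p
    by_cases hp : p ∈ DQ Y q
    · obtain ⟨h1, h2⟩ := dyn_mem hp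
      have hs : 0 ≤ t / Real.sqrt p := div_nonneg ht (Real.sqrt_nonneg _)
      have hpk : 8 ≤ κ * p := by
        have : κ * Y ≤ κ * p := mul_le_mul_of_nonneg_left h2.2.1.le hκ0.le
        linarith
      obtain ⟨x, y, hx, hy, hxy⟩ := local_dyn p (q.factorization p) (rp p)
        (Nat.prime_of_mem_primeFactors h1) h2.1 (dyn_fac hp) (hrp p h1) κ (t / Real.sqrt p) hκ0 hκ
        hs hpk
      refine ⟨x, y, fun _ => ⟨hx, hy, ?_⟩⟩
      rw [← hxy]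
      refine sum_congr rfl fun e _ => ?_
      have he : ady κ Y t p e = Real.exp (-(κ * Om e (t / Real.sqrt p))) := by
        unfold ady
        rw [if_pos h2]
      rw [he]
    · exact ⟨0, 0, fun h => absurd h hp⟩
  choose x y hxy using hloc
  refine ⟨∑ p ∈ DQ Y q, x p, ∑ p ∈ DQ Y q, y p, ?_, ?_, ?_⟩
  · have h5 : ∑ p ∈ DQ Y q, 1 / (p : ℝ) ≤ 5 := by
      refine sum_inv_dyn Y hY (DQ Y q) fun p hp => ?_
      obtain ⟨h1, h2⟩ := dyn_mem hp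
      exact ⟨Nat.prime_of_mem_primeFactors h1, h2.2.1, h2.2.2⟩
    calc |∑ p ∈ DQ Y q, x p| ≤ ∑ p ∈ DQ Y q, |x p| := abs_sum_le_sum_abs _ _
      _ ≤ ∑ p ∈ DQ Y q, 3 * κ * (1 / (p : ℝ)) := by
          refine sum_le_sum fun p hp => ?_
          rw [mul_one_div]
          exact (hxy p hp).1
      _ = 3 * κ * ∑ p ∈ DQ Y q, 1 / (p : ℝ) := by rw [mul_sum]
      _ ≤ 3 * κ * 5 := mul_le_mul_of_nonneg_left h5 (by linarith)
      _ = 15 * κ := by ring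
  · calc |∑ p ∈ DQ Y q, y p| ≤ ∑ p ∈ DQ Y q, |y p| := abs_sum_le_sum_abs _ _
      _ ≤ ∑ p ∈ DQ Y q, (1 + 2 * κ) *
          (κ * pois ((q.factorization p + 1) / 2) (t / Real.sqrt p) / Real.sqrt p) :=
          sum_le_sum fun p hp => (hxy p hp).2.1
      _ = (1 + 2 * κ) * aa κ Y q t := by
          unfold aa
          rw [← mul_sum, mul_sum (DQ Y q) _ κ]
          congr 1
          refine sum_congr rfl fun p _ => ?_
          ring
  · have h1 : ∏ p ∈ DQ Y q, ∑ e ∈ range (q.factorization p + 1),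
        ((ady κ Y t p e : ℝ) : ℂ) * Dlt (p ^ e) (rp p) =
        ∏ p ∈ DQ Y q, (((Real.exp (-(κ * Om ((q.factorization p + 1) / 2) (t / Real.sqrt p))) : ℝ) :
          ℂ) * Complex.exp (x p + y p * Complex.I)) :=
      prod_congr rfl fun p hp => (hxy p hp).2.2
    have h2 : ∏ p ∈ DQ Y q, Real.exp (-(κ * Om ((q.factorization p + 1) / 2) (t / Real.sqrt p))) =
        Real.exp (-(AA κ Y q t)) := by
      rw [← Real.exp_sum, sum_neg_distrib, ← mul_sum]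
      rfl
    rw [h1, prod_mul_distrib, ← Complex.ofReal_prod, h2, ← Complex.exp_sum, sum_add_distrib,
      ← sum_mul]
    push_cast
    rfl

end Pool.Agent.H.MP_b3c6db_nt
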