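import Pool.Agent.H.MP_b3c6db_nt.LocalPrime
import Pool.Agent.H.MP_b3c6db_nt.LocalOp

/-! Exact values of the normalized quadratic Gauss sums at odd prime powers. -/

namespace Pool.Agent.H.MP_b3c6db_nt

open Finset Complex

lemma Gauss1_split (M m : ℕ) (f : ℕ → ℂ) :
    ∑ b ∈ range (M * m), f b = ∑ v ∈ range m, ∑ u ∈ range M, f (M * v + u) := by
  induction m with
  | zero => simp
  | succ m ih =>
    rw [Nat.mul_succ, Finset.sum_range_add, ih, sum_range_succ]

lemma Gauss1_num (p n : ℕ) (hp : p.Prime) (r : ℚ) (hr : r.den = p ^ (n + 1)) :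
    ¬ (p : ℤ) ∣ r.num := by
  intro h
  have h1 := r.isCoprime_num_den
  have h2 : (p : ℤ) ∣ (r.den : ℤ) := by
    rw [hr]
    push_cast
    exact dvd_pow_self _ (Nat.succ_ne_zero n)
  have h3 := h1.isUnit_of_dvd' h h2
  rw [Int.isUnit_iff] at h3
  have := hp.two_le
  omega

lemma Gauss1_val (p n : ℕ) (r : ℚ) (hr : r.den = p ^ n) :
    (r : ℝ) * (p : ℝ) ^ n = (r.num : ℝ) := by
  have h := rat_mul_den r
  rw [hr] at h
  push_cast at h
  exact h

/-- Reduction formula. PROOF. `Q = p^(k+2)`, `r = c / Q` with `c` prime to `p`.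
`gG r = Q⁻¹ ∑_{b mod Q} ex (r b²)`. Write `b = u + p^(k+1) v`, `0 ≤ u < p^(k+1)`, `0 ≤ v < p`
(`Finset.sum_range_mul`-like splitting, e.g. by `Nat.divMod` bijection `range (p^(k+1) * p)`); then
`r b² ≡ r u² + 2 c u v / p mod 1` because `p^(2k+2)` is a multiple of `Q`. The sum over `v` is `p` if
`p ∣ u` and `0` otherwise (`p` odd; `sum_range_ex` of Expo.lean, for the integer `2 c u`, or with
natural representatives). The remaining `u = p w`, `w < p^k`, give
`gG r = Q⁻¹ p ∑_{w < p^k} ex (r p² w²) = p⁻¹ gG (p² r)` by `gG_eq` (with `Q := p^k`, the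
denominator of `p² r` divides `p^k`: `den_pow_mul_dvd`). -/
theorem gG_reduce (p k : ℕ) (hp : p.Prime) (hp2 : p ≠ 2) (r : ℚ) (hr : r.den = p ^ (k + 2)) :
    gG r = (1 / (p : ℂ)) * gG ((p : ℚ) ^ 2 * r) := by
  have hp0 : 0 < p := hp.pos
  have hpR : (p : ℝ) ≠ 0 := by exact_mod_cast hp.ne_zero
  have hpC : (p : ℂ) ≠ 0 := by exact_mod_cast hp.ne_zero
  have hc := Gauss1_num p (k + 1) hp r hr
  have hval := Gauss1_val p (k + 2) r hr
  obtain ⟨cn, t, hcn⟩ : ∃ (cn : ℕ) (t : ℤ), r.num = cn + p * t := by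
    have hpz : (p : ℤ) ≠ 0 := by exact_mod_cast hp.ne_zero
    refine ⟨(r.num % p).toNat, r.num / p, ?_⟩
    rw [Int.toNat_of_nonneg (Int.emod_nonneg _ hpz), Int.emod_add_mul_ediv]
  have hcn0 : ¬ p ∣ cn := by
    intro h
    apply hc
    rw [hcn]
    exact dvd_add (by exact_mod_cast h) (dvd_mul_right _ _)
  -- the values of the exponential
  have h1 : ∀ v u : ℕ, ex ((r : ℝ) * ((p ^ (k + 1) * v + u : ℕ) : ℝ) ^ 2) =
      ex ((r : ℝ) * (u : ℝ) ^ 2) * ex (((2 * cn * u : ℕ) : ℝ) * v / p) := by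
    intro v u
    rw [← ex_add]
    apply ex_congr_int (r.num * p ^ k * v ^ 2 + 2 * t * u * v)
    have h2 : (r : ℝ) * (p : ℝ) ^ (k + 1) * p = (r.num : ℝ) := by
      rw [← hval]; ring
    have h3 : (r : ℝ) * (p : ℝ) ^ (k + 1) = (r.num : ℝ) / p := by
      rw [← h2]; field_simp
    have h4 : (r.num : ℝ) = (cn : ℝ) + p * t := by exact_mod_cast hcn
    have h5 : (r : ℝ) * (p : ℝ) ^ (k + 1) * (p : ℝ) ^ (k + 1) = r.num * (p : ℝ) ^ k := by
      rw [h3]; field_simp; ring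
    have h6 : (r : ℝ) * ((p ^ (k + 1) * v + u : ℕ) : ℝ) ^ 2 =
        (r : ℝ) * (p : ℝ) ^ (k + 1) * (p : ℝ) ^ (k + 1) * v ^ 2 +
        2 * ((r : ℝ) * (p : ℝ) ^ (k + 1)) * u * v + r * u ^ 2 := by
      push_cast; ring
    rw [h6, h5, h3, h4]
    push_cast
    rw [h4]
    field_simp
    ring
  have h2 : ∑ b ∈ range (p ^ (k + 2)), ex ((r : ℝ) * (b : ℝ) ^ 2) =
      ∑ u ∈ range (p ^ (k + 1)), ex ((r : ℝ) * (u : ℝ) ^ 2) * (if p ∣ u then (p : ℂ) else 0) := by
    rw [pow_succ p (k + 1), Gauss1_split, sum_comm]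
    apply sum_congr rfl
    intro u _
    simp_rw [h1]
    rw [← mul_sum, sum_range_ex p hp0 (2 * cn * u)]
    congr 1
    have h3 : p ∣ 2 * cn * u ↔ p ∣ u := by
      constructor
      · intro h
        rcases (hp.dvd_mul).1 h with h4 | h4
        · rcases (hp.dvd_mul).1 h4 with h5 | h5
          · exact absurd ((Nat.prime_dvd_prime_iff_eq hp Nat.prime_two).1 h5) hp2
          · exact absurd h5 hcn0
        · exact h4
      · intro h
        exact Dvd.dvd.mul_left h _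
    simp only [h3]
  have h3 : ∑ u ∈ range (p ^ (k + 1)), ex ((r : ℝ) * (u : ℝ) ^ 2) * (if p ∣ u then (p : ℂ) else 0) =
      ∑ w ∈ range (p ^ k), ex ((((p : ℚ) ^ 2 * r : ℚ) : ℝ) * (w : ℝ) ^ 2) * p := by
    rw [pow_succ' p k, Gauss1_split]
    apply sum_congr rfl
    intro w _
    rw [sum_eq_single 0]
    · rw [add_zero, if_pos (dvd_mul_right p w)]
      congr 2
      push_cast
      ring
    · intro x hx hx0
      rw [mem_range] at hx
      have : ¬ p ∣ p * w + x := by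
        intro h
        have h4 : p ∣ x := (Nat.dvd_add_right (dvd_mul_right p w)).1 h
        exact absurd (Nat.le_of_dvd (Nat.pos_of_ne_zero hx0) h4) (by omega)
      rw [if_neg this, mul_zero]
    · intro h
      exact absurd (mem_range.2 hp0) h
  have h4 : ((p : ℚ) ^ 2 * r).den ∣ p ^ k := by
    have h5 := den_pow_mul_dvd p 2 (p ^ k) 2 r (by rw [hr, pow_add, mul_comm]) le_rfl
    exact h5
  rw [gG_eq r (p ^ (k + 2)) (pow_pos hp0 _) (by rw [hr]), h2, h3, ← sum_mul,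
    gG_eq _ (p ^ k) (pow_pos hp0 _) h4]
  push_cast
  field_simp
  ring

/-- the denominator drops by exactly `p^2`. PROOF: `r = c / p^(k+2)` in lowest terms. -/
lemma den_reduce (p k : ℕ) (hp : p.Prime) (r : ℚ) (hr : r.den = p ^ (k + 2)) :
    ((p : ℚ) ^ 2 * r).den = p ^ k := by
  have hp0 : 0 < p := hp.pos
  have hpQ : (p : ℚ) ≠ 0 := by exact_mod_cast hp.ne_zero
  have hc := Gauss1_num p (k + 1) hp r hr
  have h1 : (p : ℚ) ^ 2 * r = ((r.num : ℤ) : ℚ) / (((p ^ k : ℕ) : ℤ) : ℚ) := by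
    have h2 := Rat.mul_den_eq_num r
    rw [hr] at h2
    push_cast at h2 ⊢
    rw [eq_div_iff (pow_ne_zero _ hpQ), ← h2]
    ring
  have h3 := Rat.den_div_eq_of_coprime (a := r.num) (b := ((p ^ k : ℕ) : ℤ))
    (by exact_mod_cast pow_pos hp0 k) (by
      rw [Int.natAbs_natCast]
      apply Nat.Coprime.pow_right
      rw [Nat.coprime_comm, hp.coprime_iff_not_dvd]
      intro h
      exact hc (Int.natCast_dvd.2 h))
  rw [← h1] at h3
  exact_mod_cast h3

/-- Even exponents: induction on `m` with `gG_reduce`, `gG_of_den_one`. -/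
theorem gG_even (p m : ℕ) (hp : p.Prime) (hp2 : p ≠ 2) (r : ℚ) (hr : r.den = p ^ (2 * m)) :
    gG r = 1 / (p : ℂ) ^ m := by
  induction m generalizing r with
  | zero => rw [gG_of_den_one r (by simpa using hr)]; simp
  | succ m ih =>
    have h1 : r.den = p ^ (2 * m + 2) := by rw [hr]; ring
    rw [gG_reduce p (2 * m) hp hp2 r h1, ih _ (den_reduce p (2 * m) hp r h1), pow_succ']
    have hpC : (p : ℂ) ≠ 0 := by exact_mod_cast hp.ne_zero
    field_simp

/-- Exponent one, `p ≡ 3 mod 4`: `gG r` is purely imaginary of absolute value `p^(-1/2)`.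
PROOF. By `sum_quad_sq` / `gs_sq` of LocalOp.lean (the Gauss sum `∑_b ex (c b²/p)` equals
`(c/p) gs p` and `gs p ^ 2 = -p`; `exists_sign`). -/
theorem gG3_one (p : ℕ) (hp : p.Prime) (hp3 : p % 4 = 3) (r : ℚ) (hr : r.den = p) :
    (gG r).re = 0 ∧ ‖gG r‖ = 1 / Real.sqrt p := by
  have : Fact p.Prime := ⟨hp⟩
  have hp2 : ringChar (ZMod p) ≠ 2 := by
    rw [ZMod.ringChar_zmod_n]
    intro h
    omega
  have hc := Gauss1_num p 0 hp r (by rw [hr]; ring)
  have hc0 : ((r.num : ℤ) : ZMod p) ≠ 0 := by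
    rwa [Ne, ZMod.intCast_zmod_eq_zero_iff_dvd]
  have hval : (r : ℝ) * (p : ℝ) = (r.num : ℝ) := by
    have := Gauss1_val p 1 r (by rw [hr]; ring)
    rwa [pow_one] at this
  have hpR : (p : ℝ) ≠ 0 := by exact_mod_cast hp.ne_zero
  set c : ZMod p := ((r.num : ℤ) : ZMod p) with hcdef
  -- the sum over residues
  have h1 : ∑ b ∈ range p, ex ((r : ℝ) * (b : ℝ) ^ 2) =
      ∑ b : ZMod p, ZMod.stdAddChar (c * b ^ 2) := by
    rw [← sum_zmod_eq_range p (fun b => ex ((r : ℝ) * (b : ℝ) ^ 2))]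
    apply sum_congr rfl
    intro b _
    have h2 : c * b ^ 2 = ((r.num * (b.val : ℤ) ^ 2 : ℤ) : ZMod p) := by
      push_cast
      rw [ZMod.natCast_zmod_val]
    rw [h2, ZMod.stdAddChar_coe]
    unfold ex
    congr 1
    have h3 : (r : ℝ) = (r.num : ℝ) / (p : ℝ) := by
      rw [← hval]; field_simp
    rw [h3]
    push_cast
    ring
  have h2 : ∑ b : ZMod p, (ZMod.stdAddChar (c * b ^ 2) : ℂ) =
      ∑ a : ZMod p, (((quadraticChar (ZMod p) a : ℤ) : ℂ) + 1) * ZMod.stdAddChar (c * a) := by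
    rw [← Finset.sum_fiberwise univ (fun b : ZMod p => b ^ 2)]
    apply sum_congr rfl
    intro a _
    have h3 : ∀ b ∈ univ.filter (fun b : ZMod p => b ^ 2 = a),
        (ZMod.stdAddChar (c * b ^ 2) : ℂ) = ZMod.stdAddChar (c * a) := by
      intro b hb
      rw [(mem_filter.1 hb).2]
    rw [sum_congr rfl h3, sum_const, nsmul_eq_mul]
    congr 1
    have h4 := quadraticChar_card_sqrts hp2 a
    have h5 : ({x : ZMod p | x ^ 2 = a}.toFinset) = univ.filter (fun b : ZMod p => b ^ 2 = a) := by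
      ext b
      simp
    rw [h5] at h4
    exact_mod_cast h4
  have h3 : ∑ a : ZMod p, (((quadraticChar (ZMod p) a : ℤ) : ℂ) + 1) * ZMod.stdAddChar (c * a) =
      ∑ a : ZMod p, ((quadraticChar (ZMod p) a : ℤ) : ℂ) * ZMod.stdAddChar (c * a) := by
    simp_rw [add_mul, one_mul]
    rw [sum_add_distrib]
    have h4 := AddChar.sum_mulShift (ψ := ZMod.stdAddChar (N := p)) c
      (ZMod.isPrimitive_stdAddChar p)
    rw [if_neg hc0] at h4
    simp_rw [mul_comm c]
    rw [h4]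
    simp
  set S : ℂ := ∑ a : ZMod p, ((quadraticChar (ZMod p) a : ℤ) : ℂ) * ZMod.stdAddChar (c * a) with hS
  have h4 : ((quadraticChar (ZMod p) c : ℤ) : ℂ) * S = gs p := by
    have h5 := gaussSum_mulShift ((quadraticChar (ZMod p)).ringHomComp (Int.castRingHom ℂ))
      (ZMod.stdAddChar (N := p)) (Units.mk0 c hc0)
    rw [← gs_eq] at h5
    rw [← h5, hS]
    unfold gaussSum
    simp [MulChar.ringHomComp_apply, AddChar.mulShift_apply]
  obtain ⟨s, hs, hsg⟩ := exists_sign p hp3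
  have h6 : ∃ t : ℝ, (t = 1 ∨ t = -1) ∧ S = (t : ℂ) * (Complex.I * (Real.sqrt p : ℂ)) := by
    rw [← hsg, ← h4]
    rcases quadraticChar_dichotomy hc0 with h | h <;> rcases hs with h' | h'
    · exact ⟨1, Or.inl rfl, by rw [h, h']; simp⟩
    · exact ⟨-1, Or.inr rfl, by rw [h, h']; simp⟩
    · exact ⟨-1, Or.inr rfl, by rw [h, h']; simp⟩
    · exact ⟨1, Or.inl rfl, by rw [h, h']; simp⟩
  obtain ⟨t, ht, hSt⟩ := h6
  have h7 : gG r = ((t / p * Real.sqrt p : ℝ) : ℂ) * Complex.I := by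
    unfold gG
    rw [hr, h1, h2, h3, hSt]
    push_cast
    ring
  have hp0 : (0 : ℝ) < p := by exact_mod_cast hp.pos
  constructor
  · rw [h7]
    simp
  · rw [h7, norm_mul, Complex.norm_I, mul_one, Complex.norm_real, norm_mul, norm_div]
    have h8 : ‖t‖ = 1 := by rcases ht with h | h <;> rw [h] <;> simp
    rw [h8, Real.norm_of_nonneg hp0.le, Real.norm_of_nonneg (Real.sqrt_nonneg _)]
    have h9 : Real.sqrt p * Real.sqrt p = p := Real.mul_self_sqrt hp0.le
    have h10 : Real.sqrt p ≠ 0 := (Real.sqrt_pos.2 hp0).ne'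
    field_simp
    rw [sq, h9]

/-- Odd exponents: induction on `m` with `gG_reduce` and `gG3_one`. -/
theorem gG3_odd (p m : ℕ) (hp : p.Prime) (hp3 : p % 4 = 3) (r : ℚ) (hr : r.den = p ^ (2 * m + 1)) :
    (gG r).re = 0 ∧ ‖gG r‖ = 1 / ((p : ℝ) ^ m * Real.sqrt p) := by
  have hp2 : p ≠ 2 := by rintro rfl; omega
  have hp0 : (0 : ℝ) < p := by exact_mod_cast hp.pos
  have hsq : (0 : ℝ) < Real.sqrt p := Real.sqrt_pos.2 hp0
  induction m generalizing r with
  | zero =>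
    have h1 := gG3_one p hp hp3 r (by rw [hr]; ring)
    refine ⟨h1.1, ?_⟩
    rw [h1.2, pow_zero, one_mul]
  | succ m ih =>
    have h1 : r.den = p ^ (2 * m + 1 + 2) := by rw [hr]; ring
    have h2 := ih _ (den_reduce p (2 * m + 1) hp r h1)
    have h3 := gG_reduce p (2 * m + 1) hp hp2 r h1
    have h4 : (1 / (p : ℂ)) = ((1 / p : ℝ) : ℂ) := by push_cast; rfl
    rw [h4] at h3
    rw [h3]
    constructor
    · rw [Complex.re_ofReal_mul, h2.1, mul_zero]
    · rw [norm_mul, h2.2, Complex.norm_real, Real.norm_of_nonneg (by positivity), pow_succ']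
      field_simp

end Pool.Agent.H.MP_b3c6db_nt
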