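import Pool.Agent.H.MP_b3c6db_nt.LocalPrime

/-! Gauss sums at prime powers `p ≡ 1 mod 4` are real. -/

namespace Pool.Agent.H.MP_b3c6db_nt

open Finset Complex

/-- PROOF. Let `q = p^k`, `k ≥ 1`. There is `x` with `p ∣ x² + 1` (`ZMod.exists_sq_eq_neg_one_iff`),
so `q ∣ (x^(p^(k-1)))² + 1` by `dvd_sub_pow_of_dvd_sub` (p odd). -/
lemma exists_sq_neg_one (p k : ℕ) (hp : p.Prime) (hp1 : p % 4 = 1) :
    ∃ u : ℕ, p ^ k ∣ u ^ 2 + 1 := by
  rcases Nat.eq_zero_or_pos k with hk | hk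
  · subst hk
    exact ⟨0, by simp⟩
  obtain ⟨j, rfl⟩ : ∃ j, k = j + 1 := ⟨k - 1, by omega⟩
  have : Fact p.Prime := ⟨hp⟩
  have h1 : IsSquare (-1 : ZMod p) := by
    rw [ZMod.exists_sq_eq_neg_one_iff]
    omega
  obtain ⟨y, hy⟩ := h1
  have h2 : ((p : ℕ) : ℤ) ∣ ((y.val : ℤ) ^ 2) - (-1) := by
    rw [← ZMod.intCast_zmod_eq_zero_iff_dvd]
    push_cast
    rw [ZMod.natCast_zmod_val, pow_two, ← hy]
    ring
  have h3 := dvd_sub_pow_of_dvd_sub h2 j
  have hodd : Odd (p ^ j) := Odd.pow (Nat.odd_iff.2 (by omega))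
  rw [hodd.neg_one_pow] at h3
  refine ⟨y.val ^ (p ^ j), ?_⟩
  have h4 : ((p ^ (j + 1) : ℕ) : ℤ) ∣ (((y.val ^ (p ^ j)) ^ 2 + 1 : ℕ) : ℤ) := by
    have h5 : (((y.val ^ (p ^ j)) ^ 2 + 1 : ℕ) : ℤ) = ((y.val : ℤ) ^ 2) ^ p ^ j - (-1) := by
      push_cast
      rw [← pow_mul, ← pow_mul, mul_comm 2]
      ring
    rw [h5]
    exact_mod_cast h3
  exact_mod_cast h4

/-- `conj (gG r) = gG (-r)`: termwise (`-r` has the same denominator). -/
lemma gG_neg (r : ℚ) : gG (-r) = (starRingEnd ℂ) (gG r) := by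
  have hconj : ∀ x : ℝ, (starRingEnd ℂ) (ex x) = ex (-x) := by
    intro x
    unfold ex
    rw [← Complex.exp_conj]
    congr 1
    simp only [map_mul, Complex.conj_I, Complex.conj_ofReal, map_ofNat]
    push_cast
    ring
  unfold gG
  rw [map_mul, map_sum]
  have hden : (-r).den = r.den := Rat.neg_den r
  rw [hden]
  congr 1
  · simp
  · refine sum_congr rfl fun b _ => ?_
    rw [hconj]
    congr 1
    push_cast
    ring

/-- PROOF. With `u` as above, `u² r = -r + integer`, so `gG (u² r) = gG (-r)` (the sums agree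
termwise, `ex_congr_int`; the denominators of `u² r` and of `-r` are equal), and
`gG (u² r) = gG r` by `gG_sq_mul` (`u` is prime to `p`). Hence `gG r` equals its conjugate. -/
theorem gG1_real (p k : ℕ) (hp : p.Prime) (hp1 : p % 4 = 1) (r : ℚ) (hr : r.den = p ^ k) :
    (gG r).im = 0 := by
  obtain ⟨u, hu⟩ := exists_sq_neg_one p k hp hp1
  have hcop : Nat.Coprime u r.den := by
    rw [hr]
    refine Nat.Coprime.coprime_dvd_right hu ?_
    have h1 : Nat.Coprime u (u * u + 1) := by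
      rw [Nat.coprime_mul_right_add_right]
      exact Nat.coprime_one_right u
    rwa [← pow_two] at h1
  obtain ⟨c, hc⟩ := hu
  have h2 : ((u : ℚ) ^ 2) * r = -r + ((c * r.num : ℤ) : ℚ) := by
    have h3 : ((u : ℚ) ^ 2 + 1) = (r.den : ℚ) * c := by
      rw [hr]
      exact_mod_cast hc
    have h4 : (r.den : ℚ) * r = r.num := Rat.den_mul_eq_num r
    have h5 : ((u : ℚ) ^ 2 + 1) * r = c * r.num := by
      rw [h3, ← h4]
      ring
    push_cast
    linarith
  have h6 := gG_sq_mul r u hcop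
  rw [h2, gG_add _ _ (by rw [Rat.den_intCast]; exact Nat.coprime_one_right _), gG_int, mul_one,
    gG_neg] at h6
  exact Complex.conj_eq_iff_im.1 h6

end Pool.Agent.H.MP_b3c6db_nt
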