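import Pool.Agent.H.MP_b3c6db_nt.SB.Wt

/-! The weights decay in the cofactor. -/

namespace Pool.Agent.H.MP_b3c6db_nt

open Finset Complex MeasureTheory

/-- the cofactor of `v` relative to `V`. -/
def cof (V v : ℕ) : ℕ := v / Nat.gcd v V

/-- `factorization (cof V v) p = v_p - V_p` (truncated), for `v, V ≠ 0`. -/
lemma cof_factorization (V v : ℕ) (hV : V ≠ 0) (hv : v ≠ 0) (p : ℕ) :
    (cof V v).factorization p = v.factorization p - V.factorization p := by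
  unfold cof
  rw [Nat.factorization_div (Nat.gcd_dvd_left v V), Nat.factorization_gcd hv hV]
  rw [Finsupp.tsub_apply, Finsupp.inf_apply]
  omega

lemma cof_pos (V v : ℕ) (hv : v ≠ 0) : 0 < cof V v := by
  unfold cof
  exact Nat.div_pos (Nat.gcd_le_left _ (Nat.pos_of_ne_zero hv))
    (Nat.gcd_pos_of_pos_left _ (Nat.pos_of_ne_zero hv))

/-- the cofactor as a product over the primes of `v`. -/
lemma HSmall_cof_prod (V v : ℕ) (hV : V ≠ 0) (hv : v ≠ 0) :
    (cof V v : ℝ) = ∏ p ∈ v.primeFactors, (p : ℝ) ^ (v.factorization p - V.factorization p) := by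
  have h1 : (cof V v).factorization.prod (fun p e => p ^ e) = cof V v :=
    Nat.prod_factorization_pow_eq_self (cof_pos V v hv).ne'
  have h2 : (cof V v).factorization.prod (fun p e => p ^ e) =
      ∏ p ∈ v.primeFactors, p ^ ((cof V v).factorization p) := by
    refine Finsupp.prod_of_support_subset _ ?_ _ ?_
    · intro p hp
      rw [Finsupp.mem_support_iff, cof_factorization V v hV hv p] at hp
      rw [← Nat.support_factorization, Finsupp.mem_support_iff]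
      omega
    · intro p _
      exact pow_zero p
  calc (cof V v : ℝ) = (((cof V v).factorization.prod (fun p e => p ^ e) : ℕ) : ℝ) := by rw [h1]
    _ = ∏ p ∈ v.primeFactors, (p : ℝ) ^ (v.factorization p - V.factorization p) := by
      rw [h2]
      push_cast
      refine prod_congr rfl fun p _ => ?_
      rw [cof_factorization V v hV hv p]

lemma HSmall_expo {κ Y ρ : ℝ} (hκ0 : 0 < κ) (hκ : κ ≤ 1 / 2000) (hY : 1 ≤ Y)
    (hρ1 : ρ ≤ κ / (50 * Real.sqrt Y)) (p : ℕ) : ρ ≤ expo κ Y p := by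
  have h1 : 1 ≤ Real.sqrt Y := Real.one_le_sqrt.2 hY
  have h2 : κ / (50 * Real.sqrt Y) ≤ κ := div_le_self hκ0.le (by linarith)
  unfold expo
  split_ifs
  · linarith
  · exact hρ1
  · linarith

lemma HSmall_loc {κ Y T ρ t : ℝ} {V : ℕ} (hκ0 : 0 < κ) (hκ : κ ≤ 1 / 2000) (hY : 1 ≤ Y)
    (hV : ∀ p, p.Prime → p ∣ V → isdyn Y p)
    (hρ1 : ρ ≤ κ / (50 * Real.sqrt Y))
    (hρ : ∀ p, p.Prime → isdyn Y p →
      ρ * Real.log p ≤ κ * pois (V.factorization p + 1) (T / Real.sqrt p))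
    (ht0 : 0 ≤ t) (htT : t ≤ T) (p e : ℕ) (hp : p.Prime) :
    ast κ Y p e * ady κ Y t p e ≤ ((p : ℝ) ^ (e - V.factorization p)) ^ (-ρ) := by
  have hp0 : (0 : ℝ) < p := Nat.cast_pos.2 hp.pos
  have hp1 : (1 : ℝ) ≤ p := Nat.one_le_cast.2 hp.one_lt.le
  unfold ast ady
  by_cases h : isdyn Y p
  · rw [if_pos h, if_pos h, one_mul]
    have hs : 0 < Real.sqrt p := Real.sqrt_pos.2 hp0
    have hs0 : 0 ≤ t / Real.sqrt p := by positivity
    have h1 := Om_ge e (V.factorization p) hs0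
    have h2 : pois (V.factorization p + 1) (T / Real.sqrt p) ≤
        pois (V.factorization p + 1) (t / Real.sqrt p) :=
      pois_anti _ hs0 (div_le_div_of_nonneg_right htT hs.le)
    have h3 := hρ p hp h
    set m : ℝ := ((e - V.factorization p : ℕ) : ℝ) with hm
    have hm0 : 0 ≤ m := Nat.cast_nonneg _
    have h4 : m * (ρ * Real.log p) ≤ κ * Om e (t / Real.sqrt p) := by
      calc m * (ρ * Real.log p)
          ≤ m * (κ * pois (V.factorization p + 1) (t / Real.sqrt p)) :=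
            mul_le_mul_of_nonneg_left (h3.trans (mul_le_mul_of_nonneg_left h2 hκ0.le)) hm0
        _ = κ * (m * pois (V.factorization p + 1) (t / Real.sqrt p)) := by ring
        _ ≤ κ * Om e (t / Real.sqrt p) := mul_le_mul_of_nonneg_left h1 hκ0.le
    rw [Real.rpow_def_of_pos (by positivity), Real.log_pow]
    refine Real.exp_le_exp.2 ?_
    rw [← hm]
    nlinarith
  · rw [if_neg h, if_neg h, mul_one]
    have h1 : V.factorization p = 0 :=
      Nat.factorization_eq_zero_of_not_dvd fun hd => h (hV p hp hd)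
    rw [h1, Nat.sub_zero]
    have h2 : ((p : ℝ) ^ e) ^ (-ρ) = ((p : ℝ) ^ (-ρ)) ^ e := by
      rw [← Real.rpow_natCast, ← Real.rpow_natCast, ← Real.rpow_mul hp0.le, ← Real.rpow_mul hp0.le,
        mul_comm]
    rw [h2]
    refine pow_le_pow_left₀ (Real.rpow_nonneg hp0.le _) ?_ e
    exact Real.rpow_le_rpow_of_exponent_le hp1 (neg_le_neg (HSmall_expo hκ0 hκ hY hρ1 p))

lemma HSmall_Amul {κ Y T ρ t : ℝ} {V : ℕ} (hκ0 : 0 < κ) (hκ : κ ≤ 1 / 2000) (hY : 1 ≤ Y)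
    (hV0 : V ≠ 0) (hV : ∀ p, p.Prime → p ∣ V → isdyn Y p)
    (hρ1 : ρ ≤ κ / (50 * Real.sqrt Y))
    (hρ : ∀ p, p.Prime → isdyn Y p →
      ρ * Real.log p ≤ κ * pois (V.factorization p + 1) (T / Real.sqrt p))
    (ht0 : 0 ≤ t) (htT : t ≤ T) (v : ℕ) (hv : v ≠ 0) :
    Amul (ast κ Y) v * Amul (ady κ Y t) v ≤ (cof V v : ℝ) ^ (-ρ) := by
  rw [← Amul_mul_fun, HSmall_cof_prod V v hV0 hv,
    ← Real.finsetProd_rpow _ _ (fun p _ => by positivity)]
  unfold Amul Finsupp.prod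
  rw [Nat.support_factorization]
  refine prod_le_prod (fun p _ => mul_nonneg (ast_nonneg κ Y _ _) (ady_pos κ Y t _ _).le) ?_
  intro p hp
  exact HSmall_loc hκ0 hκ hY hV hρ1 hρ ht0 htT p _ (Nat.prime_of_mem_primeFactors hp)

/-- PROOF. For `0 ≤ t ≤ T`: `ast(v) ady_t(v) ≤ ∏_{p ∣ v} p^{-ρ m_p}`, `m_p = v_p - V_p` truncated.
Dynamic `p`: `Om v_p s ≥ m_p pois (V_p + 1) s` (`Om_ge`), `s = t/√p ≤ T/√p` (`pois_anti`), and
`κ pois (V_p+1) (T/√p) ≥ ρ log p`. Static `p`: `V_p = 0`, `p^{-expo · v_p} ≤ p^{-ρ v_p}` since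
`ρ ≤ expo` (`κ/(50√Y) ≤ κ`, `≤ 1/8`). And `∏ p^{m_p} = cof V v` (`cof_factorization`). Finally
`∫_0^T 2 e^{-ct} ≤ 2/c ≤ 2`. -/
theorem hh_cof (κ Y T ρ : ℝ) (V : ℕ) (hκ0 : 0 < κ) (hκ : κ ≤ 1 / 2000) (hY : 1 ≤ Y) (hT : 0 ≤ T)
    (hV0 : V ≠ 0) (hV : ∀ p, p.Prime → p ∣ V → isdyn Y p) (hρ0 : 0 ≤ ρ)
    (hρ1 : ρ ≤ κ / (50 * Real.sqrt Y))
    (hρ : ∀ p, p.Prime → isdyn Y p →
      ρ * Real.log p ≤ κ * pois (V.factorization p + 1) (T / Real.sqrt p))
    (v : ℕ) (hv : v ≠ 0) : hh κ Y T v ≤ 2 * (cof V v : ℝ) ^ (-ρ) := by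
  have hc := Wt_cc_ge hκ
  have hc0 : cc κ ≠ 0 := by linarith
  have hC : 0 ≤ (cof V v : ℝ) ^ (-ρ) := Real.rpow_nonneg (Nat.cast_nonneg _) _
  unfold hh
  rw [← intervalIntegral.integral_const_mul]
  have h1 : ∫ t in (0 : ℝ)..T, Amul (ast κ Y) v *
      (2 * Real.exp (-(cc κ * t)) * Amul (ady κ Y t) v) ≤
      ∫ t in (0 : ℝ)..T, (cof V v : ℝ) ^ (-ρ) * (2 * Real.exp (-(cc κ * t))) := by
    refine intervalIntegral.integral_mono_on hT ?_ ?_ fun t ht => ?_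
    · refine Continuous.intervalIntegrable ?_ _ _
      exact continuous_const.mul (Continuous.mul (by fun_prop) (continuous_Amul_ady κ Y v))
    · exact Continuous.intervalIntegrable (by fun_prop) _ _
    · have h2 := HSmall_Amul hκ0 hκ hY hV0 hV hρ1 hρ ht.1 ht.2 v hv
      calc Amul (ast κ Y) v * (2 * Real.exp (-(cc κ * t)) * Amul (ady κ Y t) v)
          = (Amul (ast κ Y) v * Amul (ady κ Y t) v) * (2 * Real.exp (-(cc κ * t))) := by ring
        _ ≤ (cof V v : ℝ) ^ (-ρ) * (2 * Real.exp (-(cc κ * t))) :=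
          mul_le_mul_of_nonneg_right h2 (by positivity)
  have h3 : ∫ t in (0 : ℝ)..T, (cof V v : ℝ) ^ (-ρ) * (2 * Real.exp (-(cc κ * t))) =
      (cof V v : ℝ) ^ (-ρ) * (2 * (1 - Real.exp (-(cc κ * T))) / cc κ) := by
    rw [intervalIntegral.integral_const_mul, Wt_int hc0]
  rw [h3] at h1
  refine h1.trans ?_
  rw [mul_comm (2 : ℝ) ((cof V v : ℝ) ^ (-ρ))]
  refine mul_le_mul_of_nonneg_left ?_ hC
  rw [div_le_iff₀ (by linarith)]
  have := Real.exp_pos (-(cc κ * T))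
  linarith

end Pool.Agent.H.MP_b3c6db_nt
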