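import Pool.Agent.H.MP_b3c6db_nt.Factors
import Pool.Agent.H.MP_b3c6db_nt.SB.Gauss2
import Pool.Agent.H.MP_b3c6db_nt.SB.Euler2

/-! Local factors: trivial bound and the primes `1 mod 4`. -/

namespace Pool.Agent.H.MP_b3c6db_nt

open Finset Complex

/-- PROOF. `local_sum_gen` with `J = (k+1)/2` (for `k = 0` the sum is `a 0 Dlt 1 r = 1`):
the sum is `a J + ∑_{e<J} (a e - a (e+1)) Ge`, `‖Ge‖ ≤ 1` (`norm_gG_le_one`), telescoping to
`a 0 = 1`. -/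
theorem local_norm_le_one (p k : ℕ) (r : ℚ) (hp : p.Prime) (hr : r.den = p ^ k) (a : ℕ → ℝ)
    (ha0 : a 0 = 1) (hanti : ∀ e, a (e + 1) ≤ a e) (hann : ∀ e, 0 ≤ a e) :
    ‖∑ e ∈ range (k + 1), ((a e : ℝ) : ℂ) * Dlt (p ^ e) r‖ ≤ 1 := by
  rw [local_sum_gen p k r hp hr ((k + 1) / 2) (by omega) (by omega) (fun e => ((a e : ℝ) : ℂ))]
  have h1 : ‖∑ e ∈ range ((k + 1) / 2), (((a e : ℝ) : ℂ) - ((a (e + 1) : ℝ) : ℂ)) * Ge p r e‖ ≤
      ∑ e ∈ range ((k + 1) / 2), (a e - a (e + 1)) := by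
    refine (norm_sum_le _ _).trans (sum_le_sum fun e _ => ?_)
    rw [norm_mul, ← Complex.ofReal_sub, Complex.norm_real, Real.norm_eq_abs,
      abs_of_nonneg (sub_nonneg.2 (hanti e))]
    have h2 : ‖Ge p r e‖ ≤ 1 := norm_gG_le_one _
    calc (a e - a (e + 1)) * ‖Ge p r e‖ ≤ (a e - a (e + 1)) * 1 :=
          mul_le_mul_of_nonneg_left h2 (sub_nonneg.2 (hanti e))
      _ = a e - a (e + 1) := mul_one _
  rw [Finset.sum_range_sub' (fun e => a e), ha0] at h1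
  have h3 : ‖((a ((k + 1) / 2) : ℝ) : ℂ)‖ = a ((k + 1) / 2) := by
    rw [Complex.norm_real, Real.norm_eq_abs, abs_of_nonneg (hann _)]
  refine (norm_add_le _ _).trans ?_
  rw [h3]
  linarith

/-- the Gauss sums in the local factors are real -/
lemma locA_Ge_im (p k : ℕ) (r : ℚ) (hp : p.Prime) (hp1 : p % 4 = 1) (hr : r.den = p ^ k) (e : ℕ) :
    (Ge p r e).im = 0 := by
  unfold Ge
  have h1 : (((p : ℚ) ^ e) ^ 2 * r).den ∣ r.den := by
    have h2 := den_sq_mul_dvd (p ^ e) r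
    push_cast at h2
    exact h2
  rw [hr, Nat.dvd_prime_pow hp] at h1
  obtain ⟨j, -, hj⟩ := h1
  exact gG1_real p j hp hp1 _ hj

/-- PROOF. All `Ge` are real (`gG1_real`; the denominator of `p^(2e) r` is a power of `p`), so the
factor is real (`local_sum_gen`). By `local_factor` (LocalPrime.lean) with `ρ = p^(-1/8)`
it is `ρ^J (1 + ξ)`, `‖ξ‖ ≤ (1-ρ) √(2p)/(ρ p - 1) ≤ 5 (p^(1/8) - 1)/√p < 1` (`B_bound`,
`rpow_ge_three_halves`; with `v = p^(1/8)`: `5 (v - 1) ≤ v^4`), hence nonnegative. -/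
theorem local_real1 (p k : ℕ) (r : ℚ) (hp : p.Prime) (hp1 : p % 4 = 1) (hk : 1 ≤ k)
    (hr : r.den = p ^ k) :
    ∃ M : ℝ, 0 ≤ M ∧ ∑ e ∈ range (k + 1), (((((p : ℝ) ^ (-(1 / 8 : ℝ))) ^ e : ℝ)) : ℂ) * Dlt (p ^ e) r =
      (M : ℂ) := by
  have hp2 : (2 : ℝ) ≤ p := by exact_mod_cast hp.two_le
  have hp0 : (0 : ℝ) < p := by linarith
  obtain ⟨ρ, hρdef⟩ : ∃ ρ : ℝ, ρ = (p : ℝ) ^ (-(1 / 8 : ℝ)) := ⟨_, rfl⟩
  rw [← hρdef]
  have hρ : 0 < ρ := by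
    rw [hρdef]
    exact Real.rpow_pos_of_pos hp0 _
  have hρ1 : ρ ≤ 1 := by
    rw [hρdef]
    exact Real.rpow_le_one_of_one_le_of_nonpos (by linarith) (by norm_num)
  have hρp : 3 / 2 ≤ ρ * p := by
    rw [hρdef]
    exact rpow_ge_three_halves p (1 / 8) hp2 (by norm_num)
  -- the sum is real
  have him : (∑ e ∈ range (k + 1), ((ρ ^ e : ℝ) : ℂ) * Dlt (p ^ e) r).im = 0 := by
    rw [local_sum_gen p k r hp hr ((k + 1) / 2) (by omega) (by omega) (fun e => ((ρ ^ e : ℝ) : ℂ)),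
      Complex.add_im, Complex.ofReal_im, zero_add, Complex.im_sum]
    refine sum_eq_zero fun e _ => ?_
    rw [← Complex.ofReal_sub, Complex.im_ofReal_mul, locA_Ge_im p k r hp hp1 hr e, mul_zero]
  obtain ⟨ξ, h1, h2⟩ := local_factor p k r hp hk hr ρ hρ hρ1 (by linarith)
  have hs : 0 < Real.sqrt p := Real.sqrt_pos.mpr hp0
  -- v = p^(1/8)
  have h3 : ‖ξ‖ ≤ 1 := by
    refine h2.trans ?_
    have h4 := mul_le_mul_of_nonneg_left (B_bound p ρ hp2 hρ hρp) (by linarith : (0 : ℝ) ≤ 1 - ρ)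
    refine h4.trans ?_
    obtain ⟨v, hv⟩ : ∃ v : ℝ, v = (p : ℝ) ^ (1 / 8 : ℝ) := ⟨_, rfl⟩
    have hv0 : 0 < v := by
      rw [hv]
      exact Real.rpow_pos_of_pos hp0 _
    have hρv : ρ = 1 / v := by
      rw [hρdef, hv, Real.rpow_neg hp0.le]
      simp
    have hv4 : Real.sqrt p = v ^ 4 := by
      rw [hv, ← Real.rpow_natCast, ← Real.rpow_mul hp0.le, Real.sqrt_eq_rpow]
      norm_num
    rw [hρv, hv4]
    have h5 : (1 - 1 / v) * (5 / (1 / v * v ^ 4)) = 5 * (v - 1) / v ^ 4 := by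
      field_simp
    rw [h5, div_le_one (by positivity)]
    nlinarith [sq_nonneg (v ^ 2 - 1), sq_nonneg (4 * v - 5)]
  refine ⟨(∑ e ∈ range (k + 1), ((ρ ^ e : ℝ) : ℂ) * Dlt (p ^ e) r).re, ?_, ?_⟩
  · have h6 : (∑ e ∈ range (k + 1), ((ρ ^ e : ℝ) : ℂ) * Dlt (p ^ e) r) =
        ((ρ ^ ((k + 1) / 2) : ℝ) : ℂ) * (1 + ξ) := by
      rw [← h1]
      refine sum_congr rfl fun e _ => ?_
      push_cast
      rfl
    rw [h6, Complex.re_ofReal_mul, Complex.add_re, Complex.one_re]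
    have h7 : -1 ≤ ξ.re := by
      have h8 := Complex.abs_re_le_norm ξ
      have h9 := neg_abs_le ξ.re
      linarith
    exact mul_nonneg (by positivity) (by linarith)
  · apply Complex.ext
    · rw [Complex.ofReal_re]
    · rw [Complex.ofReal_im, him]

end Pool.Agent.H.MP_b3c6db_nt
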