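import Pool.Agent.H.MP_b3c6db_nt.SB.PhasePt

/-! The phase lemma. -/

namespace Pool.Agent.H.MP_b3c6db_nt

open MeasureTheory

/-- PROOF. `W t = exp (-c t - A t)`, `c = π/2 - 20 κ`, `W' = W (a - c)`. The derivative of
`t ↦ -W t φ(a t)` is `W (c - a) φ(a) - W φ'(a) a'`, and `-W φ'(a) a' ≤ κ W a φ'(a) ≤ κ W`
(`-κ a ≤ a'`, `b_phd`). So `∫_0^T W ((c-a) φ(a) + κ) ≥ [-W φ(a)]_0^T ≥ -W T`. All functions are
continuous on `[0,T]`, `intervalIntegral.integral_eq_sub_of_hasDerivAt` (or `..._Icc` form). -/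
lemma phase_int (κ T : ℝ) (hκ0 : 0 ≤ κ) (hκ : κ ≤ 1 / 100) (hT : 0 ≤ T) (A a a' : ℝ → ℝ)
    (hA : ∀ t, HasDerivAt A (-(a t)) t) (ha : ∀ t, HasDerivAt a (a' t) t)
    (ha'c : Continuous a')
    (ha0 : ∀ t, 0 ≤ t → t ≤ T → 0 ≤ a t) (ha1 : ∀ t, 0 ≤ t → t ≤ T → -(κ * a t) ≤ a' t)
    (ha2 : ∀ t, 0 ≤ t → t ≤ T → a' t ≤ 0) :
    -Real.exp (-((Real.pi / 2 - 20 * κ) * T) - A T) ≤
      ∫ t in (0 : ℝ)..T, Real.exp (-((Real.pi / 2 - 20 * κ) * t) - A t) *
        ((Real.pi / 2 - 20 * κ - a t) * phf (a t) + κ) := by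
  have _ := hκ
  have _ := ha2
  obtain ⟨c, hc⟩ : ∃ c, c = Real.pi / 2 - 20 * κ := ⟨_, rfl⟩
  rw [← hc]
  have hAc : Continuous A := continuous_iff_continuousAt.2 fun t => (hA t).continuousAt
  have hac : Continuous a := continuous_iff_continuousAt.2 fun t => (ha t).continuousAt
  have hphc : Continuous phf := continuous_iff_continuousAt.2 fun t => (hasDerivAt_phf t).continuousAt
  have hWc : Continuous fun t => Real.exp (-(c * t) - A t) := by fun_prop
  have hW : ∀ t, HasDerivAt (fun t => Real.exp (-(c * t) - A t))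
      (Real.exp (-(c * t) - A t) * (a t - c)) t := by
    intro t
    have h1 : HasDerivAt (fun t => -(c * t) - A t) (-(c * 1) - -(a t)) t :=
      (((hasDerivAt_id t).const_mul c).neg).sub (hA t)
    refine h1.exp.congr_deriv ?_
    ring
  have hP : ∀ t, HasDerivAt (fun t => phf (a t)) (phd (a t) * a' t) t :=
    fun t => (hasDerivAt_phf (a t)).comp t (ha t)
  have hH : ∀ t, HasDerivAt (fun t => -(Real.exp (-(c * t) - A t) * phf (a t)))
      (-(Real.exp (-(c * t) - A t) * (a t - c) * phf (a t) +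
        Real.exp (-(c * t) - A t) * (phd (a t) * a' t))) t :=
    fun t => ((hW t).mul (hP t)).neg
  have hphd := continuous_phd
  have hcd : Continuous fun t => (-(Real.exp (-(c * t) - A t) * (a t - c) * phf (a t) +
        Real.exp (-(c * t) - A t) * (phd (a t) * a' t))) := by
    have h1 : Continuous fun t => phf (a t) := hphc.comp hac
    have h2 : Continuous fun t => phd (a t) := hphd.comp hac
    exact ((hWc.mul (hac.sub continuous_const)).mul h1 |>.add (hWc.mul (h2.mul ha'c))).neg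
  have hci : Continuous fun t => Real.exp (-(c * t) - A t) * ((c - a t) * phf (a t) + κ) := by
    have h1 : Continuous fun t => phf (a t) := hphc.comp hac
    exact hWc.mul (((continuous_const.sub hac).mul h1).add continuous_const)
  have hft := intervalIntegral.integral_eq_sub_of_hasDerivAt (a := 0) (b := T)
    (fun t _ => hH t) (hcd.intervalIntegrable _ _)
  have hmono := intervalIntegral.integral_mono_on hT (hcd.intervalIntegrable (μ := volume) 0 T)
    (hci.intervalIntegrable 0 T) (fun t ht => by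
      have hat := ha0 t ht.1 ht.2
      obtain ⟨hd0, hd1⟩ := b_phd (a t) hat
      have h1 : -(phd (a t) * a' t) ≤ κ := by
        have h2 : phd (a t) * (-(κ * a t)) ≤ phd (a t) * a' t :=
          mul_le_mul_of_nonneg_left (ha1 t ht.1 ht.2) hd0
        have h3 : κ * (a t * phd (a t)) ≤ κ * 1 := mul_le_mul_of_nonneg_left hd1 hκ0
        nlinarith
      have hW0 : 0 < Real.exp (-(c * t) - A t) := Real.exp_pos _
      have h4 := mul_le_mul_of_nonneg_left h1 hW0.le
      nlinarith)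
  have hT1 : Real.exp (-(c * T) - A T) * phf (a T) ≤ Real.exp (-(c * T) - A T) * 1 :=
    mul_le_mul_of_nonneg_left (phf_le_one _) (Real.exp_pos _).le
  have hT0 : 0 ≤ Real.exp (-(c * 0) - A 0) * phf (a 0) :=
    mul_nonneg (Real.exp_pos _).le (phf_pos _).le
  rw [hft] at hmono
  linarith

/-- PROOF: `phase_pt` pointwise and `phase_int` (times `M`), monotonicity of the integral,
`intervalIntegral.integral_re`-type lemma (`(∫ f).re = ∫ f.re` for continuous `f`). -/
theorem phase_main (κ T M : ℝ) (hκ0 : 0 ≤ κ) (hκ : κ ≤ 1 / 100) (hT : 0 ≤ T) (hM : 0 ≤ M)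
    (A a a' : ℝ → ℝ) (hA : ∀ t, HasDerivAt A (-(a t)) t) (ha : ∀ t, HasDerivAt a (a' t) t)
    (ha'c : Continuous a')
    (ha0 : ∀ t, 0 ≤ t → t ≤ T → 0 ≤ a t) (ha1 : ∀ t, 0 ≤ t → t ≤ T → -(κ * a t) ≤ a' t)
    (ha2 : ∀ t, 0 ≤ t → t ≤ T → a' t ≤ 0) (F : ℝ → ℂ) (hF : Continuous F)
    (hFt : ∀ t, 0 ≤ t → t ≤ T → ∃ x y : ℝ, |x| ≤ κ ∧ |y| ≤ (1 + κ) * a t + κ ∧
      F t = ((M * Real.exp (-A t) : ℝ) : ℂ) * Complex.exp (x + y * Complex.I)) :
    -(M * Real.exp (-((Real.pi / 2 - 20 * κ) * T) - A T)) ≤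
      (∫ t in (0 : ℝ)..T, ((Real.exp (-((Real.pi / 2 - 20 * κ) * t)) : ℝ) : ℂ) * F t).re := by
  have h0 := phase_int κ T hκ0 hκ hT A a a' hA ha ha'c ha0 ha1 ha2
  obtain ⟨c, hc⟩ : ∃ c, c = Real.pi / 2 - 20 * κ := ⟨_, rfl⟩
  rw [← hc] at h0 ⊢
  have hAc : Continuous A := continuous_iff_continuousAt.2 fun t => (hA t).continuousAt
  have hac : Continuous a := continuous_iff_continuousAt.2 fun t => (ha t).continuousAt
  have hphc : Continuous phf := continuous_iff_continuousAt.2 fun t => (hasDerivAt_phf t).continuousAt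
  have hWc : Continuous fun t => Real.exp (-(c * t) - A t) := by fun_prop
  have hci : Continuous fun t =>
      M * (Real.exp (-(c * t) - A t) * ((c - a t) * phf (a t) + κ)) := by
    have h1 : Continuous fun t => phf (a t) := hphc.comp hac
    exact continuous_const.mul (hWc.mul (((continuous_const.sub hac).mul h1).add continuous_const))
  have hEc : Continuous fun t : ℝ => ((Real.exp (-(c * t)) : ℝ) : ℂ) := by
    refine Complex.continuous_ofReal.comp ?_
    fun_prop
  have hFc : Continuous fun t : ℝ => ((Real.exp (-(c * t)) : ℝ) : ℂ) * F t := hEc.mul hF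
  have hre : (∫ t in (0 : ℝ)..T, ((Real.exp (-(c * t)) : ℝ) : ℂ) * F t).re =
      ∫ t in (0 : ℝ)..T, (((Real.exp (-(c * t)) : ℝ) : ℂ) * F t).re :=
    (Complex.reCLM.intervalIntegral_comp_comm (hFc.intervalIntegrable 0 T)).symm
  have hmono := intervalIntegral.integral_mono_on hT (hci.intervalIntegrable (μ := volume) 0 T)
    ((Complex.continuous_re.comp hFc).intervalIntegrable 0 T) (fun t ht => by
      obtain ⟨x, y, hx, hy, hF1⟩ := hFt t ht.1 ht.2
      have hpt := phase_pt κ (a t) x y hκ0 hκ (ha0 t ht.1 ht.2) hx hy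
      rw [← hc] at hpt
      have h1 : (((Real.exp (-(c * t)) : ℝ) : ℂ) * F t).re =
          M * (Real.exp (-(c * t) - A t) * (Real.exp x * Real.cos y)) := by
        rw [hF1, Complex.exp_add, ← Complex.ofReal_exp, Complex.exp_mul_I, ← Complex.ofReal_cos,
          ← Complex.ofReal_sin]
        have h2 : (((Real.exp (-(c * t)) : ℝ) : ℂ) * (((M * Real.exp (-A t) : ℝ) : ℂ) *
            (((Real.exp x : ℝ) : ℂ) * (((Real.cos y : ℝ) : ℂ) + ((Real.sin y : ℝ) : ℂ) * Complex.I)))) =
            ((Real.exp (-(c * t)) * (M * Real.exp (-A t)) * (Real.exp x * Real.cos y) : ℝ) : ℂ) +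
            ((Real.exp (-(c * t)) * (M * Real.exp (-A t)) * (Real.exp x * Real.sin y) : ℝ) : ℂ) *
              Complex.I := by
          push_cast
          ring
        rw [h2, Complex.add_re, Complex.ofReal_re, Complex.re_ofReal_mul, Complex.I_re, mul_zero,
          add_zero, sub_eq_add_neg (-(c * t)) (A t), Real.exp_add]
        ring
      change _ ≤ (((Real.exp (-(c * t)) : ℝ) : ℂ) * F t).re
      rw [h1]
      exact mul_le_mul_of_nonneg_left
        (mul_le_mul_of_nonneg_left hpt (Real.exp_pos _).le) hM)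
  rw [intervalIntegral.integral_const_mul] at hmono
  rw [hre]
  have h5 := mul_le_mul_of_nonneg_left h0 hM
  refine le_trans ?_ (le_trans h5 hmono)
  rw [mul_neg]

end Pool.Agent.H.MP_b3c6db_nt
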