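import Pool.Agent.H.MP_b3c6db_nt.SB.Stat
import Pool.Agent.H.MP_b3c6db_nt.SB.Dyn
import Pool.Agent.H.MP_b3c6db_nt.SB.PhaseInt

/-! The sharp theorem for one denominator. -/

namespace Pool.Agent.H.MP_b3c6db_nt

open Finset Complex MeasureTheory

lemma locthms_arg (K : ℂ) (κ : ℝ) (hK0 : 0 < K.re) (hK : |K.im| ≤ κ * K.re) : |K.arg| ≤ κ := by
  have h1 : |K.arg| < Real.pi / 2 := Complex.abs_arg_lt_pi_div_two_iff.2 (Or.inl hK0)
  have h2 : Real.tan K.arg = K.im / K.re := Complex.tan_arg K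
  have h3 : |Real.tan K.arg| ≤ κ := by
    rw [h2, abs_div, abs_of_pos hK0, div_le_iff₀ hK0]
    exact hK
  refine le_trans ?_ h3
  rcases le_total 0 K.arg with h | h
  · rw [abs_of_nonneg h] at h1 ⊢
    exact (Real.le_tan h h1).trans (le_abs_self _)
  · rw [abs_of_nonpos h] at h1 ⊢
    have h4 := Real.le_tan (by linarith : 0 ≤ -K.arg) h1
    rw [Real.tan_neg] at h4
    exact h4.trans (neg_le_abs _)

/-- the structure of the integrand. -/
lemma locthms_F (κ Y : ℝ) (hκ0 : 0 < κ) (hκ : κ ≤ 1 / 2000) (hY : 10 ^ 6 ≤ Y)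
    (hκY : 1 ≤ 20 * κ * Real.sqrt Y) (r : ℚ) (K : ℂ) (hK0 : 0 < K.re)
    (hK : |K.im| ≤ κ * K.re) :
    ∃ (M θ : ℝ) (n : ℕ), 0 ≤ M ∧ M ≤ Real.exp (-(n * Real.log Y / 4)) ∧
      |θ| ≤ 6 * κ + n * (8 / (Y * Real.sqrt Y)) ∧
      ∀ t : ℝ, 0 ≤ t → ∃ x y : ℝ, |x| ≤ 15 * κ ∧ |y| ≤ (1 + 2 * κ) * aa κ Y r.den t ∧
        K * ∑ v ∈ r.den.divisors,
          ((Amul (fun p e => ast κ Y p e * ady κ Y t p e) v : ℝ) : ℂ) * Dlt v r =
        ((‖K‖ * M * Real.exp (-(AA κ Y r.den t)) : ℝ) : ℂ) *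
          Complex.exp (x + ((y + θ : ℝ) : ℂ) * Complex.I) := by
  have hq : r.den ≠ 0 := r.den_ne_zero
  obtain ⟨rp, hrp, heul⟩ := euler_gen (MonoidHom.id ℂ) r.den hq r rfl
  have hsY : (1000 : ℝ) ≤ Real.sqrt Y := by
    rw [Real.le_sqrt (by norm_num) (by linarith)]
    norm_num at hY ⊢
    exact hY
  have hκY8 : 8 ≤ κ * Y := by
    have h1 : Real.sqrt Y * Real.sqrt Y = Y := Real.mul_self_sqrt (by linarith)
    have h2 : κ * Y = κ * Real.sqrt Y * Real.sqrt Y := by rw [mul_assoc, h1]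
    rw [h2]
    nlinarith
  obtain ⟨M, θ, n, hM0, hM1, hθ, hstat⟩ := static_prod κ Y hκ0 (by linarith) hY r.den hq rp hrp
  have harg := locthms_arg K κ hK0 hK
  refine ⟨M, θ + K.arg, n, hM0, hM1, ?_, ?_⟩
  · have h1 := abs_add_le θ K.arg
    linarith
  intro t ht
  obtain ⟨x, y, hx, hy, hdyn⟩ := dyn_prod κ Y hκ0 (by linarith) hY hκY8 r.den hq rp hrp t ht
  refine ⟨x, y, hx, hy, ?_⟩
  have h1 : ∑ v ∈ r.den.divisors,
      ((Amul (fun p e => ast κ Y p e * ady κ Y t p e) v : ℝ) : ℂ) * Dlt v r =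
      ∏ p ∈ r.den.primeFactors, ∑ e ∈ range (r.den.factorization p + 1),
        ((ast κ Y p e * ady κ Y t p e : ℝ) : ℂ) * Dlt (p ^ e) (rp p) := by
    have h2 := heul (fun p e => ((ast κ Y p e * ady κ Y t p e : ℝ) : ℂ)) (by
      intro p
      rw [ast_zero, ady_zero]
      norm_num)
    simp only [MonoidHom.id_apply] at h2
    rw [← h2]
    refine sum_congr rfl fun v _ => ?_
    rw [Amul_ofReal (fun p e => ast κ Y p e * ady κ Y t p e) v]
  have h3 : ∏ p ∈ r.den.primeFactors with isdyn Y p, ∑ e ∈ range (r.den.factorization p + 1),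
        ((ast κ Y p e * ady κ Y t p e : ℝ) : ℂ) * Dlt (p ^ e) (rp p) =
      ((Real.exp (-(AA κ Y r.den t)) : ℝ) : ℂ) * Complex.exp (x + y * Complex.I) := by
    rw [← hdyn]
    unfold DQ
    refine prod_congr rfl fun p hp => sum_congr rfl fun e _ => ?_
    have hp' : isdyn Y p := (mem_filter.1 hp).2
    have h4 : ast κ Y p e = 1 := by
      unfold ast
      rw [if_pos hp']
    rw [h4, one_mul]
  have h5 : ∏ p ∈ r.den.primeFactors with ¬ isdyn Y p, ∑ e ∈ range (r.den.factorization p + 1),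
        ((ast κ Y p e * ady κ Y t p e : ℝ) : ℂ) * Dlt (p ^ e) (rp p) =
      (M : ℂ) * Complex.exp (θ * Complex.I) := by
    rw [← hstat]
    refine prod_congr rfl fun p hp => sum_congr rfl fun e _ => ?_
    have hp' : ¬ isdyn Y p := (mem_filter.1 hp).2
    have h4 : ady κ Y t p e = 1 := by
      unfold ady
      rw [if_neg hp']
    rw [h4, mul_one]
  rw [h1, ← prod_filter_mul_prod_filter_not r.den.primeFactors (isdyn Y), h3, h5]
  have h6 : K = (‖K‖ : ℂ) * Complex.exp (K.arg * Complex.I) :=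
    (Complex.norm_mul_exp_arg_mul_I K).symm
  have h7 : Complex.exp (x + ((y + (θ + K.arg) : ℝ) : ℂ) * Complex.I) =
      Complex.exp (K.arg * Complex.I) * (Complex.exp (x + y * Complex.I) *
        Complex.exp (θ * Complex.I)) := by
    rw [← Complex.exp_add, ← Complex.exp_add]
    congr 1
    push_cast
    ring
  rw [h7]
  conv_lhs => rw [h6]
  push_cast
  ring

/-- PROOF. `q = r.den`. By `euler_gen` (with `N` the identity monoid hom and the weights
`ast · ady_t`) and `DQ`/static splitting (`Finset.prod_filter_mul_prod_filter_not`):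
`F(t) := K ∑_{v ∣ q} ast ady_t Δ_v = K S D(t)` with `S = M e^{iθ}` (`static_prod`, weights `ady = 1`
at static primes) and `D(t) = e^{-A(t)} e^{x+iy}` (`dyn_prod`, `ast = 1` at dynamic primes).
`K = |K| e^{iθ'}`, `|θ'| ≤ κ` (`θ' = arg K`, `|tan θ'| ≤ κ`). By `hh_sum` the quantity is
`2 Re ∫_0^T e^{-ct} F(t) dt`.
Case 1, `n 8/Y^(3/2) ≤ 10 κ`: `phase_main` with `κ_ph = 20 κ` (`π/2 - 20 κ_ph = cc κ`,
`1/√Y ≤ 20 κ`), `M_ph = |K| M ≤ N`: the integral is `≥ -N e^{-cT - A(T)} ≥ -N e^{-cT}`.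
Case 2, `n 8/Y^(3/2) > 10 κ`: `|F(t)| ≤ N e^{-n log Y/4} e^{15κ} ≤ 2 N e^{-κ Y^(3/2) log Y/4}`,
so the integral is at least `-2 N T e^{-κ Y^(3/2) log Y / 4}`. Continuity of `F` from
`continuous_Amul_ady`. -/
theorem local_sharp (κ Y T : ℝ) (hκ0 : 0 < κ) (hκ : κ ≤ 1 / 2000) (hY : 10 ^ 6 ≤ Y)
    (hκY : 1 ≤ 20 * κ * Real.sqrt Y) (hT : 0 ≤ T) (r : ℚ) (K : ℂ) (N : ℝ) (hK0 : 0 < K.re)
    (hK : |K.im| ≤ κ * K.re) (hN : ‖K‖ ≤ N) :
    -(N * (2 * Real.exp (-(cc κ * T)) +
      4 * T * Real.exp (-(κ * (Y * Real.sqrt Y) * Real.log Y / 4)))) ≤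
      (K * ∑ v ∈ r.den.divisors, ((hh κ Y T v : ℝ) : ℂ) * Dlt v r).re := by
  obtain ⟨M, θ, n, hM0, hM1, hθ, hF⟩ := locthms_F κ Y hκ0 hκ hY hκY r K hK0 hK
  have hY0 : (0 : ℝ) < Y := by linarith
  have hlogY : 0 ≤ Real.log Y := Real.log_nonneg (by linarith)
  have hsY : 0 < Real.sqrt Y := Real.sqrt_pos.2 hY0
  have hM2 : M ≤ 1 := by
    refine hM1.trans ?_
    rw [Real.exp_le_one_iff]
    have : 0 ≤ (n : ℝ) * Real.log Y := mul_nonneg (Nat.cast_nonneg n) hlogY
    linarith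
  have hKn : 0 ≤ ‖K‖ := norm_nonneg K
  have hN0 : 0 ≤ N := hKn.trans hN
  have hKM : ‖K‖ * M ≤ N := by
    calc ‖K‖ * M ≤ N * 1 := mul_le_mul hN hM2 hM0 hN0
      _ = N := mul_one N
  set F : ℝ → ℂ := fun t => K * ∑ v ∈ r.den.divisors,
    ((Amul (fun p e => ast κ Y p e * ady κ Y t p e) v : ℝ) : ℂ) * Dlt v r with hFdef
  have hFc : Continuous F := by
    rw [hFdef]
    refine continuous_const.mul (continuous_finsetSum _ fun v _ => ?_)
    refine Continuous.mul (Complex.continuous_ofReal.comp ?_) continuous_const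
    have h1 : (fun t : ℝ => Amul (fun p e => ast κ Y p e * ady κ Y t p e) v) =
        fun t => Amul (ast κ Y) v * Amul (ady κ Y t) v := by
      funext t
      exact Amul_mul_fun (ast κ Y) (ady κ Y t) v
    rw [h1]
    exact continuous_const.mul (continuous_Amul_ady κ Y v)
  have hsum := hh_sum κ Y T r.den.divisors K (fun v => Dlt v r)
  rw [hsum]
  have hre : (2 * ∫ t in (0 : ℝ)..T, ((Real.exp (-(cc κ * t)) : ℝ) : ℂ) * F t).re =
      2 * (∫ t in (0 : ℝ)..T, ((Real.exp (-(cc κ * t)) : ℝ) : ℂ) * F t).re := by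
    rw [Complex.mul_re]
    norm_num
  change _ ≤ (2 * ∫ t in (0 : ℝ)..T, ((Real.exp (-(cc κ * t)) : ℝ) : ℂ) * F t).re
  rw [hre]
  have hcc : cc κ = Real.pi / 2 - 20 * (20 * κ) := by
    unfold cc
    ring
  have hcc0 : 0 ≤ cc κ := by
    rw [hcc]
    have := Real.pi_gt_three
    linarith
  have hE1 : 0 ≤ 4 * T * Real.exp (-(κ * (Y * Real.sqrt Y) * Real.log Y / 4)) := by positivity
  have hE2 : 0 ≤ 2 * Real.exp (-(cc κ * T)) := by positivity
  rcases le_or_gt ((n : ℝ) * (8 / (Y * Real.sqrt Y))) (10 * κ) with hcase | hcase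
  · -- case 1
    have hYκ : 1 / Real.sqrt Y ≤ 20 * κ := by
      rw [div_le_iff₀ hsY]
      exact hκY
    have hmain := phase_main (20 * κ) T (‖K‖ * M) (by linarith) (by linarith) hT
      (mul_nonneg hKn hM0) (AA κ Y r.den) (aa κ Y r.den) (aa' κ Y r.den)
      (hasDerivAt_AA κ Y r.den) (hasDerivAt_aa κ Y r.den) (continuous_aa' κ Y r.den)
      (fun t ht _ => aa_nonneg κ Y hκ0.le r.den t ht)
      (fun t ht _ => by
        have h1 := aa'_ge κ Y hκ0.le (by linarith) r.den t ht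
        have h2 := aa_nonneg κ Y hκ0.le r.den t ht
        have h3 : 1 / Real.sqrt Y * aa κ Y r.den t ≤ 20 * κ * aa κ Y r.den t :=
          mul_le_mul_of_nonneg_right hYκ h2
        linarith)
      (fun t ht _ => aa'_nonpos κ Y hκ0.le r.den t ht) F hFc
      (fun t ht _ => by
        obtain ⟨x, y, hx, hy, hxy⟩ := hF t ht
        refine ⟨x, y + θ, by linarith, ?_, ?_⟩
        · have h1 := abs_add_le y θ
          have h2 := aa_nonneg κ Y hκ0.le r.den t ht
          have h3 : κ * aa κ Y r.den t ≥ 0 := mul_nonneg hκ0.le h2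
          nlinarith
        · exact hxy)
    rw [← hcc] at hmain
    have h1 : Real.exp (-(cc κ * T) - AA κ Y r.den T) ≤ Real.exp (-(cc κ * T)) := by
      rw [Real.exp_le_exp]
      have := AA_nonneg κ Y hκ0.le r.den T hT
      linarith
    have h2 : ‖K‖ * M * Real.exp (-(cc κ * T) - AA κ Y r.den T) ≤ N * Real.exp (-(cc κ * T)) :=
      mul_le_mul hKM h1 (Real.exp_pos _).le hN0
    have h3 : N * (2 * Real.exp (-(cc κ * T)) +
        4 * T * Real.exp (-(κ * (Y * Real.sqrt Y) * Real.log Y / 4))) =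
        2 * (N * Real.exp (-(cc κ * T))) +
        N * (4 * T * Real.exp (-(κ * (Y * Real.sqrt Y) * Real.log Y / 4))) := by ring
    have h4 := mul_nonneg hN0 hE1
    rw [h3]
    linarith only [hmain, h2, h4]
  · -- case 2
    set G : ℝ := Real.exp (-(κ * (Y * Real.sqrt Y) * Real.log Y / 4)) with hG
    have hn : κ * (Y * Real.sqrt Y) ≤ n := by
      have h1 : 0 < Y * Real.sqrt Y := by positivity
      have h2 : 10 * κ * (Y * Real.sqrt Y) < n * 8 := by
        have h3 : (n : ℝ) * (8 / (Y * Real.sqrt Y)) = n * 8 / (Y * Real.sqrt Y) := by ring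
        rw [h3, lt_div_iff₀ h1] at hcase
        exact hcase
      have h4 : 0 < κ * (Y * Real.sqrt Y) := by positivity
      linarith
    have hMG : M ≤ G := by
      refine hM1.trans ?_
      rw [hG, Real.exp_le_exp]
      have h1 := mul_le_mul_of_nonneg_right hn hlogY
      linarith
    have hG0 : 0 < G := Real.exp_pos _
    have hexp : Real.exp (15 * κ) ≤ 2 := by
      have h1 : |15 * κ| ≤ 1 := by
        rw [abs_of_nonneg (by linarith)]
        linarith
      have h2 := Real.abs_exp_sub_one_le h1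
      have h3 := (abs_le.1 h2).2
      rw [abs_of_nonneg (by linarith : 0 ≤ 15 * κ)] at h3
      linarith
    have hnorm : ∀ t ∈ Set.uIoc (0 : ℝ) T,
        ‖((Real.exp (-(cc κ * t)) : ℝ) : ℂ) * F t‖ ≤ 2 * (N * G) := by
      intro t ht
      rw [Set.uIoc_of_le hT] at ht
      have ht0 : 0 ≤ t := ht.1.le
      obtain ⟨x, y, hx, hy, hxy⟩ := hF t ht0
      have h1 : ‖F t‖ = ‖K‖ * M * Real.exp (-(AA κ Y r.den t)) * Real.exp x := by
        have h2 : F t = ((‖K‖ * M * Real.exp (-(AA κ Y r.den t)) : ℝ) : ℂ) *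
          Complex.exp (x + ((y + θ : ℝ) : ℂ) * Complex.I) := hxy
        rw [h2, norm_mul, Complex.norm_real, Real.norm_eq_abs, abs_of_nonneg (by positivity),
          Complex.norm_exp]
        congr 2
        simp
      have h3 : Real.exp x ≤ 2 := by
        refine le_trans (Real.exp_le_exp.2 ?_) hexp
        exact (le_abs_self x).trans hx
      have h4 : Real.exp (-(AA κ Y r.den t)) ≤ 1 := by
        rw [Real.exp_le_one_iff]
        have := AA_nonneg κ Y hκ0.le r.den t ht0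
        linarith
      have h5 : ‖((Real.exp (-(cc κ * t)) : ℝ) : ℂ)‖ ≤ 1 := by
        rw [Complex.norm_real, Real.norm_eq_abs, abs_of_pos (Real.exp_pos _), Real.exp_le_one_iff]
        have := mul_nonneg hcc0 ht0
        linarith
      have h6 : ‖K‖ * M ≤ N * G := mul_le_mul hN hMG hM0 hN0
      have h7 : ‖F t‖ ≤ 2 * (N * G) := by
        rw [h1]
        calc ‖K‖ * M * Real.exp (-(AA κ Y r.den t)) * Real.exp x ≤ N * G * 1 * 2 := by
              refine mul_le_mul (mul_le_mul h6 h4 (Real.exp_pos _).le (by positivity)) h3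
                (Real.exp_pos _).le (by positivity)
          _ = 2 * (N * G) := by ring
      rw [norm_mul]
      calc ‖((Real.exp (-(cc κ * t)) : ℝ) : ℂ)‖ * ‖F t‖ ≤ 1 * (2 * (N * G)) :=
            mul_le_mul h5 h7 (norm_nonneg _) zero_le_one
        _ = 2 * (N * G) := one_mul _
    have hint := intervalIntegral.norm_integral_le_of_norm_le_const hnorm
    rw [sub_zero, abs_of_nonneg hT] at hint
    have h8 := (abs_le.1 (Complex.abs_re_le_norm
      (∫ t in (0 : ℝ)..T, ((Real.exp (-(cc κ * t)) : ℝ) : ℂ) * F t))).1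
    have h9 : N * (2 * Real.exp (-(cc κ * T)) + 4 * T * G) =
        N * (2 * Real.exp (-(cc κ * T))) + 2 * (2 * (N * G) * T) := by ring
    have h10 := mul_nonneg hN0 hE2
    rw [h9]
    linarith only [hint, h8, h10]

end Pool.Agent.H.MP_b3c6db_nt
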