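import Pool.Agent.H.MP_b3c6db_nt.LocalTail
import Pool.Agent.H.MP_b3c6db_nt.PrimeSums
import Pool.Agent.H.MP_b3c6db_nt.SB.Euler2

/-! The absolute sum of the `Δ_v(r)`. -/

namespace Pool.Agent.H.MP_b3c6db_nt

open Finset Complex

lemma SumDlt_amul_one (v : ℕ) : Amul (fun _ _ => (1 : ℝ)) v = 1 := by
  unfold Amul Finsupp.prod
  simp

/-- local factor -/
lemma SumDlt_local (p k : ℕ) (r : ℚ) (hp : p.Prime) (hk : 1 ≤ k) (hr : r.den = p ^ k) :
    ∑ e ∈ range (k + 1), ‖Dlt (p ^ e) r‖ ≤ Real.exp (10 / Real.sqrt p) := by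
  have h := local_tail p k r hp hk hr 0 le_rfl (by norm_num)
  simp only [neg_zero, Real.rpow_zero, one_pow, one_mul] at h
  have h2 := Real.add_one_le_exp (10 / Real.sqrt p)
  linarith

/-- number of large primes -/
lemma SumDlt_large (q : ℕ) (hq : q ≠ 0) (Y : ℝ) (hY : 3 ≤ Y) :
    (((q.primeFactors.filter (fun p : ℕ => ¬ (p : ℝ) ≤ Y)).card : ℕ) : ℝ) * Real.log Y ≤
      Real.log q := by
  have h1 : ∏ p ∈ q.primeFactors, p ≤ q :=
    Nat.le_of_dvd (Nat.pos_of_ne_zero hq) (Nat.prod_primeFactors_dvd q)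
  have h2 : Real.log ((∏ p ∈ q.primeFactors, p : ℕ) : ℝ) ≤ Real.log q := by
    apply Real.log_le_log
    · have : 0 < ∏ p ∈ q.primeFactors, p :=
        Finset.prod_pos fun p hp => (Nat.prime_of_mem_primeFactors hp).pos
      exact_mod_cast this
    · exact_mod_cast h1
  have h3 : Real.log ((∏ p ∈ q.primeFactors, p : ℕ) : ℝ) = ∑ p ∈ q.primeFactors, Real.log p := by
    push_cast
    rw [Real.log_prod]
    intro p hp
    have := (Nat.prime_of_mem_primeFactors hp).pos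
    positivity
  have h4 : ∑ p ∈ q.primeFactors.filter (fun p : ℕ => ¬ (p : ℝ) ≤ Y), Real.log Y ≤
      ∑ p ∈ q.primeFactors, Real.log p := by
    refine le_trans (Finset.sum_le_sum (g := fun p : ℕ => Real.log p) ?_) ?_
    · intro p hp
      rw [mem_filter, not_le] at hp
      exact Real.log_le_log (by linarith) hp.2.le
    · apply Finset.sum_le_sum_of_subset_of_nonneg (filter_subset _ _)
      intro p _ _
      exact Real.log_natCast_nonneg p
  rw [Finset.sum_const, nsmul_eq_mul] at h4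
  linarith

/-- PROOF. `euler_gen` with `N` the norm (`normHom` as a monoid hom `ℂ →* ℝ`) and `a = 1`: the sum is
`∏_{p ∣ q} ∑_e ‖Dlt (p^e) (rp p)‖ ≤ ∏ (1 + 10/√p)` (`local_tail` with `τ = 0`), and
`1 + u ≤ e^u`; `∑_{p ∣ q} 1/√p ≤ 2 √Y + (number of p ∣ q, p > Y)/√Y` (`sum_inv_sqrt_subset`), the
number is `≤ log q / log Y`. -/
theorem sum_norm_Dlt (r : ℚ) (Y : ℝ) (hY : 3 ≤ Y) :
    ∑ v ∈ r.den.divisors, ‖Dlt v r‖ ≤
      Real.exp (20 * Real.sqrt Y + 10 * (Real.log r.den / (Real.sqrt Y * Real.log Y))) := by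
  obtain ⟨rp, hrp, hE⟩ := euler_gen ((normHom : ℂ →*₀ ℝ) : ℂ →* ℝ) r.den r.den_ne_zero r rfl
  have hE' := hE (fun _ _ => 1) (fun _ => rfl)
  have hN : ∀ z : ℂ, ((normHom : ℂ →*₀ ℝ) : ℂ →* ℝ) z = ‖z‖ := fun z => rfl
  simp only [hN, SumDlt_amul_one, one_mul] at hE'
  rw [hE']
  set q := r.den with hq
  have hq0 : q ≠ 0 := r.den_ne_zero
  have hfac : ∀ p ∈ q.primeFactors, ∑ e ∈ range (q.factorization p + 1),
      ‖Dlt (p ^ e) (rp p)‖ ≤ Real.exp (10 / Real.sqrt p) := by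
    intro p hp
    have hpp : p.Prime := Nat.prime_of_mem_primeFactors hp
    have hk : 1 ≤ q.factorization p :=
      (hpp.dvd_iff_one_le_factorization hq0).mp (Nat.dvd_of_mem_primeFactors hp)
    exact SumDlt_local p _ (rp p) hpp hk (hrp p hp)
  refine (Finset.prod_le_prod (fun p _ => sum_nonneg fun e _ => norm_nonneg _) hfac).trans ?_
  rw [← Real.exp_sum]
  apply Real.exp_le_exp.mpr
  have hsY : 0 < Real.sqrt Y := Real.sqrt_pos.mpr (by linarith)
  have hlY : 0 < Real.log Y := Real.log_pos (by linarith)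
  rw [← Finset.sum_filter_add_sum_filter_not q.primeFactors (fun p : ℕ => (p : ℝ) ≤ Y)]
  have h1 : ∑ p ∈ q.primeFactors.filter (fun p : ℕ => (p : ℝ) ≤ Y), 10 / Real.sqrt p ≤
      20 * Real.sqrt Y := by
    have e1 : ∑ p ∈ q.primeFactors.filter (fun p : ℕ => (p : ℝ) ≤ Y), 10 / Real.sqrt p =
        10 * ∑ p ∈ q.primeFactors.filter (fun p : ℕ => (p : ℝ) ≤ Y), 1 / Real.sqrt p := by
      rw [mul_sum]
      apply sum_congr rfl
      intro p _
      ring
    have e2 := sum_inv_sqrt_subset Y (by linarith)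
      (q.primeFactors.filter (fun p : ℕ => (p : ℝ) ≤ Y)) (by
        intro p hp
        rw [mem_filter] at hp
        exact ⟨Nat.prime_of_mem_primeFactors hp.1, hp.2⟩)
    rw [e1]
    linarith
  have h2 : ∑ p ∈ q.primeFactors.filter (fun p : ℕ => ¬ (p : ℝ) ≤ Y), 10 / Real.sqrt p ≤
      10 * (Real.log q / (Real.sqrt Y * Real.log Y)) := by
    have e1 : ∑ p ∈ q.primeFactors.filter (fun p : ℕ => ¬ (p : ℝ) ≤ Y), 10 / Real.sqrt p ≤
        ∑ p ∈ q.primeFactors.filter (fun p : ℕ => ¬ (p : ℝ) ≤ Y), 10 / Real.sqrt Y := by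
      apply Finset.sum_le_sum
      intro p hp
      rw [mem_filter, not_le] at hp
      have : Real.sqrt Y ≤ Real.sqrt p := Real.sqrt_le_sqrt hp.2.le
      gcongr
    refine e1.trans ?_
    rw [Finset.sum_const, nsmul_eq_mul]
    have e3 := SumDlt_large q hq0 Y hY
    have e4 : (((q.primeFactors.filter (fun p : ℕ => ¬ (p : ℝ) ≤ Y)).card : ℕ) : ℝ) ≤
        Real.log q / Real.log Y := by
      rw [le_div_iff₀ hlY]
      exact e3
    calc (((q.primeFactors.filter (fun p : ℕ => ¬ (p : ℝ) ≤ Y)).card : ℕ) : ℝ) *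
          (10 / Real.sqrt Y) ≤ Real.log q / Real.log Y * (10 / Real.sqrt Y) :=
          mul_le_mul_of_nonneg_right e4 (by positivity)
      _ = 10 * (Real.log q / (Real.sqrt Y * Real.log Y)) := by
          field_simp
  linarith

end Pool.Agent.H.MP_b3c6db_nt
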