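import Pool.Agent.H.MP_b3c6db_nt.SB.HSmall

/-! The support set. -/

namespace Pool.Agent.H.MP_b3c6db_nt

open Finset

/-- all `v ≥ 1` with cofactor at most `R`. -/
noncomputable def VV (V : ℕ) (R : ℝ) : Finset ℕ :=
  (Icc 1 (V * ⌊R⌋₊)).filter (fun v => (cof V v : ℝ) ≤ R)

lemma VV_cof_mul (V v : ℕ) : Nat.gcd v V * cof V v = v := by
  unfold cof
  exact Nat.mul_div_cancel' (Nat.gcd_dvd_left v V)

lemma VV_dvd (V v : ℕ) : v ∣ V * cof V v := by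
  conv_lhs => rw [← VV_cof_mul V v]
  exact Nat.mul_dvd_mul_right (Nat.gcd_dvd_right v V) _

/-- `v = gcd(v,V) · cof V v ≤ V ⌊R⌋`. -/
lemma mem_VV {V : ℕ} (hV : V ≠ 0) {R : ℝ} (hR : 1 ≤ R) (v : ℕ) :
    v ∈ VV V R ↔ v ≠ 0 ∧ (cof V v : ℝ) ≤ R := by
  unfold VV
  rw [mem_filter, mem_Icc]
  constructor
  · rintro ⟨⟨h1, _⟩, h2⟩
    exact ⟨by omega, h2⟩
  · rintro ⟨h1, h2⟩
    refine ⟨⟨Nat.pos_of_ne_zero h1, ?_⟩, h2⟩
    have h3 : cof V v ≤ ⌊R⌋₊ := Nat.le_floor h2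
    have h4 : Nat.gcd v V ≤ V := Nat.gcd_le_right _ (Nat.pos_of_ne_zero hV)
    calc v = Nat.gcd v V * cof V v := (VV_cof_mul V v).symm
      _ ≤ V * ⌊R⌋₊ := Nat.mul_le_mul h4 h3

lemma one_mem_VV {V : ℕ} (hV : V ≠ 0) {R : ℝ} (hR : 1 ≤ R) : 1 ∈ VV V R := by
  rw [mem_VV hV hR]
  refine ⟨one_ne_zero, ?_⟩
  unfold cof
  rw [Nat.gcd_one_left, Nat.div_one]
  simpa using hR

/-- `cof V d` divides `cof V v` for `d ∣ v` (compare factorizations). -/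
lemma VV_closed {V : ℕ} (hV : V ≠ 0) {R : ℝ} (hR : 1 ≤ R) :
    ∀ v ∈ VV V R, ∀ d, d ∣ v → d ∈ VV V R := by
  intro v hv d hd
  rw [mem_VV hV hR] at hv ⊢
  obtain ⟨hv0, hv1⟩ := hv
  have hd0 : d ≠ 0 := fun h => hv0 (by rw [h] at hd; exact Nat.eq_zero_of_zero_dvd hd)
  refine ⟨hd0, le_trans ?_ hv1⟩
  have h1 : cof V d ∣ cof V v := by
    rw [← Nat.factorization_le_iff_dvd (cof_pos V d hd0).ne' (cof_pos V v hv0).ne']
    intro p
    rw [cof_factorization V d hV hd0 p, cof_factorization V v hV hv0 p]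
    have h2 := (Nat.factorization_le_iff_dvd hd0 hv0).2 hd p
    omega
  exact Nat.cast_le.2 (Nat.le_of_dvd (cof_pos V v hv0) h1)

lemma VV_le {V : ℕ} (hV : V ≠ 0) {R : ℝ} (hR : 1 ≤ R) (v : ℕ) (hv : v ∈ VV V R) :
    (v : ℝ) ≤ V * R := by
  rw [mem_VV hV hR] at hv
  have h4 : Nat.gcd v V ≤ V := Nat.gcd_le_right _ (Nat.pos_of_ne_zero hV)
  calc (v : ℝ) = (Nat.gcd v V : ℝ) * (cof V v : ℝ) := by
        rw [← Nat.cast_mul, VV_cof_mul]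
    _ ≤ V * R := mul_le_mul (Nat.cast_le.2 h4) hv.2 (Nat.cast_nonneg _) (Nat.cast_nonneg _)

/-- two elements divide `Lm = V cof(d₁) cof(d₂) ≤ V R²`. -/
lemma VV_lcm {V : ℕ} (hV : V ≠ 0) {R : ℝ} (hR : 1 ≤ R) (d₁ d₂ : ℕ) (h1 : d₁ ∈ VV V R)
    (h2 : d₂ ∈ VV V R) : ∃ Lm : ℕ, Lm ≠ 0 ∧ d₁ ∣ Lm ∧ d₂ ∣ Lm ∧ (Lm : ℝ) ≤ V * R ^ 2 := by
  rw [mem_VV hV hR] at h1 h2
  refine ⟨V * cof V d₁ * cof V d₂, ?_, ?_, ?_, ?_⟩
  · exact mul_ne_zero (mul_ne_zero hV (cof_pos V d₁ h1.1).ne') (cof_pos V d₂ h2.1).ne'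
  · exact (VV_dvd V d₁).mul_right _
  · have h3 : V * cof V d₁ * cof V d₂ = V * cof V d₂ * cof V d₁ := by ring
    rw [h3]
    exact (VV_dvd V d₂).mul_right _
  · push_cast
    have hR0 : 0 ≤ R := by linarith
    calc (V : ℝ) * cof V d₁ * cof V d₂ ≤ V * R * R := by
          refine mul_le_mul (mul_le_mul_of_nonneg_left h1.2 (Nat.cast_nonneg _)) h2.2
            (Nat.cast_nonneg _) (mul_nonneg (Nat.cast_nonneg _) hR0)
      _ = V * R ^ 2 := by ring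

/-- `v ↦ (gcd(v,V), cof V v)` is injective. -/
lemma card_VV {V : ℕ} (hV : V ≠ 0) {R : ℝ} (hR : 1 ≤ R) :
    ((VV V R).card : ℝ) ≤ V.divisors.card * R := by
  have h1 : (VV V R).card ≤ (V.divisors ×ˢ Icc 1 ⌊R⌋₊).card := by
    refine card_le_card_of_injOn (fun v => (Nat.gcd v V, cof V v)) ?_ ?_
    · intro v hv
      have hv' := (mem_VV hV hR v).1 hv
      refine mem_coe.2 (mem_product.2 ⟨?_, ?_⟩)
      · exact Nat.mem_divisors.2 ⟨Nat.gcd_dvd_right v V, hV⟩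
      · exact mem_Icc.2 ⟨cof_pos V v hv'.1, Nat.le_floor hv'.2⟩
    · intro v _ w _ h
      have h2 := Prod.mk.inj h
      rw [← VV_cof_mul V v, ← VV_cof_mul V w, h2.1, h2.2]
  rw [card_product, Nat.card_Icc, Nat.add_sub_cancel] at h1
  calc ((VV V R).card : ℝ) ≤ ((V.divisors.card * ⌊R⌋₊ : ℕ) : ℝ) := Nat.cast_le.2 h1
    _ = V.divisors.card * (⌊R⌋₊ : ℝ) := by push_cast; ring
    _ ≤ V.divisors.card * R :=
      mul_le_mul_of_nonneg_left (Nat.floor_le (by linarith)) (Nat.cast_nonneg _)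

/-- `τ(V) = ∏ (V_p + 1) ≤ 2^{∑ V_p} ≤ exp (∑ V_p) ≤ exp (log V/log Y)` if all primes of `V` exceed
`Y > 1`. -/
lemma card_divisors_le {V : ℕ} (hV : V ≠ 0) {Y : ℝ} (hY : 1 < Y)
    (h : ∀ p, p.Prime → p ∣ V → Y < (p : ℝ)) :
    (V.divisors.card : ℝ) ≤ Real.exp (Real.log V / Real.log Y) := by
  have hlY : 0 < Real.log Y := Real.log_pos hY
  rw [Nat.card_divisors hV]
  push_cast
  have h1 : ∏ p ∈ V.primeFactors, ((V.factorization p : ℝ) + 1) ≤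
      Real.exp (∑ p ∈ V.primeFactors, (V.factorization p : ℝ)) := by
    rw [Real.exp_sum]
    exact prod_le_prod (fun p _ => by positivity) fun p _ => Real.add_one_le_exp _
  refine h1.trans (Real.exp_le_exp.2 ?_)
  rw [le_div_iff₀ hlY, sum_mul]
  have h2 : Real.log V = ∑ p ∈ V.primeFactors, (V.factorization p : ℝ) * Real.log p := by
    rw [Real.log_nat_eq_sum_factorization, Finsupp.sum, Nat.support_factorization]
  rw [h2]
  refine sum_le_sum fun p hp => ?_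
  refine mul_le_mul_of_nonneg_left ?_ (Nat.cast_nonneg _)
  exact Real.log_le_log (by linarith)
    (h p (Nat.prime_of_mem_primeFactors hp) (Nat.dvd_of_mem_primeFactors hp)).le

end Pool.Agent.H.MP_b3c6db_nt
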