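import Pool.Agent.H.MP_b3c6db_nt.SB.LocThmS
import Pool.Agent.H.MP_b3c6db_nt.SB.SumDlt
import Pool.Agent.H.MP_b3c6db_nt.SB.VV
import Pool.Agent.H.MP_b3c6db_nt.SB.Arch

/-! The local theorem for the truncated support. -/

namespace Pool.Agent.H.MP_b3c6db_nt

open Finset Complex

/-- PROOF. `q = r.den`. `Dlt v r = 0` unless `v ∣ q` (`Dlt_eq_zero`), so
`∑_{v ∈ VV} h Δ = ∑_{v ∣ q} h Δ - ∑_{v ∣ q, v ∉ VV} h Δ`. With `K = KK σ J u`: `KK_arg`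
(`40 σ ≤ κ`, `σ ≤ 1/4`), `‖K‖ ≤ J` (`KK_norm_le`): `local_sharp` bounds the first part below.
For `v ∉ VV V R`, `v ≠ 0`: `cof V v > R`, so `h(v) ≤ 2 R^{-ρ}` (`hh_cof`, `mem_VV`), and
`∑ ‖Dlt v r‖` is bounded by `sum_norm_Dlt` with `Y := Q`. -/
theorem local_VS (κ Y T ρ : ℝ) (V : ℕ) (R : ℝ) (hκ0 : 0 < κ) (hκ : κ ≤ 1 / 2000)
    (hY : 10 ^ 6 ≤ Y) (hκY : 1 ≤ 20 * κ * Real.sqrt Y) (hT : 0 ≤ T) (hV0 : V ≠ 0)
    (hV : ∀ p, p.Prime → p ∣ V → isdyn Y p) (hρ0 : 0 ≤ ρ) (hρ1 : ρ ≤ κ / (50 * Real.sqrt Y))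
    (hρ : ∀ p, p.Prime → isdyn Y p →
      ρ * Real.log p ≤ κ * pois (V.factorization p + 1) (T / Real.sqrt p))
    (hR : 1 ≤ R) (σ : ℝ) (hσ0 : 0 < σ) (hσ : 40 * σ ≤ κ) (J : ℕ) (hJ : 1 / σ + 2 ≤ J) (u : ℝ)
    (hu : |u| ≤ Real.exp (2 * (J - 1 / σ - 2))) (r : ℚ) (Q : ℝ) (hQ : 3 ≤ Q) :
    -(J * (2 * Real.exp (-(cc κ * T)) + 4 * T * Real.exp (-(κ * (Y * Real.sqrt Y) * Real.log Y / 4)) +
      2 * R ^ (-ρ) * Real.exp (20 * Real.sqrt Q + 10 * (Real.log r.den / (Real.sqrt Q * Real.log Q))))) ≤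
      (KK σ J u * ∑ v ∈ VV V R, ((hh κ Y T v : ℝ) : ℂ) * Dlt v r).re := by
  have hσ4 : σ ≤ 1 / 4 := by linarith
  obtain ⟨hre, him⟩ := KK_arg σ hσ0 hσ4 J hJ u hu
  set K : ℂ := KK σ J u with hK
  have hJ0 : (0 : ℝ) ≤ J := Nat.cast_nonneg J
  have hKJ : ‖K‖ ≤ J := by
    refine (KK_norm_le σ J u).trans ?_
    have h1 : ∑ m ∈ range J, Real.exp (-(σ * m)) ≤ ∑ _m ∈ range J, (1 : ℝ) := by
      refine sum_le_sum fun m _ => ?_
      rw [Real.exp_le_one_iff]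
      have : 0 ≤ σ * (m : ℝ) := by positivity
      linarith
    refine h1.trans ?_
    rw [sum_const, card_range, nsmul_eq_mul, mul_one]
  have him' : |K.im| ≤ κ * K.re :=
    him.trans (mul_le_mul_of_nonneg_right hσ hre.le)
  have hmain := local_sharp κ Y T hκ0 hκ hY hκY hT r K J hre him' hKJ
  -- splitting of the sum
  have hR0 : (0 : ℝ) < R := by linarith
  have hq : r.den ≠ 0 := r.den_ne_zero
  have e1 : ∑ v ∈ VV V R, ((hh κ Y T v : ℝ) : ℂ) * Dlt v r =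
      ∑ v ∈ r.den.divisors.filter (fun v => v ∈ VV V R), ((hh κ Y T v : ℝ) : ℂ) * Dlt v r := by
    symm
    refine sum_subset ?_ ?_
    · intro v hv
      exact (mem_filter.1 hv).2
    · intro v hv hv2
      have h0 : v ≠ 0 := ((mem_VV hV0 hR v).1 hv).1
      have hnd : ¬ v ∣ r.den := by
        intro hd
        exact hv2 (mem_filter.2 ⟨Nat.mem_divisors.2 ⟨hd, hq⟩, hv⟩)
      rw [Dlt_eq_zero v h0 r hnd, mul_zero]
  have e2 : ∑ v ∈ VV V R, ((hh κ Y T v : ℝ) : ℂ) * Dlt v r =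
      ∑ v ∈ r.den.divisors, ((hh κ Y T v : ℝ) : ℂ) * Dlt v r -
      ∑ v ∈ r.den.divisors.filter (fun v => ¬ v ∈ VV V R),
        ((hh κ Y T v : ℝ) : ℂ) * Dlt v r := by
    rw [e1, ← sum_filter_add_sum_filter_not r.den.divisors (fun v => v ∈ VV V R)]
    ring
  set E : ℝ := Real.exp (20 * Real.sqrt Q + 10 * (Real.log r.den / (Real.sqrt Q * Real.log Q)))
    with hE
  have hRρ : 0 ≤ R ^ (-ρ) := Real.rpow_nonneg hR0.le _
  have h3 : ‖∑ v ∈ r.den.divisors.filter (fun v => ¬ v ∈ VV V R),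
      ((hh κ Y T v : ℝ) : ℂ) * Dlt v r‖ ≤ 2 * R ^ (-ρ) * E := by
    refine (norm_sum_le _ _).trans ?_
    have h4 : ∑ v ∈ r.den.divisors.filter (fun v => ¬ v ∈ VV V R),
        ‖((hh κ Y T v : ℝ) : ℂ) * Dlt v r‖ ≤
        ∑ v ∈ r.den.divisors.filter (fun v => ¬ v ∈ VV V R), 2 * R ^ (-ρ) * ‖Dlt v r‖ := by
      refine sum_le_sum fun v hv => ?_
      obtain ⟨hv1, hv2⟩ := mem_filter.1 hv
      have hv0 : v ≠ 0 := (Nat.pos_of_mem_divisors hv1).ne'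
      have hcof : R < (cof V v : ℝ) := by
        by_contra hcon
        exact hv2 ((mem_VV hV0 hR v).2 ⟨hv0, not_lt.1 hcon⟩)
      have h5 : hh κ Y T v ≤ 2 * (cof V v : ℝ) ^ (-ρ) :=
        hh_cof κ Y T ρ V hκ0 hκ (by linarith) hT hV0 hV hρ0 hρ1 hρ v hv0
      have h6 : (cof V v : ℝ) ^ (-ρ) ≤ R ^ (-ρ) :=
        Real.rpow_le_rpow_of_nonpos hR0 hcof.le (by linarith)
      have h7 : 0 ≤ hh κ Y T v := hh_nonneg κ Y T hκ0.le hκ hT v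
      rw [norm_mul, Complex.norm_real, Real.norm_of_nonneg h7]
      exact mul_le_mul_of_nonneg_right (by linarith) (norm_nonneg _)
    refine h4.trans ?_
    rw [← mul_sum]
    refine mul_le_mul_of_nonneg_left ?_ (by positivity)
    refine le_trans ?_ (sum_norm_Dlt r Q hQ)
    exact sum_le_sum_of_subset_of_nonneg (filter_subset _ _) fun v _ _ => norm_nonneg _
  have h8 : ‖K * ∑ v ∈ r.den.divisors.filter (fun v => ¬ v ∈ VV V R),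
      ((hh κ Y T v : ℝ) : ℂ) * Dlt v r‖ ≤ J * (2 * R ^ (-ρ) * E) := by
    rw [norm_mul]
    exact mul_le_mul hKJ h3 (norm_nonneg _) hJ0
  have h9 := (Complex.re_le_norm (K * ∑ v ∈ r.den.divisors.filter (fun v => ¬ v ∈ VV V R),
      ((hh κ Y T v : ℝ) : ℂ) * Dlt v r)).trans h8
  rw [e2, mul_sub, Complex.sub_re]
  have h10 : (J : ℝ) * (2 * Real.exp (-(cc κ * T)) +
      4 * T * Real.exp (-(κ * (Y * Real.sqrt Y) * Real.log Y / 4)) + 2 * R ^ (-ρ) * E) =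
      J * (2 * Real.exp (-(cc κ * T)) +
      4 * T * Real.exp (-(κ * (Y * Real.sqrt Y) * Real.log Y / 4))) + J * (2 * R ^ (-ρ) * E) := by
    ring
  rw [h10]
  linarith only [hmain, h9]

end Pool.Agent.H.MP_b3c6db_nt
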