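import Pool.Agent.H.MP_b3c6db_nt.SB.Cons
import Pool.Agent.H.MP_b3c6db_nt.SB.Wt

/-! Parameters of the sharp upper bound, as functions of `κ` and `l = log H`. -/

namespace Pool.Agent.H.MP_b3c6db_nt

open Filter

noncomputable def pl0 (κ l : ℝ) : ℝ := (1 - κ) ^ 2 * l
noncomputable def pL (κ l : ℝ) : ℝ := Real.log (pl0 κ l)
noncomputable def py (κ l : ℝ) : ℝ := pl0 κ l / pL κ l
noncomputable def pT (κ l : ℝ) : ℝ := (1 - κ) * Real.sqrt (2 * py κ l) * pL κ l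
noncomputable def pY (κ l : ℝ) : ℝ := Real.sqrt (pl0 κ l)
noncomputable def pX (κ l : ℝ) : ℝ := Real.exp ((1 - κ) * l)
noncomputable def psg (κ : ℝ) : ℝ := κ / 40
noncomputable def peta (κ : ℝ) : ℝ := κ ^ 2 / 80000
noncomputable def pR (κ l : ℝ) : ℝ := Real.exp (peta κ * l)
noncomputable def pJ (κ l : ℝ) : ℕ := ⌈κ * l / 100⌉₊
noncomputable def pB (κ l : ℝ) : ℝ := Real.exp (2 * (pJ κ l - 1 / psg κ - 2))
noncomputable def prh (κ c l : ℝ) : ℝ :=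
  κ * Real.exp (-((1 / 2 - c) * pL κ l)) / (2 * pL κ l)

end Pool.Agent.H.MP_b3c6db_nt
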