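import Pool.Agent.H.MP_b3c6db_nt.SB.Par

/-! Eventual inequalities, part 1. Everything here is of the form: an exponent linear in `l` with
negative coefficient plus `O(1)` or `o(l)`. -/

namespace Pool.Agent.H.MP_b3c6db_nt

open Filter

variable (κ : ℝ) (hκ0 : 0 < κ) (hκ : κ ≤ 1 / 2000)

include hκ0 hκ in
lemma Par1_pl0 : Tendsto (pl0 κ) atTop atTop := by
  have h : 0 < (1 - κ) ^ 2 := by
    have : 0 < 1 - κ := by linarith
    positivity
  exact tendsto_id.const_mul_atTop h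

include hκ0 hκ in
lemma Par1_pL : Tendsto (pL κ) atTop atTop :=
  Real.tendsto_log_atTop.comp (Par1_pl0 κ hκ0 hκ)

include hκ0 hκ in
lemma Par1_pY : Tendsto (pY κ) atTop atTop :=
  Real.tendsto_sqrt_atTop.comp (Par1_pl0 κ hκ0 hκ)

include hκ0 hκ in
lemma par_J : ∀ᶠ l : ℝ in atTop, 1 / psg κ + 2 ≤ (pJ κ l : ℝ) ∧ 1 ≤ pJ κ l ∧ 1 ≤ pB κ l ∧
    (pJ κ l : ℝ) ≤ κ * l / 100 + 1 ∧ κ * l / 100 ≤ (pJ κ l : ℝ) := by
  filter_upwards [eventually_ge_atTop (100 * (1 / psg κ + 2) / κ), eventually_ge_atTop 0] with l hl hl0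
  have hs : 0 < 1 / psg κ := by unfold psg; positivity
  have h1 : 1 / psg κ + 2 ≤ κ * l / 100 := by
    rw [div_le_iff₀ hκ0] at hl
    linarith
  have h2 : κ * l / 100 ≤ (pJ κ l : ℝ) := Nat.le_ceil _
  have h3 : (pJ κ l : ℝ) ≤ κ * l / 100 + 1 := (Nat.ceil_lt_add_one (by positivity)).le
  have h4 : 1 / psg κ + 2 ≤ (pJ κ l : ℝ) := h1.trans h2
  refine ⟨h4, ?_, ?_, h3, h2⟩
  · have : (1 : ℝ) ≤ (pJ κ l : ℝ) := by linarith
    exact_mod_cast this
  · unfold pB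
    apply Real.one_le_exp
    linarith

include hκ0 hκ in
/-- the bound for `log V` -/
lemma Par1_logV (l : ℝ) (hl : 0 ≤ l) (V : ℕ) (hV : Real.log V ≤ (1 + κ / 4) * pl0 κ l) :
    Real.log V ≤ (1 - κ) * l - 7 / 10 * κ * l := by
  unfold pl0 at hV
  have h1 : (1 + κ / 4) * ((1 - κ) ^ 2 * l) ≤ (1 - κ) * l - 7 / 10 * κ * l := by
    have h2 : (1 + κ / 4) * (1 - κ) ^ 2 ≤ (1 - κ) - 7 / 10 * κ := by
      have : 0 ≤ κ ^ 2 := sq_nonneg κ
      nlinarith [mul_nonneg this hκ0.le]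
    calc (1 + κ / 4) * ((1 - κ) ^ 2 * l) = ((1 + κ / 4) * (1 - κ) ^ 2) * l := by ring
      _ ≤ ((1 - κ) - 7 / 10 * κ) * l := mul_le_mul_of_nonneg_right h2 hl
      _ = _ := by ring
  linarith

include hκ0 hκ in
lemma Par1_eta (l : ℝ) (hl : 0 ≤ l) : 0 ≤ peta κ * l ∧ peta κ * l ≤ κ * l / 100 := by
  unfold peta
  refine ⟨by positivity, ?_⟩
  have h1 : κ ^ 2 / 80000 ≤ κ / 100 := by nlinarith
  have := mul_le_mul_of_nonneg_right h1 hl
  linarith

include hκ0 hκ in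
/-- exponent: `4 J + log V + η l + J ≤ 5 κ l/100 + 5 + (1 + κ/4)(1-κ)² l + η l ≤ (1-κ) l`, because
`(1+κ/4)(1-κ) ≤ 1 - 3κ/4`. -/
lemma par_size : ∀ᶠ l : ℝ in atTop, ∀ V : ℕ, V ≠ 0 → Real.log V ≤ (1 + κ / 4) * pl0 κ l →
    pB κ l ^ 2 * (V * pR κ l) * Real.exp (pJ κ l) ≤ pX κ l := by
  filter_upwards [par_J κ hκ0 hκ, eventually_ge_atTop 0] with l hJ hl V hV0 hV
  obtain ⟨-, -, -, hJ1, -⟩ := hJ
  have h1 := Par1_logV κ hκ0 hκ l hl V hV
  have h2 := Par1_eta κ hκ0 hκ l hl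
  have hs : 0 < 1 / psg κ := by unfold psg; positivity
  have hVp : (0 : ℝ) < V := by exact_mod_cast Nat.pos_of_ne_zero hV0
  have hk : 0 ≤ κ * l := by positivity
  have h3 : pB κ l ^ 2 * (V * pR κ l) * Real.exp (pJ κ l) =
      Real.exp (4 * (pJ κ l - 1 / psg κ - 2) + Real.log V + peta κ * l + pJ κ l) := by
    unfold pB pR
    rw [Real.exp_add, Real.exp_add, Real.exp_add, Real.exp_log hVp, ← Real.exp_nat_mul]
    push_cast
    ring_nf
  rw [h3]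
  unfold pX
  apply Real.exp_le_exp.mpr
  linarith

include hκ0 hκ in
/-- exponent: `log 2 + 6 J + 2 log V + 4 η l < 2 (1-κ) l`. -/
lemma par_sep : ∀ᶠ l : ℝ in atTop, ∀ V : ℕ, V ≠ 0 → Real.log V ≤ (1 + κ / 4) * pl0 κ l →
    2 * pB κ l ^ 3 * (V * pR κ l ^ 2) ^ 2 < pX κ l ^ 2 := by
  filter_upwards [par_J κ hκ0 hκ, eventually_ge_atTop 0] with l hJ hl V hV0 hV
  obtain ⟨-, -, -, hJ1, -⟩ := hJ
  have h1 := Par1_logV κ hκ0 hκ l hl V hV
  have h2 := Par1_eta κ hκ0 hκ l hl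
  have hs : 0 < 1 / psg κ := by unfold psg; positivity
  have hVp : (0 : ℝ) < V := by exact_mod_cast Nat.pos_of_ne_zero hV0
  have hk : 0 ≤ κ * l := by positivity
  have h3 : 2 * pB κ l ^ 3 * (V * pR κ l ^ 2) ^ 2 =
      Real.exp (Real.log 2 + 6 * (pJ κ l - 1 / psg κ - 2) + 2 * Real.log V +
        4 * (peta κ * l)) := by
    unfold pB pR
    have h4 : Real.exp (2 * Real.log V) = (V : ℝ) ^ 2 := by
      rw [show 2 * Real.log (V : ℝ) = ((2 : ℕ) : ℝ) * Real.log V by push_cast; ring,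
        Real.exp_nat_mul, Real.exp_log hVp]
    rw [Real.exp_add, Real.exp_add, Real.exp_add, h4, Real.exp_log two_pos, ← Real.exp_nat_mul,
      ← Real.exp_nat_mul, mul_pow, ← Real.exp_nat_mul]
    push_cast
    ring_nf
  have h5 : pX κ l ^ 2 = Real.exp (2 * ((1 - κ) * l)) := by
    unfold pX
    rw [← Real.exp_nat_mul]
    push_cast
    ring_nf
  rw [h3, h5]
  apply Real.exp_lt_exp.mpr
  have h6 : Real.log 2 < 1 := by linarith [Real.log_two_lt_d9]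
  linarith

include hκ0 hκ in
/-- `log V/log Y ≤ (2 l)/(L/2) = o(l)`. -/
lemma par_card : ∀ᶠ l : ℝ in atTop, ∀ V : ℕ, V ≠ 0 → Real.log V ≤ (1 + κ / 4) * pl0 κ l →
    Real.exp (Real.log V / Real.log (pY κ l)) * pR κ l ≤ Real.exp (2 * peta κ * l) := by
  have he : 0 < peta κ := by unfold peta; positivity
  filter_upwards [(Par1_pL κ hκ0 hκ).eventually_ge_atTop (2 / peta κ),
    (Par1_pl0 κ hκ0 hκ).eventually_ge_atTop 1, eventually_ge_atTop 0] with l hL hl0 hl V hV0 hV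
  have h1 := Par1_logV κ hκ0 hκ l hl V hV
  have hk : 0 ≤ κ * l := by positivity
  have h2 : Real.log V ≤ l := by linarith
  have h3 : Real.log (pY κ l) = pL κ l / 2 := by
    unfold pY pL
    rw [Real.log_sqrt (by linarith)]
  have hLpos : 0 < pL κ l := lt_of_lt_of_le (by positivity) hL
  have h4 : Real.log V / Real.log (pY κ l) ≤ peta κ * l := by
    rw [h3, div_le_iff₀ (by linarith)]
    have h5 : 1 ≤ peta κ * (pL κ l / 2) := by
      rw [div_le_iff₀ he] at hL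
      linarith
    calc Real.log V ≤ l * 1 := by linarith
      _ ≤ l * (peta κ * (pL κ l / 2)) := mul_le_mul_of_nonneg_left h5 hl
      _ = _ := by ring
  unfold pR
  rw [← Real.exp_add]
  apply Real.exp_le_exp.mpr
  linarith

include hκ0 hκ in
/-- For a denominator `q ≤ B (V R)²`: `log q ≤ 4 l`. -/
lemma par_den : ∀ᶠ l : ℝ in atTop, ∀ V : ℕ, V ≠ 0 → Real.log V ≤ (1 + κ / 4) * pl0 κ l →
    ∀ q : ℕ, 0 < q → (q : ℝ) ≤ pB κ l * (V * pR κ l) ^ 2 → Real.log q ≤ 4 * l := by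
  filter_upwards [par_J κ hκ0 hκ, eventually_ge_atTop 0] with l hJ hl V hV0 hV q hq hqb
  obtain ⟨-, -, -, hJ1, -⟩ := hJ
  have h1 := Par1_logV κ hκ0 hκ l hl V hV
  have h2 := Par1_eta κ hκ0 hκ l hl
  have hs : 0 < 1 / psg κ := by unfold psg; positivity
  have hVp : (0 : ℝ) < V := by exact_mod_cast Nat.pos_of_ne_zero hV0
  have hqp : (0 : ℝ) < q := by exact_mod_cast hq
  have hk : 0 ≤ κ * l := by positivity
  have hk2 : κ * l ≤ 1 / 2000 * l := mul_le_mul_of_nonneg_right hκ hl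
  have h3 : Real.log q ≤ Real.log (pB κ l * (V * pR κ l) ^ 2) := Real.log_le_log hqp hqb
  have h4 : Real.log (pB κ l * (V * pR κ l) ^ 2) =
      2 * (pJ κ l - 1 / psg κ - 2) + 2 * (Real.log V + peta κ * l) := by
    unfold pB pR
    rw [Real.log_mul (Real.exp_pos _).ne' (by positivity), Real.log_exp, Real.log_pow,
      Real.log_mul hVp.ne' (Real.exp_pos _).ne', Real.log_exp]
    push_cast
    ring
  rw [h4] at h3
  linarith

include hκ0 hκ in
/-- basic sizes -/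
lemma par_basic : ∀ᶠ l : ℝ in atTop, 10 ^ 6 ≤ pY κ l ∧ 1 ≤ 20 * κ * Real.sqrt (pY κ l) ∧
    3 ≤ pT κ l ∧ 3 ≤ l ∧ 1 ≤ pR κ l ∧ 0 < pX κ l ∧ 1 ≤ pL κ l := by
  have hY := Par1_pY κ hκ0 hκ
  have hsY : Tendsto (fun l => Real.sqrt (pY κ l)) atTop atTop := Real.tendsto_sqrt_atTop.comp hY
  filter_upwards [hY.eventually_ge_atTop (10 ^ 6), hsY.eventually_ge_atTop (1 / (20 * κ)),
    (Par1_pL κ hκ0 hκ).eventually_ge_atTop 1, (Par1_pl0 κ hκ0 hκ).eventually_ge_atTop 18,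
    eventually_ge_atTop 3] with l h1 h2 h3 h4 h5
  refine ⟨h1, ?_, ?_, h5, ?_, ?_, h3⟩
  · rw [div_le_iff₀ (by positivity)] at h2
    linarith
  · have hLpos : 0 < pL κ l := by linarith
    have h6 : Real.sqrt (2 * py κ l) * pL κ l = Real.sqrt (2 * pl0 κ l * pL κ l) := by
      rw [← Real.sqrt_sq hLpos.le, ← Real.sqrt_mul' _ (sq_nonneg _), Real.sqrt_sq hLpos.le]
      congr 1
      unfold py
      field_simp
    have h7 : 6 ≤ Real.sqrt (2 * pl0 κ l * pL κ l) := by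
      apply Real.le_sqrt_of_sq_le
      nlinarith
    unfold pT
    rw [mul_assoc, h6]
    have h8 : 1 / 2 ≤ 1 - κ := by linarith
    nlinarith
  · unfold pR
    apply Real.one_le_exp
    exact (Par1_eta κ hκ0 hκ l (by linarith)).1
  · exact Real.exp_pos _

end Pool.Agent.H.MP_b3c6db_nt
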