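import Pool.Agent.H.MP_b3c6db_nt.SB.Par1

/-! Eventual inequalities, part 2. -/

namespace Pool.Agent.H.MP_b3c6db_nt

open Filter

private lemma par2_coef {κ : ℝ} (hκ0 : 0 < κ) (hκ : κ ≤ 1 / 2000) :
    (1 + κ / 4) * (1 - κ) ^ 2 + κ ^ 2 / 80000 + κ / 100 - (1 - κ) + κ / 2 ≤ 0 := by
  have h1 : κ ^ 2 ≤ κ / 2000 := by nlinarith
  have h2 : κ ^ 3 ≤ κ ^ 2 / 2000 := by nlinarith [sq_nonneg κ]
  have h3 : (1 + κ / 4) * (1 - κ) ^ 2 + κ ^ 2 / 80000 + κ / 100 - (1 - κ) + κ / 2 =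
      -(3 * κ / 4) + κ ^ 2 / 2 + κ ^ 3 / 4 + κ ^ 2 / 80000 + κ / 100 + κ / 2 := by ring
  rw [h3]
  nlinarith

/-- the ratio `D e^J/X`. -/
private lemma par2_ratio {κ l : ℝ} (hκ0 : 0 < κ) (hκ : κ ≤ 1 / 2000) (hl : 0 ≤ l)
    (hJ : (pJ κ l : ℝ) ≤ κ * l / 100 + 1) {V : ℕ} (hV : V ≠ 0)
    (hVl : Real.log V ≤ (1 + κ / 4) * pl0 κ l) :
    V * pR κ l * Real.exp (pJ κ l) / pX κ l ≤ Real.exp (1 - κ * l / 2) := by
  have hV0 : (0 : ℝ) < V := by exact_mod_cast Nat.pos_of_ne_zero hV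
  have h1 : (V : ℝ) = Real.exp (Real.log V) := (Real.exp_log hV0).symm
  rw [h1]
  unfold pR pX
  rw [← Real.exp_add, ← Real.exp_add, ← Real.exp_sub]
  refine Real.exp_le_exp.2 ?_
  have h2 := mul_nonneg hl (neg_nonneg.2 (par2_coef hκ0 hκ))
  have h3 : Real.log V ≤ (1 + κ / 4) * ((1 - κ) ^ 2 * l) := hVl
  unfold peta
  nlinarith [h2, h3, hJ]

private lemma par2_ten {κ l : ℝ} (hκ0 : 0 < κ) (hκ : κ ≤ 1 / 2000) (hl : 0 ≤ l) :
    10 * peta κ * l ≤ κ * l / 200 ∧ 10 * peta κ * l = psg κ * (κ * l / 100) / 2 ∧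
    10 * peta κ * l ≤ l := by
  unfold peta psg
  have h1 : κ ^ 2 ≤ κ := by nlinarith
  have h2 : 0 ≤ κ * l := by positivity
  have h3 : κ ^ 2 * l ≤ κ * l := mul_le_mul_of_nonneg_right h1 hl
  have h4 : κ * l ≤ l := by nlinarith
  refine ⟨?_, ?_, ?_⟩
  · nlinarith
  · ring
  · nlinarith

/-- the truncation error -/
private lemma par2_T {κ l : ℝ} (hκ0 : 0 < κ) (hκ : κ ≤ 1 / 2000) (hl : 0 ≤ l)
    (hl2 : 1 / (3 * κ ^ 2) ≤ l) {H : ℕ} (hH : 1 ≤ H) (hHl : Real.log H = l) :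
    2 * (1 + pX κ l) * Real.exp (-(Real.pi * ((H : ℝ) / pX κ l) ^ 2)) ≤
      4 * Real.exp (-(10 * peta κ * l)) := by
  have hH0 : (0 : ℝ) < H := by exact_mod_cast hH
  have h1 : (H : ℝ) = Real.exp l := by rw [← hHl, Real.exp_log hH0]
  have h2 : (H : ℝ) / pX κ l = Real.exp (κ * l) := by
    rw [h1]
    unfold pX
    rw [← Real.exp_sub]
    congr 1
    ring
  have h3 : ((H : ℝ) / pX κ l) ^ 2 = Real.exp (2 * (κ * l)) := by
    rw [h2, ← Real.exp_nat_mul]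
    norm_num
  have hk : 0 ≤ κ * l := by positivity
  have h4 : 2 * (κ * l) ^ 2 ≤ Real.exp (2 * (κ * l)) := by
    have := Real.quadratic_le_exp_of_nonneg (x := 2 * (κ * l)) (by positivity)
    nlinarith
  have h5 : 1 ≤ 3 * κ ^ 2 * l := by
    have h50 : (0 : ℝ) < 3 * κ ^ 2 := by positivity
    have := (div_le_iff₀ h50).1 hl2
    linarith
  have h6 : 2 * l ≤ 6 * (κ * l) ^ 2 := by
    have : 6 * (κ * l) ^ 2 = 2 * l * (3 * κ ^ 2 * l) := by ring
    rw [this]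
    nlinarith
  have h7 : 2 * l ≤ Real.pi * Real.exp (2 * (κ * l)) := by
    have hpi := Real.pi_gt_three
    have hE := Real.exp_pos (2 * (κ * l))
    nlinarith
  have hX : pX κ l ≤ Real.exp l := by
    unfold pX
    refine Real.exp_le_exp.2 ?_
    nlinarith
  have hX0 : 0 < pX κ l := Real.exp_pos _
  have h8 : 1 ≤ Real.exp l := Real.one_le_exp hl
  rw [h3]
  calc 2 * (1 + pX κ l) * Real.exp (-(Real.pi * Real.exp (2 * (κ * l))))
      ≤ 2 * (Real.exp l + Real.exp l) * Real.exp (-(2 * l)) := by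
        refine mul_le_mul ?_ ?_ (Real.exp_pos _).le (by positivity)
        · nlinarith
        · exact Real.exp_le_exp.2 (by linarith)
    _ = 4 * Real.exp (-l) := by
        have : Real.exp (-l) = Real.exp l * Real.exp (-(2 * l)) := by
          rw [← Real.exp_add]
          congr 1
          ring
        rw [this]
        ring
    _ ≤ 4 * Real.exp (-(10 * peta κ * l)) := by
        have := (par2_ten hκ0 hκ hl).2.2
        have h9 : Real.exp (-l) ≤ Real.exp (-(10 * peta κ * l)) :=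
          Real.exp_le_exp.2 (by linarith)
        linarith

/-- the constant -/
private noncomputable def par2C (κ : ℝ) : ℝ := 19 + 4 * Real.exp (1 / psg κ + 2)

private lemma par2_errC {κ l : ℝ} (hκ0 : 0 < κ) (hκ : κ ≤ 1 / 2000) (hl : 0 ≤ l)
    (hJ : (pJ κ l : ℝ) ≤ κ * l / 100 + 1) (hJ2 : κ * l / 100 ≤ (pJ κ l : ℝ)) {V : ℕ} (hV : V ≠ 0)
    (hVl : Real.log V ≤ (1 + κ / 4) * pl0 κ l) :
    7 * Real.sqrt (V * pR κ l * Real.exp (pJ κ l) / pX κ l) + 2 * Real.sqrt (2 / pB κ l) +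
      (Real.exp ((pJ κ l : ℝ) / 2) / Real.sqrt (pB κ l) +
        Real.exp (-(psg κ * (pJ κ l : ℝ) / 2))) ≤
      (15 + 4 * Real.exp (1 / psg κ + 2)) * Real.exp (-(10 * peta κ * l)) := by
  obtain ⟨t1, t2, t3⟩ := par2_ten hκ0 hκ hl
  have hsg : 0 < psg κ := by unfold psg; positivity
  have hk : 0 ≤ κ * l := by positivity
  have hZ := Real.exp_pos (-(10 * peta κ * l))
  have hE := Real.exp_pos (1 / psg κ + 2)
  -- term 1
  have h1 : Real.sqrt (V * pR κ l * Real.exp (pJ κ l) / pX κ l) ≤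
      2 * Real.exp (-(10 * peta κ * l)) := by
    refine Real.sqrt_le_iff.2 ⟨by positivity, ?_⟩
    refine le_trans (par2_ratio hκ0 hκ hl hJ hV hVl) ?_
    have e1 : Real.exp 1 ≤ 4 := by
      have := Real.exp_one_lt_d9
      linarith
    have e2 : (2 * Real.exp (-(10 * peta κ * l))) ^ 2 = 4 * Real.exp (-(20 * peta κ * l)) := by
      rw [mul_pow, ← Real.exp_nat_mul]
      norm_num
      ring
    rw [e2]
    have e3 : Real.exp (1 - κ * l / 2) = Real.exp 1 * Real.exp (-(κ * l / 2)) := by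
      rw [← Real.exp_add]
      congr 1
    rw [e3]
    refine mul_le_mul e1 (Real.exp_le_exp.2 ?_) (Real.exp_pos _).le (by norm_num)
    linarith
  -- sqrt B
  have hB : Real.sqrt (pB κ l) = Real.exp ((pJ κ l : ℝ) - 1 / psg κ - 2) := by
    unfold pB
    rw [Real.sqrt_eq_iff_mul_self_eq_of_pos (Real.exp_pos _), ← Real.exp_add]
    congr 1
    ring
  have hs2 : Real.sqrt 2 ≤ 3 / 2 := by
    refine Real.sqrt_le_iff.2 ⟨by norm_num, by norm_num⟩
  have h2 : 2 * Real.sqrt (2 / pB κ l) ≤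
      3 * Real.exp (1 / psg κ + 2) * Real.exp (-(10 * peta κ * l)) := by
    rw [Real.sqrt_div (by norm_num), hB]
    have e1 : 1 / Real.exp ((pJ κ l : ℝ) - 1 / psg κ - 2) =
        Real.exp (1 / psg κ + 2) * Real.exp (-(pJ κ l : ℝ)) := by
      rw [one_div, ← Real.exp_neg, ← Real.exp_add]
      congr 1
      ring
    have e2 : Real.sqrt 2 / Real.exp ((pJ κ l : ℝ) - 1 / psg κ - 2) =
        Real.sqrt 2 * (1 / Real.exp ((pJ κ l : ℝ) - 1 / psg κ - 2)) := by ring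
    rw [e2, e1]
    have e3 : Real.exp (-(pJ κ l : ℝ)) ≤ Real.exp (-(10 * peta κ * l)) :=
      Real.exp_le_exp.2 (by linarith)
    have e4 : Real.exp (1 / psg κ + 2) * Real.exp (-(pJ κ l : ℝ)) ≤
        Real.exp (1 / psg κ + 2) * Real.exp (-(10 * peta κ * l)) :=
      mul_le_mul_of_nonneg_left e3 hE.le
    have e5 : Real.sqrt 2 * (Real.exp (1 / psg κ + 2) * Real.exp (-(pJ κ l : ℝ))) ≤
        3 / 2 * (Real.exp (1 / psg κ + 2) * Real.exp (-(10 * peta κ * l))) :=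
      mul_le_mul hs2 e4 (by positivity) (by norm_num)
    linarith
  have h3 : Real.exp ((pJ κ l : ℝ) / 2) / Real.sqrt (pB κ l) ≤
      Real.exp (1 / psg κ + 2) * Real.exp (-(10 * peta κ * l)) := by
    rw [hB, ← Real.exp_sub, ← Real.exp_add]
    refine Real.exp_le_exp.2 ?_
    linarith
  have h4 : Real.exp (-(psg κ * (pJ κ l : ℝ) / 2)) ≤ 1 * Real.exp (-(10 * peta κ * l)) := by
    rw [one_mul]
    refine Real.exp_le_exp.2 ?_
    rw [t2]
    have := mul_le_mul_of_nonneg_left hJ2 hsg.le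
    linarith
  nlinarith

private lemma par2_final {κ l C : ℝ} (hκ0 : 0 < κ) (hC : 0 ≤ C)
    (hl : 0 ≤ l) (hl3 : 4 * C / (25 * peta κ ^ 2) ≤ l) {card W J : ℝ}
    (hc0 : 0 ≤ card) (hc : card ≤ Real.exp (2 * peta κ * l)) (hJ : J ≤ l)
    (hW : W ≤ J * (C * Real.exp (-(10 * peta κ * l)))) :
    2 * card ^ 2 * W ≤ Real.exp (-(peta κ * l)) := by
  have heta : 0 < peta κ := by unfold peta; positivity
  have h1 : card ^ 2 ≤ Real.exp (4 * peta κ * l) := by
    have : Real.exp (4 * peta κ * l) = Real.exp (2 * peta κ * l) ^ 2 := by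
      rw [← Real.exp_nat_mul]
      congr 1
      push_cast
      ring
    rw [this]
    exact pow_le_pow_left₀ hc0 hc 2
  have hZ := Real.exp_pos (-(10 * peta κ * l))
  have h2 : W ≤ l * (C * Real.exp (-(10 * peta κ * l))) :=
    le_trans hW (mul_le_mul_of_nonneg_right hJ (by positivity))
  have h3 : 2 * C * l ≤ Real.exp (5 * peta κ * l) := by
    have e1 := Real.quadratic_le_exp_of_nonneg (x := 5 * peta κ * l) (by positivity)
    have e2 : 4 * C ≤ 25 * peta κ ^ 2 * l := by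
      have h50 : (0 : ℝ) < 25 * peta κ ^ 2 := by positivity
      have := (div_le_iff₀ h50).1 hl3
      linarith
    have e3 : 2 * C * l ≤ (5 * peta κ * l) ^ 2 / 2 := by
      have : (5 * peta κ * l) ^ 2 / 2 = (25 * peta κ ^ 2 * l) * l / 2 := by ring
      rw [this]
      nlinarith
    have e4 : 0 ≤ 5 * peta κ * l := by positivity
    linarith
  calc 2 * card ^ 2 * W ≤ 2 * card ^ 2 * (l * (C * Real.exp (-(10 * peta κ * l)))) :=
        mul_le_mul_of_nonneg_left h2 (by positivity)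
    _ ≤ 2 * Real.exp (4 * peta κ * l) * (l * (C * Real.exp (-(10 * peta κ * l)))) := by
        refine mul_le_mul_of_nonneg_right ?_ (by positivity)
        linarith
    _ = (2 * C * l) * (Real.exp (4 * peta κ * l) * Real.exp (-(10 * peta κ * l))) := by ring
    _ ≤ Real.exp (5 * peta κ * l) * (Real.exp (4 * peta κ * l) * Real.exp (-(10 * peta κ * l))) :=
        mul_le_mul_of_nonneg_right h3 (by positivity)
    _ = Real.exp (-(peta κ * l)) := by
        rw [← Real.exp_add, ← Real.exp_add]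
        congr 1
        ring

variable (κ : ℝ) (hκ0 : 0 < κ) (hκ : κ ≤ 1 / 2000)

include hκ0 hκ in
/-- PROOF. `card² ≤ e^{4 η l}`, `η = κ σ/2000`, `σ = κ/40`. `errC` is `J` times the sum of:
`7 √(D e^J/X)`, `log (D e^J/X) ≤ -κ l/2` (`D = V R`; as in `par_size`);
`2 √(2/B) ≤ 3 e^{-(J - 1/σ - 2)}`; `e^{J/2}/√B = e^{-J/2 + 1/σ + 2}`; `e^{-σ J/2} ≤ e^{-κ σ l/200}`
(the largest). `errT`: `H/X = e^{κ l}` (`log H = l`), so it is `≤ J 2 (1+X) exp (-π e^{2 κ l})`, tiny.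
Total `≤ C l e^{(4η - κσ/200) l} ≤ e^{-η l}` as `4η - κσ/200 = -0.003 κσ < -0.0005 κσ = -η`. -/
lemma par_err : ∀ᶠ l : ℝ in atTop, ∀ V H : ℕ, V ≠ 0 → Real.log V ≤ (1 + κ / 4) * pl0 κ l →
    1 ≤ H → Real.log H = l → ∀ card : ℝ, 0 ≤ card → card ≤ Real.exp (2 * peta κ * l) →
    2 * card ^ 2 * (errC (psg κ) (pJ κ l) (pX κ l) (pB κ l) (V * pR κ l) + errT (pJ κ l) (pX κ l) H) ≤
      Real.exp (-(peta κ * l)) := by
  filter_upwards [par_J κ hκ0 hκ, eventually_ge_atTop (2 : ℝ),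
    eventually_ge_atTop (1 / (3 * κ ^ 2)), eventually_ge_atTop (4 * par2C κ / (25 * peta κ ^ 2))]
    with l hJ hl1 hl2 hl3 V H hV hVl hH hHl card hc0 hc
  obtain ⟨-, -, -, hJa, hJb⟩ := hJ
  have hl : 0 ≤ l := by linarith
  have hC : 0 ≤ par2C κ := by unfold par2C; positivity
  have hJl : (pJ κ l : ℝ) ≤ l := by
    refine le_trans hJa ?_
    nlinarith
  refine par2_final hκ0 hC hl hl3 hc0 hc hJl ?_
  have h1 := par2_errC hκ0 hκ hl hJa hJb hV hVl
  have h2 := par2_T hκ0 hκ hl hl2 hH hHl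
  unfold errC errT
  rw [← mul_add]
  refine mul_le_mul_of_nonneg_left ?_ (Nat.cast_nonneg _)
  unfold par2C
  nlinarith

include hκ0 hκ in
lemma par_const : ∀ᶠ l : ℝ in atTop, ∀ V : ℕ, V ≠ 0 → Real.log V ≤ (1 + κ / 4) * pl0 κ l →
    ∀ card : ℝ, 0 ≤ card → card ≤ Real.exp (2 * peta κ * l) →
    2 * card ^ 2 * (pJ κ l * (V * pR κ l * Real.exp (pJ κ l) / pX κ l)) ≤
      Real.exp (-(peta κ * l)) := by
  filter_upwards [par_J κ hκ0 hκ, eventually_ge_atTop (2 : ℝ),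
    eventually_ge_atTop (4 * 4 / (25 * peta κ ^ 2))]
    with l hJ hl1 hl3 V hV hVl card hc0 hc
  obtain ⟨-, -, -, hJa, hJb⟩ := hJ
  have hl : 0 ≤ l := by linarith
  have hJl : (pJ κ l : ℝ) ≤ l := by
    refine le_trans hJa ?_
    nlinarith
  refine par2_final hκ0 (by norm_num) hl hl3 hc0 hc hJl ?_
  refine mul_le_mul_of_nonneg_left ?_ (Nat.cast_nonneg _)
  refine le_trans (par2_ratio hκ0 hκ hl hJa hV hVl) ?_
  have e1 : Real.exp 1 ≤ 4 := by
    have := Real.exp_one_lt_d9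
    linarith
  have e3 : Real.exp (1 - κ * l / 2) = Real.exp 1 * Real.exp (-(κ * l / 2)) := by
    rw [← Real.exp_add]
    congr 1
  rw [e3]
  have t1 := (par2_ten hκ0 hκ hl).1
  have hk : 0 ≤ κ * l := by positivity
  refine mul_le_mul e1 (Real.exp_le_exp.2 ?_) (Real.exp_pos _).le (by norm_num)
  linarith

end Pool.Agent.H.MP_b3c6db_nt
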