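import Pool.Agent.H.MP_b3c6db_nt.SB.Par1

/-! Eventual inequalities, part 3. -/

namespace Pool.Agent.H.MP_b3c6db_nt

open Filter

variable (κ : ℝ) (hκ0 : 0 < κ) (hκ : κ ≤ 1 / 2000)

lemma Par3_ev (C δ : ℝ) (hδ : 0 < δ) : ∀ᶠ x : ℝ in atTop, C * x ^ 2 ≤ Real.exp (δ * x) := by
  have h := (isLittleO_pow_exp_pos_mul_atTop 2 hδ).def
    (show (0 : ℝ) < 1 / (|C| + 1) by positivity)
  filter_upwards [h] with x hx
  rw [Real.norm_eq_abs, Real.norm_eq_abs, abs_of_nonneg (by positivity : (0 : ℝ) ≤ x ^ 2),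
    abs_of_pos (Real.exp_pos _)] at hx
  have h1 : (|C| + 1) * x ^ 2 ≤ Real.exp (δ * x) := by
    have := mul_le_mul_of_nonneg_left hx (by positivity : (0 : ℝ) ≤ |C| + 1)
    rwa [← mul_assoc, mul_one_div_cancel (by positivity), one_mul] at this
  have h2 : C * x ^ 2 ≤ (|C| + 1) * x ^ 2 := by
    apply mul_le_mul_of_nonneg_right _ (by positivity)
    linarith [le_abs_self C]
  linarith

lemma Par3_tendsto {κ : ℝ} (hκ : κ ≤ 1 / 2000) : Tendsto (pL κ) atTop atTop := by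
  show Tendsto (fun l => Real.log ((1 - κ) ^ 2 * l)) atTop atTop
  have h1 : 0 < (1 - κ) ^ 2 := pow_pos (by linarith) 2
  exact Real.tendsto_log_atTop.comp (tendsto_id.const_mul_atTop h1)

lemma Par3_l {κ : ℝ} (hκ0 : 0 < κ) (hκ : κ ≤ 1 / 2000) {l : ℝ} (hl : 0 < l) :
    pl0 κ l = Real.exp (pL κ l) ∧ Real.exp (pL κ l) ≤ l ∧ l ≤ 2 * Real.exp (pL κ l) := by
  have h1 : 0 < (1 - κ) ^ 2 := pow_pos (by linarith) 2
  have h0 : 0 < pl0 κ l := mul_pos h1 hl
  have h2 : Real.exp (pL κ l) = pl0 κ l := Real.exp_log h0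
  have h3 : (1 - κ) ^ 2 ≤ 1 := by nlinarith
  have h4 : 1 ≤ 2 * (1 - κ) ^ 2 := by nlinarith
  refine ⟨h2.symm, ?_, ?_⟩
  · rw [h2]; unfold pl0
    have := mul_le_mul_of_nonneg_right h3 hl.le
    linarith
  · rw [h2]; unfold pl0
    have := mul_le_mul_of_nonneg_right h4 hl.le
    linarith

lemma Par3_T_eq {κ : ℝ} {l : ℝ} (h0 : 0 < pl0 κ l) (hx : 0 < pL κ l) :
    pT κ l = (1 - κ) * Real.sqrt (2 * pl0 κ l * pL κ l) := by
  unfold pT py
  rw [mul_assoc]
  congr 1
  have : 2 * pl0 κ l * pL κ l = (2 * (pl0 κ l / pL κ l)) * (pL κ l * pL κ l) := by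
    field_simp
  rw [this, Real.sqrt_mul (show (0 : ℝ) ≤ 2 * (pl0 κ l / pL κ l) by positivity),
    Real.sqrt_mul_self hx.le]

lemma Par3_exp_half (x : ℝ) : Real.exp x = Real.exp (x / 2) ^ 2 := by
  rw [← Real.exp_nat_mul]
  push_cast
  congr 1
  ring

lemma Par3_T {κ : ℝ} (hκ0 : 0 < κ) (hκ : κ ≤ 1 / 2000) {l : ℝ} (hl : 0 < l)
    (hx : 1 ≤ pL κ l) :
    Real.exp (pL κ l / 2) ≤ pT κ l ∧ pT κ l ≤ 2 * pL κ l * Real.exp (pL κ l / 2) := by
  obtain ⟨h1, -, -⟩ := Par3_l hκ0 hκ hl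
  rw [Par3_T_eq (by rw [h1]; exact Real.exp_pos _) (by linarith), h1]
  generalize pL κ l = x at hx
  have h3 := Par3_exp_half x
  have he := Real.exp_pos (x / 2)
  generalize Real.exp (x / 2) = A at h3 he
  rw [h3]
  constructor
  · have h4 : 1.1 * A ≤ Real.sqrt (2 * A ^ 2 * x) := by
      apply Real.le_sqrt_of_sq_le
      have := mul_le_mul_of_nonneg_left hx (by positivity : (0 : ℝ) ≤ 2 * A ^ 2)
      nlinarith [sq_nonneg A]
    nlinarith
  · have h4 : Real.sqrt (2 * A ^ 2 * x) ≤ 2 * x * A := by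
      apply Real.sqrt_le_iff.2
      constructor
      · positivity
      · have h5 : x ≤ x ^ 2 := by nlinarith
        have := mul_le_mul_of_nonneg_left h5 (by positivity : (0 : ℝ) ≤ 2 * A ^ 2)
        nlinarith [mul_nonneg (sq_nonneg A) (sq_nonneg x)]
    have h6 := Real.sqrt_nonneg (2 * A ^ 2 * x)
    nlinarith

lemma Par3_E {κ : ℝ} (hκ0 : 0 < κ) (hκ : κ ≤ 1 / 2000) {l : ℝ} (hl : 0 < l)
    (hx : 1 ≤ pL κ l) :
    (1 - κ) * cc κ * pT κ l ≤ 4 * pL κ l * Real.exp (pL κ l / 2) := by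
  obtain ⟨h1, h2⟩ := Par3_T hκ0 hκ hl hx
  have hc := Wt_cc_ge hκ
  have hc2 : cc κ ≤ 2 := by
    unfold cc
    have := Real.pi_lt_four
    linarith
  have hT : 0 ≤ pT κ l := le_trans (Real.exp_pos _).le h1
  have h3 : (1 - κ) * cc κ ≤ 2 := by nlinarith
  have := mul_le_mul_of_nonneg_right h3 hT
  linarith

lemma Par3_J {κ : ℝ} (hκ0 : 0 < κ) (hκ : κ ≤ 1 / 2000) {l : ℝ} (hl : 2 ≤ l) :
    (pJ κ l : ℝ) ≤ 2 * Real.exp (pL κ l) := by
  obtain ⟨-, -, h1⟩ := Par3_l hκ0 hκ (by linarith : 0 < l)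
  have h2 : (pJ κ l : ℝ) < κ * l / 100 + 1 := Nat.ceil_lt_add_one (by positivity)
  have h3 : κ * l ≤ 1 / 2000 * l := mul_le_mul_of_nonneg_right hκ (by linarith)
  linarith

lemma Par3_e5 : (96 : ℝ) ≤ Real.exp 5 := by
  have h := Real.exp_one_gt_d9
  have h2 : Real.exp 5 = Real.exp 1 ^ 5 := by
    rw [← Real.exp_nat_mul]; norm_num
  rw [h2]
  have h3 : (2.7 : ℝ) ^ 5 ≤ Real.exp 1 ^ 5 := by
    apply pow_le_pow_left₀ (by norm_num)
    linarith
  have h4 : (96 : ℝ) ≤ 2.7 ^ 5 := by norm_num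
  linarith

lemma Par3_e2 : (4 : ℝ) ≤ Real.exp 2 := by
  have h := Real.exp_one_gt_d9
  have h2 : Real.exp 2 = Real.exp 1 ^ 2 := by
    rw [← Real.exp_nat_mul]; norm_num
  rw [h2]
  nlinarith

lemma Par3_term {J x a E : ℝ} (hJ : J ≤ 2 * Real.exp x) (h : 5 + x + E ≤ a) :
    J * (2 * Real.exp (-a)) ≤ Real.exp (-E) / 24 := by
  have h1 : J * (2 * Real.exp (-a)) ≤ 2 * Real.exp x * (2 * Real.exp (-a)) :=
    mul_le_mul_of_nonneg_right hJ (by positivity)
  have h2 : 96 * (Real.exp x * Real.exp (-a)) ≤ Real.exp 5 * (Real.exp x * Real.exp (-a)) :=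
    mul_le_mul_of_nonneg_right Par3_e5 (by positivity)
  rw [← Real.exp_add, ← Real.exp_add] at h2
  have h3 : Real.exp (5 + (x + -a)) ≤ Real.exp (-E) := Real.exp_le_exp.2 (by linarith)
  have h4 : Real.exp x * Real.exp (-a) = Real.exp (x + -a) := (Real.exp_add _ _).symm
  nlinarith

include hκ0 hκ in
/-- `ρ` is admissible: `ρ = κ l0^{-(1/2-c)}/(2L) ≤ κ/(50 l0^{1/4})` because `1/2 - c ≥ 3/8`, and
`log p ≤ 4 log Y = 2 L` for `p ≤ Y^4`. -/
lemma par_rho (c : ℝ) (hc0 : 0 < c) (hc : c ≤ 1 / 8) : ∀ᶠ l : ℝ in atTop,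
    0 ≤ prh κ c l ∧ prh κ c l ≤ κ / (50 * Real.sqrt (pY κ l)) ∧
    ∀ p : ℕ, p.Prime → isdyn (pY κ l) p → ∀ w : ℝ, Real.exp (-((1 / 2 - c) * pL κ l)) ≤ w →
      prh κ c l * Real.log p ≤ κ * w := by
  filter_upwards [(Par3_tendsto hκ).eventually_ge_atTop 25, eventually_gt_atTop 0] with l hx hl
  obtain ⟨h1, -, -⟩ := Par3_l hκ0 hκ hl
  have hY : pY κ l = Real.exp (pL κ l / 2) := by
    unfold pY; rw [h1, Real.exp_half]
  have hYs : Real.sqrt (pY κ l) = Real.exp (pL κ l / 4) := by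
    rw [hY, ← Real.exp_half]; congr 1; ring
  have hx0 : 0 < pL κ l := by linarith
  have hr : 0 ≤ prh κ c l := by unfold prh; positivity
  refine ⟨hr, ?_, ?_⟩
  · rw [hYs]
    unfold prh
    rw [div_le_div_iff₀ (by positivity) (by positivity)]
    have h2 : Real.exp (-((1 / 2 - c) * pL κ l)) * Real.exp (pL κ l / 4) ≤ 1 := by
      rw [← Real.exp_add]
      apply Real.exp_le_one_iff.2
      nlinarith
    have h3 := mul_le_mul_of_nonneg_left h2 hκ0.le
    have h4 := mul_le_mul_of_nonneg_left hx hκ0.le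
    nlinarith
  · intro p hp hd w hw
    have h3 : Real.log p ≤ 2 * pL κ l := by
      have h4 : (p : ℝ) ≤ Real.exp (2 * pL κ l) := by
        have h5 := hd.2.2
        rw [hY, ← Real.exp_nat_mul] at h5
        refine h5.trans (le_of_eq ?_)
        congr 1; push_cast; ring
      have hp0 : (0 : ℝ) < p := by exact_mod_cast hp.pos
      calc Real.log p ≤ Real.log (Real.exp (2 * pL κ l)) := Real.log_le_log hp0 h4
        _ = _ := Real.log_exp _
    calc prh κ c l * Real.log p ≤ prh κ c l * (2 * pL κ l) :=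
          mul_le_mul_of_nonneg_left h3 hr
      _ = κ * Real.exp (-((1 / 2 - c) * pL κ l)) := by unfold prh; field_simp
      _ ≤ κ * w := mul_le_mul_of_nonneg_left hw hκ0.le

include hκ0 hκ in
/-- PROOF. `E = (1-κ) cc κ T ≤ C √(l log l)`. The three terms of the bracket, times `J ≤ l`:
`2 l e^{-cc κ T} = 2 l e^{-κ cc T} e^{-E}` and `κ cc T ≥ c' √(l log l) ≫ log l`;
`4 T l exp (-κ Y^{3/2} log Y/4)`, `Y^{3/2} = l0^{3/4}`, negligible against `e^{-E}`;
`2 R^{-ρ} exp (20 √l + 40 √l/log l)`: `R^{-ρ} = exp (-ρ η l)` and `ρ η l ≥ c'' l^{1/2+c}/log l ≫ √(l log l)`. -/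
lemma par_Lb (c : ℝ) (hc0 : 0 < c) (hc : c ≤ 1 / 8) : ∀ᶠ l : ℝ in atTop, ∀ lq : ℝ, lq ≤ 4 * l →
    (pJ κ l : ℝ) * (2 * Real.exp (-(cc κ * pT κ l)) +
      4 * pT κ l * Real.exp (-(κ * (pY κ l * Real.sqrt (pY κ l)) * Real.log (pY κ l) / 4)) +
      2 * pR κ l ^ (-(prh κ c l)) * Real.exp (20 * Real.sqrt l + 10 * (lq / (Real.sqrt l * Real.log l)))) ≤
      Real.exp (-((1 - κ) * cc κ * pT κ l)) / 8 := by
  have ht := Par3_tendsto hκ
  have hη : 0 < peta κ := by unfold peta; positivity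
  filter_upwards [ht.eventually_ge_atTop 1, ht.eventually (Par3_ev (200 / κ) (1 / 4) (by norm_num)),
    ht.eventually (Par3_ev (260 / (κ * peta κ)) c hc0), eventually_ge_atTop 2] with l hx e1 e2 hl
  intro lq hlq
  have hl0 : 0 < l := by linarith
  obtain ⟨h1, h2, h3⟩ := Par3_l hκ0 hκ hl0
  obtain ⟨hT1, hT2⟩ := Par3_T hκ0 hκ hl0 hx
  have hE := Par3_E hκ0 hκ hl0 hx
  have hJ := Par3_J hκ0 hκ hl
  have hcc := Wt_cc_ge hκ
  have hJ0 : (0 : ℝ) ≤ (pJ κ l : ℝ) := Nat.cast_nonneg _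
  have hY : pY κ l = Real.exp (pL κ l / 2) := by
    unfold pY; rw [h1, Real.exp_half]
  have hYs : Real.sqrt (pY κ l) = Real.exp (pL κ l / 4) := by
    rw [hY, ← Real.exp_half]; congr 1; ring
  have hlY : Real.log (pY κ l) = pL κ l / 2 := by rw [hY, Real.log_exp]
  have hloglx : pL κ l ≤ Real.log l := by
    have := Real.log_le_log (Real.exp_pos _) h2
    rwa [Real.log_exp] at this
  have hR : pR κ l ^ (-(prh κ c l)) = Real.exp (-(prh κ c l * peta κ * l)) := by
    unfold pR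
    rw [← Real.exp_mul]
    congr 1
    ring
  have hrho : prh κ c l = κ * Real.exp (-((1 / 2 - c) * pL κ l)) / (2 * pL κ l) := rfl
  rw [hR, hYs, hlY, hY]
  generalize prh κ c l = ρ at *
  generalize pT κ l = T at *
  generalize (pJ κ l : ℝ) = J at *
  generalize peta κ = η at *
  generalize pL κ l = x at *
  generalize cc κ = cK at *
  have hx0 : 0 < x := by linarith
  have hA4 : x / 4 + 1 ≤ Real.exp (x / 4) := Real.add_one_le_exp _
  have hAB : Real.exp (x / 2) = Real.exp (x / 4) ^ 2 := by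
    rw [← Real.exp_nat_mul]
    push_cast
    congr 1
    ring
  have hA2 : Real.exp x = Real.exp (x / 2) ^ 2 := Par3_exp_half x
  have hκB : 200 ≤ κ * Real.exp (x / 4) := by
    have h5 : 1 ≤ x ^ 2 := by nlinarith
    have h6 : 200 / κ ≤ 200 / κ * x ^ 2 := le_mul_of_one_le_right (by positivity) h5
    have h7 : 200 / κ ≤ Real.exp (x / 4) := by
      rw [show x / 4 = 1 / 4 * x by ring]
      exact h6.trans e1
    rw [div_le_iff₀ hκ0] at h7
    linarith
  have hA0 : 0 < Real.exp (x / 2) := Real.exp_pos _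
  have hA1 : 1 ≤ Real.exp (x / 2) := Real.one_le_exp (by linarith)
  have hsl : Real.sqrt l ≤ 2 * Real.exp (x / 2) := by
    apply Real.sqrt_le_iff.2
    constructor
    · positivity
    · rw [mul_pow, ← hA2]
      have := Real.exp_pos x
      linarith
  have hxA : Real.exp (x / 2) ≤ x * Real.exp (x / 2) := le_mul_of_one_le_left hA0.le hx
  have hxA2 : x ≤ x * Real.exp (x / 2) := le_mul_of_one_le_right hx0.le hA1
  -- first
  have t1 : J * (2 * Real.exp (-(cK * T))) ≤ Real.exp (-((1 - κ) * cK * T)) / 24 := by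
    apply Par3_term hJ
    have h5 : Real.exp (x / 2) ≤ cK * T := by
      have h50 : 0 ≤ T := hA0.le.trans hT1
      have h51 : 1 * T ≤ cK * T := mul_le_mul_of_nonneg_right hcc h50
      linarith
    have h6 : κ * Real.exp (x / 2) ≤ κ * (cK * T) := mul_le_mul_of_nonneg_left h5 hκ0.le
    have h7 : 200 * Real.exp (x / 4) ≤ κ * Real.exp (x / 2) := by
      rw [hAB]
      have := mul_le_mul_of_nonneg_right hκB (Real.exp_pos (x / 4)).le
      nlinarith
    have h8 : (1 - κ) * cK * T = cK * T - κ * (cK * T) := by ring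
    rw [h8]
    linarith
  have t2 : J * (4 * T * Real.exp (-(κ * (Real.exp (x / 2) * Real.exp (x / 4)) * (x / 2) / 4))) ≤
      Real.exp (-((1 - κ) * cK * T)) / 24 := by
    have h5 : 2 * T ≤ Real.exp (2 + x + x / 2) := by
      rw [Real.exp_add, Real.exp_add]
      have h50 : x ≤ Real.exp x := by linarith [Real.add_one_le_exp x]
      have h51 : 4 * x ≤ Real.exp 2 * Real.exp x :=
        mul_le_mul Par3_e2 h50 hx0.le (Real.exp_pos _).le
      have h52 := mul_le_mul_of_nonneg_right h51 hA0.le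
      linarith
    have h6 : J * (4 * T * Real.exp (-(κ * (Real.exp (x / 2) * Real.exp (x / 4)) * (x / 2) / 4))) ≤
        J * (2 * Real.exp (-(κ * (Real.exp (x / 2) * Real.exp (x / 4)) * (x / 2) / 4 -
          (2 + x + x / 2)))) := by
      apply mul_le_mul_of_nonneg_left _ hJ0
      rw [neg_sub, sub_eq_add_neg, Real.exp_add]
      have h60 := mul_le_mul_of_nonneg_right h5
        (Real.exp_pos (-(κ * (Real.exp (x / 2) * Real.exp (x / 4)) * (x / 2) / 4))).le
      linarith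
    refine h6.trans (Par3_term hJ ?_)
    have h7 : 200 * (Real.exp (x / 2) * x) ≤ κ * Real.exp (x / 4) * (Real.exp (x / 2) * x) :=
      mul_le_mul_of_nonneg_right hκB (by positivity)
    nlinarith
  have t3 : J * (2 * Real.exp (-(ρ * η * l)) *
      Real.exp (20 * Real.sqrt l + 10 * (lq / (Real.sqrt l * Real.log l)))) ≤
      Real.exp (-((1 - κ) * cK * T)) / 24 := by
    have hsl0 : 0 < Real.sqrt l := Real.sqrt_pos.2 hl0
    have hlogl : 1 ≤ Real.log l := le_trans hx hloglx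
    have h5 : lq / (Real.sqrt l * Real.log l) ≤ 4 * Real.sqrt l := by
      rw [div_le_iff₀ (by positivity)]
      have h50 : Real.sqrt l * Real.sqrt l = l := Real.mul_self_sqrt hl0.le
      have h51 : 4 * l ≤ 4 * l * Real.log l := le_mul_of_one_le_right (by positivity) hlogl
      calc lq ≤ 4 * l := hlq
        _ ≤ 4 * l * Real.log l := h51
        _ = 4 * (Real.sqrt l * Real.sqrt l) * Real.log l := by rw [h50]
        _ = _ := by ring
    rw [mul_assoc 2, ← Real.exp_add]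
    have h6 : -(ρ * η * l) + (20 * Real.sqrt l + 10 * (lq / (Real.sqrt l * Real.log l))) =
      -(ρ * η * l - (20 * Real.sqrt l + 10 * (lq / (Real.sqrt l * Real.log l)))) := by ring
    rw [h6]
    apply Par3_term hJ
    have h7 : 130 * (x * Real.exp (x / 2)) ≤ ρ * η * l := by
      have h70 : 260 * x ^ 2 ≤ κ * η * Real.exp (c * x) := by
        have := e2
        rw [div_mul_eq_mul_div, div_le_iff₀ (by positivity)] at this
        linarith
      have h71 : Real.exp (-((1 / 2 - c) * x)) * Real.exp x = Real.exp (c * x) * Real.exp (x / 2) := by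
        rw [← Real.exp_add, ← Real.exp_add]
        congr 1
        ring
      have h72 : ρ * η * Real.exp x ≤ ρ * η * l := by
        apply mul_le_mul_of_nonneg_left h2
        rw [hrho]
        positivity
      have h73 : ρ * η * Real.exp x = κ * η * Real.exp (c * x) * Real.exp (x / 2) / (2 * x) := by
        rw [hrho]
        calc κ * Real.exp (-((1 / 2 - c) * x)) / (2 * x) * η * Real.exp x
            = κ * η * (Real.exp (-((1 / 2 - c) * x)) * Real.exp x) / (2 * x) := by ring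
          _ = _ := by rw [h71]; ring
      have h74 : 130 * (x * Real.exp (x / 2)) ≤
          κ * η * Real.exp (c * x) * Real.exp (x / 2) / (2 * x) := by
        rw [le_div_iff₀ (by positivity)]
        have := mul_le_mul_of_nonneg_right h70 hA0.le
        nlinarith
      linarith
    linarith
  have hsum : J * (2 * Real.exp (-(cK * T)) +
      4 * T * Real.exp (-(κ * (Real.exp (x / 2) * Real.exp (x / 4)) * (x / 2) / 4)) +
      2 * Real.exp (-(ρ * η * l)) *
        Real.exp (20 * Real.sqrt l + 10 * (lq / (Real.sqrt l * Real.log l)))) =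
      J * (2 * Real.exp (-(cK * T))) +
      J * (4 * T * Real.exp (-(κ * (Real.exp (x / 2) * Real.exp (x / 4)) * (x / 2) / 4))) +
      J * (2 * Real.exp (-(ρ * η * l)) *
        Real.exp (20 * Real.sqrt l + 10 * (lq / (Real.sqrt l * Real.log l)))) := by ring
  rw [hsum]
  linarith

include hκ0 hκ in
/-- linear beats square root -/
lemma par_lin : ∀ᶠ l : ℝ in atTop,
    Real.exp (-(peta κ * l)) ≤ Real.exp (-((1 - κ) * cc κ * pT κ l)) / 8 := by
  have ht := Par3_tendsto hκ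
  have hη : 0 < peta κ := by unfold peta; positivity
  filter_upwards [ht.eventually_ge_atTop 1,
    ht.eventually (Par3_ev (10 / peta κ) (1 / 2) (by norm_num)), eventually_ge_atTop 2]
    with l hx e1 hl
  have hl0 : 0 < l := by linarith
  obtain ⟨h1, h2, h3⟩ := Par3_l hκ0 hκ hl0
  have hE := Par3_E hκ0 hκ hl0 hx
  have hA0 : 0 < Real.exp (pL κ l / 2) := Real.exp_pos _
  have hA1 : 1 ≤ Real.exp (pL κ l / 2) := Real.one_le_exp (by linarith)
  have h4 : 10 * pL κ l ^ 2 ≤ peta κ * Real.exp (pL κ l / 2) := by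
    rw [div_mul_eq_mul_div, div_le_iff₀ hη, show 1 / 2 * pL κ l = pL κ l / 2 by ring] at e1
    linarith
  have h5 : pL κ l ≤ pL κ l ^ 2 := by nlinarith
  have h6 : 10 * pL κ l * Real.exp (pL κ l / 2) ≤ peta κ * l := by
    have h60 : 10 * pL κ l ≤ peta κ * Real.exp (pL κ l / 2) := by linarith
    have h61 := mul_le_mul_of_nonneg_right h60 hA0.le
    have h62 : peta κ * Real.exp (pL κ l) ≤ peta κ * l := mul_le_mul_of_nonneg_left h2 hη.le
    rw [Par3_exp_half (pL κ l)] at h62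
    nlinarith
  have h7 : 1 ≤ pL κ l * Real.exp (pL κ l / 2) := one_le_mul_of_one_le_of_one_le hx hA1
  have h8 : 8 * Real.exp (-(peta κ * l)) ≤ Real.exp 5 * Real.exp (-(peta κ * l)) := by
    apply mul_le_mul_of_nonneg_right _ (Real.exp_pos _).le
    linarith [Par3_e5]
  rw [← Real.exp_add] at h8
  have h9 : Real.exp (5 + -(peta κ * l)) ≤ Real.exp (-((1 - κ) * cc κ * pT κ l)) := by
    apply Real.exp_le_exp.2
    linarith
  linarith

/-- The constant: for `0 < ε ≤ 1` and `κ = ε/2000`.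
PROOF. `cc κ ≥ (π/2)(1 - 260 κ)`; `T = (1-κ) √(2 l0 L)`, `l0 = (1-κ)² l`, `L = log l + 2 log (1-κ) ≥ (1-κ) log l`
eventually, so `T ≥ (1-κ)³ √2 √(l log l)` and `(1-κ)^4 (1 - 260 κ) ≥ 1 - 264 κ ≥ 1 - ε`;
`(π/2) √2 = π/√2`. -/
lemma par_final (ε : ℝ) (hε0 : 0 < ε) (hε : ε ≤ 1) : ∀ᶠ l : ℝ in atTop,
    (1 - ε) * (Real.pi / Real.sqrt 2) * Real.sqrt (l * Real.log l) ≤
      (1 - ε / 2000) * cc (ε / 2000) * pT (ε / 2000) l := by
  obtain ⟨κ, hκd⟩ : ∃ κ : ℝ, κ = ε / 2000 := ⟨_, rfl⟩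
  rw [← hκd]
  have hε2 : ε = 2000 * κ := by rw [hκd]; ring
  have hκ0 : 0 < κ := by rw [hκd]; positivity
  have hκ : κ ≤ 1 / 2000 := by rw [hκd]; linarith
  filter_upwards [Real.tendsto_log_atTop.eventually_ge_atTop (-(2 * Real.log (1 - κ)) / κ),
    (Par3_tendsto hκ).eventually_ge_atTop 1, eventually_ge_atTop 2] with l h1 hx hl
  have hl0 : 0 < l := by linarith
  have hκ1 : 0 < 1 - κ := by linarith
  have hlog0 : 0 ≤ Real.log l := Real.log_nonneg (by linarith)
  have hpL : pL κ l = 2 * Real.log (1 - κ) + Real.log l := by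
    unfold pL pl0
    rw [Real.log_mul (by positivity) (by positivity), Real.log_pow]
    push_cast
    ring
  have h2 : (1 - κ) ^ 2 * Real.log l ≤ pL κ l := by
    have h20 : -(2 * Real.log (1 - κ)) ≤ κ * Real.log l := by
      rw [div_le_iff₀ hκ0] at h1
      linarith
    have h21 : κ ^ 2 * Real.log l ≤ κ * Real.log l := by
      apply mul_le_mul_of_nonneg_right _ hlog0
      nlinarith
    rw [hpL]
    nlinarith
  have hpl : pl0 κ l = (1 - κ) ^ 2 * l := rfl
  have hpl0 : 0 < pl0 κ l := by rw [hpl]; positivity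
  rw [Par3_T_eq hpl0 (by linarith)]
  have h3 : (1 - κ) ^ 2 * (Real.sqrt 2 * Real.sqrt (l * Real.log l)) ≤
      Real.sqrt (2 * pl0 κ l * pL κ l) := by
    rw [← Real.sqrt_mul (by norm_num)]
    apply Real.le_sqrt_of_sq_le
    rw [mul_pow, Real.sq_sqrt (by positivity), hpl]
    have := mul_le_mul_of_nonneg_left h2 (by positivity : 0 ≤ 2 * ((1 - κ) ^ 2 * l))
    nlinarith
  have hcc := Wt_cc_ge hκ
  have hS : 0 ≤ Real.sqrt (l * Real.log l) := Real.sqrt_nonneg _
  have hs2 : 0 < Real.sqrt 2 := Real.sqrt_pos.2 (by norm_num)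
  have h4 : Real.pi / Real.sqrt 2 = Real.pi / 2 * Real.sqrt 2 := by
    rw [div_eq_iff hs2.ne', mul_assoc, Real.mul_self_sqrt (by norm_num)]
    ring
  have h5 : (1 - ε) * (Real.pi / 2) ≤ (1 - κ) ^ 4 * cc κ := by
    have h50 : 1 - 4 * κ ≤ (1 - κ) ^ 4 := by
      have := one_add_mul_le_pow (show (-2 : ℝ) ≤ -κ by linarith) 4
      push_cast at this
      have h51 : (1 + -κ) ^ 4 = (1 - κ) ^ 4 := by ring
      linarith
    have h52 := mul_le_mul_of_nonneg_right h50 (by linarith : 0 ≤ cc κ)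
    refine le_trans ?_ h52
    rw [hε2]
    unfold cc
    have hp := Real.pi_gt_three
    nlinarith [mul_pos hκ0 Real.pi_pos, mul_pos hκ0 hκ0]
  have h6 := mul_le_mul_of_nonneg_right h5
    (by positivity : 0 ≤ Real.sqrt 2 * Real.sqrt (l * Real.log l))
  have h7 := mul_le_mul_of_nonneg_left h3
    (by positivity : 0 ≤ (1 - κ) * cc κ * (1 - κ))
  rw [h4]
  calc (1 - ε) * (Real.pi / 2 * Real.sqrt 2) * Real.sqrt (l * Real.log l)
      = (1 - ε) * (Real.pi / 2) * (Real.sqrt 2 * Real.sqrt (l * Real.log l)) := by ring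
    _ ≤ (1 - κ) ^ 4 * cc κ * (Real.sqrt 2 * Real.sqrt (l * Real.log l)) := h6
    _ = (1 - κ) * cc κ * (1 - κ) * ((1 - κ) ^ 2 *
          (Real.sqrt 2 * Real.sqrt (l * Real.log l))) := by ring
    _ ≤ (1 - κ) * cc κ * (1 - κ) * Real.sqrt (2 * pl0 κ l * pL κ l) := h7
    _ = _ := by ring

end Pool.Agent.H.MP_b3c6db_nt
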