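import Mathlib

/-! The pointwise inequality of the phase lemma. -/

namespace Pool.Agent.H.MP_b3c6db_nt

/-- the auxiliary function: `φ b = 1 / (1 + (max (π/2 - b) 0)^2 / 2)`. -/
noncomputable def phf (b : ℝ) : ℝ := 1 / (1 + (max (Real.pi / 2 - b) 0) ^ 2 / 2)

/-- its derivative -/
noncomputable def phd (b : ℝ) : ℝ :=
  max (Real.pi / 2 - b) 0 / (1 + (max (Real.pi / 2 - b) 0) ^ 2 / 2) ^ 2

lemma phasePt_sq (x : ℝ) : HasDerivAt (fun y : ℝ => (max y 0) ^ 2) (2 * max x 0) x := by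
  rcases lt_trichotomy x 0 with h | h | h
  · have h1 : (fun y : ℝ => (max y 0) ^ 2) =ᶠ[nhds x] fun _ => (0 : ℝ) := by
      filter_upwards [Iio_mem_nhds h] with y hy
      rw [max_eq_right (le_of_lt hy)]
      norm_num
    rw [max_eq_right h.le, mul_zero]
    exact (hasDerivAt_const x (0 : ℝ)).congr_of_eventuallyEq h1
  · subst h
    rw [max_self, mul_zero, hasDerivAt_iff_isLittleO_nhds_zero]
    have h1 : (fun h : ℝ => (max (0 + h) 0) ^ 2 - (max (0 : ℝ) 0) ^ 2 - h • (0 : ℝ)) =O[nhds 0]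
        fun h : ℝ => h ^ 2 := by
      apply Asymptotics.IsBigO.of_bound 1
      filter_upwards with y
      rw [zero_add, max_self, smul_zero, sub_zero, zero_pow (by norm_num), sub_zero, one_mul,
        Real.norm_eq_abs, Real.norm_eq_abs, abs_of_nonneg (sq_nonneg _), abs_of_nonneg (sq_nonneg _)]
      rcases le_total y 0 with h | h
      · rw [max_eq_right h]
        nlinarith [sq_nonneg y]
      · rw [max_eq_left h]
    exact h1.trans_isLittleO (Asymptotics.isLittleO_pow_id (by norm_num))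
  · have h1 : (fun y : ℝ => (max y 0) ^ 2) =ᶠ[nhds x] fun y => y ^ 2 := by
      filter_upwards [Ioi_mem_nhds h] with y hy
      rw [max_eq_left (le_of_lt hy)]
    rw [max_eq_left h.le]
    have h2 : HasDerivAt (fun y : ℝ => y ^ 2) (2 * x) x := by
      simpa using hasDerivAt_pow 2 x
    exact h2.congr_of_eventuallyEq h1

/-- PROOF: `x ↦ (max x 0)^2` has derivative `2 max x 0` (cases `x < 0`, `x = 0`, `x > 0`). -/
lemma hasDerivAt_phf (b : ℝ) : HasDerivAt phf (phd b) b := by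
  have h1 : HasDerivAt (fun b : ℝ => Real.pi / 2 - b) (-1) b := by
    simpa using (hasDerivAt_id b).const_sub (Real.pi / 2)
  have h2 : HasDerivAt (fun b : ℝ => (max (Real.pi / 2 - b) 0) ^ 2)
      (2 * max (Real.pi / 2 - b) 0 * (-1)) b :=
    HasDerivAt.comp b (phasePt_sq (Real.pi / 2 - b)) h1
  have h3 : HasDerivAt (fun b : ℝ => 1 + (max (Real.pi / 2 - b) 0) ^ 2 / 2)
      (2 * max (Real.pi / 2 - b) 0 * (-1) / 2) b := (h2.div_const 2).const_add 1
  have hne : 1 + (max (Real.pi / 2 - b) 0) ^ 2 / 2 ≠ 0 := by positivity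
  have h4 := (hasDerivAt_const b (1 : ℝ)).div h3 hne
  unfold phf phd
  refine h4.congr_deriv ?_
  ring

lemma phf_pos (b : ℝ) : 0 < phf b := by
  unfold phf
  positivity

lemma phf_le_one (b : ℝ) : phf b ≤ 1 := by
  unfold phf
  rw [div_le_one (by positivity)]
  have := sq_nonneg (max (Real.pi / 2 - b) 0)
  linarith

/-- `φ ≥ 0.44` on `b ≥ 0` (π/2 < 1.5708) -/
lemma phf_ge (b : ℝ) (hb : 0 ≤ b) : 0.44 ≤ phf b := by
  unfold phf
  rw [le_div_iff₀ (by positivity)]
  have h1 : max (Real.pi / 2 - b) 0 ≤ 1.5708 := by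
    apply max_le
    · have := Real.pi_lt_d4
      linarith
    · norm_num
  have h2 : 0 ≤ max (Real.pi / 2 - b) 0 := le_max_right _ _
  have h3 : (max (Real.pi / 2 - b) 0) ^ 2 ≤ 1.5708 ^ 2 := pow_le_pow_left₀ h2 h1 2
  norm_num at h3 ⊢
  linarith

lemma continuous_phd : Continuous phd := by
  unfold phd
  refine Continuous.div (by fun_prop) (by fun_prop) (fun b => ?_)
  positivity

/-- `0 ≤ b φ'(b) ≤ 1` for `b ≥ 0`: with `u = π/2 - b > 0` it is at most `u (π/2 - u) ≤ π²/16`. -/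
lemma b_phd (b : ℝ) (hb : 0 ≤ b) : 0 ≤ phd b ∧ b * phd b ≤ 1 := by
  have h2 : 0 ≤ max (Real.pi / 2 - b) 0 := le_max_right _ _
  constructor
  · unfold phd
    positivity
  · unfold phd
    rw [← mul_div_assoc, div_le_one (by positivity)]
    have h3 : 1 ≤ (1 + (max (Real.pi / 2 - b) 0) ^ 2 / 2) ^ 2 := by
      apply one_le_pow₀
      have := sq_nonneg (max (Real.pi / 2 - b) 0)
      linarith
    refine le_trans ?_ h3
    rcases le_total (Real.pi / 2 - b) 0 with h | h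
    · rw [max_eq_right h, mul_zero]
      exact zero_le_one
    · rw [max_eq_left h]
      have h4 := Real.pi_lt_d2
      have h5 := Real.pi_pos
      nlinarith [sq_nonneg (b - (Real.pi / 2 - b))]

/-- `(π/2 - a) φ(a) ≤ cos a` for `a ≥ 0`. PROOF. `u = π/2 - a`. If `u ≥ 0`: `cos a = sin u` and
`sin u (1 + u²/2) ≥ u`: for `u ≤ 1` from `sin u ≥ u - u³/4` (`Real.sin_gt_sub_cube`), for
`1 ≤ u ≤ π/2` from `sin u ≥ sin 1 ≥ 3/4` and `3/4 (1 + u²/2) ≥ u`. If `u < 0`: `φ = 1` and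
`cos a = - sin (a - π/2) ≥ -(a - π/2)`. -/
lemma cos_ge_phf (a : ℝ) (ha : 0 ≤ a) : (Real.pi / 2 - a) * phf a ≤ Real.cos a := by
  have hcos : Real.cos a = Real.sin (Real.pi / 2 - a) := (Real.sin_pi_div_two_sub a).symm
  rw [hcos]
  unfold phf
  obtain ⟨u, hu⟩ : ∃ u, u = Real.pi / 2 - a := ⟨_, rfl⟩
  rw [← hu]
  rcases lt_trichotomy u 0 with h | h | h
  · rw [max_eq_right h.le]
    have h1 := Real.sin_lt (x := -u) (by linarith)
    rw [Real.sin_neg] at h1
    have h2 : u * (1 / (1 + (0 : ℝ) ^ 2 / 2)) = u := by norm_num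
    rw [h2]
    linarith
  · rw [h]
    simp
  · rw [max_eq_left h.le, mul_one_div, div_le_iff₀ (by positivity)]
    rcases le_total u 1 with h1 | h1
    · have h2 := Real.sin_gt_sub_cube h
      have h3 : (u - u ^ 3 / 6) * (1 + u ^ 2 / 2) ≤ Real.sin u * (1 + u ^ 2 / 2) :=
        mul_le_mul_of_nonneg_right h2.le (by positivity)
      refine le_trans ?_ h3
      have h4 : 0 ≤ u ^ 3 := by positivity
      have h5 : u ^ 2 ≤ 1 := by nlinarith
      nlinarith [mul_nonneg h4 (by linarith : (0 : ℝ) ≤ 1 - u ^ 2)]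
    · have hpi : u ≤ Real.pi / 2 := by linarith
      have h2 : Real.sin 1 ≤ Real.sin u :=
        Real.sin_le_sin_of_le_of_le_pi_div_two (by linarith [Real.pi_pos]) hpi h1
      have h3 := Real.sin_gt_sub_cube (x := 1) one_pos
      have h4 : (3 : ℝ) / 4 ≤ Real.sin u := by
        norm_num at h3
        linarith
      have h5 : (3 : ℝ) / 4 * (1 + u ^ 2 / 2) ≤ Real.sin u * (1 + u ^ 2 / 2) :=
        mul_le_mul_of_nonneg_right h4 (by positivity)
      refine le_trans ?_ h5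
      nlinarith [sq_nonneg (u - 4 / 3)]

/-- The pointwise inequality. PROOF. Case `a ≤ π/2 + 1`: `|y| ≤ b := (1+κ) a + κ ≤ π`, so
`cos y ≥ cos b ≥ cos a - κ (a+1) ≥ cos a - 3.6 κ`, and `|e^x - 1| ≤ 1.1 κ`, so
`e^x cos y ≥ cos a - 4.7 κ ≥ (π/2-a) φ(a) - 4.7 κ`; the left side is
`(π/2 - a) φ(a) - 20 κ φ(a) + κ ≤ (π/2-a) φ(a) - 7.8 κ` by `phf_ge`. Case `a > π/2 + 1`: `φ = 1`,
the left side is `≤ -1 - 19 κ`, the right side `≥ -e^κ ≥ -1 - 1.1 κ`. -/
theorem phase_pt (κ a x y : ℝ) (hκ0 : 0 ≤ κ) (hκ : κ ≤ 1 / 100) (ha : 0 ≤ a) (hx : |x| ≤ κ)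
    (hy : |y| ≤ (1 + κ) * a + κ) :
    (Real.pi / 2 - 20 * κ - a) * phf a + κ ≤ Real.exp x * Real.cos y := by
  have hpi1 := Real.pi_gt_d4
  have hpi2 := Real.pi_lt_d4
  have hx1 : |x| ≤ 1 := by linarith
  have hexp : |Real.exp x - 1| ≤ 2 * κ := by
    have h1 := Real.abs_exp_sub_one_le hx1
    linarith
  rcases le_total a (Real.pi / 2 + 1) with h | h
  · have hb1 : (1 + κ) * a + κ ≤ Real.pi := by nlinarith
    have h1 : Real.cos ((1 + κ) * a + κ) ≤ Real.cos y := by
      rw [← Real.cos_abs y]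
      exact Real.cos_le_cos_of_nonneg_of_le_pi (abs_nonneg y) hb1 hy
    have h2 := Real.abs_cos_sub_cos_le ((1 + κ) * a + κ) a
    have h3 : (1 + κ) * a + κ - a = κ * (a + 1) := by ring
    rw [h3, abs_of_nonneg (mul_nonneg hκ0 (by linarith) : 0 ≤ κ * (a + 1))] at h2
    have h4 : κ * (a + 1) ≤ 3.6 * κ := by nlinarith
    have h5 := (abs_le.mp h2).1
    have h6 : Real.cos y - 2 * κ ≤ Real.exp x * Real.cos y := by
      have h7 : |(Real.exp x - 1) * Real.cos y| ≤ 2 * κ := by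
        rw [abs_mul]
        calc |Real.exp x - 1| * |Real.cos y| ≤ 2 * κ * 1 :=
              mul_le_mul hexp (Real.abs_cos_le_one y) (abs_nonneg _) (by linarith)
          _ = 2 * κ := mul_one _
      have h8 := (abs_le.mp h7).1
      linarith
    have h9 := cos_ge_phf a ha
    have h10 := phf_ge a ha
    have h11 : (Real.pi / 2 - 20 * κ - a) * phf a = (Real.pi / 2 - a) * phf a - 20 * κ * phf a := by
      ring
    have h12 : 8.8 * κ ≤ 20 * κ * phf a := by nlinarith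
    rw [h11]
    linarith
  · have h1 : phf a = 1 := by
      unfold phf
      rw [max_eq_right (by linarith)]
      norm_num
    rw [h1, mul_one]
    have h2 : -Real.exp x ≤ Real.exp x * Real.cos y := by
      have h3 := Real.neg_one_le_cos y
      have h4 := mul_le_mul_of_nonneg_left h3 (Real.exp_pos x).le
      linarith
    have h3 := (abs_le.mp hexp).2
    linarith

end Pool.Agent.H.MP_b3c6db_nt
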