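import Pool.Agent.H.MP_b3c6db_nt.SB.Pois

/-! Lower bounds for the Poisson distribution function at the thresholds. -/

namespace Pool.Agent.H.MP_b3c6db_nt

open Finset Filter

/-- `m! ≤ e m (m/e)^m`. PROOF: induction on `m ≥ 1`, using `(1 + 1/m)^(m+1) ≥ e`, i.e.
`log (1 + 1/m) ≥ 1/(m+1)` (`Real.one_sub_inv_le_log_of_pos`). -/
lemma factorial_le (m : ℕ) (hm : 1 ≤ m) :
    (m.factorial : ℝ) ≤ Real.exp 1 * m * ((m : ℝ) / Real.exp 1) ^ m := by
  induction m, hm using Nat.le_induction with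
  | base =>
    have h := Real.exp_pos 1
    rw [Nat.factorial_one, Nat.cast_one, pow_one, mul_one, mul_one_div_cancel h.ne']
  | succ m hm ih =>
    have hm0 : (0 : ℝ) < (m : ℝ) := Nat.cast_pos.2 (by omega)
    have he : (0 : ℝ) < Real.exp 1 := Real.exp_pos 1
    have hq : (0 : ℝ) < ((m : ℝ) + 1) / m := by positivity
    have h1 : 1 ≤ ((m : ℝ) + 1) * Real.log (((m : ℝ) + 1) / m) := by
      have h2 := Real.one_sub_inv_le_log_of_pos hq
      have h3 : 1 - (((m : ℝ) + 1) / m)⁻¹ = 1 / ((m : ℝ) + 1) := by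
        field_simp
        ring
      rw [h3, div_le_iff₀ (by positivity)] at h2
      linarith
    have h4 : Real.exp 1 ≤ (((m : ℝ) + 1) / m) ^ (m + 1) := by
      have h5 : (((m : ℝ) + 1) / m) ^ (m + 1) =
          Real.exp (((m : ℝ) + 1) * Real.log (((m : ℝ) + 1) / m)) := by
        have h6 := Real.exp_nat_mul (Real.log (((m : ℝ) + 1) / m)) (m + 1)
        rw [Real.exp_log hq] at h6
        rw [← h6]
        push_cast
        rfl
      rw [h5]
      exact Real.exp_le_exp.2 h1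
    have h7 : Real.exp 1 * (m : ℝ) ^ (m + 1) ≤ ((m : ℝ) + 1) ^ (m + 1) := by
      rw [div_pow, le_div_iff₀ (by positivity)] at h4
      exact h4
    rw [Nat.factorial_succ]
    push_cast
    calc ((m : ℝ) + 1) * (m.factorial : ℝ)
        ≤ ((m : ℝ) + 1) * (Real.exp 1 * m * ((m : ℝ) / Real.exp 1) ^ m) :=
          mul_le_mul_of_nonneg_left ih (by positivity)
      _ = ((m : ℝ) + 1) * (Real.exp 1 * (m : ℝ) ^ (m + 1)) / Real.exp 1 ^ m := by
          rw [div_pow, pow_succ (m : ℝ) m]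
          field_simp
      _ ≤ ((m : ℝ) + 1) * ((m : ℝ) + 1) ^ (m + 1) / Real.exp 1 ^ m := by
          gcongr
      _ = Real.exp 1 * ((m : ℝ) + 1) * (((m : ℝ) + 1) / Real.exp 1) ^ (m + 1) := by
          rw [div_pow, pow_succ (Real.exp 1)]
          field_simp

/-- logarithmic form -/
lemma PoisLow_log (m : ℕ) (hm : 1 ≤ m) :
    Real.log (m.factorial : ℝ) ≤ 1 + Real.log m + m * (Real.log m - 1) := by
  have hm0 : (0 : ℝ) < (m : ℝ) := Nat.cast_pos.2 (by omega)
  have he : (0 : ℝ) < Real.exp 1 := Real.exp_pos 1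
  have hf : (0 : ℝ) < (m.factorial : ℝ) := Nat.cast_pos.2 (Nat.factorial_pos m)
  have h := Real.log_le_log hf (factorial_le m hm)
  rw [Real.log_mul (by positivity) (by positivity), Real.log_mul he.ne' hm0.ne', Real.log_exp,
    Real.log_pow, Real.log_div hm0.ne' he.ne', Real.log_exp] at h
  exact h

/-- `t (log (S / t) + 1)` is nondecreasing for `t ≤ S` -/
lemma PoisLow_mono {a b S : ℝ} (ha : 0 < a) (hab : a ≤ b) (hb : b ≤ S) :
    a * (Real.log (S / a) + 1) ≤ b * (Real.log (S / b) + 1) := by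
  have hb0 : 0 < b := lt_of_lt_of_le ha hab
  have hS : 0 < S := lt_of_lt_of_le hb0 hb
  have h1 : Real.log (b / a) ≤ b / a - 1 := Real.log_le_sub_one_of_pos (by positivity)
  have h2 : a * Real.log (b / a) ≤ b - a := by
    have := mul_le_mul_of_nonneg_left h1 ha.le
    have h3 : a * (b / a - 1) = b - a := by field_simp
    linarith
  have h4 : 0 ≤ Real.log (S / b) := Real.log_nonneg ((one_le_div hb0).2 hb)
  have h5 : Real.log (S / a) = Real.log (S / b) + Real.log (b / a) := by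
    rw [Real.log_div hS.ne' ha.ne', Real.log_div hS.ne' hb0.ne', Real.log_div hb0.ne' ha.ne']
    ring
  have h6 : 0 ≤ (b - a) * Real.log (S / b) := mul_nonneg (by linarith) h4
  rw [h5]
  nlinarith

/-- `φ > 0` -/
lemma PoisLow_phi {r : ℝ} (hr0 : 0 < r) (hr1 : r < 1) : 0 < 1 - r + r * Real.log r := by
  have h1 : Real.log r⁻¹ < r⁻¹ - 1 := by
    refine Real.log_lt_sub_one_of_pos (inv_pos.2 hr0) ?_
    intro h
    exact hr1.ne (inv_eq_one.1 h)
  rw [Real.log_inv] at h1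
  have h2 := mul_lt_mul_of_pos_left h1 hr0
  have h3 : r * (r⁻¹ - 1) = 1 - r := by field_simp
  linarith

/-- logarithmic lower bound of one term -/
lemma PoisLow_term (m : ℕ) (hm : 1 ≤ m) {S : ℝ} (hS : 0 < S) :
    Real.exp (-S + m * (Real.log (S / m) + 1) - 1 - Real.log m) ≤ pois (m + 1) S := by
  have hm0 : (0 : ℝ) < (m : ℝ) := Nat.cast_pos.2 (by omega)
  have hf : (0 : ℝ) < (m.factorial : ℝ) := Nat.cast_pos.2 (Nat.factorial_pos m)
  refine le_trans ?_ (poisTerm_le m hS.le)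
  have h1 : Real.exp (-S) * (S ^ m / (m.factorial : ℝ)) =
      Real.exp (-S + m * Real.log S - Real.log (m.factorial : ℝ)) := by
    rw [Real.exp_sub, Real.exp_add, Real.exp_log hf, Real.exp_nat_mul, Real.exp_log hS]
    ring
  rw [h1]
  refine Real.exp_le_exp.2 ?_
  have h2 := PoisLow_log m hm
  rw [Real.log_div hS.ne' hm0.ne']
  linarith

/-- Notation: for `0 < r < 1` put `φ = 1 - r + r log r > 0`, `x = 1/(2φ)`, `z = r x`. Then
`x - z (1 + log (x/z)) = 1/2`. THE LEMMA: for `0 < κ < 1` there is `c > 0` such that for all large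
`L`, all `0 ≤ s ≤ (1-κ) x L` and all naturals `m` with `z L ≤ m`: `pois (m+1) s ≥ e^{-(1/2-c) L}`.
PROOF. Monotonicity (`pois_mono` in `m`, `pois_anti` in `s`) reduces to `m = ⌈z L⌉` and
`s = S = (1-κ') x L`, `κ' = min κ ((1-r)/2)`. Then
`pois (m+1) S ≥ e^{-S} S^m / m!` (`poisTerm_le`) and by `factorial_le`
`log ≥ -S + m log (S/m) + m - 1 - log m`. Since `z L ≤ m ≤ z L + 1`, the right side is
`≥ -L (x' - z (1 + log (x'/z))) - O(log L)` with `x' = (1-κ') x`; the function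
`E(x') = x' - z - z log (x'/z)` has derivative `1 - z/x' > 0` on `[z, x]`, `E(x) = 1/2`, so
`E(x') ≤ 1/2 - 2c`. -/
theorem pois_low (r κ : ℝ) (hr0 : 0 < r) (hr1 : r < 1) (hκ0 : 0 < κ) (hκ1 : κ < 1) :
    ∃ c : ℝ, 0 < c ∧ ∀ᶠ L : ℝ in atTop, ∀ s : ℝ, 0 ≤ s →
      s ≤ (1 - κ) * (1 / (2 * (1 - r + r * Real.log r))) * L → ∀ m : ℕ,
      r / (2 * (1 - r + r * Real.log r)) * L ≤ m →
      Real.exp (-((1 / 2 - c) * L)) ≤ pois (m + 1) s := by
  have hφ := PoisLow_phi hr0 hr1
  obtain ⟨φ, hφe⟩ : ∃ φ, φ = 1 - r + r * Real.log r := ⟨_, rfl⟩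
  rw [← hφe] at hφ ⊢
  obtain ⟨x, hx⟩ : ∃ x, x = 1 / (2 * φ) := ⟨_, rfl⟩
  have hx0 : 0 < x := by rw [hx]; positivity
  have hzx : r / (2 * φ) = r * x := by rw [hx]; ring
  rw [hzx, ← hx]
  obtain ⟨z, hz⟩ : ∃ z, z = r * x := ⟨_, rfl⟩
  rw [← hz]
  have hz0 : 0 < z := by rw [hz]; positivity
  obtain ⟨k, hk⟩ : ∃ k, k = min κ ((1 - r) / 2) := ⟨_, rfl⟩
  have hk0 : 0 < k := by rw [hk]; exact lt_min hκ0 (by linarith)
  have hkκ : k ≤ κ := by rw [hk]; exact min_le_left _ _
  have hkr : k ≤ (1 - r) / 2 := by rw [hk]; exact min_le_right _ _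
  obtain ⟨y, hy⟩ : ∃ y, y = (1 - k) * x := ⟨_, rfl⟩
  have hyz : z < y := by
    rw [hy, hz]
    exact mul_lt_mul_of_pos_right (by linarith) hx0
  have hy0 : 0 < y := hz0.trans hyz
  have hyx : y < x := by
    rw [hy]
    nlinarith
  -- the constant
  obtain ⟨c, hc⟩ : ∃ c, c = (x - y) * (1 - z / y) / 2 := ⟨_, rfl⟩
  have hzy : z / y < 1 := (div_lt_one hy0).2 hyz
  have hc0 : 0 < c := by
    rw [hc]
    have h1 : 0 < x - y := by linarith
    have h2 : 0 < 1 - z / y := by linarith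
    positivity
  have hE : y - z * (1 + Real.log (y / z)) ≤ 1 / 2 - 2 * c := by
    have e1 : x - z * (1 + Real.log (x / z)) = 1 / 2 := by
      have e2 : x / z = r⁻¹ := by
        rw [hz]
        field_simp
      rw [e2, Real.log_inv, hz]
      have e3 : x - r * x * (1 + -Real.log r) = x * φ := by
        rw [hφe]
        ring
      rw [e3, hx]
      field_simp
    have e4 : Real.log (x / y) ≤ x / y - 1 := Real.log_le_sub_one_of_pos (by positivity)
    have e5 : Real.log (x / z) = Real.log (x / y) + Real.log (y / z) := by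
      rw [Real.log_div hx0.ne' hz0.ne', Real.log_div hx0.ne' hy0.ne',
        Real.log_div hy0.ne' hz0.ne']
      ring
    have e6 : z * Real.log (x / y) ≤ z * (x / y - 1) := mul_le_mul_of_nonneg_left e4 hz0.le
    have e7 : 2 * c = (x - y) - z * (x / y - 1) := by
      rw [hc]
      field_simp
    rw [e5] at e1
    linarith
  refine ⟨c, hc0, ?_⟩
  filter_upwards [eventually_gt_atTop (0 : ℝ), eventually_ge_atTop (1 / (y - z)),
    eventually_ge_atTop (2 / c * (c / (2 * z) + Real.log (2 * z / c)))] with L hL0 hL1 hL2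
  intro s hs0 hs m hm
  have hzL : 0 < z * L := mul_pos hz0 hL0
  have hm0 : 1 ≤ ⌈z * L⌉₊ := Nat.one_le_iff_ne_zero.2 (Nat.ceil_pos.2 hzL).ne'
  have hmle : ⌈z * L⌉₊ ≤ m := Nat.ceil_le.2 hm
  have hc1 : z * L ≤ (⌈z * L⌉₊ : ℝ) := Nat.le_ceil _
  have hc2 : (⌈z * L⌉₊ : ℝ) ≤ z * L + 1 := (Nat.ceil_lt_add_one hzL.le).le
  have hS1 : z * L + 1 ≤ y * L := by
    rw [div_le_iff₀ (by linarith)] at hL1
    linarith
  have hS0 : 0 < y * L := mul_pos hy0 hL0
  have hsS : s ≤ y * L := by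
    refine hs.trans (mul_le_mul_of_nonneg_right ?_ hL0.le)
    rw [hy]
    exact mul_le_mul_of_nonneg_right (by linarith) hx0.le
  refine le_trans ?_ ((pois_mono (Nat.succ_le_succ hmle) hS0.le).trans
    (pois_anti (m + 1) hs0 hsS))
  refine le_trans (Real.exp_le_exp.2 ?_) (PoisLow_term _ hm0 hS0)
  have h1 := PoisLow_mono hzL hc1 (hc2.trans hS1)
  have h2 : y * L / (z * L) = y / z := by
    field_simp
  rw [h2] at h1
  have hmp : (0 : ℝ) < (⌈z * L⌉₊ : ℝ) := lt_of_lt_of_le hzL hc1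
  have h3 : Real.log (⌈z * L⌉₊ : ℝ) ≤ Real.log (z * L + 1) := Real.log_le_log hmp hc2
  have h4 : Real.log (z * L + 1) ≤ c * L - 1 := by
    have e1 : Real.log ((z * L + 1) / (2 * z / c)) ≤ (z * L + 1) / (2 * z / c) - 1 :=
      Real.log_le_sub_one_of_pos (by positivity)
    rw [Real.log_div (by positivity) (by positivity)] at e1
    have e2 : (z * L + 1) / (2 * z / c) = c * L / 2 + c / (2 * z) := by
      field_simp
    have e3 : c / (2 * z) + Real.log (2 * z / c) ≤ c * L / 2 := by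
      have e4 := mul_le_mul_of_nonneg_left hL2 (by positivity : (0 : ℝ) ≤ c / 2)
      have e5 : c / 2 * (2 / c * (c / (2 * z) + Real.log (2 * z / c))) =
          c / (2 * z) + Real.log (2 * z / c) := by
        field_simp
      rw [e5] at e4
      linarith
    rw [e2] at e1
    linarith
  have h5 := mul_le_mul_of_nonneg_right hE hL0.le
  nlinarith

end Pool.Agent.H.MP_b3c6db_nt
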