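import Pool.Agent.H.MP_b3c6db_nt.SB.UpS
import Pool.Agent.H.MP_b3c6db_nt.SA.LowB

/-! The rate of decay to first order in the exponent. -/

namespace Pool.Agent.H.MP_b3c6db_nt

open Filter Topology

lemma rate_den_pos : ∀ᶠ H : ℕ in atTop, 0 < Real.sqrt (Real.log H * Real.log (Real.log H)) := by
  have hlog : Tendsto (fun H : ℕ => Real.log (H : ℝ)) atTop atTop :=
    Real.tendsto_log_atTop.comp tendsto_natCast_atTop_atTop
  filter_upwards [hlog.eventually (eventually_gt_atTop 1)] with H hH
  exact Real.sqrt_pos.2 (mul_pos (by linarith) (Real.log_pos hH))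

theorem rate : Tendsto (fun H : ℕ => Real.log (1 / delta H) /
    Real.sqrt (Real.log H * Real.log (Real.log H))) atTop (𝓝 (Real.pi / Real.sqrt 2)) := by
  set A : ℝ := Real.pi / Real.sqrt 2 with hA
  have hA0 : 0 < A := by positivity
  refine tendsto_order.2 ⟨fun a ha => ?_, fun a ha => ?_⟩
  · -- lower bound for the ratio, from the upper bound of delta
    have hε : 0 < (A - a) / (2 * A) := by
      have : 0 < A - a := by linarith
      positivity
    filter_upwards [upper_sharp _ hε, lower_sharp 1 one_pos, rate_den_pos] with H h1 h0 h2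
    have hd : 0 < delta H := lt_of_lt_of_le (Real.exp_pos _) h0
    have h3 := Real.log_le_log hd h1
    rw [Real.log_exp] at h3
    rw [one_div, Real.log_inv, lt_div_iff₀ h2]
    have h4 : a < (1 - (A - a) / (2 * A)) * A := by
      have : (1 - (A - a) / (2 * A)) * A = A - (A - a) / 2 := by field_simp
      rw [this]; linarith
    have h5 := mul_lt_mul_of_pos_right h4 h2
    linarith
  · have hε : 0 < (a - A) / (2 * A) := by
      have : 0 < a - A := by linarith
      positivity
    filter_upwards [lower_sharp _ hε, rate_den_pos] with H h1 h2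
    have h3 := Real.log_le_log (Real.exp_pos _) h1
    rw [Real.log_exp] at h3
    rw [one_div, Real.log_inv, div_lt_iff₀ h2]
    have h4 : (1 + (a - A) / (2 * A)) * A < a := by
      have : (1 + (a - A) / (2 * A)) * A = A + (a - A) / 2 := by field_simp
      rw [this]; linarith
    have h5 := mul_lt_mul_of_pos_right h4 h2
    linarith

end Pool.Agent.H.MP_b3c6db_nt
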