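import Pool.Agent.H.MP_b3c6db_nt.PrimeSums
import Pool.Agent.H.MP_b3c6db_nt.SB.Wt
import Pool.Agent.H.MP_b3c6db_nt.SB.LocA

/-! The static product. -/

namespace Pool.Agent.H.MP_b3c6db_nt

open Finset Complex

/-- polar form of an exponential. -/
lemma Stat_polar (x : ℝ) (ζ : ℂ) :
    Complex.exp ((x : ℂ) + ζ) =
      ((Real.exp (x + ζ.re) : ℝ) : ℂ) * Complex.exp ((ζ.im : ℝ) * Complex.I) := by
  rw [Complex.ofReal_exp, ← Complex.exp_add]
  congr 1
  apply Complex.ext <;> simp

lemma Stat_ast (κ Y : ℝ) (p e : ℕ) (hst : ¬ isdyn Y p) :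
    ast κ Y p e = ((p : ℝ) ^ (-(expo κ Y p))) ^ e := by
  unfold ast; rw [if_neg hst]

lemma Stat_expo_nonneg (κ Y : ℝ) (hκ0 : 0 ≤ κ) (p : ℕ) : 0 ≤ expo κ Y p := by
  unfold expo
  split_ifs
  · exact hκ0
  · positivity
  · norm_num

lemma Stat_norm (κ Y : ℝ) (hκ0 : 0 < κ) (p k : ℕ) (r : ℚ)
    (hp : p.Prime) (hr : r.den = p ^ k) :
    ‖∑ e ∈ range (k + 1), ((ast κ Y p e : ℝ) : ℂ) * Dlt (p ^ e) r‖ ≤ 1 := by
  apply local_norm_le_one p k r hp hr (fun e => ast κ Y p e) (ast_zero κ Y p)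
  · intro e
    unfold ast
    split_ifs
    · exact le_refl _
    · have hp1 : (1 : ℝ) ≤ p := by exact_mod_cast hp.one_lt.le
      have h1 : 0 ≤ (p : ℝ) ^ (-(expo κ Y p)) := by positivity
      have h2 : (p : ℝ) ^ (-(expo κ Y p)) ≤ 1 :=
        Real.rpow_le_one_of_one_le_of_nonpos hp1 (by linarith [Stat_expo_nonneg κ Y hκ0.le p])
      exact pow_le_pow_of_le_one h1 h2 (Nat.le_succ e)
  · intro e
    exact ast_nonneg κ Y p e

/-- the general case with an exponent -/
lemma Stat_gen (κ Y : ℝ) (hκ0 : 0 < κ) (p k : ℕ) (r : ℚ)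
    (hp : p.Prime) (hk : 1 ≤ k) (hr : r.den = p ^ k) (hst : ¬ isdyn Y p) (σ b : ℝ)
    (hσ : expo κ Y p = σ) (hσ0 : 0 ≤ σ) (hσ1 : σ ≤ 1 / 4)
    (hb : 5 * ((p : ℝ) ^ σ - 1) / Real.sqrt p ≤ b) (hb2 : b ≤ 1 / 2) :
    ∃ M θ : ℝ, 0 ≤ M ∧ M ≤ 1 ∧
      M ≤ Real.exp (-(σ * (((k + 1) / 2 : ℕ) : ℝ) * Real.log p) + 3 / 2 * b) ∧
      |θ| ≤ 3 / 2 * b ∧
      ∑ e ∈ range (k + 1), ((ast κ Y p e : ℝ) : ℂ) * Dlt (p ^ e) r =
        (M : ℂ) * Complex.exp (θ * Complex.I) := by
  obtain ⟨ζ, h1, h2⟩ := factor_gen p k r hp hk hr σ hσ0 hσ1 b hb hb2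
  have h0 : ∑ e ∈ range (k + 1), ((ast κ Y p e : ℝ) : ℂ) * Dlt (p ^ e) r =
      ∑ e ∈ range (k + 1), (((p : ℝ) ^ (-σ) : ℝ) : ℂ) ^ e * Dlt (p ^ e) r := by
    apply Finset.sum_congr rfl
    intro e _
    rw [Stat_ast κ Y p e hst, hσ]
    push_cast
    rfl
  have h3 := Stat_polar (-(σ * (((k + 1) / 2 : ℕ) : ℝ) * Real.log p)) ζ
  have h4 : ∑ e ∈ range (k + 1), ((ast κ Y p e : ℝ) : ℂ) * Dlt (p ^ e) r =
      ((Real.exp (-(σ * (((k + 1) / 2 : ℕ) : ℝ) * Real.log p) + ζ.re) : ℝ) : ℂ) *
        Complex.exp ((ζ.im : ℝ) * Complex.I) := by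
    rw [h0, h1, ← h3]
  refine ⟨Real.exp (-(σ * (((k + 1) / 2 : ℕ) : ℝ) * Real.log p) + ζ.re), ζ.im,
    (Real.exp_pos _).le, ?_, ?_, ?_, h4⟩
  · have h5 := Stat_norm κ Y hκ0 p k r hp hr
    rw [h4, norm_mul, Complex.norm_exp_ofReal_mul_I, mul_one, Complex.norm_real,
      Real.norm_of_nonneg (Real.exp_pos _).le] at h5
    exact h5
  · apply Real.exp_le_exp.mpr
    have := Complex.re_le_norm ζ
    linarith
  · exact (Complex.abs_im_le_norm ζ).trans h2

lemma Stat_log_le (x : ℝ) (hx : 0 < x) : Real.log x ≤ 2 * Real.sqrt x := by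
  have h1 : Real.log x = 2 * Real.log (Real.sqrt x) := by
    rw [Real.log_sqrt hx.le]; ring
  have h2 := Real.log_le_sub_one_of_pos (Real.sqrt_pos.mpr hx)
  linarith

/-- One static prime. PROOF. Four cases.
`p = 2`: `factor_gen` (Factors.lean) with `σ = κ`, `b = 5 (2^κ - 1)/√2 ≤ 2.6 κ`.
`p ≡ 3 mod 4`, `p ≤ Y`: `factor_gen` with `σ = κ/(50 √Y)`, `b = 10 σ log p/√p`
(`p^σ - 1 ≤ 2 σ log p` since `σ log p ≤ 1`).
`p ≡ 1 mod 4`: `local_real1`, `θ = 0`.
`p ≡ 3 mod 4`, `p > Y^4`: `factor_gen` with `σ = 1/8`, `b = 5 p^(-3/8) ≤ 5 Y^(-3/2)`;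
the modulus is `≤ exp (-(1/8) log p + 8 Y^(-3/2)) ≤ exp (-(log Y)/4)`.
In all cases the modulus is `≤ 1` by `local_norm_le_one`. -/
lemma static_one (κ Y : ℝ) (hκ0 : 0 < κ) (hκ : κ ≤ 1 / 100) (hY : 10 ^ 6 ≤ Y) (p k : ℕ) (r : ℚ)
    (hp : p.Prime) (hk : 1 ≤ k) (hr : r.den = p ^ k) (hst : ¬ isdyn Y p) :
    ∃ M θ : ℝ, 0 ≤ M ∧ M ≤ 1 ∧
      (p % 4 = 3 → Y ^ 4 < (p : ℝ) → M ≤ Real.exp (-(Real.log Y / 4))) ∧
      |θ| ≤ (if p = 2 then 4 * κ else if p % 4 = 3 then (if (p : ℝ) ≤ Y then
        15 * (κ / (50 * Real.sqrt Y)) * (Real.log p / Real.sqrt p) else 8 / (Y * Real.sqrt Y)) else 0) ∧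
      ∑ e ∈ range (k + 1), ((ast κ Y p e : ℝ) : ℂ) * Dlt (p ^ e) r =
        (M : ℂ) * Complex.exp (θ * Complex.I) := by
  have hp2 : (2 : ℝ) ≤ p := by exact_mod_cast hp.two_le
  have hp0 : (0 : ℝ) < p := by linarith
  have hsp : 0 < Real.sqrt p := Real.sqrt_pos.mpr hp0
  have hY0 : 0 < Y := by linarith
  have hsY : 1000 ≤ Real.sqrt Y := by
    apply Real.le_sqrt_of_sq_le
    norm_num at hY ⊢
    linarith
  have hlogp0 : 0 ≤ Real.log p := Real.log_natCast_nonneg p
  by_cases h2 : p = 2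
  · -- p = 2
    have he : expo κ Y p = κ := by unfold expo; rw [if_pos h2]
    have hb : 5 * ((p : ℝ) ^ κ - 1) / Real.sqrt p ≤ 2.6 * κ := by
      rw [div_le_iff₀ hsp]
      have h3 : (p : ℝ) ^ κ = Real.exp (κ * Real.log 2) := by
        rw [h2, Real.rpow_def_of_pos (by norm_num)]
        congr 1
        push_cast
        ring
      rw [h3]
      have hl : Real.log 2 < 0.6931471808 := Real.log_two_lt_d9
      have hl0 : 0 < Real.log 2 := Real.log_pos (by norm_num)
      set x := κ * Real.log 2 with hx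
      have hx0 : 0 ≤ x := by positivity
      have hx1 : x ≤ 0.007 := by
        rw [hx]; nlinarith
      have h5 := Real.abs_exp_sub_one_sub_id_le (x := x) (by rw [abs_of_nonneg hx0]; linarith)
      have h6 : Real.exp x - 1 ≤ x + x ^ 2 := by
        have := (abs_le.mp h5).2
        linarith
      have h7 : x + x ^ 2 ≤ 1.007 * x := by nlinarith
      have h8 : x ≤ 0.6932 * κ := by rw [hx]; nlinarith
      have h9 : (1.4 : ℝ) ≤ Real.sqrt p := by
        apply Real.le_sqrt_of_sq_le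
        norm_num
        linarith
      have h10 : 5 * (Real.exp x - 1) ≤ 3.5 * κ := by nlinarith
      nlinarith
    obtain ⟨M, θ, h3, h4, h5, h6, h7⟩ := Stat_gen κ Y hκ0 p k r hp hk hr hst κ (2.6 * κ) he hκ0.le
      (by linarith) hb (by linarith)
    refine ⟨M, θ, h3, h4, ?_, ?_, h7⟩
    · intro h8
      rw [h2] at h8
      norm_num at h8
    · rw [if_pos h2]
      linarith
  · by_cases h3 : p % 4 = 3
    · by_cases hpY : (p : ℝ) ≤ Y
      · -- small primes 3 mod 4
        have he : expo κ Y p = κ / (50 * Real.sqrt Y) := by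
          unfold expo; rw [if_neg h2, if_pos ⟨h3, hpY⟩]
        set σ := κ / (50 * Real.sqrt Y) with hσ
        have hσ0 : 0 ≤ σ := by positivity
        have hσ1 : σ ≤ 1 / 5000 := by
          rw [hσ, div_le_iff₀ (by positivity)]
          nlinarith
        have hsq : Real.sqrt p ≤ Real.sqrt Y := Real.sqrt_le_sqrt hpY
        have hlp := Stat_log_le p hp0
        have hσl : σ * Real.log p ≤ 1 := by
          have h5 : σ * Real.log p ≤ σ * (2 * Real.sqrt Y) :=
            mul_le_mul_of_nonneg_left (by linarith) hσ0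
          have h6 : σ * (2 * Real.sqrt Y) = κ / 25 := by
            rw [hσ]
            have : Real.sqrt Y ≠ 0 := by positivity
            field_simp
            norm_num
          linarith
        have hb : 5 * ((p : ℝ) ^ σ - 1) / Real.sqrt p ≤ 10 * σ * (Real.log p / Real.sqrt p) := by
          have h5 : (p : ℝ) ^ σ = Real.exp (σ * Real.log p) := by
            rw [Real.rpow_def_of_pos hp0]
            congr 1
            ring
          have hn : 0 ≤ σ * Real.log p := by positivity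
          have h6 := Real.abs_exp_sub_one_le (x := σ * Real.log p) (by rw [abs_of_nonneg hn]; exact hσl)
          have h7 : (p : ℝ) ^ σ - 1 ≤ 2 * (σ * Real.log p) := by
            rw [h5]
            have := (abs_le.mp h6).2
            rw [abs_of_nonneg hn] at this
            linarith
          have h8 : 10 * σ * (Real.log p / Real.sqrt p) = (10 * σ * Real.log p) / Real.sqrt p := by
            ring
          rw [h8]
          apply div_le_div_of_nonneg_right _ hsp.le
          linarith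
        have hdiv : Real.log p / Real.sqrt p ≤ 2 := by
          rw [div_le_iff₀ hsp]
          exact hlp
        have hdiv0 : 0 ≤ Real.log p / Real.sqrt p := div_nonneg hlogp0 hsp.le
        have hb2 : 10 * σ * (Real.log p / Real.sqrt p) ≤ 1 / 2 := by
          have : 10 * σ * (Real.log p / Real.sqrt p) ≤ 10 * (1 / 5000) * 2 := by
            apply mul_le_mul _ hdiv hdiv0 (by norm_num)
            linarith
          linarith
        obtain ⟨M, θ, h4, h5, h6, h7, h8⟩ := Stat_gen κ Y hκ0 p k r hp hk hr hst σ _ he hσ0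
          (by linarith) hb hb2
        refine ⟨M, θ, h4, h5, ?_, ?_, h8⟩
        · intro _ h9
          exfalso
          have h10 : Y ≤ Y ^ 4 := by
            have : Y ^ 1 ≤ Y ^ 4 := pow_le_pow_right₀ (by linarith) (by norm_num)
            simpa using this
          linarith
        · rw [if_neg h2, if_pos h3, if_pos hpY]
          linarith
      · -- large primes 3 mod 4
        have hbig : Y ^ 4 < (p : ℝ) := by
          by_contra hcon
          exact hst ⟨h3, not_le.mp hpY, not_lt.mp hcon⟩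
        have he : expo κ Y p = 1 / 8 := by
          unfold expo; rw [if_neg h2, if_neg (by intro h; exact hpY h.2)]
        have hYY : 0 < Y * Real.sqrt Y := by positivity
        have hkey : (p : ℝ) ^ (1 / 8 : ℝ) / Real.sqrt p ≤ 1 / (Y * Real.sqrt Y) := by
          have h5 : (p : ℝ) ^ (1 / 8 : ℝ) / Real.sqrt p = (p : ℝ) ^ (-(3 / 8 : ℝ)) := by
            rw [Real.sqrt_eq_rpow, ← Real.rpow_sub hp0]
            norm_num
          have h6 : (Y ^ 4) ^ (3 / 8 : ℝ) = Y * Real.sqrt Y := by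
            have h7 : (Y ^ 4 : ℝ) = Y ^ (4 : ℝ) := by
              rw [← Real.rpow_natCast]; norm_num
            rw [h7, ← Real.rpow_mul hY0.le, Real.sqrt_eq_rpow]
            have h8 : Y * Y ^ (1 / 2 : ℝ) = Y ^ (1 : ℝ) * Y ^ (1 / 2 : ℝ) := by
              rw [Real.rpow_one]
            rw [h8, ← Real.rpow_add hY0]
            norm_num
          rw [h5, Real.rpow_neg hp0.le, ← h6, one_div]
          apply inv_anti₀ (by positivity)
          exact Real.rpow_le_rpow (by positivity) hbig.le (by norm_num)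
        have hb : 5 * ((p : ℝ) ^ (1 / 8 : ℝ) - 1) / Real.sqrt p ≤ 5 / (Y * Real.sqrt Y) := by
          have h5 : 5 * ((p : ℝ) ^ (1 / 8 : ℝ) - 1) / Real.sqrt p ≤
              5 * ((p : ℝ) ^ (1 / 8 : ℝ) / Real.sqrt p) := by
            rw [mul_div_assoc]
            apply mul_le_mul_of_nonneg_left _ (by norm_num)
            apply div_le_div_of_nonneg_right _ hsp.le
            linarith
          have h6 : 5 / (Y * Real.sqrt Y) = 5 * (1 / (Y * Real.sqrt Y)) := by ring
          rw [h6]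
          linarith
        have hYY1 : (10 : ℝ) ^ 6 ≤ Y * Real.sqrt Y := by nlinarith
        have hb2 : 5 / (Y * Real.sqrt Y) ≤ 1 / 2 := by
          rw [div_le_iff₀ hYY]
          linarith
        obtain ⟨M, θ, h4, h5, h6, h7, h8⟩ := Stat_gen κ Y hκ0 p k r hp hk hr hst (1 / 8) _ he
          (by norm_num) (by norm_num) hb hb2
        refine ⟨M, θ, h4, h5, ?_, ?_, h8⟩
        · intro _ _
          refine h6.trans (Real.exp_le_exp.mpr ?_)
          have hJ : (1 : ℝ) ≤ (((k + 1) / 2 : ℕ) : ℝ) := by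
            have : 1 ≤ (k + 1) / 2 := by omega
            exact_mod_cast this
          have hlY : 1 ≤ Real.log Y := by
            rw [Real.le_log_iff_exp_le hY0]
            have := Real.exp_one_lt_d9
            norm_num at hY
            linarith
          have hlp : 4 * Real.log Y ≤ Real.log p := by
            have h9 : Real.log (Y ^ 4) ≤ Real.log p := Real.log_le_log (by positivity) hbig.le
            rw [Real.log_pow] at h9
            push_cast at h9
            exact h9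
          have h10 : 1 / 8 * Real.log p ≤ 1 / 8 * (((k + 1) / 2 : ℕ) : ℝ) * Real.log p := by
            have : 0 ≤ Real.log p := hlogp0
            nlinarith
          have h11 : 5 / (Y * Real.sqrt Y) ≤ 5 / 10 ^ 6 :=
            div_le_div_of_nonneg_left (by norm_num) (by norm_num) hYY1
          norm_num at h11
          nlinarith
        · rw [if_neg h2, if_pos h3, if_neg hpY]
          have h9 : 3 / 2 * (5 / (Y * Real.sqrt Y)) ≤ 8 / (Y * Real.sqrt Y) := by
            rw [← mul_div_assoc]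
            apply div_le_div_of_nonneg_right _ hYY.le
            norm_num
          linarith
    · -- primes 1 mod 4
      have h1 : p % 4 = 1 := by
        have hodd : p % 2 = 1 := by
          rcases hp.eq_two_or_odd with h | h
          · exact absurd h h2
          · exact h
        omega
      have he : expo κ Y p = 1 / 8 := by
        unfold expo; rw [if_neg h2, if_neg (by intro h; exact h3 h.1)]
      obtain ⟨M, h4, h5⟩ := local_real1 p k r hp h1 hk hr
      have h6 : ∑ e ∈ range (k + 1), ((ast κ Y p e : ℝ) : ℂ) * Dlt (p ^ e) r = (M : ℂ) := by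
        rw [← h5]
        apply Finset.sum_congr rfl
        intro e _
        rw [Stat_ast κ Y p e hst, he]
      refine ⟨M, 0, h4, ?_, ?_, ?_, ?_⟩
      · have h7 := Stat_norm κ Y hκ0 p k r hp hr
        rw [h6, Complex.norm_real, Real.norm_of_nonneg h4] at h7
        exact h7
      · intro h7
        exact absurd h7 h3
      · rw [if_neg h2, if_neg h3]
        simp
      · rw [h6]
        simp

/-- The static product. PROOF. Multiply `static_one`; the sum of the phases is
`≤ 4κ + 15 κ/(50 √Y) · 3 √Y + n 8 / Y^(3/2)` (`sum_log_sqrt_subset`), `n` the number of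
`p ∣ q`, `p ≡ 3 mod 4`, `p > Y^4`. -/
theorem static_prod (κ Y : ℝ) (hκ0 : 0 < κ) (hκ : κ ≤ 1 / 100) (hY : 10 ^ 6 ≤ Y) (q : ℕ)
    (hq : q ≠ 0) (rp : ℕ → ℚ) (hrp : ∀ p ∈ q.primeFactors, (rp p).den = p ^ (q.factorization p)) :
    ∃ (M θ : ℝ) (n : ℕ), 0 ≤ M ∧ M ≤ Real.exp (-(n * Real.log Y / 4)) ∧
      |θ| ≤ 5 * κ + n * (8 / (Y * Real.sqrt Y)) ∧
      ∏ p ∈ q.primeFactors.filter (fun p => ¬ isdyn Y p), ∑ e ∈ range (q.factorization p + 1),
        ((ast κ Y p e : ℝ) : ℂ) * Dlt (p ^ e) (rp p) = (M : ℂ) * Complex.exp (θ * Complex.I) := by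
  classical
  have hY0 : 0 < Y := by linarith
  have hsY : 0 < Real.sqrt Y := Real.sqrt_pos.mpr hY0
  have hYY : 0 < Y * Real.sqrt Y := by positivity
  set S := q.primeFactors.filter (fun p => ¬ isdyn Y p) with hS
  have hex : ∀ p, p ∈ S → ∃ M θ : ℝ, 0 ≤ M ∧ M ≤ 1 ∧
      (p % 4 = 3 → Y ^ 4 < (p : ℝ) → M ≤ Real.exp (-(Real.log Y / 4))) ∧
      |θ| ≤ (if p = 2 then 4 * κ else if p % 4 = 3 then (if (p : ℝ) ≤ Y then
        15 * (κ / (50 * Real.sqrt Y)) * (Real.log p / Real.sqrt p) else 8 / (Y * Real.sqrt Y)) else 0) ∧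
      ∑ e ∈ range (q.factorization p + 1), ((ast κ Y p e : ℝ) : ℂ) * Dlt (p ^ e) (rp p) =
        (M : ℂ) * Complex.exp (θ * Complex.I) := by
    intro p hpS
    rw [hS, mem_filter] at hpS
    obtain ⟨hpq, hst⟩ := hpS
    have hpp := Nat.prime_of_mem_primeFactors hpq
    have hk : 1 ≤ q.factorization p :=
      (Nat.Prime.dvd_iff_one_le_factorization hpp hq).mp (Nat.dvd_of_mem_primeFactors hpq)
    exact static_one κ Y hκ0 hκ hY p (q.factorization p) (rp p) hpp hk (hrp p hpq) hst
  choose! Mf θf h1 h2 h3 h4 h5 using hex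
  set B : Finset ℕ := S.filter (fun p : ℕ => p % 4 = 3 ∧ Y ^ 4 < (p : ℝ)) with hB
  refine ⟨∏ p ∈ S, Mf p, ∑ p ∈ S, θf p, B.card, ?_, ?_, ?_, ?_⟩
  · exact Finset.prod_nonneg (fun p hp => h1 p hp)
  · have h6 : ∏ p ∈ S, Mf p ≤ ∏ p ∈ S, (if p % 4 = 3 ∧ Y ^ 4 < (p : ℝ) then
        Real.exp (-(Real.log Y / 4)) else 1) := by
      apply Finset.prod_le_prod (fun p hp => h1 p hp)
      intro p hp
      split_ifs with hc
      · exact h3 p hp hc.1 hc.2
      · exact h2 p hp
    refine h6.trans (le_of_eq ?_)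
    rw [Finset.prod_ite, Finset.prod_const_one, mul_one, Finset.prod_const, ← hB,
      ← Real.exp_nat_mul]
    congr 1
    ring
  · have h6 : |∑ p ∈ S, θf p| ≤ ∑ p ∈ S, |θf p| := Finset.abs_sum_le_sum_abs _ _
    have h7 : ∀ p ∈ S, |θf p| ≤ (if p = 2 then 4 * κ else 0) +
        (if (p : ℝ) ≤ Y then 15 * (κ / (50 * Real.sqrt Y)) * (Real.log p / Real.sqrt p) else 0) +
        (if p % 4 = 3 ∧ Y ^ 4 < (p : ℝ) then 8 / (Y * Real.sqrt Y) else 0) := by
      intro p hp
      have h8 := h4 p hp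
      have hnn : 0 ≤ 15 * (κ / (50 * Real.sqrt Y)) * (Real.log p / Real.sqrt p) := by
        have := Real.log_natCast_nonneg p
        positivity
      have hA : 0 ≤ (if p = 2 then 4 * κ else 0) := by split_ifs <;> linarith
      have hBn : 0 ≤ (if (p : ℝ) ≤ Y then
          15 * (κ / (50 * Real.sqrt Y)) * (Real.log p / Real.sqrt p) else 0) := by
        split_ifs
        · exact hnn
        · exact le_refl _
      have hC : 0 ≤ (if p % 4 = 3 ∧ Y ^ 4 < (p : ℝ) then 8 / (Y * Real.sqrt Y) else 0) := by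
        split_ifs
        · positivity
        · exact le_refl _
      by_cases hp2 : p = 2
      · rw [if_pos hp2] at h8
        rw [if_pos hp2]
        linarith
      · rw [if_neg hp2] at h8
        by_cases hp3 : p % 4 = 3
        · rw [if_pos hp3] at h8
          by_cases hpY : (p : ℝ) ≤ Y
          · rw [if_pos hpY] at h8
            rw [if_pos hpY]
            linarith
          · rw [if_neg hpY] at h8
            have hbig : Y ^ 4 < (p : ℝ) := by
              by_contra hcon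
              exact (Finset.mem_filter.mp hp).2 ⟨hp3, not_le.mp hpY, not_lt.mp hcon⟩
            rw [if_pos (show p % 4 = 3 ∧ Y ^ 4 < (p : ℝ) from ⟨hp3, hbig⟩)]
            linarith
        · rw [if_neg hp3] at h8
          linarith
    have h8 := Finset.sum_le_sum h7
    rw [Finset.sum_add_distrib, Finset.sum_add_distrib] at h8
    have h9 : ∑ p ∈ S, (if p = 2 then 4 * κ else 0) ≤ 4 * κ := by
      rw [Finset.sum_ite_eq' S 2 (fun _ => 4 * κ)]
      split_ifs
      · exact le_refl _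
      · linarith
    have h10 : ∑ p ∈ S, (if (p : ℝ) ≤ Y then
        15 * (κ / (50 * Real.sqrt Y)) * (Real.log p / Real.sqrt p) else 0) ≤ κ := by
      rw [← Finset.sum_filter, ← Finset.mul_sum]
      have h11 := sum_log_sqrt_subset Y hY0.le (S.filter (fun p => (p : ℝ) ≤ Y)) (by
        intro p hp
        rw [mem_filter] at hp
        refine ⟨?_, hp.2⟩
        have hp1 := hp.1
        rw [hS, mem_filter] at hp1
        exact Nat.prime_of_mem_primeFactors hp1.1)
      have h12 : 0 ≤ 15 * (κ / (50 * Real.sqrt Y)) := by positivity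
      refine (mul_le_mul_of_nonneg_left h11 h12).trans ?_
      have h13 : 15 * (κ / (50 * Real.sqrt Y)) * (3 * Real.sqrt Y) = 0.9 * κ := by
        have : Real.sqrt Y ≠ 0 := hsY.ne'
        field_simp
        norm_num
      rw [h13]
      linarith
    have h14 : ∑ p ∈ S, (if p % 4 = 3 ∧ Y ^ 4 < (p : ℝ) then 8 / (Y * Real.sqrt Y) else 0) =
        B.card * (8 / (Y * Real.sqrt Y)) := by
      rw [← Finset.sum_filter, Finset.sum_const, nsmul_eq_mul, ← hB]
    rw [h14] at h8
    linarith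
  · rw [Finset.prod_congr rfl (fun p hp => h5 p hp), Finset.prod_mul_distrib, ← Complex.exp_sum]
    congr 1
    · push_cast
      rfl
    · congr 1
      push_cast
      rw [Finset.sum_mul]

end Pool.Agent.H.MP_b3c6db_nt
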