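import Pool.Agent.H.MP_b3c6db_nt.Trunc

/-! Truncation of the theta function with a short tail. -/

namespace Pool.Agent.H.MP_b3c6db_nt

open Finset

/-- As `Th_trunc` (Trunc.lean; copy its beginning), with the Gaussian tail kept:
`∑_{n > N} 2 e^{-π n²/M²} ≤ 2 ∑_{n ≥ N+1} e^{-π n (N+1)/M²}`, a geometric series with ratio
`e^{-π (N+1)/M²}`, `1 - e^{-v} ≥ v/(1+v)` (`v = π (N+1)/M²`), so it is at most
`2 e^{-π (N+1)²/M²} (1 + M²)`. -/
theorem Th_trunc2 (M x : ℝ) (hM : 0 < M) (N : ℕ) :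
    |(Th M x).re - ThN M N x| ≤ 2 * (1 + M ^ 2) * Real.exp (-(Real.pi * ((N : ℝ) + 1) ^ 2 / M ^ 2)) := by
  have h0 := Complex.hasSum_re (Th_hasSum M x hM)
  set f : ℤ → ℝ := fun n : ℤ => ((((Real.exp (-(Real.pi * (n : ℝ) ^ 2 / M ^ 2)) : ℝ) : ℂ) *
      ex ((n : ℝ) ^ 2 * x))).re with hf
  have hfn : ∀ n : ℤ, f n = Real.exp (-(Real.pi * (n : ℝ) ^ 2 / M ^ 2)) *
      Real.cos (2 * Real.pi * (n : ℝ) ^ 2 * x) := by
    intro n
    simp only [hf]
    rw [Complex.re_ofReal_mul, ex_re]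
    congr 2
    ring
  have h1 := HasSum.nat_add_neg h0
  have hf0 : f 0 = 1 := by
    rw [hfn]
    simp
  set g : ℕ → ℝ := fun n => f n + f (-(n : ℤ)) with hg
  have hgn : ∀ n : ℕ, g n = 2 * Real.exp (-(Real.pi * (n : ℝ) ^ 2 / M ^ 2)) *
      Real.cos (2 * Real.pi * (n : ℝ) ^ 2 * x) := by
    intro n
    simp only [hg, hfn]
    push_cast
    rw [neg_sq]
    ring
  have h2 : HasSum g ((Th M x).re + 1) := by
    have h3 : ((Th M x).re + 1) = (Th M x).re + f 0 := by rw [hf0]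
    rw [h3]
    exact h1
  have h4 := (hasSum_nat_add_iff' (N + 1)).mpr h2
  have h5 : (Th M x).re + 1 - ∑ i ∈ range (N + 1), g i = (Th M x).re - ThN M N x := by
    unfold ThN
    rw [Finset.sum_range_succ']
    have h6 : g 0 = 2 := by
      rw [hgn]
      simp
    rw [h6]
    have h7 : ∑ k ∈ Icc 1 N, 2 * Real.exp (-(Real.pi * (k : ℝ) ^ 2 / M ^ 2)) *
        Real.cos (2 * Real.pi * (k : ℝ) ^ 2 * x) = ∑ k ∈ range N, g (k + 1) := by
      rw [← sum_Icc_eq_range g N]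
      apply sum_congr rfl
      intro k _
      rw [hgn]
    rw [h7]
    ring
  rw [h5] at h4
  have hpi := Real.pi_gt_three
  have hM2 : 0 < M ^ 2 := by positivity
  have hN1 : (1 : ℝ) ≤ (N : ℝ) + 1 := by
    have : (0 : ℝ) ≤ N := Nat.cast_nonneg N
    linarith
  set v : ℝ := Real.pi * ((N : ℝ) + 1) / M ^ 2 with hv
  have hv0 : 0 < v := by positivity
  set q : ℝ := Real.exp (-v) with hq
  have hq0 : 0 < q := Real.exp_pos _
  have hqv : q * (1 + v) ≤ 1 := by
    have h8 := Real.add_one_le_exp v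
    have h9 : q * Real.exp v = 1 := by
      rw [hq, ← Real.exp_add]
      simp
    nlinarith
  have hq1 : q < 1 := by
    nlinarith [mul_pos hq0 hv0]
  have h10 := (hasSum_geometric_of_lt_one hq0.le hq1).mul_left (2 * q ^ (N + 1))
  have hqN : q ^ (N + 1) = Real.exp (-(Real.pi * ((N : ℝ) + 1) ^ 2 / M ^ 2)) := by
    rw [hq, ← Real.exp_nat_mul]
    congr 1
    push_cast
    rw [hv]
    field_simp
  have h11 : ∀ n : ℕ, ‖g (n + (N + 1))‖ ≤ 2 * q ^ (N + 1) * q ^ n := by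
    intro n
    rw [hgn, Real.norm_eq_abs, abs_mul, abs_of_nonneg (by positivity)]
    have h12 : |Real.cos (2 * Real.pi * (((n + (N + 1) : ℕ)) : ℝ) ^ 2 * x)| ≤ 1 :=
      Real.abs_cos_le_one _
    have h13 : Real.exp (-(Real.pi * (((n + (N + 1) : ℕ)) : ℝ) ^ 2 / M ^ 2)) ≤
        q ^ (N + 1) * q ^ n := by
      rw [← pow_add, hq, ← Real.exp_nat_mul]
      apply Real.exp_le_exp.mpr
      set m : ℝ := (((n + (N + 1) : ℕ)) : ℝ) with hm
      have hmN : ((N : ℝ) + 1) ≤ m := by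
        rw [hm]
        push_cast
        have : (0 : ℝ) ≤ n := Nat.cast_nonneg n
        linarith
      have h15 : (((N + 1 + n : ℕ)) : ℝ) = m := by
        rw [hm]
        push_cast
        ring
      rw [h15]
      have h14 : m * v ≤ Real.pi * m ^ 2 / M ^ 2 := by
        have h16 : Real.pi * m ^ 2 / M ^ 2 - m * v = Real.pi * m * (m - ((N : ℝ) + 1)) / M ^ 2 := by
          rw [hv]
          field_simp
        have h17 : 0 ≤ Real.pi * m * (m - ((N : ℝ) + 1)) / M ^ 2 := by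
          apply div_nonneg _ hM2.le
          apply mul_nonneg _ (by linarith)
          apply mul_nonneg (by linarith) (by linarith)
        linarith
      linarith
    calc _ ≤ 2 * (q ^ (N + 1) * q ^ n) * 1 := by gcongr
      _ = _ := by ring
  have h16 := HasSum.norm_le_of_bounded h4 h10 h11
  rw [Real.norm_eq_abs] at h16
  refine h16.trans ?_
  have h17 : (1 - q)⁻¹ ≤ 1 + M ^ 2 := by
    have h18 : 1 / v ≤ M ^ 2 := by
      rw [hv, one_div_div, div_le_iff₀ (by positivity)]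
      have : 1 ≤ Real.pi * ((N : ℝ) + 1) := by nlinarith
      nlinarith
    have h19 : (1 - q)⁻¹ ≤ 1 + 1 / v := by
      rw [inv_le_comm₀ (by linarith) (by positivity)]
      have h20 : (1 + 1 / v)⁻¹ = v / (1 + v) := by
        field_simp
        ring
      rw [h20, div_le_iff₀ (by linarith)]
      nlinarith
    linarith
  rw [← hqN]
  calc 2 * q ^ (N + 1) * (1 - q)⁻¹ ≤ 2 * q ^ (N + 1) * (1 + M ^ 2) := by gcongr
    _ = _ := by ring

end Pool.Agent.H.MP_b3c6db_nt
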