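import Pool.Agent.H.MP_b3c6db_nt.SB.Vdef
import Pool.Agent.H.MP_b3c6db_nt.SB.PoisLow

/-! Asymptotics of `V`. -/

namespace Pool.Agent.H.MP_b3c6db_nt

open Finset Filter

/-- the minimum of the constants of `pois_low` over the cells -/
lemma Vasy_c (κ : ℝ) (hκ0 : 0 < κ) (hκ1 : κ < 1) (ρ : ℕ → ℝ) (n : ℕ)
    (hρ : ∀ i ≤ n, 0 < ρ i ∧ ρ i < 1) :
    ∃ c : ℝ, 0 < c ∧ c ≤ κ / 8 ∧ c ≤ 1 / 8 ∧ ∀ᶠ L : ℝ in atTop, ∀ i < n, ∀ s : ℝ, 0 ≤ s →
      s ≤ (1 - κ) * (1 / (2 * fph (ρ (i + 1)))) * L → ∀ m : ℕ, fz (ρ (i + 1)) * L ≤ m →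
      Real.exp (-((1 / 2 - c) * L)) ≤ pois (m + 1) s := by
  induction n with
  | zero =>
    refine ⟨κ / 8, by positivity, le_rfl, by linarith, Eventually.of_forall fun L i hi => ?_⟩
    exact absurd hi (Nat.not_lt_zero i)
  | succ n ih =>
    obtain ⟨c, hc0, hc1, hc2, hc3⟩ := ih fun i hi => hρ i (by omega)
    obtain ⟨d, hd0, hd⟩ := pois_low (ρ (n + 1)) κ (hρ (n + 1) le_rfl).1 (hρ (n + 1) le_rfl).2 hκ0 hκ1
    refine ⟨min c d, lt_min hc0 hd0, (min_le_left _ _).trans hc1, (min_le_left _ _).trans hc2, ?_⟩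
    filter_upwards [hc3, hd, eventually_ge_atTop (0 : ℝ)] with L h1 h2 hL i hi s hs hs1 m hm
    rcases Nat.lt_succ_iff_lt_or_eq.1 hi with h | h
    · refine le_trans (Real.exp_le_exp.2 ?_) (h1 i h s hs hs1 m hm)
      have h3 := mul_le_mul_of_nonneg_right (min_le_left c d) hL
      linarith
    · subst h
      refine le_trans (Real.exp_le_exp.2 ?_) (h2 s hs hs1 m hm)
      have h3 := mul_le_mul_of_nonneg_right (min_le_right c d) hL
      linarith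

/-- the cell of a value -/
lemma Vasy_cell (W : ℕ → ℝ) (y x : ℝ) (n : ℕ) (h0 : x ≤ W 0 * y) (hn : W n * y < x) :
    ∃ i < n, W (i + 1) * y < x ∧ x ≤ W i * y := by
  induction n with
  | zero => exact absurd h0 (not_le.2 hn)
  | succ n ih =>
    by_cases h : W n * y < x
    · obtain ⟨i, hi, h1⟩ := ih h
      exact ⟨i, by omega, h1⟩
    · exact ⟨n, by omega, hn, not_lt.1 h⟩

/-- `ℓ / log ℓ → ∞` -/
lemma Vasy_top : Tendsto (fun ℓ : ℝ => ℓ / Real.log ℓ) atTop atTop := by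
  have h1 : Tendsto (fun ℓ : ℝ => Real.sqrt ℓ / 2) atTop atTop :=
    Real.tendsto_sqrt_atTop.atTop_div_const (by norm_num)
  refine tendsto_atTop_mono' _ ?_ h1
  filter_upwards [eventually_gt_atTop (1 : ℝ)] with ℓ hℓ
  have h2 : 0 < Real.log ℓ := Real.log_pos hℓ
  have h3 : Real.log ℓ = 2 * Real.log (Real.sqrt ℓ) := by
    rw [Real.log_sqrt (by linarith)]
    ring
  have h4 : Real.log (Real.sqrt ℓ) ≤ Real.sqrt ℓ - 1 :=
    Real.log_le_sub_one_of_pos (Real.sqrt_pos.2 (by linarith))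
  have h5 : Real.sqrt ℓ * Real.sqrt ℓ = ℓ := Real.mul_self_sqrt (by linarith)
  have h6 := Real.sqrt_nonneg ℓ
  rw [le_div_iff₀ h2, h3]
  nlinarith

/-- the deterministic part: thresholds at the dynamic primes -/
lemma Vasy_thr (κ e c : ℝ) (hκ0 : 0 < κ) (hκ1 : κ < 1) (he0 : 0 < e) (heκ : e ≤ κ)
    (hc0 : 0 < c) (hc1 : c ≤ κ / 8) (hc2 : c ≤ 1 / 8) (n : ℕ) (ρ : ℕ → ℝ)
    (hρ : ∀ i ≤ n, 0 < ρ i ∧ ρ i < 1) (hW0 : 8 - e ≤ fW (ρ 0))
    (y L T Y : ℝ) (hy : 0 < y) (hL : 4 ≤ L) (hT : T = (1 - κ) * Real.sqrt (2 * y) * L) (hY : 1 ≤ Y)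
    (hcell : ∀ i < n, ∀ s : ℝ, 0 ≤ s →
      s ≤ (1 - κ) * (1 / (2 * fph (ρ (i + 1)))) * L → ∀ m : ℕ, fz (ρ (i + 1)) * L ≤ m →
      Real.exp (-((1 / 2 - c) * L)) ≤ pois (m + 1) s)
    (p : ℕ) (hp : p.Prime) (hdyn : isdyn Y p) :
    Real.exp (-((1 / 2 - c) * L)) ≤ pois ((Vd n ρ y L T Y).factorization p + 1) (T / Real.sqrt p) := by
  obtain ⟨hp3, hpY, -⟩ := hdyn
  have hp0 : (0 : ℝ) < (p : ℝ) := Nat.cast_pos.2 hp.pos
  have hsp : 0 < Real.sqrt p := Real.sqrt_pos.2 hp0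
  have hL0 : 0 < L := by linarith
  have hT0 : 0 ≤ T := by
    rw [hT]
    have : 0 ≤ 1 - κ := by linarith
    positivity
  have hs0 : 0 ≤ T / Real.sqrt p := div_nonneg hT0 hsp.le
  have hY0 : 0 ≤ Y := by linarith
  rcases le_or_gt (p : ℝ) (fW (ρ n) * y) with hA | hA
  · -- low primes
    have hmem : p ∈ PI3 Y (fW (ρ n) * y) := (mem_PI3 hY0 p).2 ⟨hp, hp3, hpY, hA⟩
    have h1 := Vd_low n ρ hρ y L T Y hy hY p hmem
    have h2 : 2 * T / Real.sqrt p ≤ ((Vd n ρ y L T Y).factorization p : ℝ) :=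
      (Nat.le_ceil _).trans (Nat.cast_le.2 h1)
    have h3 := pois_markov ((Vd n ρ y L T Y).factorization p) (T / Real.sqrt p) hs0
    have h4 : T / Real.sqrt p / (((Vd n ρ y L T Y).factorization p : ℝ) + 1) ≤ 1 / 2 := by
      rw [div_le_iff₀ (by positivity)]
      have h5 : 2 * T / Real.sqrt p = 2 * (T / Real.sqrt p) := by ring
      rw [h5] at h2
      linarith
    have h6 : Real.exp (-((1 / 2 - c) * L)) ≤ 1 / 2 := by
      rw [Real.exp_neg, inv_eq_one_div]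
      refine one_div_le_one_div_of_le (by norm_num) ?_
      have h7 := Real.add_one_le_exp ((1 / 2 - c) * L)
      nlinarith
    linarith
  · rcases le_or_gt (p : ℝ) (fW (ρ 0) * y) with hB | hB
    · -- cells
      obtain ⟨i, hi, h1, h2⟩ := Vasy_cell (fun i => fW (ρ i)) y p n hB hA
      have hr := hρ (i + 1) (by omega)
      have hφ := fph_pos hr.1 hr.2
      have hW : 0 ≤ fW (ρ (i + 1)) * y := by
        unfold fW
        positivity
      have hmem : p ∈ PI3 (fW (ρ (i + 1)) * y) (fW (ρ i) * y) :=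
        (mem_PI3 hW p).2 ⟨hp, hp3, h1, h2⟩
      have h3 := Vd_cell n ρ hρ y L T Y hy hY i hi p hmem
      have h4 : fz (ρ (i + 1)) * L ≤ ((Vd n ρ y L T Y).factorization p : ℝ) :=
        (Nat.le_ceil _).trans (Nat.cast_le.2 h3)
      refine hcell i hi _ hs0 ?_ _ h4
      rw [div_le_iff₀ hsp, hT]
      have h5 : 2 * fph (ρ (i + 1)) * Real.sqrt (2 * y) ≤ Real.sqrt p := by
        have h6 : 2 * fph (ρ (i + 1)) * Real.sqrt (2 * y) =
            Real.sqrt ((2 * fph (ρ (i + 1))) ^ 2 * (2 * y)) := by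
          rw [Real.sqrt_mul (sq_nonneg _) (2 * y), Real.sqrt_sq (by positivity)]
        rw [h6]
        refine Real.sqrt_le_sqrt ?_
        have h7 : (2 * fph (ρ (i + 1))) ^ 2 * (2 * y) = fW (ρ (i + 1)) * y := by
          unfold fW
          ring
        rw [h7]
        exact h1.le
      have h8 : Real.sqrt (2 * y) ≤ 1 / (2 * fph (ρ (i + 1))) * Real.sqrt p := by
        rw [one_div, ← div_eq_inv_mul, le_div_iff₀ (by positivity), mul_comm]
        exact h5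
      have h9 : 0 ≤ (1 - κ) * L := mul_nonneg (by linarith) hL0.le
      have h10 := mul_le_mul_of_nonneg_left h8 h9
      calc (1 - κ) * Real.sqrt (2 * y) * L = (1 - κ) * L * Real.sqrt (2 * y) := by ring
        _ ≤ (1 - κ) * L * (1 / (2 * fph (ρ (i + 1))) * Real.sqrt p) := h10
        _ = (1 - κ) * (1 / (2 * fph (ρ (i + 1)))) * L * Real.sqrt p := by ring
    · -- high primes
      have h1 : pois (0 + 1) (T / Real.sqrt p) ≤
          pois ((Vd n ρ y L T Y).factorization p + 1) (T / Real.sqrt p) :=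
        pois_mono (by omega) hs0
      refine le_trans ?_ h1
      have h2 : pois (0 + 1) (T / Real.sqrt p) = Real.exp (-(T / Real.sqrt p)) := by
        unfold pois
        simp
      rw [h2]
      refine Real.exp_le_exp.2 ?_
      have h3 : T / Real.sqrt p ≤ (1 / 2 - κ / 8) * L := by
        rw [div_le_iff₀ hsp, hT]
        have h4 : (1 - κ) * Real.sqrt (2 * y) ≤ (1 / 2 - κ / 8) * Real.sqrt p := by
          have h5 : (1 - κ) * Real.sqrt (2 * y) = Real.sqrt ((1 - κ) ^ 2 * (2 * y)) := by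
            rw [Real.sqrt_mul (sq_nonneg _) (2 * y), Real.sqrt_sq (by linarith)]
          have h6 : (1 / 2 - κ / 8) * Real.sqrt p = Real.sqrt ((1 / 2 - κ / 8) ^ 2 * p) := by
            rw [Real.sqrt_mul (sq_nonneg _) (p : ℝ), Real.sqrt_sq (by linarith)]
          rw [h5, h6]
          refine Real.sqrt_le_sqrt ?_
          have h7 : (8 - κ) * y ≤ p := by
            have h8 := mul_le_mul_of_nonneg_right hW0 hy.le
            have h9 := mul_le_mul_of_nonneg_right heκ hy.le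
            linarith
          have h10 : (1 - κ) ^ 2 * 2 ≤ (1 / 2 - κ / 8) ^ 2 * (8 - κ) := by
            have e1 : (1 / 2 - κ / 8) ^ 2 * (8 - κ) - (1 - κ) ^ 2 * 2 =
                κ * (11 - 7 * κ - κ ^ 2 / 16) / 4 := by ring
            have e2 : 0 ≤ κ * (11 - 7 * κ - κ ^ 2 / 16) / 4 := by
              have e3 : κ ^ 2 ≤ 1 := by nlinarith
              have e4 : 0 ≤ 11 - 7 * κ - κ ^ 2 / 16 := by linarith
              positivity
            linarith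
          calc (1 - κ) ^ 2 * (2 * y) = (1 - κ) ^ 2 * 2 * y := by ring
            _ ≤ (1 / 2 - κ / 8) ^ 2 * (8 - κ) * y := mul_le_mul_of_nonneg_right h10 hy.le
            _ = (1 / 2 - κ / 8) ^ 2 * ((8 - κ) * y) := by ring
            _ ≤ (1 / 2 - κ / 8) ^ 2 * p := mul_le_mul_of_nonneg_left h7 (by positivity)
        calc (1 - κ) * Real.sqrt (2 * y) * L ≤ (1 / 2 - κ / 8) * Real.sqrt p * L :=
              mul_le_mul_of_nonneg_right h4 hL0.le
          _ = (1 / 2 - κ / 8) * L * Real.sqrt p := by ring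
      have h4 := mul_le_mul_of_nonneg_right hc1 hL0.le
      linarith

/-- the deterministic part: size of `V` -/
lemma Vasy_size (κ ε e : ℝ) (hκ0 : 0 < κ) (hκ1 : κ < 1) (he0 : 0 < e) (he1 : e ≤ 1)
    (heε : (1 + e) ^ 2 + 6 * Real.sqrt (2 * e) ≤ 1 + ε / 2) (n : ℕ) (ρ : ℕ → ℝ)
    (hρ : ∀ i ≤ n, 0 < ρ i ∧ ρ i < 1) (hρm : ∀ i < n, ρ i < ρ (i + 1))
    (hsum : ∑ i ∈ range n, 1 / 2 * fz (ρ (i + 1)) * (fW (ρ i) - fW (ρ (i + 1))) ≤ 1 + e)
    (hWn : fW (ρ n) ≤ e)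
    (ℓ y L T Y : ℝ) (hy : 0 < y) (hL : 4 ≤ L) (hℓ : y * L = ℓ) (hLε : 20 / ε ≤ L) (hε : 0 < ε)
    (hT : T = (1 - κ) * Real.sqrt (2 * y) * L) (hY : 1 ≤ Y)
    (hS : ∀ i < n, (∑ p ∈ PI3 (fW (ρ (i + 1)) * y) (fW (ρ i) * y), Real.log p) ≤
      (1 + e) * ((fW (ρ i) - fW (ρ (i + 1))) / 2) * y) :
    Real.log (Vd n ρ y L T Y) ≤ (1 + ε) * ℓ := by
  have hL0 : 0 < L := by linarith
  have hT0 : 0 ≤ T := by
    rw [hT]
    have : 0 ≤ 1 - κ := by linarith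
    positivity
  refine (log_Vd_le n ρ hρ hρm y L T Y hy hL0 hT0 hY).trans ?_
  have hz : ∀ i < n, 0 ≤ fz (ρ (i + 1)) := by
    intro i hi
    have hr := hρ (i + 1) (by omega)
    have := fph_pos hr.1 hr.2
    unfold fz
    have := hr.1
    positivity
  have h1 : ∑ i ∈ range n, (fz (ρ (i + 1)) * L + 1) *
      (∑ p ∈ PI3 (fW (ρ (i + 1)) * y) (fW (ρ i) * y), Real.log p) ≤
      ∑ i ∈ range n, (fz (ρ (i + 1)) * L + 1) *
        ((1 + e) * ((fW (ρ i) - fW (ρ (i + 1))) / 2) * y) := by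
    refine sum_le_sum fun i hi => ?_
    rw [mem_range] at hi
    refine mul_le_mul_of_nonneg_left (hS i hi) ?_
    have := mul_nonneg (hz i hi) hL0.le
    linarith
  have h2 : ∑ i ∈ range n, (fz (ρ (i + 1)) * L + 1) *
        ((1 + e) * ((fW (ρ i) - fW (ρ (i + 1))) / 2) * y) =
      (1 + e) * ℓ * (∑ i ∈ range n, 1 / 2 * fz (ρ (i + 1)) * (fW (ρ i) - fW (ρ (i + 1)))) +
      (1 + e) * y / 2 * (fW (ρ 0) - fW (ρ n)) := by
    rw [← sum_range_sub' (fun i => fW (ρ i)), mul_sum, mul_sum, ← sum_add_distrib]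
    refine sum_congr rfl fun i _ => ?_
    rw [← hℓ]
    ring
  have hℓ0 : 0 < ℓ := by rw [← hℓ]; positivity
  have h3 : (1 + e) * ℓ *
      (∑ i ∈ range n, 1 / 2 * fz (ρ (i + 1)) * (fW (ρ i) - fW (ρ (i + 1)))) ≤
      (1 + e) * ℓ * (1 + e) := mul_le_mul_of_nonneg_left hsum (by positivity)
  have hW0 : fW (ρ 0) ≤ 8 := by
    have hr := hρ 0 (Nat.zero_le n)
    have e1 := fph_lt_one hr.1 hr.2
    have e2 := fph_pos hr.1 hr.2
    unfold fW
    nlinarith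
  have hWn0 : 0 ≤ fW (ρ n) := by
    unfold fW
    positivity
  have h4 : (1 + e) * y / 2 * (fW (ρ 0) - fW (ρ n)) ≤ 8 * y := by
    have e1 : (1 + e) * y / 2 ≤ y := by nlinarith
    have e2 : fW (ρ 0) - fW (ρ n) ≤ 8 := by linarith
    have e3 : 0 ≤ (1 + e) * y / 2 := by positivity
    calc (1 + e) * y / 2 * (fW (ρ 0) - fW (ρ n)) ≤ (1 + e) * y / 2 * 8 :=
          mul_le_mul_of_nonneg_left e2 e3
      _ ≤ y * 8 := mul_le_mul_of_nonneg_right e1 (by norm_num)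
      _ = 8 * y := by ring
  have h5 : 6 * T * Real.sqrt (fW (ρ n) * y) ≤ 6 * Real.sqrt (2 * e) * ℓ := by
    have e1 : Real.sqrt (fW (ρ n) * y) ≤ Real.sqrt (e * y) :=
      Real.sqrt_le_sqrt (mul_le_mul_of_nonneg_right hWn hy.le)
    have e2 : T ≤ Real.sqrt (2 * y) * L := by
      rw [hT, mul_assoc]
      refine mul_le_of_le_one_left (by positivity) (by linarith)
    have e3 : Real.sqrt (2 * y) * Real.sqrt (e * y) = Real.sqrt (2 * e) * y := by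
      rw [← Real.sqrt_mul (by positivity)]
      have e4 : 2 * y * (e * y) = 2 * e * y ^ 2 := by ring
      rw [e4, Real.sqrt_mul (by positivity), Real.sqrt_sq hy.le]
    calc 6 * T * Real.sqrt (fW (ρ n) * y) ≤ 6 * (Real.sqrt (2 * y) * L) * Real.sqrt (e * y) := by
          refine mul_le_mul (mul_le_mul_of_nonneg_left e2 (by norm_num)) e1
            (Real.sqrt_nonneg _) (by positivity)
      _ = 6 * (Real.sqrt (2 * y) * Real.sqrt (e * y)) * L := by ring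
      _ = 6 * Real.sqrt (2 * e) * (y * L) := by rw [e3]; ring
      _ = 6 * Real.sqrt (2 * e) * ℓ := by rw [hℓ]
  have h6 : 2 * (fW (ρ n) * y) ≤ 2 * y := by
    have : fW (ρ n) ≤ 1 := hWn.trans he1
    nlinarith
  have h7 : 10 * y ≤ ε / 2 * ℓ := by
    rw [div_le_iff₀ hε] at hLε
    rw [← hℓ]
    nlinarith
  have h8 := mul_le_mul_of_nonneg_right heε hℓ0.le
  rw [h2] at h1
  nlinarith

/-- PROOF. `riemann_upper` with a small `ε'` (`ε' ≤ κ`, `(1+ε')² + 6 √(2 ε') + ε' ≤ 1 + ε`) gives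
`n, ρ`. Write `L = log ℓ`, `y = ℓ/L`, `T = (1-κ) √(2y) L`, `Y = √ℓ`.
Size: `log_Vd_le` and `PI3_asymp` in each cell (`y → ∞`):
`log V ≤ ∑ (z_{i+1} L + 1)(1+ε')(W_i - W_{i+1}) y/2 + 6 T √(ε' y) + 2 ε' y ≤ ℓ ((1+ε')² + 6 √(2ε')) + O(y)`.
Thresholds, `p` dynamic, `s = T/√p`, three cases. (a) `p ≤ W(ρ n) y`: `Vd_low`, `pois_markov`:
`pois ≥ 1 - s/(⌈2s⌉+1) ≥ 1/2`. (b) `p` in cell `i`: `s ≤ T/√(W(ρ (i+1)) y) = (1-κ) L/(2 φ(ρ (i+1)))`,
`pois_low` with `r = ρ (i+1)` (constant `c_i`), `Vd_cell`, `pois_mono`. (c) `p > W(ρ 0) y ≥ (8-ε') y`: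
`pois 1 s = e^{-s}`, `s ≤ (1-κ) √(2/(8-ε')) L ≤ (1/2 - κ/8) L`. Take `c = min` of the `c_i`, `κ/8`, `1/8`. -/
theorem Vd_asymp (κ ε : ℝ) (hκ0 : 0 < κ) (hκ1 : κ < 1) (hε : 0 < ε) :
    ∃ (n : ℕ) (ρ : ℕ → ℝ) (c : ℝ), 0 < c ∧ c ≤ 1 / 8 ∧
      ∀ᶠ ℓ : ℝ in atTop, ∀ L y T Y : ℝ, L = Real.log ℓ → y = ℓ / L →
        T = (1 - κ) * Real.sqrt (2 * y) * L → Y = Real.sqrt ℓ →
        Vd n ρ y L T Y ≠ 0 ∧ (∀ p, p.Prime → p ∣ Vd n ρ y L T Y → isdyn Y p) ∧
        Real.log (Vd n ρ y L T Y) ≤ (1 + ε) * ℓ ∧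
        ∀ p, p.Prime → isdyn Y p →
          Real.exp (-((1 / 2 - c) * L)) ≤ pois ((Vd n ρ y L T Y).factorization p + 1) (T / Real.sqrt p) := by
  obtain ⟨e, he⟩ : ∃ e, e = min (min κ 1) (min (ε ^ 2 / 1152) (ε / 12)) := ⟨_, rfl⟩
  have he0 : 0 < e := by
    rw [he]
    refine lt_min (lt_min hκ0 one_pos) (lt_min (by positivity) (by positivity))
  have heκ : e ≤ κ := by
    rw [he]
    exact (min_le_left _ _).trans (min_le_left _ _)
  have he1 : e ≤ 1 := by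
    rw [he]
    exact (min_le_left _ _).trans (min_le_right _ _)
  have he2 : e ≤ ε ^ 2 / 1152 := by
    rw [he]
    exact (min_le_right _ _).trans (min_le_left _ _)
  have he3 : e ≤ ε / 12 := by
    rw [he]
    exact (min_le_right _ _).trans (min_le_right _ _)
  have heε : (1 + e) ^ 2 + 6 * Real.sqrt (2 * e) ≤ 1 + ε / 2 := by
    have h1 : Real.sqrt (2 * e) ≤ ε / 24 := by
      have h2 : Real.sqrt (2 * e) ≤ Real.sqrt ((ε / 24) ^ 2) := by
        refine Real.sqrt_le_sqrt ?_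
        have h3 : (ε / 24) ^ 2 = 2 * (ε ^ 2 / 1152) := by ring
        rw [h3]
        linarith
      rwa [Real.sqrt_sq (by positivity)] at h2
    nlinarith
  obtain ⟨n, ρ, hn, hρ, hρm, hsum, -, hW0, hWn⟩ := riemann_upper he0
  obtain ⟨c, hc0, hc1, hc2, hc3⟩ := Vasy_c κ hκ0 hκ1 ρ n hρ
  have hWn0 : 0 < fW (ρ n) := by
    have hr := hρ n le_rfl
    have := fph_pos hr.1 hr.2
    unfold fW
    positivity
  have hS : ∀ᶠ y : ℝ in atTop, ∀ i ∈ range n,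
      (∑ p ∈ PI3 (fW (ρ (i + 1)) * y) (fW (ρ i) * y), Real.log p) ≤
        (1 + e) * ((fW (ρ i) - fW (ρ (i + 1))) / 2) * y := by
    rw [Filter.eventually_all_finset]
    intro i hi
    rw [mem_range] at hi
    have hr := hρ i hi.le
    have hr' := hρ (i + 1) (by omega)
    have h1 := fW_anti hr.1 (hρm i hi) hr'.2
    have h2 : 0 ≤ fW (ρ (i + 1)) := by
      unfold fW
      positivity
    have h3 := PI3_asymp h2 h1
    have h4 : (fW (ρ i) - fW (ρ (i + 1))) / 2 < (1 + e) * ((fW (ρ i) - fW (ρ (i + 1))) / 2) := by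
      have : 0 < (fW (ρ i) - fW (ρ (i + 1))) / 2 := by linarith
      nlinarith
    filter_upwards [h3.eventually_lt_const h4, eventually_gt_atTop (0 : ℝ)] with y h5 h6
    rw [div_lt_iff₀ h6] at h5
    exact h5.le
  have hlog : ∀ᶠ ℓ : ℝ in atTop, Real.log ℓ ≤ fW (ρ n) * Real.sqrt ℓ := by
    have h1 := (isLittleO_log_rpow_atTop (show (0 : ℝ) < 1 / 2 by norm_num)).bound hWn0
    filter_upwards [h1, eventually_gt_atTop (1 : ℝ)] with ℓ h2 h3
    rw [← Real.sqrt_eq_rpow, Real.norm_of_nonneg (Real.log_nonneg h3.le),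
      Real.norm_of_nonneg (Real.sqrt_nonneg _)] at h2
    exact h2
  refine ⟨n, ρ, c, hc0, hc2, ?_⟩
  filter_upwards [Real.tendsto_log_atTop.eventually hc3, Vasy_top.eventually hS, hlog,
    Real.tendsto_log_atTop.eventually (eventually_ge_atTop (4 : ℝ)),
    Real.tendsto_log_atTop.eventually (eventually_ge_atTop (20 / ε)),
    eventually_ge_atTop (8 : ℝ)] with ℓ h1 h2 h3 h4 h5 h6
  intro L y T Y hL hy hT hY
  rw [← hL] at h1 h3 h4 h5
  rw [← hL, ← hy] at h2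
  have hL0 : 0 < L := by linarith
  have hℓ0 : 0 < ℓ := by linarith
  have hy0 : 0 < y := by
    rw [hy]
    positivity
  have hyL : y * L = ℓ := by
    rw [hy]
    field_simp
  have hsq : Real.sqrt ℓ * Real.sqrt ℓ = ℓ := Real.mul_self_sqrt hℓ0.le
  have hY1 : 1 ≤ Y := by
    rw [hY]
    exact Real.one_le_sqrt.2 (by linarith)
  have hYW : Y ≤ fW (ρ n) * y := by
    rw [hY, hy, ← mul_div_assoc, le_div_iff₀ hL0]
    have h7 := mul_le_mul_of_nonneg_left h3 (Real.sqrt_nonneg ℓ)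
    calc Real.sqrt ℓ * L ≤ Real.sqrt ℓ * (fW (ρ n) * Real.sqrt ℓ) := h7
      _ = fW (ρ n) * (Real.sqrt ℓ * Real.sqrt ℓ) := by ring
      _ = fW (ρ n) * ℓ := by rw [hsq]
  have hY4 : 8 * y ≤ Y ^ 4 := by
    have e1 : Y ^ 4 = ℓ ^ 2 := by
      rw [hY]
      calc Real.sqrt ℓ ^ 4 = (Real.sqrt ℓ * Real.sqrt ℓ) ^ 2 := by ring
        _ = ℓ ^ 2 := by rw [hsq]
    rw [e1]
    have e2 : y ≤ ℓ := by nlinarith
    nlinarith
  refine ⟨Vd_ne_zero n ρ hρ y L T Y hy0 hY1, fun p hp hpV =>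
    Vd_primes n ρ hρ hρm y L T Y hy0 hY1 hYW hY4 p hp hpV, ?_, ?_⟩
  · exact Vasy_size κ ε e hκ0 hκ1 he0 he1 heε n ρ hρ hρm hsum hWn ℓ y L T Y hy0 h4 hyL h5 hε hT hY1
      fun i hi => h2 i (mem_range.2 hi)
  · intro p hp hdyn
    exact Vasy_thr κ e c hκ0 hκ1 he0 heκ hc0 hc1 hc2 n ρ hρ hW0 y L T Y hy0 h4 hT hY1 h1 p hp hdyn

end Pool.Agent.H.MP_b3c6db_nt
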