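import Pool.Agent.H.MP_b3c6db_nt.SB.Par2
import Pool.Agent.H.MP_b3c6db_nt.SB.Par3
import Pool.Agent.H.MP_b3c6db_nt.SB.Vasy
import Pool.Agent.H.MP_b3c6db_nt.SB.LocVS

/-! The sharp upper bound. -/

namespace Pool.Agent.H.MP_b3c6db_nt

open Finset Filter

lemma UpS_pl0 (κ : ℝ) (hκ : κ < 1) : Tendsto (fun l : ℝ => pl0 κ l) atTop atTop := by
  unfold pl0
  refine Tendsto.const_mul_atTop ?_ tendsto_id
  have : 0 < 1 - κ := by linarith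
  positivity

/-- everything at one value of `H` -/
lemma UpS_one (κ : ℝ) (hκ0 : 0 < κ) (hκ : κ ≤ 1 / 2000) (c : ℝ)
    (l : ℝ) (H V : ℕ) (hHl : Real.log H = l) (hH1 : 1 ≤ H)
    (hV0 : V ≠ 0) (hVd : ∀ p, p.Prime → p ∣ V → isdyn (pY κ l) p)
    (hVl : Real.log V ≤ (1 + κ / 4) * pl0 κ l)
    (hpois : ∀ p, p.Prime → isdyn (pY κ l) p →
      Real.exp (-((1 / 2 - c) * pL κ l)) ≤ pois (V.factorization p + 1) (pT κ l / Real.sqrt p))
    (pj : 1 / psg κ + 2 ≤ (pJ κ l : ℝ) ∧ 1 ≤ pJ κ l ∧ 1 ≤ pB κ l ∧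
      (pJ κ l : ℝ) ≤ κ * l / 100 + 1 ∧ κ * l / 100 ≤ (pJ κ l : ℝ))
    (psize : ∀ V : ℕ, V ≠ 0 → Real.log V ≤ (1 + κ / 4) * pl0 κ l →
      pB κ l ^ 2 * (V * pR κ l) * Real.exp (pJ κ l) ≤ pX κ l)
    (psep : ∀ V : ℕ, V ≠ 0 → Real.log V ≤ (1 + κ / 4) * pl0 κ l →
      2 * pB κ l ^ 3 * (V * pR κ l ^ 2) ^ 2 < pX κ l ^ 2)
    (pcard : ∀ V : ℕ, V ≠ 0 → Real.log V ≤ (1 + κ / 4) * pl0 κ l →
      Real.exp (Real.log V / Real.log (pY κ l)) * pR κ l ≤ Real.exp (2 * peta κ * l))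
    (pden : ∀ V : ℕ, V ≠ 0 → Real.log V ≤ (1 + κ / 4) * pl0 κ l →
      ∀ q : ℕ, 0 < q → (q : ℝ) ≤ pB κ l * (V * pR κ l) ^ 2 → Real.log q ≤ 4 * l)
    (pbasic : 10 ^ 6 ≤ pY κ l ∧ 1 ≤ 20 * κ * Real.sqrt (pY κ l) ∧
      3 ≤ pT κ l ∧ 3 ≤ l ∧ 1 ≤ pR κ l ∧ 0 < pX κ l ∧ 1 ≤ pL κ l)
    (perr : ∀ V H : ℕ, V ≠ 0 → Real.log V ≤ (1 + κ / 4) * pl0 κ l →
      1 ≤ H → Real.log H = l → ∀ card : ℝ, 0 ≤ card → card ≤ Real.exp (2 * peta κ * l) →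
      2 * card ^ 2 * (errC (psg κ) (pJ κ l) (pX κ l) (pB κ l) (V * pR κ l) + errT (pJ κ l) (pX κ l) H) ≤
        Real.exp (-(peta κ * l)))
    (pconst : ∀ V : ℕ, V ≠ 0 → Real.log V ≤ (1 + κ / 4) * pl0 κ l →
      ∀ card : ℝ, 0 ≤ card → card ≤ Real.exp (2 * peta κ * l) →
      2 * card ^ 2 * (pJ κ l * (V * pR κ l * Real.exp (pJ κ l) / pX κ l)) ≤
        Real.exp (-(peta κ * l)))
    (prho : 0 ≤ prh κ c l ∧ prh κ c l ≤ κ / (50 * Real.sqrt (pY κ l)) ∧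
      ∀ p : ℕ, p.Prime → isdyn (pY κ l) p → ∀ w : ℝ, Real.exp (-((1 / 2 - c) * pL κ l)) ≤ w →
        prh κ c l * Real.log p ≤ κ * w)
    (pLb : ∀ lq : ℝ, lq ≤ 4 * l →
      (pJ κ l : ℝ) * (2 * Real.exp (-(cc κ * pT κ l)) +
        4 * pT κ l * Real.exp (-(κ * (pY κ l * Real.sqrt (pY κ l)) * Real.log (pY κ l) / 4)) +
        2 * pR κ l ^ (-(prh κ c l)) * Real.exp (20 * Real.sqrt l + 10 * (lq / (Real.sqrt l * Real.log l)))) ≤
        Real.exp (-((1 - κ) * cc κ * pT κ l)) / 8)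
    (plin : Real.exp (-(peta κ * l)) ≤ Real.exp (-((1 - κ) * cc κ * pT κ l)) / 8) :
    delta H ≤ Real.exp (-((1 - κ) * cc κ * pT κ l)) := by
  obtain ⟨hJ1, hJ2, hB, -, -⟩ := pj
  obtain ⟨hY6, hκY, hT3, hl3, hR, hX, hL1⟩ := pbasic
  obtain ⟨hρ0, hρ1, hρ⟩ := prho
  have hT0 : 0 ≤ pT κ l := by linarith
  have hY1 : (1 : ℝ) < pY κ l := by
    have : (1 : ℝ) < 10 ^ 6 := by norm_num
    linarith
  have hσ0 : 0 < psg κ := by
    unfold psg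
    positivity
  have hV1 : (1 : ℝ) ≤ V := by
    exact_mod_cast Nat.one_le_iff_ne_zero.2 hV0
  have hD1 : (1 : ℝ) ≤ V * pR κ l := by nlinarith
  have hcc : 1 ≤ cc κ := Wt_cc_ge hκ
  have hE1 : Real.exp (-((1 - κ) * cc κ * pT κ l)) ≤ 1 := by
    rw [Real.exp_le_one_iff]
    have h1 : 0 ≤ 1 - κ := by linarith
    have h2 : 0 ≤ (1 - κ) * cc κ * pT κ l := by positivity
    linarith
  -- the number of elements
  have hcard : ((VV V (pR κ l)).card : ℝ) ≤ Real.exp (2 * peta κ * l) := by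
    refine (card_VV hV0 hR).trans (le_trans ?_ (pcard V hV0 hVl))
    refine mul_le_mul_of_nonneg_right ?_ (by linarith)
    exact card_divisors_le hV0 hY1 (fun p hp hpV => (hVd p hp hpV).2.1)
  have hcard0 : (0 : ℝ) ≤ ((VV V (pR κ l)).card : ℝ) := Nat.cast_nonneg _
  have herr := perr V H hV0 hVl hH1 hHl _ hcard0 hcard
  have hcon := pconst V hV0 hVl _ hcard0 hcard
  have hmain := delta_sharp (VV V (pR κ l)) (VV_closed hV0 hR)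
    (fun v hv => ((mem_VV hV0 hR v).1 hv).1) (one_mem_VV hV0 hR)
    (hh κ (pY κ l) (pT κ l)) (hh_nonneg κ _ _ hκ0.le hκ hT0)
    (hh_le_two κ _ _ hκ0.le hκ (by linarith) hT0) (hh_one κ _ _ hκ0.le hκ hT3)
    (psg κ) hσ0.le (pJ κ l) hJ2 (pX κ l) (pB κ l) (V * pR κ l)
    (Real.exp (-((1 - κ) * cc κ * pT κ l)) / 8) hX hB
    (fun d hd => VV_le hV0 hR d hd) hD1 (psize V hV0 hVl)
    (by
      intro d₁ h1 d₂ h2
      obtain ⟨Lm, e1, e2, e3, e4⟩ := VV_lcm hV0 hR d₁ d₂ h1 h2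
      refine ⟨Lm, e1, e2, e3, lt_of_le_of_lt ?_ (psep V hV0 hVl)⟩
      have h3 : (Lm : ℝ) ^ 2 ≤ (V * pR κ l ^ 2) ^ 2 := pow_le_pow_left₀ (Nat.cast_nonneg _) e4 2
      exact mul_le_mul_of_nonneg_left h3 (by positivity))
    (by positivity)
    (by
      intro r hr u hu
      have hlq := pden V hV0 hVl r.den r.den_pos hr
      have h1 := pLb _ hlq
      have h2 := local_VS κ (pY κ l) (pT κ l) (prh κ c l) V (pR κ l) hκ0 hκ hY6 hκY hT0 hV0 hVd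
        hρ0 hρ1 (fun p hp hd => hρ p hp hd _ (hpois p hp hd)) hR (psg κ) hσ0
        (by unfold psg; linarith) (pJ κ l) hJ1 u hu r l hl3
      linarith)
    H
    (by
      have : Real.exp (-((1 - κ) * cc κ * pT κ l)) / 8 ≤ 1 / 2 := by linarith
      linarith)
  have hE0 := Real.exp_pos (-((1 - κ) * cc κ * pT κ l))
  linarith

/-- PROOF. `κ = min ε 1/2000`, `l = log H`; `Vd_asymp` with `κ` and `κ/4` at `ℓ = pl0 κ l` gives
`V`; `VS = VV V R`, `D = V R`, `card ≤ exp (log V/log Y) R` (`card_VV`, `card_divisors_le`),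
`h = hh κ Y T`. `delta_sharp` with `Lb = exp (-(1-κ) cc κ T)/8`: its `hloc` from `local_VS` with
`Q = l` and `par_Lb` (`par_den`), `hsep` from `VV_lcm` and `par_sep`, `hdX` from `par_size`, `hsm`
from `par_err`. So `δ(H) ≤ 2 (e^{-ηl} + Lb + e^{-ηl}) ≤ exp (-(1-κ) cc κ T)` (`par_lin`), `par_final`. -/
theorem upper_sharp (ε : ℝ) (hε : 0 < ε) : ∀ᶠ H : ℕ in atTop,
    delta H ≤ Real.exp (-((1 - ε) * (Real.pi / Real.sqrt 2) *
      Real.sqrt (Real.log H * Real.log (Real.log H)))) := by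
  obtain ⟨e, he⟩ : ∃ e : ℝ, e = min ε 1 := ⟨_, rfl⟩
  have he0 : 0 < e := by rw [he]; exact lt_min hε one_pos
  have he1 : e ≤ 1 := by rw [he]; exact min_le_right _ _
  have heε : e ≤ ε := by rw [he]; exact min_le_left _ _
  have hκ0 : 0 < e / 2000 := by positivity
  have hκ : e / 2000 ≤ 1 / 2000 := by linarith
  obtain ⟨n, ρ, c, hc0, hc, hVas⟩ := Vd_asymp (e / 2000) (e / 2000 / 4) hκ0 (by linarith)
    (by positivity)
  have hlog : Tendsto (fun H : ℕ => Real.log (H : ℝ)) atTop atTop :=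
    Real.tendsto_log_atTop.comp tendsto_natCast_atTop_atTop
  have hall : ∀ᶠ l : ℝ in atTop, ∀ H : ℕ, 1 ≤ H → Real.log H = l →
      delta H ≤ Real.exp (-((1 - e / 2000) * cc (e / 2000) * pT (e / 2000) l)) := by
    filter_upwards [(UpS_pl0 (e / 2000) (by linarith)).eventually hVas, par_J _ hκ0 hκ,
      par_size _ hκ0 hκ, par_sep _ hκ0 hκ, par_card _ hκ0 hκ, par_den _ hκ0 hκ, par_basic _ hκ0 hκ,
      par_err _ hκ0 hκ, par_const _ hκ0 hκ, par_rho _ hκ0 hκ c hc0 hc, par_Lb _ hκ0 hκ c hc0 hc,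
      par_lin _ hκ0 hκ] with l a1 a2 a3 a4 a5 a6 a7 a8 a9 a10 a11 a12 H hH1 hHl
    obtain ⟨b1, b2, b3, b4⟩ := a1 (pL (e / 2000) l) (py (e / 2000) l) (pT (e / 2000) l)
      (pY (e / 2000) l) rfl rfl rfl rfl
    exact UpS_one (e / 2000) hκ0 hκ c l H _ hHl hH1 b1 b2 b3 b4 a2 a3 a4 a5 a6 a7 a8 a9 a10 a11 a12
  filter_upwards [hlog.eventually hall, hlog.eventually (par_final e he0 he1),
    eventually_ge_atTop 1] with H h1 h2 h3
  refine (h1 H h3 rfl).trans (Real.exp_le_exp.2 (neg_le_neg ?_))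
  refine le_trans ?_ h2
  refine mul_le_mul_of_nonneg_right ?_ (Real.sqrt_nonneg _)
  refine mul_le_mul_of_nonneg_right ?_ (by positivity)
  linarith

end Pool.Agent.H.MP_b3c6db_nt
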