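import Pool.Agent.H.MP_b3c6db_nt.PrimeSums
import Pool.Agent.H.MP_b3c6db_nt.SB.Wt
import Pool.Agent.H.MP_b3c6db_nt.SA.Part
import Pool.Agent.H.MP_b3c6db_nt.SA.ThetaAP

/-! The integer `V`. -/

namespace Pool.Agent.H.MP_b3c6db_nt

open Finset

lemma Vdef_pois_zero (m : ℕ) : pois (m + 1) 0 = 1 := by
  unfold pois
  rw [sum_range_succ']
  simp

lemma Vdef_prime {x y : ℝ} {p : ℕ} (hp : p ∈ PI3 x y) : p.Prime := by
  unfold PI3 at hp
  rw [mem_filter] at hp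
  exact hp.2.1

/-- Markov: `P(N ≤ m) ≥ 1 - s/(m+1)`. PROOF: `G s = s (1 - pois m s) - (m+1) (1 - pois (m+1) s)` has
`G 0 = 0` (`pois (m+1) 0 = 1`, and the first term vanishes) and `G' s = 1 - pois (m+1) s ≥ 0`
(use `hasDerivAt_pois`, for `m = 0` separately), so `(m+1)(1 - pois (m+1) s) ≤ s`. -/
lemma pois_markov (m : ℕ) (s : ℝ) (hs : 0 ≤ s) : 1 - s / (m + 1) ≤ pois (m + 1) s := by
  rcases m with _ | j
  · have h1 : pois (0 + 1) s = Real.exp (-s) := by simp [pois]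
    rw [h1]
    have h2 := Real.add_one_le_exp (-s)
    push_cast
    linarith
  · set G : ℝ → ℝ := fun s => s * (1 - pois (j + 1) s) - ((j : ℝ) + 2) * (1 - pois (j + 1 + 1) s)
      with hG
    have hd : ∀ x : ℝ, HasDerivAt G (1 - pois (j + 1 + 1) x) x := by
      intro x
      have h1 := hasDerivAt_pois j x
      have h2 := hasDerivAt_pois (j + 1) x
      have h3 := ((hasDerivAt_id x).mul (h1.const_sub 1)).sub
        ((h2.const_sub 1).const_mul ((j : ℝ) + 2))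
      refine h3.congr_deriv ?_
      rw [pois_succ (j + 1) x]
      have h4 : ((j + 1).factorial : ℝ) = ((j : ℝ) + 1) * (j.factorial : ℝ) := by
        rw [Nat.factorial_succ]; push_cast; ring
      have h5 : (j.factorial : ℝ) ≠ 0 := by positivity
      have h6 : (j : ℝ) + 1 ≠ 0 := by positivity
      rw [h4, id]
      field_simp
      ring
    have hm : MonotoneOn G (Set.Ici 0) := by
      refine monotoneOn_of_deriv_nonneg (convex_Ici 0)
        (fun x _ => (hd x).continuousAt.continuousWithinAt)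
        (fun x _ => (hd x).differentiableAt.differentiableWithinAt) ?_
      intro x hx
      rw [interior_Ici] at hx
      rw [(hd x).deriv]
      have := pois_le_one (j + 1 + 1) (le_of_lt (Set.mem_Ioi.1 hx))
      linarith
    have h0 := hm (Set.mem_Ici.2 le_rfl) (Set.mem_Ici.2 hs) hs
    have hG0 : G 0 = 0 := by
      simp only [hG, Vdef_pois_zero]
      ring
    rw [hG0] at h0
    have h1 : (0 : ℝ) ≤ s * (1 - pois (j + 1) s) - ((j : ℝ) + 2) * (1 - pois (j + 1 + 1) s) := h0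
    have h2 : s * (1 - pois (j + 1) s) ≤ s := by
      have := mul_nonneg hs (pois_nonneg (j + 1) hs)
      linarith
    have h3 : ((j : ℝ) + 2) * (1 - pois (j + 1 + 1) s) ≤ s := by linarith
    have h4 : (((j + 1 : ℕ) : ℝ) + 1) = (j : ℝ) + 2 := by push_cast; ring
    rw [h4]
    have h5 : (0 : ℝ) < (j : ℝ) + 2 := by positivity
    have h6 : 1 - pois (j + 1 + 1) s ≤ s / ((j : ℝ) + 2) := by
      rw [le_div_iff₀ h5]
      linarith
    linarith

/-- The integer `V`. -/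
noncomputable def Vd (n : ℕ) (ρ : ℕ → ℝ) (y L T Y : ℝ) : ℕ :=
  (∏ i ∈ range n, ∏ p ∈ PI3 (fW (ρ (i + 1)) * y) (fW (ρ i) * y), p ^ ⌈fz (ρ (i + 1)) * L⌉₊) *
    ∏ p ∈ PI3 Y (fW (ρ n) * y), p ^ ⌈2 * T / Real.sqrt p⌉₊

variable (n : ℕ) (ρ : ℕ → ℝ) (hρ : ∀ i ≤ n, 0 < ρ i ∧ ρ i < 1) (hρm : ∀ i < n, ρ i < ρ (i + 1))
  (y L T Y : ℝ) (hy : 0 < y) (hL : 0 < L) (hT : 0 ≤ T) (hY : 1 ≤ Y)

include hρ hy hY in
lemma Vd_ne_zero : Vd n ρ y L T Y ≠ 0 := by
  unfold Vd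
  refine mul_ne_zero ?_ ?_
  · refine prod_ne_zero_iff.2 fun i _ => prod_ne_zero_iff.2 fun p hp => ?_
    exact pow_ne_zero _ (Vdef_prime hp).ne_zero
  · refine prod_ne_zero_iff.2 fun p hp => ?_
    exact pow_ne_zero _ (Vdef_prime hp).ne_zero

include hρ in
lemma Vdef_fW {i : ℕ} (hi : i ≤ n) : 0 ≤ fW (ρ i) ∧ fW (ρ i) ≤ 8 := by
  obtain ⟨h0, h1⟩ := hρ i hi
  have h2 := fph_pos h0 h1
  have h3 := fph_lt_one h0 h1
  unfold fW
  constructor
  · positivity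
  · nlinarith

include hρ hρm in
lemma Vdef_anti {i : ℕ} (hi : i ≤ n) : fW (ρ n) ≤ fW (ρ i) := by
  have h1 := Part_mono hρm i n hi le_rfl
  rcases h1.eq_or_lt with h2 | h2
  · rw [h2]
  · exact (fW_anti (hρ i hi).1 h2 (hρ n le_rfl).2).le

include hρ hρm hy hY in
/-- the primes of `V` are dynamic: they are `> min (W(ρ n) y) Y = Y` and `≤ 8 y ≤ Y^4`. -/
lemma Vd_primes (h1 : Y ≤ fW (ρ n) * y) (h2 : 8 * y ≤ Y ^ 4) (p : ℕ) (hp : p.Prime)
    (hpV : p ∣ Vd n ρ y L T Y) : isdyn Y p := by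
  unfold Vd at hpV
  have h8 : fW (ρ n) * y ≤ Y ^ 4 := by
    have := (Vdef_fW n ρ hρ (le_refl n)).2
    nlinarith
  rcases (hp.prime.dvd_mul).1 hpV with h | h
  · rw [hp.prime.dvd_finset_prod_iff] at h
    obtain ⟨i, hi, h⟩ := h
    rw [hp.prime.dvd_finset_prod_iff] at h
    obtain ⟨q, hq, h⟩ := h
    have hi' := mem_range.1 hi
    have hpq : p = q := (Nat.prime_dvd_prime_iff_eq hp (Vdef_prime hq)).1
      (hp.dvd_of_dvd_pow h)
    rw [← hpq] at hq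
    have hx : 0 ≤ fW (ρ (i + 1)) * y := mul_nonneg (Vdef_fW n ρ hρ (by omega)).1 hy.le
    obtain ⟨-, h3, h4, h5⟩ := (mem_PI3 hx p).1 hq
    refine ⟨h3, ?_, ?_⟩
    · have h6 := Vdef_anti n ρ hρ hρm (i := i + 1) (by omega)
      have h7 : fW (ρ n) * y ≤ fW (ρ (i + 1)) * y := mul_le_mul_of_nonneg_right h6 hy.le
      linarith
    · have h6 := (Vdef_fW n ρ hρ (i := i) (by omega)).2
      nlinarith
  · rw [hp.prime.dvd_finset_prod_iff] at h
    obtain ⟨q, hq, h⟩ := h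
    have hpq : p = q := (Nat.prime_dvd_prime_iff_eq hp (Vdef_prime hq)).1
      (hp.dvd_of_dvd_pow h)
    rw [← hpq] at hq
    obtain ⟨-, h3, h4, h5⟩ := (mem_PI3 (by linarith) p).1 hq
    exact ⟨h3, h4, by linarith⟩

include hρ hy hY in
/-- exponents in the cells (`p^m ∣ V`). -/
lemma Vd_cell (i : ℕ) (hi : i < n) (p : ℕ) (hp : p ∈ PI3 (fW (ρ (i + 1)) * y) (fW (ρ i) * y)) :
    ⌈fz (ρ (i + 1)) * L⌉₊ ≤ (Vd n ρ y L T Y).factorization p := by
  have hpp := Vdef_prime hp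
  rw [← hpp.pow_dvd_iff_le_factorization (Vd_ne_zero n ρ hρ y L T Y hy hY)]
  unfold Vd
  refine Dvd.dvd.mul_right ?_ _
  refine dvd_trans ?_ (dvd_prod_of_mem _ (mem_range.2 hi))
  exact dvd_prod_of_mem (fun p : ℕ => p ^ ⌈fz (ρ (i + 1)) * L⌉₊) hp

include hρ hy hY in
lemma Vd_low (p : ℕ) (hp : p ∈ PI3 Y (fW (ρ n) * y)) :
    ⌈2 * T / Real.sqrt p⌉₊ ≤ (Vd n ρ y L T Y).factorization p := by
  have hpp := Vdef_prime hp
  rw [← hpp.pow_dvd_iff_le_factorization (Vd_ne_zero n ρ hρ y L T Y hy hY)]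
  unfold Vd
  refine Dvd.dvd.mul_left ?_ _
  exact dvd_prod_of_mem (fun p : ℕ => p ^ ⌈2 * T / Real.sqrt p⌉₊) hp

include hρ hρm hy hL hT hY in
/-- PROOF: `log V` is the sum of the `m log p`, `⌈x⌉ ≤ x + 1`; for the low primes
`∑ (2T/√p + 1) log p ≤ 6 T √(W y) + 2 W y` (`sum_log_sqrt_subset`; `∑_{p ≤ x} log p ≤ 2 x`
by `Chebyshev.theta_le_log4_mul_x`, `log 4 ≤ 2`). -/
lemma log_Vd_le : Real.log (Vd n ρ y L T Y) ≤
    ∑ i ∈ range n, (fz (ρ (i + 1)) * L + 1) *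
      (∑ p ∈ PI3 (fW (ρ (i + 1)) * y) (fW (ρ i) * y), Real.log p) +
      (6 * T * Real.sqrt (fW (ρ n) * y) + 2 * (fW (ρ n) * y)) := by
  have hlogp : ∀ p : ℕ, p.Prime → 0 ≤ Real.log p := fun p _ => Real.log_natCast_nonneg p
  have hne : ∀ (x z : ℝ) (m : ℕ → ℕ), ∀ p ∈ PI3 x z, ((p : ℝ) ^ m p) ≠ 0 := fun x z m p hp =>
    pow_ne_zero _ (Nat.cast_ne_zero.2 (Vdef_prime hp).ne_zero)
  have hprod : ∀ (x z : ℝ) (m : ℕ → ℕ), Real.log (∏ p ∈ PI3 x z, (p : ℝ) ^ m p) =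
      ∑ p ∈ PI3 x z, (m p : ℝ) * Real.log p := by
    intro x z m
    rw [Real.log_prod (hne x z m)]
    exact sum_congr rfl fun p _ => Real.log_pow _ _
  have e1 : ((Vd n ρ y L T Y : ℕ) : ℝ) =
      (∏ i ∈ range n, ∏ p ∈ PI3 (fW (ρ (i + 1)) * y) (fW (ρ i) * y),
        (p : ℝ) ^ ⌈fz (ρ (i + 1)) * L⌉₊) *
      ∏ p ∈ PI3 Y (fW (ρ n) * y), (p : ℝ) ^ ⌈2 * T / Real.sqrt p⌉₊ := by
    unfold Vd
    push_cast
    rfl
  rw [e1, Real.log_mul, Real.log_prod]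
  · refine add_le_add ?_ ?_
    · refine sum_le_sum fun i hi => ?_
      rw [hprod _ _ fun _ => ⌈fz (ρ (i + 1)) * L⌉₊, mul_sum]
      refine sum_le_sum fun p hp => ?_
      refine mul_le_mul_of_nonneg_right ?_ (hlogp p (Vdef_prime hp))
      have hi' := mem_range.1 hi
      obtain ⟨h0, h1⟩ := hρ (i + 1) (by omega)
      exact (Nat.ceil_lt_add_one (mul_nonneg (Part_fz_pos h0 h1).le hL.le)).le
    · rw [hprod _ _ fun p => ⌈2 * T / Real.sqrt p⌉₊]
      have hx : 0 ≤ fW (ρ n) * y := mul_nonneg (Vdef_fW n ρ hρ (le_refl n)).1 hy.le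
      have hS : ∀ p ∈ PI3 Y (fW (ρ n) * y), p.Prime ∧ (p : ℝ) ≤ fW (ρ n) * y := by
        intro p hp
        obtain ⟨h1, -, -, h4⟩ := (mem_PI3 (by linarith) p).1 hp
        exact ⟨h1, h4⟩
      have h1 : ∑ p ∈ PI3 Y (fW (ρ n) * y), ((⌈2 * T / Real.sqrt p⌉₊ : ℕ) : ℝ) * Real.log p ≤
          ∑ p ∈ PI3 Y (fW (ρ n) * y), (2 * T * (Real.log p / Real.sqrt p) + Real.log p) := by
        refine sum_le_sum fun p hp => ?_
        have h2 : ((⌈2 * T / Real.sqrt p⌉₊ : ℕ) : ℝ) ≤ 2 * T / Real.sqrt p + 1 :=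
          (Nat.ceil_lt_add_one (by positivity)).le
        have h3 := mul_le_mul_of_nonneg_right h2 (hlogp p (Vdef_prime hp))
        refine h3.trans (le_of_eq ?_)
        ring
      refine h1.trans ?_
      rw [sum_add_distrib, ← mul_sum]
      refine add_le_add ?_ ?_
      · have h2 := sum_log_sqrt_subset _ hx _ hS
        have h3 := mul_le_mul_of_nonneg_left h2 (by linarith : 0 ≤ 2 * T)
        linarith
      · have h2 : ∑ p ∈ PI3 Y (fW (ρ n) * y), Real.log p ≤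
            Chebyshev.theta (fW (ρ n) * y) := by
          unfold Chebyshev.theta
          refine sum_le_sum_of_subset_of_nonneg ?_ ?_
          · intro p hp
            obtain ⟨h3, h4⟩ := hS p hp
            rw [mem_filter, mem_Ioc]
            exact ⟨⟨h3.pos, Nat.le_floor h4⟩, h3⟩
          · intro p _ _
            exact Real.log_natCast_nonneg p
        have h3 := Chebyshev.theta_le_log4_mul_x hx
        have h4 : Real.log 4 ≤ 2 := by
          have h5 : Real.log 4 = 2 * Real.log 2 := by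
            rw [show (4 : ℝ) = 2 ^ 2 by norm_num, Real.log_pow]; norm_num
          rw [h5]
          have := Real.log_two_lt_d9
          linarith
        have h5 := mul_le_mul_of_nonneg_right h4 hx
        linarith
  · intro i _
    exact prod_ne_zero_iff.2 (hne _ _ fun _ => ⌈fz (ρ (i + 1)) * L⌉₊)
  · exact prod_ne_zero_iff.2 fun i _ => prod_ne_zero_iff.2
      (hne _ _ fun _ => ⌈fz (ρ (i + 1)) * L⌉₊)
  · exact prod_ne_zero_iff.2 (hne _ _ fun p => ⌈2 * T / Real.sqrt p⌉₊)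

end Pool.Agent.H.MP_b3c6db_nt
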